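import Pool.Agent.H45.F80.A5
/-! Module A6: the form omega and isotropy. -/
open Module
namespace F80

namespace A6aux

variable {K V : Type*} [Field K] [AddCommGroup V] [Module K V]

/-- Strictly triangular endomorphisms are nilpotent. -/
theorem isNilpotent_of_SUT {n : ℕ} (e : Basis (Fin n) K V) (X : Module.End K V)
    (he : SUT e X) : IsNilpotent X := by
  have key : ∀ k : ℕ, ∀ i j : Fin n, (i : ℕ) < (j : ℕ) + k → e.coord j ((X ^ k) (e i)) = 0 := by
    intro k
    induction k with
    | zero =>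
      intro i j hij
      have hne : i ≠ j := by
        rintro rfl
        omega
      simp [hne]
    | succ k ih =>
      intro i j hij
      have h1 : (X ^ k) (e i) = ∑ l, e.coord l ((X ^ k) (e i)) • e l := by
        simpa using (e.sum_repr ((X ^ k) (e i))).symm
      rw [pow_succ', Module.End.mul_apply, h1, map_sum, map_sum]
      refine Finset.sum_eq_zero fun l _ => ?_
      rw [map_smul, map_smul, smul_eq_mul]
      by_cases hl : (i : ℕ) < (l : ℕ) + k
      · rw [ih i l hl, zero_mul]
      · have : l ≤ j := by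
          rw [Fin.le_def]
          omega
        rw [he l j this, mul_zero]
  refine ⟨n, e.ext fun i => e.ext_elem fun j => ?_⟩
  have := key n i j (by have := i.2; omega)
  simpa using this

end A6aux

variable {K g : Type*} [Field K] [CharZero K] [LieRing g] [LieAlgebra K g]
  [FiniteDimensional K g]

omit [CharZero K] [FiniteDimensional K g] in
/-- The commutator of a Lie derivation with `ad x`. -/
theorem comm_ad (δ : SDer K g) (hδ : δ.IsLie) (x : g) :
    δ.comm (LieAlgebra.ad K g x : Module.End K g) = LieAlgebra.ad K g (δ.D x) := by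
  ext m
  simp [hδ x m]

/-- A semilinear Lie derivation preserves the Killing form. -/
theorem killing_leib (δ : SDer K g) (hδ : δ.IsLie) (x y : g) :
    δ.d (killingForm K g x y) = killingForm K g (δ.D x) y + killingForm K g x (δ.D y) := by
  rw [LieModule.traceForm_apply_apply, LieModule.traceForm_apply_apply,
    LieModule.traceForm_apply_apply]
  change δ.d (LinearMap.trace K g ((LieAlgebra.ad K g x : Module.End K g) *
    (LieAlgebra.ad K g y : Module.End K g))) =
    LinearMap.trace K g ((LieAlgebra.ad K g (δ.D x) : Module.End K g) *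
    (LieAlgebra.ad K g y : Module.End K g)) +
    LinearMap.trace K g ((LieAlgebra.ad K g x : Module.End K g) *
    (LieAlgebra.ad K g (δ.D y) : Module.End K g))
  rw [← trace_comm, comm_mul, map_add, comm_ad δ hδ, comm_ad δ hδ]

namespace A6aux

omit [CharZero K] [FiniteDimensional K g] in
theorem sym (a b : g) : killingForm K g a b = killingForm K g b a :=
  LieModule.traceForm_comm K g g a b

omit [CharZero K] [FiniteDimensional K g] in
theorem inv (a b c : g) : killingForm K g ⁅a, b⁆ c = killingForm K g a ⁅b, c⁆ :=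
  LieModule.traceForm_apply_lie_apply K g g a b c

omit [CharZero K] [FiniteDimensional K g] in
theorem inv' (a b c : g) : killingForm K g ⁅a, b⁆ c = -killingForm K g b ⁅a, c⁆ :=
  LieModule.traceForm_apply_lie_apply' K g g a b c

omit [CharZero K] [FiniteDimensional K g] in
theorem kap (a b : g) : killingForm K g a b = LinearMap.trace K g
    ((LieAlgebra.ad K g a : Module.End K g) * (LieAlgebra.ad K g b : Module.End K g)) :=
  LieModule.traceForm_apply_apply K g g a b

omit [CharZero K] [FiniteDimensional K g] in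
theorem killing_skew (a b c : g) :
    killingForm K g ⁅a, b⁆ c = -killingForm K g ⁅b, a⁆ c := by
  rw [← lie_skew a b, map_neg, LinearMap.neg_apply]

omit [CharZero K] [FiniteDimensional K g] in
theorem commute_ad {z y : g} (hz : ⁅z, y⁆ = 0) :
    Commute (LieAlgebra.ad K g z : Module.End K g) (LieAlgebra.ad K g y : Module.End K g) := by
  refine LinearMap.ext fun m => ?_
  change ⁅z, ⁅y, m⁆⁆ = ⁅y, ⁅z, m⁆⁆
  rw [leibniz_lie z y m, hz, zero_lie, zero_add]

end A6aux

open A6aux

variable [LieAlgebra.IsKilling K g]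

namespace A6aux

omit [CharZero K] in
/-- The orthogonal complement of the range of `ad y` is its kernel. -/
theorem orthogonal_range (y : g) :
    (killingForm K g).orthogonal (LinearMap.range (LieAlgebra.ad K g y : Module.End K g)) =
      LinearMap.ker (LieAlgebra.ad K g y : Module.End K g) := by
  have hnd : (killingForm K g).Nondegenerate := LieAlgebra.IsKilling.killingForm_nondegenerate K g
  ext z
  rw [LinearMap.BilinForm.mem_orthogonal_iff, LinearMap.mem_ker]
  constructor
  · intro h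
    refine hnd.1 _ fun x => ?_
    have h1 : killingForm K g ⁅y, x⁆ z = 0 := h _ ⟨x, rfl⟩
    rw [LieAlgebra.ad_apply, inv', sym, h1, neg_zero]
  · intro h
    rintro _ ⟨x, rfl⟩
    change killingForm K g ⁅y, x⁆ z = 0
    rw [LieAlgebra.ad_apply] at h
    rw [inv', h, map_zero, neg_zero]

omit [CharZero K] in
theorem mem_range_iff (y a : g) :
    a ∈ LinearMap.range (LieAlgebra.ad K g y : Module.End K g) ↔
      ∀ z : g, ⁅z, y⁆ = 0 → killingForm K g z a = 0 := by
  have hnd : (killingForm K g).Nondegenerate := LieAlgebra.IsKilling.killingForm_nondegenerate K g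
  have hrefl : (killingForm K g).IsRefl := (LieModule.traceForm_isSymm K g g).isRefl
  constructor
  · rintro ⟨x, rfl⟩ z hz
    change killingForm K g z ⁅y, x⁆ = 0
    rw [← inv, hz, map_zero, LinearMap.zero_apply]
  · intro ha
    rw [← LinearMap.BilinForm.orthogonal_orthogonal hnd hrefl
      (LinearMap.range (LieAlgebra.ad K g y : Module.End K g)), orthogonal_range]
    intro z hz
    refine ha z ?_
    rw [LinearMap.mem_ker, LieAlgebra.ad_apply] at hz
    rw [← lie_skew, hz, neg_zero]

end A6aux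

/-- The image of `ad y` is the orthogonal of its kernel. -/
theorem exists_lie_eq_iff (y x : g) :
    (∃ ξ : g, ⁅ξ, y⁆ = x) ↔ ∀ z : g, ⁅z, y⁆ = 0 → killingForm K g z x = 0 := by
  rw [← mem_range_iff]
  constructor
  · rintro ⟨ξ, rfl⟩
    refine ⟨-ξ, ?_⟩
    rw [LieAlgebra.ad_apply, lie_neg, lie_skew]
  · rintro ⟨ξ, rfl⟩
    refine ⟨-ξ, ?_⟩
    rw [LieAlgebra.ad_apply, neg_lie, lie_skew]

/-- For ad-nilpotent `y` the derivative of `y` lies in the image of `ad y`. -/
theorem exists_xi (y : g) (hy : IsNilpotent (LieAlgebra.ad K g y : Module.End K g))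
    (δ : SDer K g) (hδ : δ.IsLie) : ∃ ξ : g, ⁅ξ, y⁆ = δ.D y := by
  refine (exists_lie_eq_iff (K := K) y _).2 fun z hz => ?_
  rw [kap, ← comm_ad δ hδ y]
  exact trace_mul_comm_of_isNilpotent δ _ _ hy (commute_ad hz)

/-- For ad-nilpotent `y` there is `h` with `[h, y] = 2 y`. -/
theorem exists_h (y : g) (hy : IsNilpotent (LieAlgebra.ad K g y : Module.End K g)) :
    ∃ h : g, ⁅h, y⁆ = (2 : K) • y := by
  refine (exists_lie_eq_iff (K := K) y _).2 fun z hz => ?_
  rw [map_smul, kap, (LinearMap.isNilpotent_trace_of_isNilpotent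
        ((commute_ad hz).isNilpotent_mul_left hy)).eq_zero, smul_zero]

/-- (T6) the form omega as the differential of theta -/
theorem omega_formula (y : g) {n : ℕ} (e : Basis (Fin n) K g)
    (he : SUT e (LieAlgebra.ad K g y))
    (δ δ' δ'' : SDer K g) (hδ : δ.IsLie) (hδ' : δ'.IsLie) (hδ'' : δ''.IsLie)
    (hc : ∀ x : g, δ''.D x = δ.D (δ'.D x) - δ'.D (δ.D x))
    (ξ ξ' : g) (hξ : ⁅ξ, y⁆ = δ.D y) (hξ' : ⁅ξ', y⁆ = δ'.D y) :
    killingForm K g y ⁅ξ, ξ'⁆ =
      δ'.d (theta δ e (LieAlgebra.ad K g y)) - δ.d (theta δ' e (LieAlgebra.ad K g y)) +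
        theta δ'' e (LieAlgebra.ad K g y) := by
  obtain ⟨h, hh⟩ := exists_h (K := K) y (isNilpotent_of_SUT e _ he)
  have d2 : ∀ ε : SDer K g, ε.d (2 : K) = 0 := by
    intro ε
    have := ε.d.map_natCast 2
    simpa using this
  -- the values of kappa (h, D y)
  have ha : ∀ ε : SDer K g, ε.IsLie →
      killingForm K g h (ε.D y) = -((2 : K) * theta ε e (LieAlgebra.ad K g y)) := by
    intro ε hε
    rw [kap, ← comm_ad ε hε y]
    refine trace_mul_comm_of_sl2 ε e _ _ he ?_
    refine LinearMap.ext fun m => ?_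
    change ⁅h, ⁅y, m⁆⁆ - ⁅y, ⁅h, m⁆⁆ = (2 : K) • ⁅y, m⁆
    rw [leibniz_lie h y m, hh, smul_lie, add_sub_cancel_right]
  have hDh : ∀ ε : SDer K g, ε.IsLie → ⁅ε.D h, y⁆ = (2 : K) • ε.D y - ⁅h, ε.D y⁆ := by
    intro ε hε
    have h1 := hε h y
    rw [hh, ε.leib, d2, zero_smul, zero_add] at h1
    rw [h1, add_sub_cancel_right]
  have h1 := killing_leib δ' hδ' h (δ.D y)
  have h2 := killing_leib δ hδ h (δ'.D y)
  have h3 := ha δ'' hδ''
  rw [hc, map_sub] at h3
  rw [ha δ hδ, map_neg, Derivation.leibniz, d2, smul_zero, add_zero, smul_eq_mul] at h1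
  rw [ha δ' hδ', map_neg, Derivation.leibniz, d2, smul_zero, add_zero, smul_eq_mul] at h2
  have h5 : killingForm K g (δ'.D h) (δ.D y) =
      -killingForm K g ξ ((2 : K) • δ'.D y - ⁅h, δ'.D y⁆) := by
    rw [← hξ, ← inv, killing_skew, inv, hDh δ' hδ']
  have h6 : killingForm K g (δ.D h) (δ'.D y) =
      -killingForm K g ξ' ((2 : K) • δ.D y - ⁅h, δ.D y⁆) := by
    rw [← hξ', ← inv, killing_skew, inv, hDh δ hδ]
  have h7 : ⁅h, δ'.D y⁆ = ⁅⁅h, ξ'⁆, y⁆ + (2 : K) • δ'.D y := by
    rw [← hξ', leibniz_lie h ξ' y, hh, lie_smul]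
  have h8 : ⁅h, δ.D y⁆ = ⁅⁅h, ξ⁆, y⁆ + (2 : K) • δ.D y := by
    rw [← hξ, leibniz_lie h ξ y, hh, lie_smul]
  have h9 : ∀ a b : g, (2 : K) • a - (b + (2 : K) • a) = -b := fun a b => by abel
  rw [h7, h9, map_neg, neg_neg, ← inv] at h5
  rw [h8, h9, map_neg, neg_neg, ← inv] at h6
  have h10 : killingForm K g ⁅h, ⁅ξ, ξ'⁆⁆ y = killingForm K g ⁅ξ, ⁅h, ξ'⁆⁆ y -
      killingForm K g ⁅ξ', ⁅h, ξ⁆⁆ y := by
    rw [leibniz_lie h ξ ξ', map_add, LinearMap.add_apply, killing_skew ⁅h, ξ⁆ ξ' y]
    ring
  rw [inv', hh, map_smul, smul_eq_mul, sym] at h10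
  have h11 : (2 : K) * killingForm K g y ⁅ξ, ξ'⁆ =
      (2 : K) * (δ'.d (theta δ e (LieAlgebra.ad K g y)) -
        δ.d (theta δ' e (LieAlgebra.ad K g y)) + theta δ'' e (LieAlgebra.ad K g y)) := by
    linear_combination (-1 : K) * h10 + h5 - h6 + h1 - h2 - h3
  exact mul_left_cancel₀ two_ne_zero h11

/-- (T6') isotropy when theta vanishes -/
theorem isotropy (S : Set (SDer K g)) (hS : ∀ δ ∈ S, δ.IsLie)
    (hcl : ∀ δ ∈ S, ∀ δ' ∈ S, ∃ δ'' ∈ S, ∀ x : g, δ''.D x = δ.D (δ'.D x) - δ'.D (δ.D x))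
    (y : g) {n : ℕ} (e : Basis (Fin n) K g) (he : SUT e (LieAlgebra.ad K g y))
    (hth : ∀ δ ∈ S, theta δ e (LieAlgebra.ad K g y) = 0) :
    2 * finrank K (Submodule.span K {x : g | ∃ δ ∈ S, x = δ.D y}) +
      finrank K (LinearMap.ker (LieAlgebra.ad K g y : Module.End K g)) ≤ finrank K g := by
  classical
  set N : Module.End K g := LieAlgebra.ad K g y with hN
  have hNa : ∀ x : g, N x = ⁅y, x⁆ := fun x => rfl
  have hNnil : IsNilpotent N := A6aux.isNilpotent_of_SUT e N he
  have hnd : (killingForm K g).Nondegenerate := LieAlgebra.IsKilling.killingForm_nondegenerate K g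
  have hv : ∀ δ ∈ S, ∀ δ' ∈ S, ∀ ξ ξ' : g, ⁅ξ, y⁆ = δ.D y → ⁅ξ', y⁆ = δ'.D y →
      killingForm K g ξ (δ'.D y) = 0 := by
    intro δ hδ δ' hδ' ξ ξ' hξ hξ'
    obtain ⟨δ'', hδ'', hc⟩ := hcl δ hδ δ' hδ'
    have := omega_formula y e he δ δ' δ'' (hS δ hδ) (hS δ' hδ') (hS δ'' hδ'') hc ξ ξ' hξ hξ'
    rw [← hN, hth δ hδ, hth δ' hδ', hth δ'' hδ'', map_zero, map_zero, sub_zero, add_zero] at this
    rw [← hξ', ← inv, sym, this]
  set W : Submodule K g := Submodule.span K {x : g | ∃ δ ∈ S, x = δ.D y} with hW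
  have hWr : W ≤ LinearMap.range N := by
    rw [hW, Submodule.span_le]
    rintro _ ⟨δ, hδ, rfl⟩
    obtain ⟨ξ, hξ⟩ := exists_xi y hNnil δ (hS δ hδ)
    exact (mem_range_iff y _).2 ((exists_lie_eq_iff y _).1 ⟨ξ, hξ⟩)
  have hWU : W.comap N ≤ (killingForm K g).orthogonal W := by
    have hkey : ∀ b ∈ W, ∀ δ ∈ S, ∀ ξ : g, ⁅ξ, y⁆ = δ.D y → killingForm K g ξ b = 0 := by
      intro b hb δ hδ ξ hξ
      induction hb using Submodule.span_induction with
      | mem x hx =>
        obtain ⟨δ', hδ', rfl⟩ := hx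
        obtain ⟨x, hx⟩ := exists_xi y hNnil δ' (hS δ' hδ')
        exact hv δ hδ δ' hδ' ξ x hξ hx
      | zero => simp
      | add x z _ _ hx hz => rw [map_add, hx, hz, add_zero]
      | smul c x _ hx => rw [map_smul, hx, smul_zero]
    intro u hu a ha
    rw [Submodule.mem_comap, hNa] at hu
    change killingForm K g a u = 0
    induction ha using Submodule.span_induction with
    | mem x hx =>
      obtain ⟨δ, hδ, rfl⟩ := hx
      obtain ⟨x, hx⟩ := exists_xi y hNnil δ (hS δ hδ)
      rw [← hx, inv]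
      exact hkey _ hu δ hδ x hx
    | zero => simp
    | add x z _ _ hx hz => rw [map_add, LinearMap.add_apply, hx, hz, add_zero]
    | smul c x _ hx => rw [map_smul, LinearMap.smul_apply, hx, smul_zero]
  have hd1 : finrank K (W.comap N) = finrank K W + finrank K (LinearMap.ker N) := by
    rw [← LinearMap.finrank_range_add_finrank_ker (N.domRestrict (W.comap N))]
    congr 1
    · rw [LinearMap.range_domRestrict, Submodule.map_comap_eq_of_le hWr]
    · have h1 : (LinearMap.ker (N.domRestrict (W.comap N))).map (W.comap N).subtype =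
          LinearMap.ker N := by
        ext z
        simp only [Submodule.mem_map, LinearMap.mem_ker, LinearMap.domRestrict_apply,
          Submodule.coe_subtype, Subtype.exists, exists_and_left, exists_prop]
        constructor
        · rintro ⟨a, ha, _, rfl⟩
          exact ha
        · intro hz
          refine ⟨z, hz, ?_, rfl⟩
          rw [Submodule.mem_comap, hz]
          exact W.zero_mem
      rw [← h1, Submodule.finrank_map_subtype_eq]
  have hd2 : finrank K W + finrank K ((killingForm K g).orthogonal W) = finrank K g := by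
    rw [LinearMap.BilinForm.finrank_orthogonal hnd]
    have := Submodule.finrank_le W
    omega
  have hd3 := Submodule.finrank_mono hWU
  omega

end F80
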