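import Pool.Agent.H45.F80.Defs
/-! Definitions for part C. -/
open Module
namespace F80

section
variable (k : Type*) [Field k] {L : Type*} [LieRing L] [LieAlgebra k L]

/-- The span of the brackets of elements of `s`. -/
def der {k : Type*} [Field k] {L : Type*} [LieRing L] [LieAlgebra k L]
    (s : LieSubalgebra k L) : Submodule k L :=
  Submodule.span k {z | ∃ a ∈ s, ∃ b ∈ s, z = ⁅a, b⁆}

/-- The orthogonal of a subspace for the Killing form. -/
def perp (W : Submodule k L) : Submodule k L where
  carrier := {x | ∀ y ∈ W, killingForm k L x y = 0}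
  add_mem' {a b} ha hb y hy := by rw [map_add, LinearMap.add_apply, ha y hy, hb y hy, add_zero]
  zero_mem' y _ := by simp
  smul_mem' c a ha y hy := by rw [map_smul, LinearMap.smul_apply, ha y hy, smul_zero]

theorem mem_perp {W : Submodule k L} {x : L} :
    x ∈ perp k W ↔ ∀ y ∈ W, killingForm k L x y = 0 := Iff.rfl

/-- The Kirillov form of the contraction at the point `(x, y)`, on `s × L`. -/
noncomputable def PF (s : LieSubalgebra k L) (x y : L) :
    (s × L) →ₗ[k] (s × L) →ₗ[k] k :=
  LinearMap.mk₂ k (fun p q => killingForm k L y ⁅(p.1 : L), (q.1 : L)⁆ +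
      killingForm k L x ⁅(p.1 : L), q.2⁆ - killingForm k L x ⁅(q.1 : L), p.2⁆)
    (fun p p' q => by
      change killingForm k L y ⁅(p.1 : L) + (p'.1 : L), (q.1 : L)⁆ +
        killingForm k L x ⁅(p.1 : L) + (p'.1 : L), q.2⁆ -
        killingForm k L x ⁅(q.1 : L), p.2 + p'.2⁆ = _
      simp only [add_lie, lie_add, map_add]
      ring)
    (fun c p q => by
      change killingForm k L y ⁅c • (p.1 : L), (q.1 : L)⁆ +
        killingForm k L x ⁅c • (p.1 : L), q.2⁆ -
        killingForm k L x ⁅(q.1 : L), c • p.2⁆ = _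
      simp only [smul_lie, lie_smul, map_smul, smul_eq_mul]
      ring)
    (fun p q q' => by
      change killingForm k L y ⁅(p.1 : L), (q.1 : L) + (q'.1 : L)⁆ +
        killingForm k L x ⁅(p.1 : L), q.2 + q'.2⁆ -
        killingForm k L x ⁅(q.1 : L) + (q'.1 : L), p.2⁆ = _
      simp only [add_lie, lie_add, map_add]
      ring)
    (fun c p q => by
      change killingForm k L y ⁅(p.1 : L), c • (q.1 : L)⁆ +
        killingForm k L x ⁅(p.1 : L), c • q.2⁆ -
        killingForm k L x ⁅c • (q.1 : L), p.2⁆ = _
      simp only [smul_lie, lie_smul, map_smul, smul_eq_mul]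
      ring)

@[simp] theorem PF_apply (s : LieSubalgebra k L) (x y : L) (p q : s × L) :
    PF k s x y p q = killingForm k L y ⁅(p.1 : L), (q.1 : L)⁆ +
      killingForm k L x ⁅(p.1 : L), q.2⁆ - killingForm k L x ⁅(q.1 : L), p.2⁆ := rfl

/-- `x` is orthogonal to the derived algebra of `s`, and its Engel subalgebra has least possible
dimension among such elements. -/
def ME (s : LieSubalgebra k L) (x : L) : Prop :=
  x ∈ perp k (der s) ∧ ∀ z ∈ perp k (der s),
    finrank k (LieSubalgebra.engel k x) ≤ finrank k (LieSubalgebra.engel k z)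

/-- The rank condition at `(x, y)`. -/
def RC (s : LieSubalgebra k L) [Module.Finite k L] (x y : L) : Prop :=
  finrank k (LinearMap.ker (PF k s x y)) ≤ finrank k s + LieAlgebra.rank k L

end
end F80
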