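import Pool.Agent.H45.F80.BG
/-! Module QR: rational regular elements. -/
open Module
namespace F80

variable {k : Type*} [Field k] [IsAlgClosed k] [CharZero k] {L : Type*} [LieRing L]
  [LieAlgebra k L] [FiniteDimensional k L] [LieAlgebra.IsKilling k L]

open LieAlgebra LieAlgebra.IsKilling LieModule in
/-- Every Cartan subalgebra is the centraliser of a rational regular element. -/
theorem exists_RR_of_cartan (H : LieSubalgebra k L) [H.IsCartanSubalgebra] :
    ∃ w : L, RR k w ∧ gr k w 0 = H.toSubmodule := by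
  classical
  have hint : ∀ α β : Weight k H L, ∃ n : ℤ, β (coroot α) = (n : k) :=
    fun α β => ⟨_, apply_coroot_eq_cast α β⟩
  choose n hn using hint
  let f : {α : Weight k H L // α.IsNonZero} → Module.Dual ℚ (Weight k H L → ℚ) :=
    fun β => ∑ α, (n α β.1 : ℚ) • LinearMap.proj α
  have hf : ∀ β c, f β c = ∑ α, (n α β.1 : ℚ) * c α := by
    intro β c
    simp [f, LinearMap.sum_apply]
  obtain ⟨c, hc⟩ := Module.Dual.exists_forall_ne_zero_of_forall_exists f (fun β => by
    refine ⟨Pi.single β.1 1, ?_⟩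
    rw [hf, Finset.sum_eq_single β.1]
    · have h1 : ((n β.1 β.1 : ℤ) : k) = 2 := by rw [← hn, root_apply_coroot β.2]
      have h2 : n β.1 β.1 = 2 := by exact_mod_cast h1
      simp [h2]
    · intro b _ hb
      rw [Pi.single_eq_of_ne hb, mul_zero]
    · intro h
      exact absurd (Finset.mem_univ _) h)
  let w : H := ∑ α : Weight k H L, (c α : k) • coroot α
  have hw : ∀ β : Weight k H L, β w = ((∑ α, (n α β : ℚ) * c α : ℚ) : k) := by
    intro β
    have h1 : β w = Weight.toLinear k H L β w := rfl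
    rw [h1]
    simp only [w, map_sum, map_smul]
    rw [Rat.cast_sum]
    refine Finset.sum_congr rfl fun α _ => ?_
    have h2 : Weight.toLinear k H L β (coroot α) = (n α β : k) := hn α β
    rw [h2, smul_eq_mul]
    push_cast
    ring
  have hsub : ∀ (χ : Weight k H L) (x : L), x ∈ rootSpace H χ →
      x ∈ gr k (w : L) (∑ α, (n α χ : ℚ) * c α) := by
    intro χ x hx
    rw [mem_gr]
    have h1 := lie_eq_smul_of_mem_rootSpace hx w
    rw [hw] at h1
    exact h1
  have htop : (⨆ χ : Weight k H L, (rootSpace H χ).toSubmodule) = ⊤ := by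
    have h1 := iSup_genWeightSpace_eq_top' k H L
    rw [← LieSubmodule.toSubmodule_inj, LieSubmodule.iSup_toSubmodule,
      LieSubmodule.top_toSubmodule] at h1
    exact h1
  have hH0 : ∀ x : L, x ∈ H → x ∈ gr k (w : L) 0 := by
    intro x hx
    rw [mem_gr, Rat.cast_zero, zero_smul]
    have h1 : ⁅w, (⟨x, hx⟩ : H)⁆ = 0 := LieModule.IsTrivial.trivial _ _
    have h2 := congrArg (fun z : H => (z : L)) h1
    simpa using h2
  have h0H : ∀ x : L, x ∈ gr k (w : L) 0 → x ∈ H := by
    intro x hx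
    have h1 : (⊤ : Submodule k L) ≤ H.toSubmodule ⊔ ⨆ q ≠ (0 : ℚ), gr k (w : L) q := by
      rw [← htop]
      refine iSup_le fun χ => ?_
      by_cases hχ : χ.IsZero
      · refine le_sup_of_le_left ?_
        intro y hy
        have h2 : (χ : H → k) = 0 := hχ
        rw [h2, rootSpace_zero_eq] at hy
        exact hy
      · refine le_sup_of_le_right ?_
        intro y hy
        have h3 := hc ⟨χ, hχ⟩
        rw [hf] at h3
        exact (le_iSup₂_of_le (f := fun (q : ℚ) (_ : q ≠ 0) => gr k (w : L) q) _ h3 le_rfl)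
          (hsub χ y hy)
    obtain ⟨y, hy, z, hz, hyz⟩ := Submodule.mem_sup.1 (h1 (Submodule.mem_top (x := x)))
    have h4 : z ∈ gr k (w : L) 0 := by
      have : z = x - y := by rw [← hyz]; abel
      rw [this]
      exact Submodule.sub_mem _ hx (hH0 y hy)
    have h5 : z = 0 := by
      have h6 := (iSupIndep_gr (E := k) (w : L)) 0
      exact Submodule.disjoint_def.1 h6 z h4 hz
    rw [h5, add_zero] at hyz
    rw [← hyz]
    exact hy
  refine ⟨(w : L), ⟨?_, ?_⟩, ?_⟩
  · refine eq_top_iff.2 ?_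
    rw [← htop]
    refine iSup_le fun χ => ?_
    intro y hy
    exact (le_iSup (fun q : ℚ => gr k (w : L) q) _) (hsub χ y hy)
  · intro x y hx hy
    have hxH : x ∈ H := h0H x (by rw [mem_gr, hx, Rat.cast_zero, zero_smul])
    have hyH : y ∈ H := h0H y (by rw [mem_gr, hy, Rat.cast_zero, zero_smul])
    have h1 : ⁅(⟨x, hxH⟩ : H), (⟨y, hyH⟩ : H)⁆ = 0 := LieModule.IsTrivial.trivial _ _
    have h2 := congrArg (fun z : H => (z : L)) h1
    simpa using h2
  · ext x
    exact ⟨fun h => h0H x h, fun h => hH0 x h⟩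

omit [CharZero k] [LieAlgebra.IsKilling k L] in
/-- A semisimple element lies in a Cartan subalgebra. -/
theorem exists_cartan_of_isSemisimple (x : L)
    (hx : (LieAlgebra.ad k L x : Module.End k L).IsSemisimple) :
    ∃ H : LieSubalgebra k L, H.IsCartanSubalgebra ∧ x ∈ H := by
  classical
  have : Infinite k := IsAlgClosed.instInfinite
  -- the centraliser of `x`
  have hker : ∀ y : L, ⁅x, ⁅x, y⁆⁆ = 0 → ⁅x, y⁆ = 0 := by
    intro y hy
    have h1 := hx.isFinitelySemisimple.genEigenspace_eq_eigenspace (μ := 0) (k := ((2 : ℕ) : ℕ∞)) (by norm_num)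
    have h2 : y ∈ Module.End.genEigenspace (LieAlgebra.ad k L x : Module.End k L) 0 ((2 : ℕ) : ℕ∞) := by
      rw [Module.End.mem_genEigenspace_nat]
      simp [pow_two, hy]
    rw [h1, Module.End.mem_eigenspace_iff, zero_smul] at h2
    simpa using h2
  let C : LieSubalgebra k L :=
    { (LinearMap.ker (LieAlgebra.ad k L x : Module.End k L)) with
      lie_mem' := by
        intro a b ha hb
        have ha' : ⁅x, a⁆ = 0 := by simpa using ha
        have hb' : ⁅x, b⁆ = 0 := by simpa using hb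
        change ⁅x, ⁅a, b⁆⁆ = 0
        rw [leibniz_lie, ha', hb', zero_lie, lie_zero, add_zero] }
  have hC : ∀ y : L, y ∈ C ↔ ⁅x, y⁆ = 0 := fun y => Iff.rfl
  obtain ⟨z, hz⟩ := LieAlgebra.exists_isCartanSubalgebra_engel k C
  set H₀ : LieSubalgebra k C := LieSubalgebra.engel k z with hH₀
  have hxC : x ∈ C := by rw [hC, lie_self]
  have hxH : (⟨x, hxC⟩ : C) ∈ H₀ := by
    rw [← hz.self_normalizing, LieSubalgebra.mem_normalizer_iff]
    intro y hy
    have h1 : ⁅(⟨x, hxC⟩ : C), y⁆ = 0 := by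
      apply Subtype.ext
      exact (hC y).1 y.2
    rw [h1]
    exact H₀.zero_mem
  let H : LieSubalgebra k L := H₀.map C.incl
  have hmem : ∀ y : L, y ∈ H ↔ ∃ hy : y ∈ C, (⟨y, hy⟩ : C) ∈ H₀ := by
    intro y
    constructor
    · intro h
      obtain ⟨a, ha, rfl⟩ := (LieSubalgebra.mem_map _ _ _).1 h
      exact ⟨a.2, ha⟩
    · rintro ⟨hy, h⟩
      exact (LieSubalgebra.mem_map _ _ _).2 ⟨⟨y, hy⟩, h, rfl⟩
  have hxHL : x ∈ H := (hmem x).2 ⟨hxC, hxH⟩
  refine ⟨H, ⟨?_, ?_⟩, hxHL⟩
  · have e : H₀ ≃ₗ⁅k⁆ H := LieSubalgebra.equivMapOfInjective C.incl H₀ Subtype.coe_injective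
    exact (e.nilpotent_iff_equiv_nilpotent).1 hz.nilpotent
  · refine le_antisymm ?_ H.le_normalizer
    intro y hy
    rw [LieSubalgebra.mem_normalizer_iff] at hy
    have h1 : ⁅y, x⁆ ∈ H := hy x hxHL
    obtain ⟨h2, -⟩ := (hmem _).1 h1
    have h3 : ⁅x, y⁆ = 0 := by
      apply hker
      have h4 : ⁅x, ⁅y, x⁆⁆ = 0 := (hC _).1 h2
      rw [← lie_skew y x, lie_neg, neg_eq_zero] at h4
      exact h4
    have hyC : y ∈ C := (hC y).2 h3
    refine (hmem y).2 ⟨hyC, ?_⟩
    rw [← hz.self_normalizing, LieSubalgebra.mem_normalizer_iff]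
    intro a ha
    have h5 := hy a ((hmem a).2 ⟨a.2, ha⟩)
    obtain ⟨h6, h7⟩ := (hmem _).1 h5
    exact h7

/-- A semisimple element commutes with some rational regular element. -/
theorem exists_RR_commuting (x : L)
    (hx : (LieAlgebra.ad k L x : Module.End k L).IsSemisimple) :
    ∃ w : L, RR k w ∧ ⁅w, x⁆ = 0 := by
  obtain ⟨H, hH, hxH⟩ := exists_cartan_of_isSemisimple x hx
  obtain ⟨w, hw, hw0⟩ := exists_RR_of_cartan H
  refine ⟨w, hw, ?_⟩
  have : x ∈ gr k w 0 := by rw [hw0]; exact hxH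
  rw [mem_gr] at this
  simpa using this

end F80
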