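import Pool.Agent.H45.F80.B4
import Pool.Agent.H45.F80.A6
import Pool.Agent.H45.F80.QDefs
import Pool.Agent.H45.F80.QR
/-! Module Q9: the greedy argument and generation (end of part C). -/
open Module
set_option linter.unusedSectionVars false
set_option linter.unusedVariables false

namespace F80

section gen
variable {k : Type*} [Field k] [CharZero k] {L : Type*} [LieRing L]
  [LieAlgebra k L] [FiniteDimensional k L] [LieAlgebra.IsKilling k L]

theorem mem_of_perp {W : Submodule k L} {f : L}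
    (hf : ∀ v ∈ perp k W, killingForm k L v f = 0) : f ∈ W := by
  have h1 := LinearMap.BilinForm.orthogonal_orthogonal
    (LieAlgebra.IsKilling.killingForm_nondegenerate k L)
    (LieModule.traceForm_isSymm k L L).isRefl W
  rw [← h1, LinearMap.BilinForm.mem_orthogonal_iff]
  intro v hv
  refine hf v ?_
  rw [mem_perp]
  intro y hy
  rw [LinearMap.BilinForm.mem_orthogonal_iff] at hv
  have := hv y hy
  rwa [LieModule.traceForm_comm] at this

theorem killing_lie (a b c : L) : killingForm k L ⁅a, b⁆ c = killingForm k L a ⁅b, c⁆ :=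
  LieModule.traceForm_apply_lie_apply k L L a b c

/-- If `x` commutes with the rational regular element `w`, then the centraliser of `x` lies in the
sum of the centraliser of `w` and of any subspace containing its brackets. -/
theorem centralizer_le {w x : L} (hw : RR k w) (hwx : ⁅w, x⁆ = 0) (s : Submodule k L)
    (h2 : ∀ a b : L, ⁅x, a⁆ = 0 → ⁅x, b⁆ = 0 → ⁅a, b⁆ ∈ s) {z : L} (hz : ⁅x, z⁆ = 0) :
    z ∈ s ⊔ gr k w 0 := by
  obtain ⟨y, hy, u, hu, rfl⟩ := hw.exists_add (S := {0}) (T := {0}ᶜ) (fun q => em (q ∈ _)) z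
  have hx0 : x ∈ ⨆ q ∈ ({0} : Set ℚ), gr k w q := by
    simpa [mem_gr] using hwx
  have hy0 : y ∈ gr k w 0 := by simpa using hy
  have h3 : ⁅x, y⁆ ∈ ⨆ q ∈ ({0} : Set ℚ), gr k w q :=
    lie_mem_biSup (fun a ha b hb => by simp_all) hx0 hy
  have h4 : ⁅x, u⁆ ∈ ⨆ q ∈ ({0}ᶜ : Set ℚ), gr k w q :=
    lie_mem_biSup (fun a ha b hb => by simp_all) hx0 hu
  have hd := disjoint_biSup_gr (E := k) w (S := {0}) (T := {0}ᶜ) disjoint_compl_right
  have h5 : ⁅x, u⁆ = 0 := by
    have h6 : ⁅x, u⁆ = -⁅x, y⁆ := by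
      rw [lie_add] at hz
      exact eq_neg_of_add_eq_zero_right hz
    have h7 : ⁅x, u⁆ ∈ ⨆ q ∈ ({0} : Set ℚ), gr k w q := by
      rw [h6]; exact neg_mem h3
    exact Submodule.disjoint_def.mp hd _ h7 h4
  obtain ⟨t, f, ht, hf, rfl⟩ := exists_sum_biSup hu
  set u' : L := ∑ q ∈ t, (((q⁻¹ : ℚ) : k)) • f q with hu'
  have h8 : ⁅w, u'⁆ = ∑ q ∈ t, f q := by
    rw [hu', lie_sum]
    refine Finset.sum_congr rfl fun q hq => ?_
    rw [lie_smul, mem_gr.mp (hf q), smul_smul, ← Rat.cast_mul, inv_mul_cancel₀, Rat.cast_one,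
      one_smul]
    simpa using ht q hq
  have h9 : u' ∈ ⨆ q ∈ ({0}ᶜ : Set ℚ), gr k w q := by
    refine Submodule.sum_mem _ fun q hq => Submodule.smul_mem _ _ ?_
    exact Submodule.mem_iSup_of_mem q (Submodule.mem_iSup_of_mem (ht q hq) (hf q))
  have h10 : ⁅x, u'⁆ = 0 := by
    have h11 : ⁅x, u'⁆ ∈ ⨆ q ∈ ({0}ᶜ : Set ℚ), gr k w q :=
      lie_mem_biSup (fun a ha b hb => by simp_all) hx0 h9
    have h12 : ⁅w, ⁅x, u'⁆⁆ = 0 := by
      rw [leibniz_lie, hwx, zero_lie, zero_add, h8, h5]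
    have h13 : ⁅x, u'⁆ ∈ ⨆ q ∈ ({0} : Set ℚ), gr k w q := by
      simpa [mem_gr] using h12
    exact Submodule.disjoint_def.mp hd _ h13 h11
  have hxw : ⁅x, w⁆ = 0 := by rw [← lie_skew, hwx, neg_zero]
  have h14 := h2 w u' hxw h10
  rw [h8] at h14
  exact Submodule.mem_sup.mpr ⟨_, h14, y, hy0, by abel⟩

/-- `span f ⊔ bor w` is stable under bracket by `f` with elements of `bor w`. -/
theorem lie_f_bor_mem {w e τ f : L} (hw : RR k w) (hs : Simp k w e τ f)
    (hnil : nil k w = Submodule.span k {e} ⊔ nilP k w f) {b : L} (hb : b ∈ bor k w) :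
    ⁅f, b⁆ ∈ Submodule.span k {f} ⊔ bor k w := by
  rw [bor_eq, Submodule.mem_sup] at hb
  obtain ⟨c, hc, n, hn, rfl⟩ := hb
  rw [hnil, Submodule.mem_sup] at hn
  obtain ⟨e', he', n', hn', rfl⟩ := hn
  obtain ⟨a, rfl⟩ := Submodule.mem_span_singleton.mp he'
  rw [lie_add, lie_add]
  refine add_mem ?_ (add_mem ?_ ?_)
  · obtain ⟨α, hα, -, -⟩ := hs.wt
    have h1 := (hα c (by simpa [mem_gr] using hc)).2
    have h2 : ⁅f, c⁆ = α c • f := by rw [← lie_skew, h1, neg_neg]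
    rw [h2]
    exact Submodule.mem_sup_left (Submodule.smul_mem _ _ (Submodule.mem_span_singleton_self f))
  · refine Submodule.mem_sup_right ?_
    rw [lie_smul]
    refine Submodule.smul_mem _ _ ?_
    rw [← lie_skew, hs.ef]
    refine neg_mem (gr_le_bor w le_rfl ?_)
    rw [mem_gr]; simpa using hs.hτ
  · refine Submodule.mem_sup_right (nil_le_bor w ?_)
    exact (hs.stabF n' hn').1

end gen

section main
variable {k : Type*} [Field k] [IsAlgClosed k] [CharZero k] {L : Type*} [LieRing L]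
  [LieAlgebra k L] [FiniteDimensional k L] [LieAlgebra.IsKilling k L]

/-- Generation: it is enough that the simple negative root vectors lie in `s ⊔ bor w`. -/
theorem sup_eq_top_of_simple {w : L} (hw : RR k w) (s : LieSubalgebra k L)
    (hf : ∀ e τ f : L, Simp k w e τ f → f ∈ s.toSubmodule ⊔ bor k w) :
    s.toSubmodule ⊔ bor k w = ⊤ := by
  set W := s.toSubmodule ⊔ bor k w with hW
  have key : ∀ q : ℚ, 0 < q → gr k w (-q) ≤ W := by
    by_contra hcon
    push Not at hcon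
    obtain ⟨q₀, hq₀, hq₀'⟩ := hcon
    have hfin : {q : ℚ | 0 < q ∧ ¬ gr k w (-q) ≤ W}.Finite := by
      refine ((finite_gr_ne_bot (E := k) w).preimage (f := fun q : ℚ => -q)
        (neg_injective.injOn)).subset ?_
      rintro q ⟨-, hq⟩ hbot
      apply hq
      have : gr k w (-q) = ⊥ := hbot
      rw [this]; exact bot_le
    obtain ⟨q, ⟨hq, hqW⟩, hmin⟩ := hfin.exists_minimal ⟨q₀, hq₀, hq₀'⟩
    have hlt : ∀ p : ℚ, 0 < p → p < q → gr k w (-p) ≤ W := by
      intro p hp hpq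
      by_contra hc
      exact absurd (hmin ⟨hp, hc⟩ hpq.le) (not_le.mpr hpq)
    apply hqW
    refine (neg_gen hw hq).trans (Submodule.span_le.mpr ?_)
    rintro _ ⟨e, τ, f, z, p, hs, hp0, hpq, he, hfgr, hz, rfl⟩
    have hall : ∀ i : ℚ, -p ≤ i → gr k w i ≤ W := by
      intro i hi
      rcases le_or_gt 0 i with h0 | h0
      · exact (gr_le_bor w h0).trans le_sup_right
      · have := hlt (-i) (by linarith) (by linarith)
        rwa [neg_neg] at this
    have hzW : z ∈ W := hall (-p) le_rfl hz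
    have hfW := hf e τ f hs
    obtain ⟨s1, hs1, b2, hb2, hfe⟩ := Submodule.mem_sup.mp hfW
    obtain ⟨s2, hs2, b1, hb1, hze⟩ := Submodule.mem_sup.mp hzW
    have h1 : ⁅f, z⁆ = ⁅s1, s2⁆ + ⁅f, b1⁆ + ⁅b2, z⁆ - ⁅b2, b1⁆ := by
      have e1 : s1 = f - b2 := by rw [← hfe]; abel
      have e2 : s2 = z - b1 := by rw [← hze]; abel
      rw [e1, e2]
      simp only [sub_lie, lie_sub]
      abel
    change ⁅f, z⁆ ∈ W
    rw [h1]
    refine sub_mem (add_mem (add_mem ?_ ?_) ?_) ?_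
    · exact Submodule.mem_sup_left (s.lie_mem hs1 hs2)
    · have h2 := lie_f_bor_mem hw hs (Simp.nil_eq hw hs) hb1
      have h3 : Submodule.span k {f} ⊔ bor k w ≤ W :=
        sup_le ((Submodule.span_singleton_le_iff_mem _ _).mpr hfW) le_sup_right
      exact h3 h2
    · have h4 : ⁅b2, z⁆ ∈ ⨆ i ∈ {i : ℚ | -p ≤ i}, gr k w i := by
        refine lie_mem_biSup (S := {q | 0 ≤ q}) (T := {-p}) (fun a ha b hb => ?_)
          (by rwa [bor_eq_biSup] at hb2) (by simpa using hz)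
        have : b = -p := hb
        have h0 : (0 : ℚ) ≤ a := ha
        change -p ≤ a + b
        rw [this]; linarith
      exact (iSup₂_le fun i hi => hall i hi : (⨆ i ∈ {i : ℚ | -p ≤ i}, gr k w i) ≤ W) h4
    · exact Submodule.mem_sup_right (lie_mem_bor hb2 hb1)
  rw [eq_top_iff, ← hw.top]
  refine iSup_le fun q => ?_
  rcases le_or_gt 0 q with h0 | h0
  · exact (gr_le_bor w h0).trans le_sup_right
  · have := key (-q) (by linarith)
    rwa [neg_neg] at this

theorem exists_good (s : LieSubalgebra k L) (x : L) (hx : x ∈ perp k (der s))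
    (h1 : (LieAlgebra.ad k L x : Module.End k L).IsSemisimple)
    (h2 : ∀ a b : L, ⁅x, a⁆ = 0 → ⁅x, b⁆ = 0 → ⁅a, b⁆ ∈ s)
    (h3 : ∀ u : L, (∀ a ∈ s, killingForm k L ⁅u, x⁆ a = 0) → ∃ ρ ∈ s, ⁅ρ, x⁆ = ⁅u, x⁆) :
    ∃ w : L, RR k w ∧ s.toSubmodule ⊔ bor k w = ⊤ := by
  -- a maximal choice
  obtain ⟨w, ⟨hw, hwx⟩, hmax⟩ : ∃ w : L, (RR k w ∧ ⁅w, x⁆ = 0) ∧
      ∀ w' : L, RR k w' → ⁅w', x⁆ = 0 → finrank k (s.toSubmodule ⊔ bor k w' : Submodule k L) ≤
        finrank k (s.toSubmodule ⊔ bor k w : Submodule k L) := by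
    obtain ⟨w0, hw0, hw0x⟩ := exists_RR_commuting x h1
    let T : Set ℕ := {n | ∃ w : L, (RR k w ∧ ⁅w, x⁆ = 0) ∧
      finrank k L - finrank k (s.toSubmodule ⊔ bor k w : Submodule k L) = n}
    have hT : T.Nonempty := ⟨_, w0, ⟨hw0, hw0x⟩, rfl⟩
    obtain ⟨w, hw, hwn⟩ := Nat.sInf_mem hT
    refine ⟨w, hw, fun w' hw' hw'x => ?_⟩
    have h4 : sInf T ≤ _ := Nat.sInf_le ⟨w', ⟨hw', hw'x⟩, rfl⟩
    have h5 := Submodule.finrank_le (s.toSubmodule ⊔ bor k w' : Submodule k L)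
    have h6 := Submodule.finrank_le (s.toSubmodule ⊔ bor k w : Submodule k L)
    omega
  refine ⟨w, hw, ?_⟩
  by_contra hne
  obtain ⟨e, τ, f, hs, hf⟩ : ∃ e τ f : L, Simp k w e τ f ∧ f ∉ s.toSubmodule ⊔ bor k w := by
    by_contra hcon
    push Not at hcon
    exact hne (sup_eq_top_of_simple hw s hcon)
  obtain ⟨α, hα, -, -⟩ := hs.wt
  obtain ⟨hxe, hxf⟩ := hα x hwx
  have hef : killingForm k L e f ≠ 0 := Simp.killing_ne hw hs
  have hν : α x ≠ 0 := by
    intro h0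
    apply hf
    have e1 : ⁅x, τ⁆ = 0 := hw.comm x τ hwx hs.hτ
    have e2 : ⁅x, f⁆ = 0 := by rw [hxf, h0, zero_smul, neg_zero]
    have e3 := h2 τ f e1 e2
    rw [hs.τf] at e3
    have e4 : f = (-(2 : k)⁻¹) • (-((2 : k) • f)) := by
      rw [smul_neg, neg_smul, neg_neg, smul_smul, inv_mul_cancel₀ two_ne_zero, one_smul]
    rw [e4]
    exact Submodule.mem_sup_left (s.smul_mem _ e3)
  have hnil := Simp.nil_eq hw hs
  obtain ⟨w', hw', hgr', hnil', hbor'⟩ := Simp.reflect hw hs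
  have hwx' : ⁅w', x⁆ = 0 := by
    have : x ∈ gr k w' 0 := by rw [hgr', mem_gr]; simpa using hwx
    rw [mem_gr] at this; simpa using this
  have he : e ∉ s.toSubmodule ⊔ bor k w' := by
    intro he
    have e1 : s.toSubmodule ⊔ bor k w ≤ s.toSubmodule ⊔ bor k w' := by
      refine sup_le le_sup_left ?_
      rw [bor_eq, hnil]
      refine sup_le ?_ (sup_le ?_ ?_)
      · rw [hbor']; exact le_sup_of_le_right le_sup_left
      · exact (Submodule.span_singleton_le_iff_mem _ _).mpr he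
      · rw [hbor']; exact le_sup_of_le_right (le_sup_of_le_right le_sup_right)
    have e2 : f ∈ s.toSubmodule ⊔ bor k w' := by
      rw [hbor']
      exact Submodule.mem_sup_right (Submodule.mem_sup_right (Submodule.mem_sup_left
        (Submodule.mem_span_singleton_self f)))
    have e3 : s.toSubmodule ⊔ bor k w < s.toSubmodule ⊔ bor k w' :=
      lt_of_le_of_ne e1 (fun h => hf (h ▸ e2))
    have e4 := Submodule.finrank_lt_finrank_of_lt e3
    have e5 := hmax w' hw' hwx'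
    omega
  obtain ⟨v1, hv1, hv1f⟩ : ∃ v ∈ perp k (s.toSubmodule ⊔ bor k w), killingForm k L v f ≠ 0 := by
    by_contra hcon
    push Not at hcon
    exact hf (mem_of_perp hcon)
  obtain ⟨v2, hv2, hv2e⟩ : ∃ v ∈ perp k (s.toSubmodule ⊔ bor k w'),
      killingForm k L v e ≠ 0 := by
    by_contra hcon
    push Not at hcon
    exact he (mem_of_perp hcon)
  have hCx : ∀ z : L, ⁅x, z⁆ = 0 → z ∈ s.toSubmodule ⊔ gr k w 0 := fun z hz =>
    centralizer_le hw hwx s.toSubmodule h2 hz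
  have hv1C : ∀ z : L, ⁅z, x⁆ = 0 → killingForm k L z v1 = 0 := by
    intro z hz
    have e1 := hCx z (by rw [← lie_skew, hz, neg_zero])
    have hle : s.toSubmodule ⊔ gr k w 0 ≤ s.toSubmodule ⊔ bor k w :=
      sup_le_sup_left (gr_le_bor w le_rfl) _
    have e2 : z ∈ s.toSubmodule ⊔ bor k w := hle e1
    rw [LieModule.traceForm_comm]
    exact hv1 z e2
  have hv2C : ∀ z : L, ⁅z, x⁆ = 0 → killingForm k L z v2 = 0 := by
    intro z hz
    have e1 := hCx z (by rw [← lie_skew, hz, neg_zero])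
    rw [← hgr'] at e1
    have hle : s.toSubmodule ⊔ gr k w' 0 ≤ s.toSubmodule ⊔ bor k w' :=
      sup_le_sup_left (gr_le_bor w' le_rfl) _
    have e2 : z ∈ s.toSubmodule ⊔ bor k w' := hle e1
    rw [LieModule.traceForm_comm]
    exact hv2 z e2
  obtain ⟨u1, hu1⟩ := (exists_lie_eq_iff x v1).mpr hv1C
  obtain ⟨u2, hu2⟩ := (exists_lie_eq_iff x v2).mpr hv2C
  obtain ⟨ρ1, hρ1, hρ1'⟩ := h3 u1 (fun a ha => by
    rw [hu1]; exact hv1 a (Submodule.mem_sup_left ha))
  obtain ⟨ρ2, hρ2, hρ2'⟩ := h3 u2 (fun a ha => by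
    rw [hu2]; exact hv2 a (Submodule.mem_sup_left ha))
  rw [hu1] at hρ1'
  rw [hu2] at hρ2'
  -- the pairing of `v1` and `ρ2` vanishes
  have hzero : killingForm k L v1 ρ2 = 0 := by
    have e1 : killingForm k L x ⁅ρ1, ρ2⁆ = 0 :=
      hx _ (Submodule.subset_span ⟨ρ1, hρ1, ρ2, hρ2, rfl⟩)
    rw [← killing_lie, ← lie_skew, hρ1', map_neg, LinearMap.neg_apply, neg_eq_zero] at e1
    exact e1
  -- components
  have hv1nil : v1 ∈ nil k w := (hw.mem_nil_iff v1).mpr fun y hy =>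
    hv1 y (Submodule.mem_sup_right hy)
  have hv2nil : v2 ∈ nil k w' := (hw'.mem_nil_iff v2).mpr fun y hy =>
    hv2 y (Submodule.mem_sup_right hy)
  rw [hnil', Submodule.mem_sup] at hv2nil
  obtain ⟨f', hf', n2, hn2, hv2eq⟩ := hv2nil
  obtain ⟨c2, rfl⟩ := Submodule.mem_span_singleton.mp hf'
  have hn2' : n2 ∈ nil k w := hn2.1
  have hewn : e ∈ nil k w := by
    rw [hnil]; exact Submodule.mem_sup_left (Submodule.mem_span_singleton_self e)
  have hc2 : c2 ≠ 0 := by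
    rintro rfl
    apply hv2e
    rw [← hv2eq, zero_smul, zero_add]
    exact killing_nil_bor hn2' (nil_le_bor w hewn)
  -- the remainder
  set ρ' := ρ2 - (c2 / α x) • f with hρ'
  have hρ'x : ⁅ρ', x⁆ = n2 := by
    have e1 : ⁅f, x⁆ = α x • f := by rw [← lie_skew, hxf, neg_neg]
    rw [hρ', sub_lie, smul_lie, e1, hρ2', smul_smul, div_mul_cancel₀ _ hν, ← hv2eq]
    abel
  have hv1ρ' : killingForm k L v1 ρ' = 0 := by
    obtain ⟨y, hy, z, hz, hyz⟩ := hw.exists_add (S := {q | 0 < q}) (T := {q | q ≤ 0})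
      (fun q => lt_or_ge 0 q) ρ'
    have hx0 : x ∈ ⨆ q ∈ ({0} : Set ℚ), gr k w q := by
      simpa [mem_gr] using hwx
    have e1 : ⁅z, x⁆ ∈ ⨆ q ∈ {q : ℚ | q ≤ 0}, gr k w q :=
      lie_mem_biSup (fun a ha b hb => by
        have h1 : a ≤ 0 := ha
        have h2 : b = 0 := hb
        change a + b ≤ 0
        rw [h2, add_zero]; exact h1) hz hx0
    have e2 : ⁅y, x⁆ ∈ ⨆ q ∈ {q : ℚ | 0 < q}, gr k w q :=
      lie_mem_biSup (fun a ha b hb => by
        have h1 : 0 < a := ha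
        have h2 : b = 0 := hb
        change 0 < a + b
        rw [h2, add_zero]; exact h1) hy hx0
    have e3 : ⁅z, x⁆ ∈ ⨆ q ∈ {q : ℚ | 0 < q}, gr k w q := by
      have : ⁅z, x⁆ = n2 - ⁅y, x⁆ := by rw [← hρ'x, ← hyz, add_lie]; abel
      rw [this]
      refine sub_mem ?_ e2
      rwa [nil_eq_biSup] at hn2'
    have hd := disjoint_biSup_gr (E := k) w (S := {q : ℚ | 0 < q}) (T := {q : ℚ | q ≤ 0})
      (Set.disjoint_left.mpr fun q h1 h2 => absurd (show (0 : ℚ) < q from h1)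
        (not_lt.mpr (show q ≤ 0 from h2)))
    have e4 : ⁅z, x⁆ = 0 := Submodule.disjoint_def.mp hd _ e3 e1
    rw [← hyz, map_add, LieModule.traceForm_comm k L L v1 z, hv1C z e4, add_zero]
    have hy' : y ∈ nil k w := by rw [nil_eq_biSup]; exact hy
    exact killing_nil_bor hv1nil (nil_le_bor w hy')
  have e5 : killingForm k L v1 ρ2 = (c2 / α x) * killingForm k L v1 f := by
    have : ρ2 = ρ' + (c2 / α x) • f := by rw [hρ']; abel
    rw [this, map_add, hv1ρ', zero_add, map_smul, smul_eq_mul]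
  rw [e5] at hzero
  rcases mul_eq_zero.mp hzero with h | h
  · exact (div_ne_zero hc2 hν) h
  · exact hv1f h

end main
end F80
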