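import Pool.Agent.H45.F80.PDefs
/-! Module DR: rank facts. -/
open Module TensorProduct
universe u
namespace F80

section cartan
open LieAlgebra LieSubalgebra Cardinal

/-- The Engel subalgebra of a regular element is a Cartan subalgebra. -/
theorem cartan_engel_of_regular {K L : Type*} [Field K] [Infinite K] [LieRing L]
    [LieAlgebra K L] [Module.Finite K L] (x : L) (hx : LieAlgebra.IsRegular K x) :
    IsCartanSubalgebra (engel K x) := by
  have h : (finrank K L : Cardinal) ≤ #K :=
    natCast_le_aleph0.trans <| Cardinal.infinite_iff.mp ‹Infinite K›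
  refine ⟨?_, normalizer_engel _ _⟩
  apply isNilpotent_of_forall_le_engel
  intro y hy
  set Ex : {engel K z | z ∈ engel K x} := ⟨engel K x, x, self_mem_engel _ _, rfl⟩
  suffices IsBot Ex from @this ⟨engel K y, y, hy, rfl⟩
  apply engel_isBot_of_isMin h (engel K x) Ex le_rfl
  rintro ⟨_, y, hy, rfl⟩ hyx
  suffices finrank K (engel K x) ≤ finrank K (engel K y) by
    suffices engel K y = engel K x from this.ge
    apply LieSubalgebra.toSubmodule_injective
    exact Submodule.eq_of_le_of_finrank_le hyx this
  rw [(isRegular_iff_finrank_engel_eq_rank K x).mp hx]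
  apply rank_le_finrank_engel

/-- In a Lie algebra with nondegenerate Killing form the rank is at most the dimension of the
centraliser of a regular element. -/
theorem rank_le_finrank_ker_of_regular {K L : Type*} [Field K] [Infinite K] [LieRing L]
    [LieAlgebra K L] [Module.Finite K L] [LieAlgebra.IsKilling K L] (x : L)
    (hx : LieAlgebra.IsRegular K x) :
    LieAlgebra.rank K L ≤ finrank K (LinearMap.ker (LieAlgebra.ad K L x : Module.End K L)) := by
  have hC : IsCartanSubalgebra (engel K x) := cartan_engel_of_regular x hx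
  have hA : IsLieAbelian (engel K x) := inferInstance
  rw [← (isRegular_iff_finrank_engel_eq_rank K x).mp hx]
  apply Submodule.finrank_mono (s := (engel K x).toSubmodule)
  intro y hy
  have h1 := hA.trivial ⟨x, self_mem_engel K x⟩ ⟨y, hy⟩
  rw [LinearMap.mem_ker, LieAlgebra.ad_apply]
  exact congrArg Subtype.val h1

theorem finrank_ker_ad_le {K L : Type*} [Field K] [Infinite K] [LieRing L]
    [LieAlgebra K L] [Module.Finite K L]  (x : L)
    (hx : LieAlgebra.IsRegular K x) :
    finrank K (LinearMap.ker (LieAlgebra.ad K L x : Module.End K L)) ≤ LieAlgebra.rank K L := by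
  rw [← (isRegular_iff_finrank_engel_eq_rank K x).mp hx]
  apply Submodule.finrank_mono (t := (engel K x).toSubmodule)
  intro y hy
  rw [LinearMap.mem_ker, LieAlgebra.ad_apply] at hy
  change y ∈ engel K x
  rw [mem_engel_iff]
  exact ⟨1, by rw [pow_one, LieAlgebra.ad_apply, hy]⟩

end cartan

section linalg

/-- For an endomorphism `f` of a finite dimensional space there is an `a` such that the
characteristic polynomial of `a f` has a nonzero coefficient in degree `dim ker f`. -/
theorem exists_mul_charpoly_coeff_ne_zero {F V : Type*} [Field F] [AddCommGroup V] [Module F V]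
    [FiniteDimensional F V] (f : Module.End F V) :
    ∃ a : Module.End F V, (a * f).charpoly.coeff (finrank F (LinearMap.ker f)) ≠ 0 := by
  obtain ⟨l, hl⟩ := LinearMap.exists_leftInverse_of_injective
    ((LinearMap.ker f).liftQ f le_rfl) (Submodule.ker_liftQ_eq_bot _ _ _ le_rfl)
  obtain ⟨s, hs⟩ := LinearMap.exists_rightInverse_of_surjective
    (LinearMap.ker f).mkQ (Submodule.range_mkQ _)
  refine ⟨s ∘ₗ l, ?_⟩
  set g : Module.End F V := (s ∘ₗ l) * f with hg
  have hgx : ∀ x, g x = s ((LinearMap.ker f).mkQ x) := by
    intro x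
    have h1 : l (f x) = (LinearMap.ker f).mkQ x := by
      have := LinearMap.congr_fun hl ((LinearMap.ker f).mkQ x)
      simpa using this
    rw [hg, Module.End.mul_apply, LinearMap.comp_apply, h1]
  have hs' : ∀ q, (LinearMap.ker f).mkQ (s q) = q := fun q => LinearMap.congr_fun hs q
  have hgg : ∀ x, g (g x) = g x := by
    intro x
    rw [hgx (g x), hgx x, hs']
  have hmax : g.maxGenEigenspace 0 = LinearMap.ker f := by
    ext x
    rw [Module.End.mem_maxGenEigenspace, LinearMap.mem_ker]
    simp only [zero_smul, sub_zero]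
    have hker : g x = 0 ↔ f x = 0 := by
      rw [hgx]
      constructor
      · intro h
        have h2 := congrArg (LinearMap.ker f).mkQ h
        rw [hs', map_zero, Submodule.mkQ_apply, Submodule.Quotient.mk_eq_zero] at h2
        exact h2
      · intro h
        have h2 : (LinearMap.ker f).mkQ x = 0 := by
          rw [Submodule.mkQ_apply, Submodule.Quotient.mk_eq_zero]
          exact h
        rw [h2, map_zero]
    rw [← hker]
    constructor
    · rintro ⟨n, hn⟩
      rcases n with _ | n
      · rw [pow_zero, Module.End.one_apply] at hn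
        rw [hn, map_zero]
      · have hpow : ∀ n : ℕ, (g ^ (n + 1)) x = g x := by
          intro n
          induction n with
          | zero => rw [zero_add, pow_one]
          | succ n ih => rw [pow_succ', Module.End.mul_apply, ih, hgg]
        rw [hpow] at hn
        exact hn
    · intro h
      exact ⟨1, by rw [pow_one, h]⟩
  have hdeg := LinearMap.finrank_maxGenEigenspace_zero_eq g
  rw [hmax] at hdeg
  rw [hdeg]
  exact Polynomial.trailingCoeff_nonzero_iff_nonzero.2 (LinearMap.charpoly_monic g).ne_zero

/-- If the characteristic polynomial of `a f` has a nonzero coefficient in degree `m`, then the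
kernel of `f` has dimension at most `m`. -/
theorem finrank_ker_le_of_coeff_ne_zero {F V : Type*} [Field F] [AddCommGroup V] [Module F V]
    [FiniteDimensional F V] (a f : Module.End F V) (m : ℕ) (h : (a * f).charpoly.coeff m ≠ 0) :
    finrank F (LinearMap.ker f) ≤ m := by
  have h1 : LinearMap.ker f ≤ (a * f).maxGenEigenspace 0 := by
    intro x hx
    rw [Module.End.mem_maxGenEigenspace]
    refine ⟨1, ?_⟩
    rw [zero_smul, sub_zero, pow_one, Module.End.mul_apply, LinearMap.mem_ker.1 hx, map_zero]
  calc finrank F (LinearMap.ker f) ≤ _ := Submodule.finrank_mono h1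
    _ = _ := LinearMap.finrank_maxGenEigenspace_zero_eq _
    _ ≤ m := Polynomial.natTrailingDegree_le_of_ne_zero h

end linalg

section generic
open MvPolynomial

variable {k : Type*} [Field k] {ι : Type*} [Fintype ι] [DecidableEq ι]

/-- The generic element of the span of the matrices `M i`. -/
noncomputable def genG (M : ι → Matrix ι ι k) : Matrix ι ι (MvPolynomial (ι ⊕ ι × ι) k) :=
  fun p q => ∑ i, C (M i p q) * X (Sum.inl i)

/-- The generic matrix. -/
noncomputable def genZ : Matrix ι ι (MvPolynomial (ι ⊕ ι × ι) k) :=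
  fun p q => X (Sum.inr (p, q))

/-- A coefficient of the characteristic polynomial of the product of the two. -/
noncomputable def genP (M : ι → Matrix ι ι k) (m : ℕ) : MvPolynomial (ι ⊕ ι × ι) k :=
  (genZ * genG M).charpoly.coeff m

theorem genP_eval₂ (M : ι → Matrix ι ι k) (m : ℕ) {S : Type*} [CommRing S] (φ : k →+* S)
    (c : ι → S) (A : Matrix ι ι S) :
    eval₂Hom φ (Sum.elim c (fun pq => A pq.1 pq.2)) (genP M m) =
      (A * ∑ i, c i • (M i).map φ).charpoly.coeff m := by
  rw [genP, ← Polynomial.coeff_map, ← Matrix.charpoly_map, Matrix.map_mul]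
  congr 4
  · ext p q
    simp [genZ]
  · ext p q
    simp [genG, Matrix.sum_apply, mul_comm]

end generic

section main

/-- The matrix of `ad y` over the extension is the combination of the matrices of `ad b_i` with the
coordinates of `y` as coefficients. -/
theorem dr_toMatrix_ad_baseChange {k : Type*} [Field k] {L : Type*} [LieRing L]
    [LieAlgebra k L] {ι : Type*} [Fintype ι] [DecidableEq ι] (b : Basis ι k L)
    {F : Type*} [Field F] [Algebra k F] (y : F ⊗[k] L) :
    LinearMap.toMatrix (b.baseChange F) (b.baseChange F)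
        (LieAlgebra.ad F (F ⊗[k] L) y : Module.End F (F ⊗[k] L)) =
      ∑ i, (b.baseChange F).repr y i •
        (LinearMap.toMatrix b b (LieAlgebra.ad k L (b i) : Module.End k L)).map
          (algebraMap k F) := by
  conv_lhs => rw [← (b.baseChange F).sum_repr y]
  rw [map_sum, map_sum]
  refine Finset.sum_congr rfl fun i _ => ?_
  rw [map_smul, map_smul]
  congr 1
  ext p q
  rw [LinearMap.toMatrix_apply, Matrix.map_apply, LinearMap.toMatrix_apply, LieAlgebra.ad_apply,
    Basis.baseChange_apply, Basis.baseChange_apply, LieAlgebra.ExtendScalars.bracket_tmul, one_mul,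
    Basis.baseChange_repr_tmul, LieAlgebra.ad_apply, Algebra.algebraMap_eq_smul_one]

section point
attribute [local instance 100] LieRing.ofAssociativeRing

/-- A nonzero polynomial does not vanish at some point whose first part is regular. -/
theorem exists_regular_point {k : Type*} [Field k] [Infinite k] {L : Type*} [LieRing L]
    [LieAlgebra k L] [FiniteDimensional k L] {ι : Type*} [Fintype ι] [DecidableEq ι]
    (b : Basis ι k L) (P : MvPolynomial (ι ⊕ ι × ι) k) (hP : P ≠ 0) :
    ∃ v : ι ⊕ ι × ι → k, MvPolynomial.eval v P ≠ 0 ∧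
      LieAlgebra.IsRegular k (b.equivFun.symm (v ∘ Sum.inl)) := by
  have hQ : (MvPolynomial.rename Sum.inl
      ((LinearMap.polyCharpoly (LieAlgebra.ad k L).toLinearMap b).coeff (LieAlgebra.rank k L)) :
      MvPolynomial (ι ⊕ ι × ι) k) ≠ 0 := by
    intro h
    exact LieAlgebra.polyCharpoly_coeff_rank_ne_zero k L b
      (MvPolynomial.rename_injective _ Sum.inl_injective (by rw [h, map_zero]))
  obtain ⟨v, hv⟩ : ∃ v, MvPolynomial.eval v (P * MvPolynomial.rename Sum.inl
      ((LinearMap.polyCharpoly (LieAlgebra.ad k L).toLinearMap b).coeff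
        (LieAlgebra.rank k L))) ≠ 0 := by
    by_contra hcon
    push Not at hcon
    exact mul_ne_zero hP hQ (MvPolynomial.funext fun v => by rw [hcon v, map_zero])
  rw [map_mul] at hv
  have hv2 := right_ne_zero_of_mul hv
  rw [MvPolynomial.eval_rename] at hv2
  refine ⟨v, left_ne_zero_of_mul hv, ?_⟩
  have hx : ⇑(b.repr (b.equivFun.symm (v ∘ Sum.inl))) = v ∘ Sum.inl := by
    have := b.equivFun.apply_symm_apply (v ∘ Sum.inl)
    rw [Basis.equivFun_apply] at this
    exact this
  rw [LieAlgebra.isRegular_iff_coeff_polyCharpoly_rank_ne_zero k b, hx]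
  exact hv2

end point

/-- The matrix of `ad x` in terms of the coordinates of `x`. -/
theorem toMatrix_ad {k : Type*} [Field k] {L : Type*} [LieRing L]
    [LieAlgebra k L] {ι : Type*} [Fintype ι] [DecidableEq ι] (b : Basis ι k L) (c : ι → k) :
    LinearMap.toMatrix b b
        (LieAlgebra.ad k L (b.equivFun.symm c) : Module.End k L) =
      ∑ i, c i •
        (LinearMap.toMatrix b b (LieAlgebra.ad k L (b i) : Module.End k L)).map
          (RingHom.id k) := by
  rw [Basis.equivFun_symm_apply, map_sum, map_sum]
  refine Finset.sum_congr rfl fun i _ => ?_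
  rw [map_smul, map_smul]
  congr 1

/-- A bound of the dimension of a centraliser from the nonvanishing of the generic polynomial. -/
theorem finrank_ker_ad_le_of_eval {k : Type*} [Field k] {L : Type*} [LieRing L]
    [LieAlgebra k L] [FiniteDimensional k L] {ι : Type*} [Fintype ι] [DecidableEq ι]
    (b : Basis ι k L) (m : ℕ) (v : ι ⊕ ι × ι → k)
    (h : MvPolynomial.eval v (genP (fun i =>
      LinearMap.toMatrix b b (LieAlgebra.ad k L (b i) : Module.End k L)) m) ≠ 0) :
    finrank k (LinearMap.ker
      (LieAlgebra.ad k L (b.equivFun.symm (v ∘ Sum.inl)) : Module.End k L)) ≤ m := by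
  refine finrank_ker_le_of_coeff_ne_zero (Matrix.toLin b b (Matrix.of fun p q => v (Sum.inr (p, q)))) _ m
    ?_
  rw [← LinearMap.charpoly_toMatrix _ b, LinearMap.toMatrix_mul, LinearMap.toMatrix_toLin,
    toMatrix_ad]
  have h1 := genP_eval₂ (fun i =>
      LinearMap.toMatrix b b (LieAlgebra.ad k L (b i) : Module.End k L)) m (RingHom.id k)
      (v ∘ Sum.inl) (Matrix.of fun p q => v (Sum.inr (p, q)))
  have h2 : (Sum.elim (v ∘ Sum.inl) fun pq : ι × ι =>
      (Matrix.of fun p q => v (Sum.inr (p, q))) pq.1 pq.2) = v := by
    ext (i | i) <;> rfl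
  rw [h2] at h1
  rw [← h1]
  exact h

/-- The generic polynomial does not vanish for `m` the dimension of a centraliser over an
extension. -/
theorem genP_ne_zero {k : Type*} [Field k] {L : Type*} [LieRing L]
    [LieAlgebra k L] [FiniteDimensional k L] {ι : Type*} [Fintype ι] [DecidableEq ι]
    (b : Basis ι k L) {F : Type*} [Field F] [Algebra k F] (y : F ⊗[k] L) :
    genP (fun i => LinearMap.toMatrix b b (LieAlgebra.ad k L (b i) : Module.End k L))
      (finrank F (LinearMap.ker (LieAlgebra.ad F (F ⊗[k] L) y : Module.End F (F ⊗[k] L)))) ≠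
      0 := by
  intro h
  obtain ⟨a, ha⟩ := exists_mul_charpoly_coeff_ne_zero
    (LieAlgebra.ad F (F ⊗[k] L) y : Module.End F (F ⊗[k] L))
  rw [← LinearMap.charpoly_toMatrix _ (b.baseChange F), LinearMap.toMatrix_mul,
    dr_toMatrix_ad_baseChange b y, ← genP_eval₂ _ _ (algebraMap k F), h, map_zero] at ha
  exact ha rfl

/-- The centraliser of an element of a base change has dimension at least the rank. -/
theorem rank_le_finrank_ker_ad {k : Type u} [Field k] [CharZero k] {L : Type u} [LieRing L]
    [LieAlgebra k L] [FiniteDimensional k L] [LieAlgebra.IsKilling k L] [IsAlgClosed k]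
    {F : Type*} [Field F] [Algebra k F] (y : F ⊗[k] L) :
    LieAlgebra.rank k L ≤
      finrank F (LinearMap.ker (LieAlgebra.ad F (F ⊗[k] L) y : Module.End F (F ⊗[k] L))) := by
  classical
  have : Infinite k := IsAlgClosed.instInfinite
  obtain ⟨v, hv, hreg⟩ := exists_regular_point (Module.finBasis k L) _
    (genP_ne_zero (Module.finBasis k L) y)
  exact (rank_le_finrank_ker_of_regular _ hreg).trans
    (finrank_ker_ad_le_of_eval (Module.finBasis k L) _ v hv)

end main

section reductive

/-- The adjoint action of `z + u`, with `z` central and `u` in the complementary ideal `I`. -/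
theorem charpoly_ad_add {k : Type u} [Field k] {g : Type u}
    [LieRing g] [LieAlgebra k g] [FiniteDimensional k g] (I : LieIdeal k g)
    (hI : IsCompl (LieAlgebra.center k g) I) (z : LieAlgebra.center k g) (u : I) :
    (LieAlgebra.ad k g ((z : g) + (u : g)) : Module.End k g).charpoly =
      Polynomial.X ^ finrank k (LieAlgebra.center k g) *
        (LieAlgebra.ad k I u : Module.End k I).charpoly := by
  have hI' : IsCompl ((LieAlgebra.center k g).toSubmodule) (I.toSubmodule) := by
    rwa [LieSubmodule.isCompl_toSubmodule]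
  let e := Submodule.prodEquivOfIsCompl _ _ hI'
  have hc : (LieAlgebra.ad k g ((z : g) + (u : g)) : Module.End k g) =
      e.conj (LinearMap.prodMap (0 : Module.End k (LieAlgebra.center k g).toSubmodule)
        (LieAlgebra.ad k I u : Module.End k I)) := by
    apply LinearMap.ext
    intro v
    obtain ⟨⟨z', u'⟩, rfl⟩ := e.surjective v
    rw [LinearEquiv.conj_apply]
    simp only [LinearMap.comp_apply, LinearEquiv.coe_coe, LinearEquiv.symm_apply_apply,
      LinearMap.prodMap_apply, LinearMap.zero_apply]
    simp only [e, Submodule.coe_prodEquivOfIsCompl', LieAlgebra.ad_apply]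
    have hz : ∀ w : g, ⁅(z : g), w⁆ = 0 := by
      intro w
      have := z.2
      rw [LieModule.mem_maxTrivSubmodule] at this
      rw [← lie_skew, this w, neg_zero]
    have hz' : ∀ w : g, ⁅w, (z' : g)⁆ = 0 := by
      intro w
      have := z'.2
      rw [LieSubmodule.mem_toSubmodule, LieModule.mem_maxTrivSubmodule] at this
      exact this w
    rw [add_lie, hz, lie_add, hz']
    simp only [ZeroMemClass.coe_zero, zero_add]
    rfl
  rw [hc, LinearEquiv.charpoly_conj, LinearMap.charpoly_prodMap]
  congr 1
  rw [LinearMap.charpoly_zero]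
  rfl

/-- The rank of a reductive Lie algebra. -/
theorem rank_reductive {k : Type u} [Field k] [CharZero k] [IsAlgClosed k] {g : Type u}
    [LieRing g] [LieAlgebra k g] [FiniteDimensional k g] (I : LieIdeal k g)
    (hI : IsCompl (LieAlgebra.center k g) I) [LieAlgebra.IsKilling k I] :
    LieAlgebra.rank k g = finrank k (LieAlgebra.center k g) + LieAlgebra.rank k I := by
  have : Infinite k := IsAlgClosed.instInfinite
  have key : ∀ (z : LieAlgebra.center k g) (u : I),
      (LieAlgebra.ad k g ((z : g) + (u : g)) : Module.End k g).charpoly.natTrailingDegree =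
        finrank k (LieAlgebra.center k g) +
          (LieAlgebra.ad k I u : Module.End k I).charpoly.natTrailingDegree := by
    intro z u
    rw [charpoly_ad_add I hI z u, Polynomial.natTrailingDegree_mul
      (pow_ne_zero _ Polynomial.X_ne_zero) (LinearMap.charpoly_monic _).ne_zero,
      Polynomial.natTrailingDegree_X_pow]
  apply le_antisymm
  · obtain ⟨u, hu⟩ := LieAlgebra.exists_isRegular k I
    rw [LieAlgebra.isRegular_iff_natTrailingDegree_charpoly_eq_rank] at hu
    rw [← hu, ← key 0 u]
    exact LieAlgebra.rank_le_natTrailingDegree_charpoly_ad k _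
  · obtain ⟨x, hx⟩ := LieAlgebra.exists_isRegular k g
    rw [LieAlgebra.isRegular_iff_natTrailingDegree_charpoly_eq_rank] at hx
    have hI' : IsCompl ((LieAlgebra.center k g).toSubmodule) (I.toSubmodule) := by
      rwa [LieSubmodule.isCompl_toSubmodule]
    obtain ⟨⟨z, u⟩, hzu⟩ := (Submodule.prodEquivOfIsCompl _ _ hI').surjective x
    rw [Submodule.coe_prodEquivOfIsCompl'] at hzu
    change (z : g) + (u : g) = x at hzu
    have h2 := key z u
    rw [← hx, ← hzu]
    rw [h2]
    exact Nat.add_le_add_left
      (LieAlgebra.rank_le_natTrailingDegree_charpoly_ad k (L := I) (u : I)) _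

/-- The index of a reductive Lie algebra is at most its rank. -/
theorem idx_le_rank {k : Type u} [Field k] [CharZero k] [IsAlgClosed k] {g : Type u}
    [LieRing g] [LieAlgebra k g] [FiniteDimensional k g] (hg : IsRed k g) :
    idx (brk k g) ≤ LieAlgebra.rank k g := by
  have : Infinite k := IsAlgClosed.instInfinite
  obtain ⟨I, hI, hK⟩ := hg
  rw [rank_reductive I hI]
  obtain ⟨u, hu⟩ := LieAlgebra.exists_isRegular k I
  have hI' : IsCompl ((LieAlgebra.center k g).toSubmodule) (I.toSubmodule) := by
    rwa [LieSubmodule.isCompl_toSubmodule]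
  let pr : g →ₗ[k] I := I.toSubmodule.projectionOnto _ hI'.symm
  let ξ : Module.Dual k g := (killingForm k I u).comp pr
  refine (ciInf_le (OrderBot.bddBelow _) ξ).trans ?_
  have hle : finrank k (LinearMap.ker (LieAlgebra.ad k I u : Module.End k I)) ≤
      LieAlgebra.rank k I := finrank_ker_ad_le u hu
  have hker : LinearMap.ker ((brk k g).compr₂ ξ) ≤
      (LieAlgebra.center k g).toSubmodule ⊔
        (LinearMap.ker (LieAlgebra.ad k I u : Module.End k I)).map I.toSubmodule.subtype := by
    intro x hx
    obtain ⟨⟨z, w'⟩, hzw⟩ := (Submodule.prodEquivOfIsCompl _ _ hI').surjective x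
    rw [Submodule.coe_prodEquivOfIsCompl'] at hzw
    rw [← hzw]
    refine Submodule.add_mem_sup z.2 ?_
    refine ⟨w', ?_, rfl⟩
    obtain ⟨w, hw⟩ : ∃ w : I, w = w' := ⟨w', rfl⟩
    change LieAlgebra.ad k I u w' = 0
    rw [← hw, LieAlgebra.ad_apply]
    change (z : g) + (w' : g) = x at hzw
    rw [← hw] at hzw
    have hnd := (LieAlgebra.IsKilling.killingForm_nondegenerate k I).1
    refine hnd _ fun y => ?_
    rw [LieModule.traceForm_apply_lie_apply]
    have h1 : ξ ⁅x, (y : g)⁆ = 0 := by
      have := LinearMap.congr_fun (LinearMap.mem_ker.1 hx) (y : g)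
      simpa using this
    have hz : ⁅(z : g), (y : g)⁆ = 0 := by
      have := z.2
      rw [LieSubmodule.mem_toSubmodule, LieModule.mem_maxTrivSubmodule] at this
      rw [← lie_skew, this (y : g), neg_zero]
    rw [← hzw, add_lie, hz, zero_add] at h1
    have h2 : pr ⁅(w : g), (y : g)⁆ = ⁅w, y⁆ :=
      Submodule.projectionOnto_apply_left hI'.symm (⁅w, y⁆ : I)
    simp only [ξ, LinearMap.comp_apply] at h1
    rw [h2] at h1
    exact h1
  calc finrank k (LinearMap.ker ((brk k g).compr₂ ξ)) ≤ _ := Submodule.finrank_mono hker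
    _ ≤ _ := Submodule.finrank_add_le_finrank_add_finrank _ _
    _ ≤ _ := by
      refine Nat.add_le_add_left ?_ _
      exact (Submodule.finrank_map_le _ _).trans hle

end reductive

end F80
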