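import Pool.Agent.H45.F80.BG0
/-! Module BC0: base change (used by BG and BC). -/
open Module TensorProduct
namespace F80

section linear
variable {E : Type*} [Field E] {V : Type*} [AddCommGroup V] [Module E V]
variable (E' : Type*) [Field E'] [Algebra E E']

theorem baseChange_ker' {W : Type*} [AddCommGroup W] [Module E W] (f : V →ₗ[E] W) :
    LinearMap.ker (f.baseChange E') = (LinearMap.ker f).baseChange E' := by
  have h := Module.Flat.ker_lTensor_eq (R := E) E' E' f
  ext x
  have h1 := SetLike.ext_iff.1 h x
  exact h1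

theorem tmul_mem_baseChange_iff (p : Submodule E V) (x : V) :
    (1 ⊗ₜ[E] x : E' ⊗[E] V) ∈ p.baseChange E' ↔ x ∈ p := by
  have h := baseChange_ker' (E := E) E' p.mkQ
  rw [Submodule.ker_mkQ] at h
  rw [← h, LinearMap.mem_ker, LinearMap.baseChange_tmul]
  have h1 : Function.Injective (TensorProduct.mk E E' (V ⧸ p) 1) :=
    Module.Flat.tensorProduct_mk_injective E (V ⧸ p) E'
  constructor
  · intro hx
    have := h1 (a₁ := p.mkQ x) (a₂ := 0) (by simpa using hx)
    simpa using this
  · intro hx
    have : p.mkQ x = 0 := by simpa using hx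
    rw [this, tmul_zero]

theorem baseChange_iSup {ι : Sort*} (p : ι → Submodule E V) :
    (⨆ i, p i).baseChange E' = ⨆ i, (p i).baseChange E' := by
  refine le_antisymm ?_ (iSup_le fun i => Submodule.baseChange_mono E' (le_iSup p i))
  rw [Submodule.baseChange_eq_span, Submodule.span_le]
  rintro _ ⟨m, hm, rfl⟩
  have h1 : (⨆ i, p i) ≤ (((⨆ i, (p i).baseChange E').restrictScalars E).comap
      (TensorProduct.mk E E' V 1)) := by
    refine iSup_le fun i x hx => ?_
    have h2 : (1 : E') ⊗ₜ[E] x ∈ (p i).baseChange E' := Submodule.tmul_mem_baseChange_of_mem _ hx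
    exact (le_iSup (fun i => (p i).baseChange E') i) h2
  exact h1 hm

theorem baseChange_sup (p q : Submodule E V) :
    (p ⊔ q).baseChange E' = p.baseChange E' ⊔ q.baseChange E' := by
  rw [sup_eq_iSup, sup_eq_iSup, baseChange_iSup]
  refine iSup_congr fun b => ?_
  cases b <;> rfl

theorem baseChange_inf (p q : Submodule E V) :
    (p ⊓ q).baseChange E' = p.baseChange E' ⊓ q.baseChange E' := by
  refine le_antisymm (le_inf (Submodule.baseChange_mono E' inf_le_left)
    (Submodule.baseChange_mono E' inf_le_right)) ?_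
  rintro x ⟨hx, hq⟩
  obtain ⟨y, rfl⟩ := hx
  have h := baseChange_ker' (E := E) E' q.mkQ
  rw [Submodule.ker_mkQ] at h
  have h1 : (q.mkQ.baseChange E') ((p.subtype.baseChange E') y) = 0 := by
    rw [← LinearMap.mem_ker, h]; exact hq
  rw [← LinearMap.comp_apply, ← LinearMap.baseChange_comp, ← LinearMap.mem_ker,
    baseChange_ker'] at h1
  obtain ⟨z, rfl⟩ := h1
  rw [← LinearMap.comp_apply, ← LinearMap.baseChange_comp]
  set f := p.subtype ∘ₗ (LinearMap.ker (q.mkQ ∘ₗ p.subtype)).subtype with hf
  have h2 : ∀ w, f w ∈ p ⊓ q := by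
    intro w
    refine ⟨by simp [hf], ?_⟩
    have h3 := w.2
    rw [LinearMap.mem_ker, LinearMap.comp_apply] at h3
    simpa [hf] using h3
  have h4 : f = (p ⊓ q).subtype ∘ₗ (f.codRestrict (p ⊓ q) h2) := by
    ext w; simp
  rw [h4, LinearMap.baseChange_comp]
  exact ⟨_, rfl⟩

theorem baseChange_le_iff (p q : Submodule E V) :
    p.baseChange E' ≤ q.baseChange E' ↔ p ≤ q := by
  refine ⟨fun h x hx => ?_, fun h => Submodule.baseChange_mono E' h⟩
  rw [← tmul_mem_baseChange_iff E']
  exact h ((tmul_mem_baseChange_iff E' p x).2 hx)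

theorem finrank_baseChange' [FiniteDimensional E V] (p : Submodule E V) :
    finrank E' (p.baseChange E') = finrank E p := by
  rw [← (Submodule.toBaseChange.toLinearEquiv E' p).finrank_eq, Module.finrank_baseChange]

end linear

section
variable {E : Type*} [Field E] [CharZero E] {g : Type*} [LieRing g] [LieAlgebra E g]
  [FiniteDimensional E g]
variable (E' : Type*) [Field E'] [CharZero E'] [Algebra E E']

theorem killingForm_baseChange (a b : E') (x y : g) :
    killingForm E' (E' ⊗[E] g) (a ⊗ₜ[E] x) (b ⊗ₜ[E] y) =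
      a * b * algebraMap E E' (killingForm E g x y) := by
  have h : killingForm E' (E' ⊗[E] g) = (killingForm E g).baseChange E' :=
    LieModule.traceForm_baseChange E g g E'
  rw [h, LinearMap.BilinForm.baseChange_tmul, Algebra.smul_def, mul_comm]

instance isKilling_baseChange [LieAlgebra.IsKilling E g] :
    LieAlgebra.IsKilling E' (E' ⊗[E] g) := by
  constructor
  rw [LieSubmodule.eq_bot_iff]
  intro x hx
  rw [LieIdeal.mem_killingCompl] at hx
  replace hx : ∀ y, killingForm E' (E' ⊗[E] g) x y = 0 := fun y => by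
    rw [LieModule.traceForm_comm]; exact hx y trivial
  classical
  let b := Module.finBasis E g
  let B := LinearMap.BilinForm.dualBasis (killingForm E g)
    (LieAlgebra.IsKilling.killingForm_nondegenerate E g) b
  have h1 : ∀ i j, killingForm E g (b i) (B j) = if i = j then 1 else 0 := by
    intro i j
    rw [LieModule.traceForm_comm]
    have := LinearMap.BilinForm.apply_dualBasis_left
      (LieAlgebra.IsKilling.killingForm_nondegenerate E g) b j i
    simpa [eq_comm] using this
  have h2 : ∀ j, (b.baseChange E').repr x j = 0 := by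
    intro j
    have h3 : killingForm E' (E' ⊗[E] g) x (1 ⊗ₜ B j) = 0 := hx _
    rw [← (b.baseChange E').sum_repr x] at h3
    rw [map_sum, LinearMap.sum_apply] at h3
    simp only [map_smul, LinearMap.smul_apply, Basis.baseChange_apply,
      killingForm_baseChange, h1, smul_eq_mul, mul_one, one_mul] at h3
    simpa using h3
  rw [← (b.baseChange E').sum_repr x]
  simp [h2]

theorem ad_tmul_apply (h : g) (X : E' ⊗[E] g) :
    ⁅(1 ⊗ₜ[E] h : E' ⊗[E] g), X⁆ = ((LieAlgebra.ad E g h : Module.End E g).baseChange E') X := by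
  induction X using TensorProduct.induction_on with
  | zero => simp
  | tmul a x => simp [LieAlgebra.ExtendScalars.bracket_tmul]
  | add x y hx hy => rw [lie_add, map_add, hx, hy]

theorem gr_baseChange (h : g) (q : ℚ) :
    gr E' (1 ⊗ₜ[E] h : E' ⊗[E] g) q = (gr E h q).baseChange E' := by
  have h1 : gr E h q = LinearMap.ker ((LieAlgebra.ad E g h : Module.End E g) -
      (q : E) • LinearMap.id) := by
    ext x
    rw [mem_gr, LinearMap.mem_ker]
    simp [sub_eq_zero]
  rw [h1, ← baseChange_ker']
  ext X
  rw [mem_gr, LinearMap.mem_ker, LinearMap.baseChange_sub, LinearMap.sub_apply, sub_eq_zero,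
    ad_tmul_apply]
  have h2 : (((q : E) • LinearMap.id : g →ₗ[E] g).baseChange E') X = (q : E') • X := by
    rw [LinearMap.baseChange_smul, LinearMap.smul_apply, LinearMap.baseChange_id,
      LinearMap.id_apply, ← algebraMap_smul E' (q : E) X, map_ratCast]
  rw [h2]

theorem bor_baseChange (h : g) :
    bor E' (1 ⊗ₜ[E] h : E' ⊗[E] g) = (bor E h).baseChange E' := by
  simp only [bor, baseChange_iSup, gr_baseChange]

theorem nil_baseChange (h : g) :
    nil E' (1 ⊗ₜ[E] h : E' ⊗[E] g) = (nil E h).baseChange E' := by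
  simp only [nil, baseChange_iSup, gr_baseChange]

theorem RR.baseChange {h : g} (hh : RR E h) : RR E' (1 ⊗ₜ[E] h : E' ⊗[E] g) where
  top := by
    simp only [gr_baseChange, ← baseChange_iSup, hh.top, Submodule.baseChange_top]
  comm X Y hX hY := by
    have h1 : ∀ Z : E' ⊗[E] g, ⁅(1 ⊗ₜ[E] h : E' ⊗[E] g), Z⁆ = 0 →
        Z ∈ (gr E h 0).baseChange E' := by
      intro Z hZ
      rw [← gr_baseChange, mem_gr, hZ]; simp
    obtain ⟨x, rfl⟩ := h1 X hX
    obtain ⟨y, rfl⟩ := h1 Y hY
    clear hX hY
    induction x using TensorProduct.induction_on with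
    | zero => simp
    | add x x' hx hx' => rw [map_add, add_lie, hx, hx', add_zero]
    | tmul a x =>
      induction y using TensorProduct.induction_on with
      | zero => simp
      | add x x' hx hx' => rw [map_add, lie_add, hx, hx', add_zero]
      | tmul b y =>
        simp only [LinearMap.baseChange_tmul, Submodule.subtype_apply,
          LieAlgebra.ExtendScalars.bracket_tmul]
        rw [hh.comm (x : g) (y : g) (by rw [mem_gr.1 x.2]; simp) (by rw [mem_gr.1 y.2]; simp),
          tmul_zero]

theorem isNilpotent_ad_baseChange (x : g)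
    (hx : IsNilpotent (LieAlgebra.ad E g x : Module.End E g)) (a : E') :
    IsNilpotent (LieAlgebra.ad E' (E' ⊗[E] g) (a ⊗ₜ[E] x) : Module.End E' (E' ⊗[E] g)) := by
  obtain ⟨n, hn⟩ := hx
  have h1 : (LieAlgebra.ad E' (E' ⊗[E] g) (1 ⊗ₜ[E] x) : Module.End E' (E' ⊗[E] g)) =
      (LieAlgebra.ad E g x : Module.End E g).baseChange E' :=
    LinearMap.ext fun X => ad_tmul_apply E' x X
  have h2 : (a ⊗ₜ[E] x : E' ⊗[E] g) = a • (1 ⊗ₜ[E] x) := by
    rw [smul_tmul', smul_eq_mul, mul_one]
  refine ⟨n, ?_⟩
  rw [h2, map_smul, smul_pow, h1, ← LinearMap.baseChange_pow, hn, LinearMap.baseChange_zero,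
    smul_zero]

theorem SDer.IsLie.baseChange {δ : SDer E g} (hδ : δ.IsLie) (d' : Derivation ℤ E' E')
    (h : ∀ r : E, d' (algebraMap E E' r) = algebraMap E E' (δ.d r)) :
    (δ.baseChange d' h).IsLie := by
  intro X Y
  induction X using TensorProduct.induction_on with
  | zero => simp
  | add x x' hx hx' => rw [add_lie, map_add, hx, hx', map_add, add_lie, add_lie]; abel
  | tmul a x =>
    induction Y using TensorProduct.induction_on with
    | zero => simp
    | add x x' hx hx' => rw [lie_add, map_add, hx, hx', map_add, lie_add, lie_add]; abel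
    | tmul b y =>
      simp only [LieAlgebra.ExtendScalars.bracket_tmul, SDer.baseChange_D, hδ x y,
        Derivation.leibniz, smul_eq_mul, add_lie, lie_add, tmul_add, add_tmul]
      rw [mul_comm b (d' a)]
      abel

theorem SDer.stable_baseChange {δ : SDer E g} (r : Submodule E g) (hr : ∀ x ∈ r, δ.D x ∈ r)
    (d' : Derivation ℤ E' E')
    (h : ∀ r : E, d' (algebraMap E E' r) = algebraMap E E' (δ.d r)) :
    ∀ x ∈ r.baseChange E', (δ.baseChange d' h).D x ∈ r.baseChange E' := by
  rintro _ ⟨y, rfl⟩
  induction y using TensorProduct.induction_on with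
  | zero => simp
  | add x x' hx hx' => rw [map_add, map_add]; exact add_mem hx hx'
  | tmul a x =>
    rw [LinearMap.baseChange_tmul, SDer.baseChange_D]
    exact add_mem (Submodule.tmul_mem_baseChange_of_mem _ x.2)
      (Submodule.tmul_mem_baseChange_of_mem _ (hr _ x.2))

/-- The base change of a Lie subalgebra. -/
def lsBaseChange (r : LieSubalgebra E g) : LieSubalgebra E' (E' ⊗[E] g) :=
  { r.toSubmodule.baseChange E' with
    lie_mem' := by
      rintro _ _ ⟨x, rfl⟩ ⟨y, rfl⟩
      induction x using TensorProduct.induction_on with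
      | zero => simp
      | add x x' hx hx' => rw [map_add, add_lie]; exact Submodule.add_mem _ hx hx'
      | tmul a x =>
        induction y using TensorProduct.induction_on with
        | zero => simp
        | add x x' hx hx' => rw [map_add, lie_add]; exact Submodule.add_mem _ hx hx'
        | tmul b y =>
          rw [LinearMap.baseChange_tmul, LinearMap.baseChange_tmul,
            LieAlgebra.ExtendScalars.bracket_tmul]
          exact Submodule.tmul_mem_baseChange_of_mem _ (r.lie_mem x.2 y.2) }

@[simp] theorem lsBaseChange_toSubmodule (r : LieSubalgebra E g) :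
    (lsBaseChange E' r).toSubmodule = r.toSubmodule.baseChange E' := rfl

end

end F80
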