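import Pool.Agent.H45.F80.BG
import Pool.Agent.H45.F80.BC0
/-! Module BC: base change. (The first two sections are in `BC0`.) -/
open Module TensorProduct
namespace F80

section tower
variable {k K F : Type*} [Field k] [Field K] [Field F] [Algebra k K] [Algebra k F]
  [Algebra K F] [IsScalarTower k K F] {L : Type*} [LieRing L] [LieAlgebra k L]

/-- Transitivity of base change, as an isomorphism of Lie algebras. -/
noncomputable def cancelLie : F ⊗[K] (K ⊗[k] L) ≃ₗ⁅F⁆ F ⊗[k] L :=
  { TensorProduct.AlgebraTensorModule.cancelBaseChange k K F F L with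
    map_lie' := by
      intro X Y
      change TensorProduct.AlgebraTensorModule.cancelBaseChange k K F F L ⁅X, Y⁆ =
        ⁅TensorProduct.AlgebraTensorModule.cancelBaseChange k K F F L X,
          TensorProduct.AlgebraTensorModule.cancelBaseChange k K F F L Y⁆
      induction X using TensorProduct.induction_on with
      | zero =>
        have h1 : ⁅(0 : F ⊗[K] (K ⊗[k] L)), Y⁆ = 0 := zero_lie Y
        rw [h1, map_zero, zero_lie]
      | add x x' hx hx' =>
        have h1 : ⁅x + x', Y⁆ = ⁅x, Y⁆ + ⁅x', Y⁆ := add_lie x x' Y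
        rw [h1, map_add, hx, hx', map_add, add_lie]
      | tmul a x =>
        induction x using TensorProduct.induction_on with
        | zero =>
          rw [tmul_zero]
          have h1 : ⁅(0 : F ⊗[K] (K ⊗[k] L)), Y⁆ = 0 := zero_lie Y
          rw [h1, map_zero, zero_lie]
        | add x x' hx hx' =>
          rw [tmul_add]
          have h1 : ⁅a ⊗ₜ[K] x + a ⊗ₜ[K] x', Y⁆ = ⁅a ⊗ₜ[K] x, Y⁆ + ⁅a ⊗ₜ[K] x', Y⁆ :=
            add_lie _ _ Y
          rw [h1, map_add, hx, hx', map_add, add_lie]
        | tmul b x =>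
          set X : F ⊗[K] (K ⊗[k] L) := a ⊗ₜ[K] (b ⊗ₜ[k] x) with hX
          induction Y using TensorProduct.induction_on with
          | zero =>
            have h1 : ⁅X, (0 : F ⊗[K] (K ⊗[k] L))⁆ = 0 := lie_zero X
            rw [h1, map_zero, lie_zero]
          | add y y' hy hy' =>
            have h1 : ⁅X, y + y'⁆ = ⁅X, y⁆ + ⁅X, y'⁆ := lie_add X y y'
            rw [h1, map_add, hy, hy', map_add, lie_add]
          | tmul c y =>
            induction y using TensorProduct.induction_on with
            | zero =>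
              rw [tmul_zero]
              have h1 : ⁅X, (0 : F ⊗[K] (K ⊗[k] L))⁆ = 0 := lie_zero X
              rw [h1, map_zero, lie_zero]
            | add y y' hy hy' =>
              rw [tmul_add]
              have h1 : ⁅X, c ⊗ₜ[K] y + c ⊗ₜ[K] y'⁆ = ⁅X, c ⊗ₜ[K] y⁆ + ⁅X, c ⊗ₜ[K] y'⁆ :=
                lie_add X _ _
              rw [h1, map_add, hy, hy', map_add, lie_add]
            | tmul d y =>
              rw [hX]
              have h1 : ⁅(a ⊗ₜ[K] (b ⊗ₜ[k] x) : F ⊗[K] (K ⊗[k] L)), c ⊗ₜ[K] (d ⊗ₜ[k] y)⁆ =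
                  (a * c) ⊗ₜ[K] ((b * d) ⊗ₜ[k] ⁅x, y⁆) := rfl
              rw [h1]
              simp only [LieAlgebra.ExtendScalars.bracket_tmul,
                TensorProduct.AlgebraTensorModule.cancelBaseChange_tmul,
                Algebra.smul_def, map_mul]
              congr 1
              ring }

theorem cancelLie_tmul (a : F) (b : K) (x : L) :
    (cancelLie : F ⊗[K] (K ⊗[k] L) ≃ₗ⁅F⁆ F ⊗[k] L) (a ⊗ₜ[K] (b ⊗ₜ[k] x)) =
      (a * algebraMap K F b) ⊗ₜ[k] x := by
  change TensorProduct.AlgebraTensorModule.cancelBaseChange k K F F L _ = _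
  rw [TensorProduct.AlgebraTensorModule.cancelBaseChange_tmul, Algebra.smul_def, mul_comm]

end tower
end F80
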