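import Pool.Agent.H45.F80.PDefs
/-! Module DC: Casimir polynomials. -/
open Module TensorProduct
universe u v
namespace F80

namespace DC

section lin
variable {k : Type u} [Field k] {g : Type u} [LieRing g] [LieAlgebra k g]
  {ι : Type*} [Fintype ι] (bs : Basis ι k g)

/-- `lin` as a linear map. -/
noncomputable def linL : g →ₗ[k] MvPolynomial ι k where
  toFun := lin bs
  map_add' x y := by
    simp only [lin, map_add, Finsupp.add_apply, add_mul, Finset.sum_add_distrib]
  map_smul' c x := by
    simp only [lin, map_smul, Finsupp.smul_apply, smul_eq_mul, map_mul, RingHom.id_apply,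
      Finset.smul_sum, MvPolynomial.smul_eq_C_mul, mul_assoc]

@[simp] lemma linL_apply (x : g) : linL bs x = lin bs x := rfl

lemma lin_isHomogeneous (x : g) : (lin bs x).IsHomogeneous 1 := by
  unfold lin
  apply MvPolynomial.IsHomogeneous.sum
  intro i _
  have := (MvPolynomial.isHomogeneous_C ι (bs.repr x i)).mul
    (MvPolynomial.isHomogeneous_X (σ := ι) k i)
  simpa using this

lemma pderiv_lin (x : g) (i : ι) :
    MvPolynomial.pderiv i (lin bs x) = MvPolynomial.C (bs.repr x i) := by
  classical
  unfold lin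
  rw [map_sum, Finset.sum_eq_single i]
  · simp
  · intro j _ hj
    rw [MvPolynomial.pderiv_mul, MvPolynomial.pderiv_X_of_ne hj]
    simp
  · intro h; exact absurd (Finset.mem_univ i) h

lemma aeval_lin {E : Type*} [Field E] [Algebra k E] (ξ : g →ₗ[k] E) (x : g) :
    MvPolynomial.aeval (fun i => ξ (bs i)) (lin bs x) = ξ x := by
  conv_rhs => rw [← bs.sum_repr x]
  simp only [lin, map_sum, map_mul, MvPolynomial.aeval_X, map_smul, Algebra.smul_def,
    MvPolynomial.aeval_C]

/-- The derivation `{·, x}`. -/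
noncomputable def derX (x : g) : Derivation k (MvPolynomial ι k) (MvPolynomial ι k) :=
  ∑ i, lin bs ⁅bs i, x⁆ • MvPolynomial.pderiv i

lemma derX_apply (x : g) (F : MvPolynomial ι k) :
    derX bs x F = ∑ i, lin bs ⁅bs i, x⁆ * MvPolynomial.pderiv i F := by
  unfold derX
  have h := map_sum (Derivation.coeFnAddMonoidHom (R := k) (A := MvPolynomial ι k)
    (M := MvPolynomial ι k)) (fun i => lin bs ⁅bs i, x⁆ • MvPolynomial.pderiv i) Finset.univ
  have h' := congrFun h F
  rw [Finset.sum_apply] at h'
  exact h'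

lemma derX_lin (x z : g) : derX bs x (lin bs z) = lin bs ⁅z, x⁆ := by
  rw [derX_apply]
  simp only [pderiv_lin]
  have h : ⁅z, x⁆ = ∑ i, bs.repr z i • ⁅bs i, x⁆ := by
    conv_lhs => rw [← bs.sum_repr z]
    rw [sum_lie]
    simp
  rw [h, ← linL_apply, map_sum]
  apply Finset.sum_congr rfl
  intro i _
  rw [map_smul, linL_apply, MvPolynomial.smul_eq_C_mul, mul_comm]

lemma pb_eq (F G : MvPolynomial ι k) :
    pb bs (brk k g) F G = ∑ j, derX bs (bs j) F * MvPolynomial.pderiv j G := by
  unfold pb
  rw [Finset.sum_comm]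
  apply Finset.sum_congr rfl
  intro j _
  rw [derX_apply, Finset.sum_mul]
  simp

lemma mem_pcenter_of {F : MvPolynomial ι k} (h : ∀ x : g, derX bs x F = 0) :
    F ∈ pcenter bs (brk k g) := by
  intro G
  rw [pb_eq]
  simp [h]

end lin

section mat
variable {k S : Type*} [CommRing k] [CommRing S] [Algebra k S] {n : Type*} [Fintype n]

lemma map_der_mul (D : Derivation k S S) (A B : Matrix n n S) :
    (A * B).map D = A.map D * B + A * B.map D := by
  ext i j
  simp only [Matrix.map_apply, Matrix.mul_apply, Matrix.add_apply, map_sum, Derivation.leibniz,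
    smul_eq_mul, Finset.sum_add_distrib]
  rw [add_comm]
  congr 1
  exact Finset.sum_congr rfl fun l _ => mul_comm _ _

lemma map_der_pow [DecidableEq n] (D : Derivation k S S) (A X : Matrix n n S) (h : A.map D = X * A - A * X)
    (j : ℕ) : (A ^ j).map D = X * A ^ j - A ^ j * X := by
  induction j with
  | zero =>
    ext a b
    simp only [pow_zero, Matrix.map_apply, mul_one, one_mul, sub_self, Matrix.zero_apply,
      Matrix.one_apply]
    split_ifs <;> simp
  | succ j ih =>
    rw [pow_succ, map_der_mul, ih, h]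
    noncomm_ring

lemma der_trace (D : Derivation k S S) (A : Matrix n n S) :
    D A.trace = (A.map D).trace := by
  simp [Matrix.trace, map_sum]

lemma der_trace_pow [DecidableEq n] (D : Derivation k S S) (A X : Matrix n n S) (h : A.map D = X * A - A * X)
    (j : ℕ) : D (A ^ j).trace = 0 := by
  rw [der_trace, map_der_pow D A X h, Matrix.trace_sub, Matrix.trace_mul_comm, sub_self]

end mat

section hom
variable {σ k : Type*} [CommRing k] {n : Type*} [Fintype n]

lemma hom_mul {A B : Matrix n n (MvPolynomial σ k)} {a b : ℕ}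
    (hA : ∀ i j, (A i j).IsHomogeneous a) (hB : ∀ i j, (B i j).IsHomogeneous b) (i j : n) :
    ((A * B) i j).IsHomogeneous (a + b) := by
  rw [Matrix.mul_apply]
  exact MvPolynomial.IsHomogeneous.sum _ _ _ fun l _ => (hA i l).mul (hB l j)

lemma hom_pow [DecidableEq n] {A : Matrix n n (MvPolynomial σ k)}
    (hA : ∀ i j, (A i j).IsHomogeneous 1) (m : ℕ) (i j : n) :
    ((A ^ m) i j).IsHomogeneous m := by
  induction m generalizing i j with
  | zero =>
    rw [pow_zero, Matrix.one_apply]
    split_ifs
    · exact MvPolynomial.isHomogeneous_one _ _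
    · exact MvPolynomial.isHomogeneous_zero _ _ _
  | succ m ih =>
    rw [pow_succ]
    exact hom_mul ih hA i j

end hom

section casimir
variable {k : Type u} [Field k] {L : Type u} [LieRing L] [LieAlgebra k L] {S : Type*} [CommRing S] [Algebra k S]

/-- The matrix of `ad w` over an algebra. -/
noncomputable def MS (S : Type*) [CommRing S] [Algebra k S] {n : ℕ} (b : Basis (Fin n) k L) :
    L →ₗ[k] Matrix (Fin n) (Fin n) S where
  toFun w := (LinearMap.toMatrix b b (LieAlgebra.ad k L w : Module.End k L)).map (algebraMap k S)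
  map_add' v w := by
    rw [map_add, map_add, Matrix.map_add _ (by simp)]
  map_smul' c w := by
    rw [map_smul, map_smul]
    ext i j
    rw [Matrix.map_apply, Matrix.smul_apply, smul_eq_mul, map_mul, RingHom.id_apply,
      Matrix.smul_apply, Matrix.map_apply, Algebra.smul_def]

lemma MS_apply {n : ℕ} (b : Basis (Fin n) k L) (w : L) :
    MS S b w =
      (LinearMap.toMatrix b b (LieAlgebra.ad k L w : Module.End k L)).map (algebraMap k S) := rfl

lemma MS_lie {n : ℕ} (b : Basis (Fin n) k L) (v w : L) :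
    MS S b ⁅v, w⁆ = MS S b v * MS S b w - MS S b w * MS S b v := by
  have h : (LieAlgebra.ad k L ⁅v, w⁆ : Module.End k L) =
      (LieAlgebra.ad k L v : Module.End k L) * LieAlgebra.ad k L w -
        (LieAlgebra.ad k L w : Module.End k L) * LieAlgebra.ad k L v := by
    ext x
    simp
  simp only [MS_apply]
  rw [h, map_sub, LinearMap.toMatrix_mul,
    LinearMap.toMatrix_mul, Matrix.map_sub _ (by simp), Matrix.map_mul, Matrix.map_mul]

lemma repr_eq [LieAlgebra.IsKilling k L] {n : ℕ} (b : Basis (Fin n) k L) (w : L) (m : Fin n) :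
    b.repr w m = killingForm k L
      ((killingForm k L).dualBasis (LieAlgebra.IsKilling.killingForm_nondegenerate k L) b m) w := by
  conv_rhs => rw [← b.sum_repr w]
  rw [map_sum, Finset.sum_eq_single m]
  · rw [map_smul, LinearMap.BilinForm.apply_dualBasis_left]; simp
  · intro j _ hj
    rw [map_smul, LinearMap.BilinForm.apply_dualBasis_left]; simp [hj]
  · intro h; exact absurd (Finset.mem_univ m) h

/-- invariance of the canonical element -/
lemma invariance [LieAlgebra.IsKilling k L] {n : ℕ} (b : Basis (Fin n) k L) (v : L)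
    (ℓ : L →ₗ[k] S) :
    let b' := (killingForm k L).dualBasis (LieAlgebra.IsKilling.killingForm_nondegenerate k L) b
    ∑ l, ℓ ⁅b l, v⁆ • MS S b (b' l) = ∑ l, ℓ (b l) • MS S b ⁅v, b' l⁆ := by
  intro b'
  have h1 : ∀ l, ⁅b l, v⁆ = ∑ m, killingForm k L (b' m) ⁅b l, v⁆ • b m := by
    intro l
    conv_lhs => rw [← b.sum_repr ⁅b l, v⁆]
    exact Finset.sum_congr rfl fun m _ => by rw [repr_eq b]
  have h2 : ∀ m, ⁅v, b' m⁆ = ∑ l, killingForm k L (b' m) ⁅b l, v⁆ • b' l := by
    intro m
    conv_lhs => rw [← b'.sum_repr ⁅v, b' m⁆]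
    apply Finset.sum_congr rfl
    intro l _
    rw [LinearMap.BilinForm.dualBasis_repr_apply]
    congr 1
    have e1 : (killingForm k L) ⁅v, b' m⁆ (b l) = - (killingForm k L) (b' m) ⁅v, b l⁆ :=
      LieModule.traceForm_apply_lie_apply' k L L v (b' m) (b l)
    rw [e1, ← lie_skew v (b l), map_neg, neg_neg]
  calc ∑ l, ℓ ⁅b l, v⁆ • MS S b (b' l)
      = ∑ l, ∑ m, (killingForm k L (b' m) ⁅b l, v⁆) • (ℓ (b m) • MS S b (b' l)) := by
        apply Finset.sum_congr rfl
        intro l _
        conv_lhs => rw [h1 l]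
        rw [map_sum, Finset.sum_smul]
        apply Finset.sum_congr rfl
        intro m _
        rw [map_smul, smul_assoc]
    _ = ∑ m, ∑ l, (killingForm k L (b' m) ⁅b l, v⁆) • (ℓ (b m) • MS S b (b' l)) :=
        Finset.sum_comm
    _ = ∑ m, ℓ (b m) • MS S b ⁅v, b' m⁆ := by
        apply Finset.sum_congr rfl
        intro m _
        conv_rhs => rw [h2 m]
        rw [map_sum, Finset.smul_sum]
        apply Finset.sum_congr rfl
        intro l _
        rw [map_smul, smul_comm]

/-- the generic matrix -/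
noncomputable def genA [LieAlgebra.IsKilling k L] {n : ℕ} (b : Basis (Fin n) k L)
    (ℓ : L →ₗ[k] S) : Matrix (Fin n) (Fin n) S :=
  ∑ l, ℓ (b l) • MS S b ((killingForm k L).dualBasis
    (LieAlgebra.IsKilling.killingForm_nondegenerate k L) b l)

lemma genA_der [LieAlgebra.IsKilling k L] {n : ℕ} (b : Basis (Fin n) k L) (v : L)
    (ℓ : L →ₗ[k] S) (D : Derivation k S S) (hD : ∀ w, D (ℓ w) = ℓ ⁅w, v⁆) :
    (genA b ℓ).map D = MS S b v * genA b ℓ - genA b ℓ * MS S b v := by
  have h0 : (genA b ℓ).map D = ∑ l, ℓ ⁅b l, v⁆ • MS S b ((killingForm k L).dualBasis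
    (LieAlgebra.IsKilling.killingForm_nondegenerate k L) b l) := by
    ext i j
    simp only [genA, Matrix.map_apply, Matrix.sum_apply, Matrix.smul_apply, map_sum, smul_eq_mul,
      Derivation.leibniz, hD, MS_apply, Derivation.map_algebraMap, mul_zero, zero_add]
    exact Finset.sum_congr rfl fun l _ => mul_comm _ _
  rw [h0, invariance b v ℓ]
  simp only [MS_lie, genA, Finset.mul_sum, Finset.sum_mul, ← Finset.sum_sub_distrib, smul_sub,
    Matrix.mul_smul, Matrix.smul_mul]

end casimir

end DC

open DC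

/-- Elements of the centre of `g` give Poisson central linear polynomials. -/
theorem lin_mem_pcenter {k : Type u} [Field k] {g : Type u} [LieRing g] [LieAlgebra k g]
    {ι : Type*} [Fintype ι] (bs : Basis ι k g) {z : g} (hz : z ∈ LieAlgebra.center k g) :
    lin bs z ∈ pcenter bs (brk k g) := by
  apply mem_pcenter_of
  intro x
  rw [derX_lin]
  have : ⁅z, x⁆ = 0 := by
    rw [← lie_skew, (LieModule.mem_maxTrivSubmodule k g g z).1 hz x, neg_zero]
  rw [this, ← linL_apply, map_zero]


/-- The trace polynomials `ξ ↦ tr (ad y) ^ j` where `ξ = κ(y, ·)` on the ideal `I`. -/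
theorem exists_casimir {k : Type u} [Field k] [CharZero k] {g : Type u}
    [LieRing g] [LieAlgebra k g] [FiniteDimensional k g] (I : LieIdeal k g)
    (hI : IsCompl (LieAlgebra.center k g) I) [LieAlgebra.IsKilling k I]
    {ι : Type*} [Fintype ι] (bs : Basis ι k g) (j : ℕ) :
    ∃ F : MvPolynomial ι k, F.IsHomogeneous j ∧ F ∈ pcenter bs (brk k g) ∧
      ∀ (E : Type v) [Field E] [Algebra k E] (ξ : g →ₗ[k] E) (y : E ⊗[k] I),
        (∀ x : I, ξ (x : g) = killingForm E (E ⊗[k] I) y (1 ⊗ₜ[k] x)) →
        MvPolynomial.aeval (fun i => ξ (bs i)) F =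
          LinearMap.trace E (E ⊗[k] I)
            ((LieAlgebra.ad E (E ⊗[k] I) y : Module.End E (E ⊗[k] I)) ^ j) := by
  classical
  set b := Module.finBasis k I with hb
  set ℓ : I →ₗ[k] MvPolynomial ι k := linL bs ∘ₗ I.toSubmodule.subtype with hℓ
  have hℓa : ∀ w : I, ℓ w = lin bs (w : g) := fun w => rfl
  refine ⟨((genA b ℓ) ^ j).trace, ?_, ?_, ?_⟩
  · unfold Matrix.trace
    apply MvPolynomial.IsHomogeneous.sum
    intro i _
    rw [Matrix.diag_apply]
    apply hom_pow
    intro i' j'
    unfold genA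
    rw [Matrix.sum_apply]
    apply MvPolynomial.IsHomogeneous.sum
    intro l _
    rw [Matrix.smul_apply, smul_eq_mul, hℓa, MS_apply, Matrix.map_apply,
      MvPolynomial.algebraMap_eq]
    simpa using (lin_isHomogeneous bs _).mul (MvPolynomial.isHomogeneous_C ι _)
  · apply mem_pcenter_of
    intro x
    have hx : x ∈ (LieAlgebra.center k g ⊔ I : LieSubmodule k g g) := by
      rw [hI.sup_eq_top]; trivial
    obtain ⟨z, hz, v, hv, rfl⟩ := (LieSubmodule.mem_sup _ _ _).1 hx
    apply der_trace_pow (derX bs (z + v)) (genA b ℓ) (MS _ b ⟨v, hv⟩)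
    apply genA_der
    intro w
    rw [hℓa, derX_lin, hℓa]
    congr 1
    rw [lie_add, (LieModule.mem_maxTrivSubmodule k g g z).1 hz, zero_add]
    rfl
  · intro E _ _ ξ y hy
    set b' := (killingForm k I).dualBasis
      (LieAlgebra.IsKilling.killingForm_nondegenerate k I) b with hb'
    have hy' : y = ∑ l, ξ (b l : g) • ((1 : E) ⊗ₜ[k] b' l) := by
      have e1 := ((Algebra.TensorProduct.basis E b').sum_repr y).symm
      have hK : ∀ l m, killingForm E (E ⊗[k] I) (1 ⊗ₜ[k] b' l) (1 ⊗ₜ[k] b m) =
          if m = l then 1 else 0 := by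
        intro l m
        change LieModule.traceForm E (E ⊗[k] I) (E ⊗[k] I) (1 ⊗ₜ[k] b' l) (1 ⊗ₜ[k] b m) = _
        rw [LieModule.traceForm_baseChange, LinearMap.BilinForm.baseChange_tmul]
        have : LieModule.traceForm k I I (b' l) (b m) = if m = l then 1 else 0 :=
          LinearMap.BilinForm.apply_dualBasis_left _ _ _ _
        rw [this]
        split_ifs <;> simp
      have e2 : ∀ m, (Algebra.TensorProduct.basis E b').repr y m = ξ (b m : g) := by
        intro m
        rw [hy (b m)]
        conv_rhs => rw [e1]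
        rw [map_sum, LinearMap.sum_apply, Finset.sum_eq_single m]
        · rw [map_smul, LinearMap.smul_apply, Algebra.TensorProduct.basis_apply, hK]; simp
        · intro l _ hl
          rw [map_smul, LinearMap.smul_apply, Algebra.TensorProduct.basis_apply, hK]
          simp [hl.symm]
        · intro h; exact absurd (Finset.mem_univ m) h
      conv_lhs => rw [e1]
      exact Finset.sum_congr rfl fun m _ => by rw [e2 m, Algebra.TensorProduct.basis_apply]
    have hA : (MvPolynomial.aeval (fun i => ξ (bs i)) : _ →ₐ[k] E).toRingHom.mapMatrix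
        (genA b ℓ) =
        LinearMap.toMatrix (Algebra.TensorProduct.basis E b) (Algebra.TensorProduct.basis E b)
          (LieAlgebra.ad E (E ⊗[k] I) y : Module.End E (E ⊗[k] I)) := by
      rw [hy', map_sum, map_sum, genA, map_sum]
      apply Finset.sum_congr rfl
      intro l _
      have h0 : (LieAlgebra.ad E (E ⊗[k] I) (ξ (b l : g) • ((1 : E) ⊗ₜ[k] b' l)) :
          Module.End E (E ⊗[k] I)) =
          ξ (b l : g) • (LieAlgebra.ad E (E ⊗[k] I) ((1 : E) ⊗ₜ[k] b' l) :
            Module.End E (E ⊗[k] I)) := map_smul _ _ _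
      have h1 : (LieAlgebra.ad E (E ⊗[k] I) ((1 : E) ⊗ₜ[k] b' l) : Module.End E (E ⊗[k] I)) =
          (LieAlgebra.ad k I (b' l) : Module.End k I).baseChange E :=
        LieModule.toEnd_baseChange (R := k) (L := I) (M := I) (A := E) (b' l)
      rw [h0, h1, LinearEquiv.map_smul, LinearMap.toMatrix_baseChange]
      ext i j
      simp only [RingHom.mapMatrix_apply, Matrix.map_apply, Matrix.smul_apply, smul_eq_mul,
        map_mul, MS_apply, hℓa]
      congr 1
      · exact aeval_lin bs ξ _
      · exact (MvPolynomial.aeval (fun i => ξ (bs i)) : _ →ₐ[k] E).commutes _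
    rw [LinearMap.trace_eq_matrix_trace E (Algebra.TensorProduct.basis E b),
      ← LinearMap.toMatrix_pow, ← hA, ← map_pow]
    simp [Matrix.trace, map_sum]

end F80
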