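import Pool.Agent.H45.F80.DP
import Pool.Agent.H45.F80.DC
import Pool.Agent.H45.F80.BC
/-! Module DZ: points of the zero fibre. -/
open Module TensorProduct
universe u
namespace F80

/-- An endomorphism all of whose powers have trace zero is nilpotent. -/
theorem isNilpotent_of_trace {F V : Type*} [Field F] [CharZero F] [AddCommGroup V] [Module F V]
    [FiniteDimensional F V] (T : Module.End F V)
    (hT : ∀ j : ℕ, 0 < j → LinearMap.trace F V (T ^ j) = 0) : IsNilpotent T := by
  obtain ⟨q, hq, hnd⟩ := Polynomial.exists_eq_pow_rootMultiplicity_mul_and_not_dvd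
    T.charpoly T.charpoly_monic.ne_zero (0 : F)
  set n := Polynomial.rootMultiplicity (0 : F) T.charpoly with hn
  rw [Polynomial.C_0, sub_zero] at hq hnd
  have hcop : IsCoprime (Polynomial.X ^ (n + 1) : Polynomial F) q :=
    (Polynomial.irreducible_X.coprime_iff_not_dvd.mpr hnd).pow_left
  obtain ⟨a, b, hab⟩ := hcop
  obtain ⟨φ, hφ⟩ : ∃ φ : Polynomial F →ₐ[F] Module.End F V, φ = Polynomial.aeval T := ⟨_, rfl⟩
  have hφX : φ Polynomial.X = T := by rw [hφ, Polynomial.aeval_X]
  have hcp : φ (Polynomial.X ^ n * q) = 0 := by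
    rw [← hq, hφ]; exact T.aeval_self_charpoly
  obtain ⟨e, he⟩ : ∃ e, e = φ (a * Polynomial.X ^ (n + 1)) := ⟨_, rfl⟩
  have hidem : IsIdempotentElem e := by
    have h1 : e * (1 - e) = 0 := by
      have h2 : (1 : Module.End F V) - e = φ (b * q) := by
        rw [he, ← map_one φ, ← hab, map_add, add_sub_cancel_left]
      rw [h2, he, ← map_mul]
      have h3 : a * Polynomial.X ^ (n + 1) * (b * q) =
          (a * b * Polynomial.X) * (Polynomial.X ^ n * q) := by ring
      rw [h3, map_mul, hcp, mul_zero]
    have h4 : e * e = e - e * (1 - e) := by rw [mul_sub, mul_one]; abel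
    rw [IsIdempotentElem, h4, h1, sub_zero]
  have htr : LinearMap.trace F V e = 0 := by
    have h5 : ∀ p : Polynomial F,
        LinearMap.trace F V (φ (p * Polynomial.X ^ (n + 1))) = 0 := by
      intro p
      induction p using Polynomial.induction_on' with
      | add p q hp hq => rw [add_mul, map_add, map_add, hp, hq, add_zero]
      | monomial m c =>
        rw [← Polynomial.C_mul_X_pow_eq_monomial, mul_assoc, ← pow_add, ← Polynomial.smul_eq_C_mul,
          map_smul, map_pow, hφX, map_smul, hT _ (by omega), smul_zero]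
    rw [he]; exact h5 a
  have he0 : e = 0 := (LinearMap.IsIdempotentElem.trace_eq_zero_iff hidem).mp htr
  have h6 : φ (b * q) = 1 := by
    have := congrArg φ hab
    rw [map_add, map_one, ← he, he0, zero_add] at this
    exact this
  refine ⟨n, ?_⟩
  have h7 : φ (Polynomial.X ^ n) = T ^ n := by rw [map_pow, hφX]
  have h8 : φ (Polynomial.X ^ n) * φ (b * q) = 0 := by
    rw [← map_mul]
    have h9 : Polynomial.X ^ n * (b * q) = b * (Polynomial.X ^ n * q) := by ring
    rw [h9, map_mul, hcp, mul_zero]
  rw [h6, mul_one, h7] at h8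
  exact h8

section prI
variable {k : Type u} [Field k] {g : Type u} [LieRing g] [LieAlgebra k g]
    (I : LieIdeal k g) (hI : IsCompl (LieAlgebra.center k g) I)

theorem isCompl_sub (hI : IsCompl (LieAlgebra.center k g) I) :
    IsCompl ((I : LieIdeal k g) : Submodule k g)
      ((LieAlgebra.center k g : LieIdeal k g) : Submodule k g) := by
  rw [isCompl_comm, isCompl_iff, disjoint_iff, codisjoint_iff]
  rw [isCompl_iff, disjoint_iff, codisjoint_iff] at hI
  constructor
  · have := congrArg LieSubmodule.toSubmodule hI.1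
    simpa using this
  · have := congrArg LieSubmodule.toSubmodule hI.2
    simpa using this

/-- The projection of `g` to the ideal `I` along the centre, as a homomorphism of Lie algebras. -/
noncomputable def prI : g →ₗ⁅k⁆ I :=
  { (Submodule.projectionOnto _ _ (isCompl_sub I hI) : g →ₗ[k] I) with
    map_lie' := by
      intro x y
      set p : g →ₗ[k] I := Submodule.projectionOnto _ _ (isCompl_sub I hI) with hp
      have hc : ∀ x : g, x - (p x : g) ∈ LieAlgebra.center k g := fun x =>
        Submodule.sub_projection_mem (isCompl_sub I hI) x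
      have hpI : ∀ a : I, p (a : g) = a := fun a =>
        Submodule.projectionOnto_apply_left (isCompl_sub I hI) a
      have hbr : ∀ z ∈ LieAlgebra.center k g, ∀ y : g, ⁅z, y⁆ = 0 := by
        intro z hz y
        have := (LieModule.mem_maxTrivSubmodule (R := k) (L := g) (M := g) z).mp hz y
        rw [← lie_skew, this, neg_zero]
      have h1 : ⁅x, y⁆ = ((⁅p x, p y⁆ : I) : g) := by
        have e1 : ⁅x, y⁆ = ⁅(p x : g), y⁆ := by
          have := hbr _ (hc x) y
          rwa [sub_lie, sub_eq_zero] at this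
        have e2 : ⁅(p x : g), y⁆ = ⁅(p x : g), (p y : g)⁆ := by
          have := hbr _ (hc y) (p x : g)
          rw [sub_lie, sub_eq_zero] at this
          rw [← lie_skew, this, lie_skew]
        rw [e1, e2]; rfl
      change p ⁅x, y⁆ = ⁅p x, p y⁆
      rw [h1, hpI] }

theorem prI_coe (x : I) : prI I hI (x : g) = x :=
  Submodule.projectionOnto_apply_left (isCompl_sub I hI) x

theorem sub_prI_mem (x : g) : x - (prI I hI x : g) ∈ LieAlgebra.center k g :=
  Submodule.sub_projection_mem (isCompl_sub I hI) x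

theorem prI_center {z : g} (hz : z ∈ LieAlgebra.center k g) : prI I hI z = 0 := by
  have h1 : ((prI I hI z : I) : g) = 0 := by
    change (Submodule.projectionOnto _ _ (isCompl_sub I hI) z : g) = 0
    have := (Submodule.projection_apply_eq_zero_iff (isCompl_sub I hI) (x := z)).mpr hz
    exact this
  exact Subtype.ext h1

end prI

theorem dz_lin_add {k : Type u} [Field k] {g : Type u} [LieRing g] [LieAlgebra k g]
    {ι : Type*} [Fintype ι] (bs : Basis ι k g) (x y : g) :
    lin bs (x + y) = lin bs x + lin bs y := by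
  simp only [lin, map_add, Finsupp.add_apply, add_mul, Finset.sum_add_distrib]

theorem dz_lin_smul {k : Type u} [Field k] {g : Type u} [LieRing g] [LieAlgebra k g]
    {ι : Type*} [Fintype ι] (bs : Basis ι k g) (c : k) (x : g) :
    lin bs (c • x) = MvPolynomial.C c * lin bs x := by
  simp only [lin, map_smul, Finsupp.smul_apply, smul_eq_mul, map_mul, Finset.mul_sum, mul_assoc]

theorem dz_lin_isHomogeneous {k : Type u} [Field k] {g : Type u} [LieRing g] [LieAlgebra k g]
    {ι : Type*} [Fintype ι] (bs : Basis ι k g) (x : g) : (lin bs x).IsHomogeneous 1 := by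
  unfold lin
  refine MvPolynomial.IsHomogeneous.sum _ _ _ fun i _ => ?_
  have := (MvPolynomial.isHomogeneous_C ι (bs.repr x i)).mul (MvPolynomial.isHomogeneous_X k i)
  simpa using this

/-- evaluating `lin` at the values of a linear map -/
theorem dz_aeval_lin {k : Type u} [Field k] {g : Type u} [LieRing g] [LieAlgebra k g]
    {ι : Type*} [Fintype ι] (bs : Basis ι k g) {F : Type*} [CommRing F] [Algebra k F]
    (ξ : g →ₗ[k] F) (x : g) :
    MvPolynomial.aeval (fun i => ξ (bs i)) (lin bs x) = ξ x := by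
  conv_rhs => rw [← bs.sum_repr x]
  simp only [lin, map_sum, map_mul, MvPolynomial.aeval_X, MvPolynomial.algHom_C, map_smul,
    Algebra.smul_def]

/-- A point of the zero fibre of all homogeneous elements of positive degree of the Poisson
centres of the pencil (for `t ≠ 0`) is `κ(a + b, ·)` with `a`, `b` orthogonal to the projections
of `r`, `h`, and `a + c b` ad-nilpotent. -/
theorem zero_fibre {k : Type u} [Field k] [CharZero k] [IsAlgClosed k] {g : Type u}
    [LieRing g] [LieAlgebra k g] [FiniteDimensional k g] (I : LieIdeal k g)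
    (hI : IsCompl (LieAlgebra.center k g) I) [LieAlgebra.IsKilling k I]
    {h r : LieSubalgebra k g} (hc : IsCompl h.toSubmodule r.toSubmodule)
    {ι : Type*} [Fintype ι] (bs : Basis ι k g)
    {F : Type*} [Field F] [Algebra k F] (ρ : MvPolynomial ι k →ₐ[k] F)
    (hρ : ∀ (P : MvPolynomial ι k) (d : ℕ) (t : k), 0 < d → t ≠ 0 → P.IsHomogeneous d →
      P ∈ pcenter bs (pen hc (some t)) → ρ P = 0) :
    ∃ a b : F ⊗[k] I,
      (∀ x ∈ r, killingForm F (F ⊗[k] I) a (1 ⊗ₜ[k] prI I hI x) = 0) ∧
      (∀ x ∈ h, killingForm F (F ⊗[k] I) b (1 ⊗ₜ[k] prI I hI x) = 0) ∧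
      (∀ x : g, ρ (lin bs x) = killingForm F (F ⊗[k] I) (a + b) (1 ⊗ₜ[k] prI I hI x)) ∧
      ∀ c : k, c ≠ 0 → IsNilpotent (LieAlgebra.ad F (F ⊗[k] I) (a + algebraMap k F c • b) :
        Module.End F (F ⊗[k] I)) := by
  classical
  have : CharZero F := charZero_of_injective_algebraMap (algebraMap k F).injective
  -- the linear form
  let ξ : g →ₗ[k] F :=
    { toFun := fun x => ρ (lin bs x)
      map_add' := fun x y => by rw [dz_lin_add, map_add]
      map_smul' := fun c x => by
        rw [dz_lin_smul, map_mul, MvPolynomial.algHom_C, RingHom.id_apply, Algebra.smul_def] }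
  have hξ : ∀ x, ξ x = ρ (lin bs x) := fun _ => rfl
  set ph := h.toSubmodule.projection r.toSubmodule hc with hph
  set pr := r.toSubmodule.projection h.toSubmodule hc.symm with hpr
  let ξh : g →ₗ[k] F := ξ ∘ₗ ph
  let ξr : g →ₗ[k] F := ξ ∘ₗ pr
  have hsum : ∀ x, ξ x = ξh x + ξr x := by
    intro x
    change ξ x = ξ (ph x) + ξ (pr x)
    rw [← map_add, Submodule.projection_add_projection_eq_self]
  -- vanishing of central elements
  have key : ∀ (t : k), t ≠ 0 → ∀ (G : MvPolynomial ι k) (d : ℕ), 0 < d → G.IsHomogeneous d →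
      G ∈ pcenter bs (brk k g) →
      MvPolynomial.aeval (fun i => (ξh + t⁻¹ • ξr) (bs i)) G = 0 := by
    intro t ht G d hd hG hGc
    have h1 := aeval_resc_mem_pcenter hc bs ht hGc
    have h2 : (MvPolynomial.aeval (fun i => lin bs (resc hc t (bs i))) G).IsHomogeneous d := by
      have := hG.aeval (fun i => lin bs (resc hc t (bs i))) (fun i => dz_lin_isHomogeneous bs _)
      simpa using this
    have h3 := hρ _ d t hd ht h2 h1
    rw [← h3]
    have h4 : (ρ.comp (MvPolynomial.aeval (fun i => lin bs (resc hc t (bs i))))) =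
        MvPolynomial.aeval (fun i => (ξh + t⁻¹ • ξr) (bs i)) := by
      apply MvPolynomial.algHom_ext
      intro i
      simp only [AlgHom.comp_apply, MvPolynomial.aeval_X]
      rw [← hξ]
      simp only [resc, map_add, map_smul, LinearMap.add_apply, LinearMap.smul_apply, ξh, ξr,
        LinearMap.comp_apply, hph, hpr]
    rw [← h4, AlgHom.comp_apply]
  have hz : ∀ z ∈ LieAlgebra.center k g, ξh z = 0 ∧ ξr z = 0 := by
    intro z hz
    have e1 := key 1 one_ne_zero (lin bs z) 1 one_pos (dz_lin_isHomogeneous bs z)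
      (lin_mem_pcenter bs hz)
    have e2 := key 2 two_ne_zero (lin bs z) 1 one_pos (dz_lin_isHomogeneous bs z)
      (lin_mem_pcenter bs hz)
    rw [dz_aeval_lin] at e1 e2
    simp only [LinearMap.add_apply, LinearMap.smul_apply, inv_one, one_smul] at e1 e2
    have e3 : (2 : k) • (ξh z + (2 : k)⁻¹ • ξr z) = 0 := by rw [e2, smul_zero]
    rw [smul_add, smul_smul, mul_inv_cancel₀ (two_ne_zero), one_smul, two_smul] at e3
    have e4 : ξh z = 0 := by
      have : ξh z = (ξh z + ξh z + ξr z) - (ξh z + ξr z) := by ring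
      rw [this, e3, e1, sub_zero]
    exact ⟨e4, by rw [e4, zero_add] at e1; exact e1⟩
  -- representation by the Killing form
  have hndg := LieAlgebra.IsKilling.killingForm_nondegenerate F (F ⊗[k] I)
  have hrep : ∀ η : g →ₗ[k] F, ∃ a : F ⊗[k] I, ∀ x : I,
      η (x : g) = killingForm F (F ⊗[k] I) a (1 ⊗ₜ[k] x) := by
    intro η
    let η' : F ⊗[k] I →ₗ[F] F :=
      TensorProduct.AlgebraTensorModule.lift
        ((LinearMap.toSpanSingleton F (I →ₗ[k] F) (η ∘ₗ I.toSubmodule.subtype)))
    refine ⟨(LinearMap.BilinForm.toDual (killingForm F (F ⊗[k] I)) hndg).symm η', fun x => ?_⟩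
    rw [LinearMap.BilinForm.apply_toDual_symm_apply]
    simp only [η', TensorProduct.AlgebraTensorModule.lift_tmul, LinearMap.toSpanSingleton_apply,
      one_smul, LinearMap.comp_apply]
    rfl
  obtain ⟨a, ha⟩ := hrep ξh
  obtain ⟨b, hb⟩ := hrep ξr
  have hfac : ∀ (η : g →ₗ[k] F), (∀ z ∈ LieAlgebra.center k g, η z = 0) → ∀ x : g,
      η x = η (prI I hI x : g) := by
    intro η hη x
    have := hη _ (sub_prI_mem I hI x)
    rwa [map_sub, sub_eq_zero] at this
  have ha' : ∀ x : g, ξh x = killingForm F (F ⊗[k] I) a (1 ⊗ₜ[k] prI I hI x) := fun x => by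
    rw [hfac ξh (fun z h => (hz z h).1) x, ha]
  have hb' : ∀ x : g, ξr x = killingForm F (F ⊗[k] I) b (1 ⊗ₜ[k] prI I hI x) := fun x => by
    rw [hfac ξr (fun z h => (hz z h).2) x, hb]
  refine ⟨a, b, ?_, ?_, ?_, ?_⟩
  · intro x hx
    rw [← ha']
    change ξ (ph x) = 0
    rw [(Submodule.projection_apply_eq_zero_iff hc).mpr hx, map_zero]
  · intro x hx
    rw [← hb']
    change ξ (pr x) = 0
    rw [(Submodule.projection_apply_eq_zero_iff hc.symm).mpr hx, map_zero]
  · intro x
    rw [map_add, LinearMap.add_apply, ← ha', ← hb', ← hξ, hsum]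
  · intro c hc0
    apply isNilpotent_of_trace
    intro j hj
    obtain ⟨P, hP1, hP2, hP3⟩ := exists_casimir I hI bs j
    have h5 := hP3 F (ξh + (c⁻¹)⁻¹ • ξr) (a + algebraMap k F c • b) (by
      intro x
      rw [inv_inv, LinearMap.add_apply, LinearMap.smul_apply, ha, hb, map_add,
        LinearMap.add_apply, map_smul, LinearMap.smul_apply, algebraMap_smul])
    rw [← h5]
    exact key c⁻¹ (inv_ne_zero hc0) P j hj hP1 hP2

end F80
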