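import Mathlib
/-! Ranks of bilinear forms: minors, openness, and the Schur inequality. -/
open Module
namespace F80.FR

variable {K V W : Type*} [Field K] [AddCommGroup V] [Module K V] [AddCommGroup W] [Module K W]

/-- The matrix of values of a form. -/
def mat {α β : Type*} (C : V →ₗ[K] W →ₗ[K] K) (a : α → V) (b : β → W) : Matrix α β K :=
  Matrix.of fun i j => C (a i) (b j)

theorem le_of_det {q : Type*} [Fintype q] [DecidableEq q] [FiniteDimensional K V]
    [FiniteDimensional K W]
    (C : V →ₗ[K] W →ₗ[K] K) (a : q → V) (b : q → W) (h : (mat C a b).det ≠ 0) :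
    Fintype.card q ≤ finrank K (LinearMap.range C) := by
  have hli : LinearIndependent K (fun i => C (a i)) := by
    refine Fintype.linearIndependent_iff.mpr ?_
    intro c hc i
    have h1 : Matrix.vecMul c (mat C a b) = 0 := by
      funext j
      have h2 := congrArg (fun z : W →ₗ[K] K => z (b j)) hc
      simp only [LinearMap.sum_apply, LinearMap.smul_apply, smul_eq_mul,
        LinearMap.zero_apply] at h2
      simpa [Matrix.vecMul, dotProduct, mat] using h2
    have h3 := Matrix.eq_zero_of_vecMul_eq_zero h h1
    exact congrFun h3 i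
  rw [← finrank_span_eq_card hli]
  refine Submodule.finrank_mono (Submodule.span_le.mpr ?_)
  rintro _ ⟨i, rfl⟩
  exact LinearMap.mem_range_self C (a i)

theorem exists_det [FiniteDimensional K V] [FiniteDimensional K W]
    (C : V →ₗ[K] W →ₗ[K] K) :
    ∃ (a : Fin (finrank K (LinearMap.range C)) → V) (b : Fin (finrank K (LinearMap.range C)) → W),
      (mat C a b).det ≠ 0 := by
  classical
  -- independent functionals
  obtain ⟨κ, a0, hinj, hspan, hli0⟩ :=
    exists_linearIndependent' K (fun i => C ((finBasis K V) i))
  have : Finite κ := Finite.of_injective a0 hinj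
  have : Fintype κ := Fintype.ofFinite κ
  have hrange : Submodule.span K (Set.range fun i => C ((finBasis K V) i)) =
      LinearMap.range C := by
    rw [← Submodule.map_top, ← (finBasis K V).span_eq, Submodule.map_span, ← Set.range_comp]
    rfl
  have hcard : Fintype.card κ = finrank K (LinearMap.range C) := by
    rw [← hrange, ← hspan, finrank_span_eq_card hli0]
  set r := finrank K (LinearMap.range C) with hr
  let eκ : Fin r ≃ κ := (finCongr hcard.symm).trans (Fintype.equivFin κ).symm
  let a : Fin r → V := fun i => (finBasis K V) (a0 (eκ i))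
  have hli : LinearIndependent K (fun i => C (a i)) := hli0.comp eκ eκ.injective
  -- the map `W → K^r` is onto
  let φ : W →ₗ[K] (Fin r → K) := LinearMap.pi fun i => C (a i)
  have hsurj : LinearMap.range φ = ⊤ := by
    by_contra hne
    obtain ⟨ψ, hψ, hψ'⟩ := Submodule.exists_le_ker_of_lt_top _ (lt_top_iff_ne_top.mpr hne)
    apply hψ
    have h1 : ∀ i, ψ (Pi.single i 1) = 0 := by
      apply Fintype.linearIndependent_iff.mp hli (fun i => ψ (Pi.single i 1))
      ext w
      have h2 : ψ (φ w) = 0 := hψ' ⟨w, rfl⟩
      have h3 : φ w = ∑ i, C (a i) w • (Pi.single i (1 : K) : Fin r → K) := by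
        funext j
        simp [φ, Finset.sum_apply, Pi.single_apply]
      rw [h3, map_sum] at h2
      simp only [LinearMap.sum_apply, LinearMap.smul_apply, smul_eq_mul, LinearMap.zero_apply]
      rw [← h2]
      refine Finset.sum_congr rfl fun i _ => ?_
      rw [map_smul, smul_eq_mul, mul_comm]
    ext i
    simpa using h1 i
  rw [LinearMap.range_eq_top] at hsurj
  choose b hb using fun i => hsurj (Pi.single i (1 : K))
  refine ⟨a, b, ?_⟩
  have h4 : mat C a b = 1 := by
    ext i j
    have := congrFun (hb j) i
    simpa [φ, mat, Matrix.one_apply, Pi.single_apply, eq_comm] using this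
  rw [h4, Matrix.det_one]
  exact one_ne_zero

/-- The polynomial matrix of a pencil. -/
noncomputable def pmat {α β : Type*} (A B : V →ₗ[K] W →ₗ[K] K) (a : α → V) (b : β → W) :
    Matrix α β (Polynomial K) :=
  Matrix.of fun i j => Polynomial.C (A (a i) (b j)) + Polynomial.X * Polynomial.C (B (a i) (b j))

theorem eval_pmat {α : Type*} [Fintype α] [DecidableEq α] (A B : V →ₗ[K] W →ₗ[K] K)
    (a : α → V) (b : α → W) (c : K) :
    (pmat A B a b).det.eval c = (mat (A + c • B) a b).det := by
  have h1 := (Polynomial.evalRingHom c).map_det (pmat A B a b)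
  rw [Polynomial.coe_evalRingHom] at h1
  rw [h1]
  congr 1
  ext i j
  simp only [pmat, mat, RingHom.mapMatrix_apply, Matrix.map_apply, Matrix.of_apply,
    Polynomial.coe_evalRingHom, Polynomial.eval_add, Polynomial.eval_mul, Polynomial.eval_X,
    Polynomial.eval_C, LinearMap.add_apply, LinearMap.smul_apply, smul_eq_mul]

/-- Openness of the rank condition along a line. -/
theorem finite_rank_lt [FiniteDimensional K V] [FiniteDimensional K W]
    (A B : V →ₗ[K] W →ₗ[K] K) :
    {c : K | finrank K (LinearMap.range (A + c • B)) <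
      finrank K (LinearMap.range A)}.Finite := by
  classical
  obtain ⟨a, b, hab⟩ := exists_det A
  have h0 : (pmat A B a b).det ≠ 0 := by
    intro h
    have := eval_pmat A B a b 0
    rw [h, Polynomial.eval_zero, zero_smul, add_zero] at this
    exact hab this.symm
  refine ((pmat A B a b).det.roots.toFinset.finite_toSet).subset ?_
  intro c hc
  rw [Finset.mem_coe, Multiset.mem_toFinset, Polynomial.mem_roots h0, Polynomial.IsRoot.def,
    eval_pmat]
  by_contra hne
  have := le_of_det (A + c • B) a b hne
  rw [Fintype.card_fin] at this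
  exact absurd (lt_of_lt_of_le hc this) (lt_irrefl _)

/-- The Schur inequality: if `u`, `v` are families in the left and right kernels of `A` on which
`B` is nondegenerate, then the rank of `A + c B` is at least `rank A + p` for almost all `c`. -/
theorem schur [FiniteDimensional K V] [FiniteDimensional K W] {p : ℕ}
    (A B : V →ₗ[K] W →ₗ[K] K) (u : Fin p → V) (v : Fin p → W)
    (hu : ∀ i w, A (u i) w = 0) (hv : ∀ j w, A w (v j) = 0) (hdet : (mat B u v).det ≠ 0) :
    {c : K | finrank K (LinearMap.range (A + c • B)) <
      finrank K (LinearMap.range A) + p}.Finite := by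
  classical
  obtain ⟨r, hr, a, b, hab⟩ : ∃ r, r = finrank K (LinearMap.range A) ∧
      ∃ (a : Fin r → V) (b : Fin r → W), (mat A a b).det ≠ 0 := by
    obtain ⟨a, b, hab⟩ := exists_det A
    exact ⟨_, rfl, a, b, hab⟩
  rw [← hr]
  -- the polynomial matrix with the factor `X` removed from the last columns
  let N : Matrix (Fin r ⊕ Fin p) (Fin r ⊕ Fin p) (Polynomial K) :=
    Matrix.fromBlocks (pmat A B a b)
      (Matrix.of fun i j => Polynomial.C (B (a i) (v j)))
      (Matrix.of fun i j => Polynomial.X * Polynomial.C (B (u i) (b j)))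
      (Matrix.of fun i j => Polynomial.C (B (u i) (v j)))
  have hN0 : N.det.eval 0 = (mat A a b).det * (mat B u v).det := by
    have h1 := (Polynomial.evalRingHom (0 : K)).map_det N
    rw [Polynomial.coe_evalRingHom] at h1
    rw [h1]
    have h2 : (Polynomial.evalRingHom (0 : K)).mapMatrix N =
        Matrix.fromBlocks (mat A a b) (Matrix.of fun i j => B (a i) (v j)) 0 (mat B u v) := by
      ext i j
      rcases i with i | i <;> rcases j with j | j <;> simp [N, pmat, mat, Matrix.fromBlocks]
    rw [h2, Matrix.det_fromBlocks_zero₂₁]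
  have hN : N.det ≠ 0 := by
    intro h
    rw [h, Polynomial.eval_zero] at hN0
    exact (mul_ne_zero hab hdet) hN0.symm
  refine ((N.det.roots.toFinset.finite_toSet).union (Set.finite_singleton (0 : K))).subset ?_
  intro c hc
  by_contra hcon
  rw [Set.mem_union, not_or, Finset.mem_coe, Multiset.mem_toFinset, Polynomial.mem_roots hN,
    Polynomial.IsRoot.def, Set.mem_singleton_iff] at hcon
  obtain ⟨hc1, hc0⟩ := hcon
  -- the value matrix
  have h3 : (mat (A + c • B) (Sum.elim a u) (Sum.elim b v)) =
      (N.map (Polynomial.eval c)) * Matrix.diagonal (Sum.elim (fun _ => 1) (fun _ => c)) := by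
    ext i j
    rw [Matrix.mul_diagonal]
    rcases i with i | i <;> rcases j with j | j
    · simp only [N, mat, pmat, Matrix.of_apply, Sum.elim_inl, Matrix.map_apply,
        Matrix.fromBlocks_apply₁₁, Polynomial.eval_add, Polynomial.eval_mul, Polynomial.eval_X,
        Polynomial.eval_C, LinearMap.add_apply, LinearMap.smul_apply, smul_eq_mul, mul_one]
    · simp only [N, mat, Matrix.of_apply, Sum.elim_inl, Sum.elim_inr, Matrix.map_apply,
        Matrix.fromBlocks_apply₁₂, Polynomial.eval_C, LinearMap.add_apply, LinearMap.smul_apply,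
        smul_eq_mul, hv, zero_add, mul_comm]
    · simp only [N, mat, Matrix.of_apply, Sum.elim_inl, Sum.elim_inr, Matrix.map_apply,
        Matrix.fromBlocks_apply₂₁, Polynomial.eval_C, Polynomial.eval_mul, Polynomial.eval_X,
        LinearMap.add_apply, LinearMap.smul_apply, smul_eq_mul, hu, zero_add, mul_one]
    · simp only [N, mat, Matrix.of_apply, Sum.elim_inr, Matrix.map_apply,
        Matrix.fromBlocks_apply₂₂, Polynomial.eval_C, LinearMap.add_apply, LinearMap.smul_apply,
        smul_eq_mul, hu, zero_add, mul_comm]
  have h4 : (mat (A + c • B) (Sum.elim a u) (Sum.elim b v)).det ≠ 0 := by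
    rw [h3, Matrix.det_mul, Matrix.det_diagonal]
    refine mul_ne_zero ?_ ?_
    · have h5 := (Polynomial.evalRingHom c).map_det N
      rw [Polynomial.coe_evalRingHom] at h5
      have h6 : (Polynomial.evalRingHom c).mapMatrix N = N.map (Polynomial.eval c) := rfl
      rw [← h6, ← h5]
      exact hc1
    · rw [Fintype.prod_sum_type]
      simpa using pow_ne_zero p hc0
  have h7 := le_of_det (A + c • B) _ _ h4
  rw [Fintype.card_sum, Fintype.card_fin, Fintype.card_fin] at h7
  exact absurd (lt_of_lt_of_le hc h7) (lt_irrefl _)

end F80.FR
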