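import Pool.Agent.H45.F80.QDefs
import Pool.Agent.H45.F80.FormRank
import Pool.Agent.H45.F80.DR
import Pool.Agent.H45.F80.BC
/-! Module Q1: the Lagrangian property from the rank condition. -/
open Module TensorProduct
universe u
set_option linter.unusedSectionVars false
namespace F80

section
variable {k : Type u} [Field k] [IsAlgClosed k] [CharZero k] {L : Type u} [LieRing L]
  [LieAlgebra k L] [FiniteDimensional k L] [LieAlgebra.IsKilling k L]

theorem rank_le_centralizer (z : L) : LieAlgebra.rank k L ≤ finrank k (gr k z 0) := by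
  have h1 := rank_le_finrank_ker_ad (k := k) (L := L) (F := k) (1 ⊗ₜ[k] z)
  have h2 : (LinearMap.ker (LieAlgebra.ad k (k ⊗[k] L) (1 ⊗ₜ[k] z) :
      Module.End k (k ⊗[k] L))) = (gr k z 0).baseChange k := by
    rw [← gr_baseChange]
    ext v
    rw [LinearMap.mem_ker, mem_gr, LieAlgebra.ad_apply]
    simp
  rw [h2, finrank_baseChange'] at h1
  exact h1

theorem finrank_perp (W : Submodule k L) :
    finrank k (perp k W) + finrank k W = finrank k L := by
  have h1 : perp k W = (killingForm k L).orthogonal W := by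
    ext x
    rw [mem_perp, LinearMap.BilinForm.mem_orthogonal_iff]
    exact forall₂_congr fun y _ => by rw [LieModule.traceForm_comm]
  have h2 := LinearMap.BilinForm.finrank_orthogonal
    (LieAlgebra.IsKilling.killingForm_nondegenerate k L) W
  rw [h1, h2]
  have := Submodule.finrank_le W
  omega

/-- The form `(a, b) ↦ κ(z, [a, b])`. -/
noncomputable def BF (z : L) : L →ₗ[k] L →ₗ[k] k :=
  LinearMap.mk₂ k (fun a b => killingForm k L z ⁅a, b⁆)
    (fun a a' b => by rw [add_lie, map_add]) (fun c a b => by rw [smul_lie, map_smul])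
    (fun a b b' => by rw [lie_add, map_add]) (fun c a b => by rw [lie_smul, map_smul])

@[simp] theorem BF_apply (z a b : L) : BF (k := k) z a b = killingForm k L z ⁅a, b⁆ := rfl

theorem BF_ker (z a : L) : (∀ b, BF (k := k) z a b = 0) ↔ ⁅z, a⁆ = 0 := by
  constructor
  · intro h
    refine eq_zero_of_killing (E := k) fun b => ?_
    have := h b
    rw [BF_apply, ← LieModule.traceForm_apply_lie_apply] at this
    exact this
  · intro h b
    rw [BF_apply, ← LieModule.traceForm_apply_lie_apply, h]
    simp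

theorem BF_add_smul (x y : L) (c : k) : BF (k := k) x + c • BF y = BF (x + c • y) := by
  ext a b
  simp [BF_apply, map_add]

theorem finrank_range_BF (z : L) :
    finrank k (LinearMap.range (BF (k := k) z)) + finrank k (gr k z 0) = finrank k L := by
  have h1 := LinearMap.finrank_range_add_finrank_ker (BF (k := k) z)
  have h2 : LinearMap.ker (BF (k := k) z) = gr k z 0 := by
    ext a
    rw [LinearMap.mem_ker, mem_gr, LinearMap.ext_iff]
    simp only [LinearMap.zero_apply]
    rw [BF_ker]
    simp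
  rw [h2] at h1
  exact h1

/-- The map `u ↦ [u, x]`. -/
noncomputable def TX (x : L) : L →ₗ[k] L := -(LieAlgebra.ad k L x : Module.End k L)

@[simp] theorem TX_apply (x u : L) : TX (k := k) x u = ⁅u, x⁆ := by
  rw [TX, LinearMap.neg_apply, LieAlgebra.ad_apply, lie_skew]

/-- Lower bound for the kernel of the Kirillov form. -/
theorem finrank_ker_PF_ge (s : LieSubalgebra k L) (x y : L) (R : Submodule k s)
    (hR : ∀ a ∈ R, ⁅(a : L), x⁆ = 0 ∧ ∀ b : s, ⁅(b : L), x⁆ = 0 →
      killingForm k L y ⁅(a : L), (b : L)⁆ = 0) :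
    finrank k R + finrank k L ≤ finrank k (LinearMap.ker (PF k s x y)) +
      finrank k (s.toSubmodule.map (TX (k := k) x)) := by
  set K := LinearMap.ker (PF k s x y) with hK
  let Φ : K →ₗ[k] s := (LinearMap.fst k s L) ∘ₗ K.subtype
  have h1 := LinearMap.finrank_range_add_finrank_ker Φ
  have hmem : ∀ p : s × L, p ∈ K ↔ ∀ q, PF k s x y p q = 0 := by
    intro p
    rw [hK, LinearMap.mem_ker, LinearMap.ext_iff]
    rfl
  have key : ∀ a b : L, killingForm k L x ⁅a, b⁆ = -killingForm k L ⁅a, x⁆ b := by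
    intro a b
    rw [← LieModule.traceForm_apply_lie_apply, ← lie_skew x a, map_neg, LinearMap.neg_apply]
  -- the kernel of `Φ`
  have h2 : finrank k (perp k (s.toSubmodule.map (TX (k := k) x))) ≤
      finrank k (LinearMap.ker Φ) := by
    let ψ : perp k (s.toSubmodule.map (TX (k := k) x)) →ₗ[k] LinearMap.ker Φ :=
      { toFun := fun u => ⟨⟨(0, (u : L)), by
          rw [hmem]
          intro q
          rw [PF_apply]
          have h3 : killingForm k L (u : L) ⁅(q.1 : L), x⁆ = 0 :=
            u.2 _ ⟨q.1, q.1.2, by simp⟩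
          have h4 : killingForm k L x ⁅(q.1 : L), (u : L)⁆ = 0 := by
            rw [key, LieModule.traceForm_comm, h3, neg_zero]
          simp [h4]⟩, by simp [Φ]⟩
        map_add' := fun a b => by ext <;> simp
        map_smul' := fun c a => by ext <;> simp }
    refine LinearMap.finrank_le_finrank_of_injective (f := ψ) ?_
    intro a b hab
    have h3 := congrArg (fun z : LinearMap.ker Φ => ((z : K) : s × L).2) hab
    exact Subtype.ext h3
  -- the range of `Φ`
  have h3 : R ≤ LinearMap.range Φ := by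
    intro a ha
    obtain ⟨ha1, ha2⟩ := hR a ha
    let Ts : s →ₗ[k] L := (TX (k := k) x) ∘ₗ s.toSubmodule.subtype
    have hTs : ∀ a : s, Ts a = ⁅(a : L), x⁆ := fun a => TX_apply x (a : L)
    let gf : Module.Dual k s :=
      -((BF (k := k) y (a : L)) ∘ₗ s.toSubmodule.subtype)
    have h4 : gf ∈ LinearMap.range Ts.dualMap := by
      rw [LinearMap.range_dualMap_eq_dualAnnihilator_ker, Submodule.mem_dualAnnihilator]
      intro b hb
      have h5 : ⁅(b : L), x⁆ = 0 := by
        have := LinearMap.mem_ker.mp hb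
        rwa [hTs] at this
      have h6 : gf b = -(killingForm k L y ⁅(a : L), (b : L)⁆) := rfl
      rw [h6, ha2 b h5, neg_zero]
    obtain ⟨G, hG⟩ := h4
    let u := ((killingForm k L).toDual
      (LieAlgebra.IsKilling.killingForm_nondegenerate k L)).symm G
    have hu : ∀ v, killingForm k L u v = G v := fun v =>
      LinearMap.BilinForm.apply_toDual_symm_apply _ _
    refine ⟨⟨(a, u), ?_⟩, rfl⟩
    rw [hmem]
    intro q
    rw [PF_apply]
    have h6 : killingForm k L x ⁅(a : L), q.2⁆ = 0 := by
      rw [key, ha1]; simp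
    have h7 : killingForm k L x ⁅(q.1 : L), u⁆ = killingForm k L y ⁅(a : L), (q.1 : L)⁆ := by
      rw [key, LieModule.traceForm_comm, hu]
      have h8 := congrArg (fun z : Module.Dual k s => z q.1) hG
      simp only [LinearMap.dualMap_apply] at h8
      rw [hTs] at h8
      rw [h8]
      have h9 : gf q.1 = -(killingForm k L y ⁅(a : L), (q.1 : L)⁆) := rfl
      rw [h9, neg_neg]
    change killingForm k L y ⁅(a : L), (q.1 : L)⁆ + killingForm k L x ⁅(a : L), q.2⁆ -
      killingForm k L x ⁅(q.1 : L), u⁆ = 0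
    rw [h6, h7]; ring
  have h4 := Submodule.finrank_mono h3
  have h5 := finrank_perp (k := k) (s.toSubmodule.map (TX (k := k) x))
  omega

/-- The Lagrangian property. -/
theorem lagr (s : LieSubalgebra k L) {x y : L} (hx : x ∈ perp k (der s)) (hP : RC k s x y) :
    ∀ u : L, (∀ a ∈ s, killingForm k L ⁅u, x⁆ a = 0) → ∃ ρ ∈ s, ⁅ρ, x⁆ = ⁅u, x⁆ := by
  classical
  have : Infinite k := IsAlgClosed.instInfinite
  set D := finrank k (s.toSubmodule.map (TX (k := k) x)) with hD
  let Ts : s →ₗ[k] L := (TX (k := k) x) ∘ₗ s.toSubmodule.subtype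
  have hTs : ∀ a : s, Ts a = ⁅(a : L), x⁆ := fun a => TX_apply x (a : L)
  have hrTs : LinearMap.range Ts = s.toSubmodule.map (TX (k := k) x) := by
    rw [LinearMap.range_comp, Submodule.range_subtype]
  have e1 := LinearMap.finrank_range_add_finrank_ker Ts
  rw [hrTs, ← hD] at e1
  -- the form on the stabiliser
  let sx := LinearMap.ker Ts
  let ι : sx →ₗ[k] L := s.toSubmodule.subtype ∘ₗ sx.subtype
  let C : sx →ₗ[k] sx →ₗ[k] k := (BF (k := k) y).compl₁₂ ι ι
  have hC : ∀ a b : sx, C a b = killingForm k L y ⁅((a : s) : L), ((b : s) : L)⁆ := fun a b => rfl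
  have e2 := LinearMap.finrank_range_add_finrank_ker C
  let R : Submodule k s := (LinearMap.ker C).map sx.subtype
  have hR : ∀ a ∈ R, ⁅(a : L), x⁆ = 0 ∧ ∀ b : s, ⁅(b : L), x⁆ = 0 →
      killingForm k L y ⁅(a : L), (b : L)⁆ = 0 := by
    rintro _ ⟨a, ha, rfl⟩
    refine ⟨?_, fun b hb => ?_⟩
    · have := LinearMap.mem_ker.mp a.2
      rwa [hTs] at this
    · have h1 : b ∈ sx := by
        change b ∈ LinearMap.ker Ts
        rw [LinearMap.mem_ker, hTs]; exact hb
      have h2 := congrArg (fun z : sx →ₗ[k] k => z ⟨b, h1⟩) (LinearMap.mem_ker.mp ha)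
      exact h2
  have hRC : finrank k R = finrank k (LinearMap.ker C) :=
    LinearEquiv.finrank_eq (Submodule.equivMapOfInjective _ (Submodule.subtype_injective _) _).symm
  have e3 := finrank_ker_PF_ge s x y R hR
  rw [← hD, hRC] at e3
  have hP' : finrank k (LinearMap.ker (PF k s x y)) ≤ finrank k s + LieAlgebra.rank k L := hP
  -- the Schur inequality
  obtain ⟨p, hp, a0, b0, hab⟩ : ∃ p, p = finrank k (LinearMap.range C) ∧
      ∃ (a : Fin p → sx) (b : Fin p → sx), (FR.mat C a b).det ≠ 0 := by
    obtain ⟨a, b, hab⟩ := FR.exists_det C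
    exact ⟨_, rfl, a, b, hab⟩
  have hsx : ∀ a : sx, ⁅x, ((a : s) : L)⁆ = 0 := by
    intro a
    have := LinearMap.mem_ker.mp a.2
    rw [hTs] at this
    rw [← lie_skew, this, neg_zero]
  have e4 := FR.schur (BF (k := k) x) (BF (k := k) y) (fun i => ι (a0 i)) (fun i => ι (b0 i))
    (fun i w => by
      rw [BF_apply, ← LieModule.traceForm_apply_lie_apply]
      change killingForm k L ⁅x, ((a0 i : s) : L)⁆ w = 0
      rw [hsx]; simp)
    (fun i w => by
      have h1 : ⁅w, ι (b0 i)⁆ = -⁅ι (b0 i), w⁆ := by rw [lie_skew]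
      rw [BF_apply, h1, map_neg, ← LieModule.traceForm_apply_lie_apply]
      change -(killingForm k L ⁅x, ((b0 i : s) : L)⁆ w) = 0
      rw [hsx]; simp)
    (by
      have h1 : FR.mat (BF (k := k) y) (fun i => ι (a0 i)) (fun i => ι (b0 i)) =
          FR.mat C a0 b0 := rfl
      rw [h1]; exact hab)
  obtain ⟨c, hc⟩ := e4.infinite_compl.nonempty
  rw [Set.mem_compl_iff, Set.mem_ofPred_eq, not_lt, BF_add_smul] at hc
  have e5 := finrank_range_BF (k := k) x
  have e6 := finrank_range_BF (k := k) (x + c • y)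
  have e7 := rank_le_centralizer (k := k) (x + c • y)
  -- the space of `u` with `[u, x]` orthogonal to `s`
  set N := perp k (s.toSubmodule.map (TX (k := k) x)) with hN
  have hkey : ∀ u a : L, killingForm k L ⁅u, x⁆ a = -killingForm k L u ⁅a, x⁆ := by
    intro u a
    rw [LieModule.traceForm_apply_lie_apply, ← lie_skew x a, map_neg]
  have hNmem : ∀ u : L, u ∈ N ↔ ∀ a ∈ s, killingForm k L ⁅u, x⁆ a = 0 := by
    intro u
    rw [hN, mem_perp]
    constructor
    · intro h a ha
      rw [hkey, h _ ⟨a, ha, by simp⟩, neg_zero]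
    · rintro h _ ⟨a, ha, rfl⟩
      have := h a ha
      rw [hkey, neg_eq_zero] at this
      rw [TX_apply]; exact this
  have e8 := finrank_perp (k := k) (s.toSubmodule.map (TX (k := k) x))
  rw [← hN, ← hD] at e8
  -- the image of `N`
  have hkerT : LinearMap.ker (TX (k := k) x) = gr k x 0 := by
    ext u
    rw [LinearMap.mem_ker, TX_apply, mem_gr, ← lie_skew, neg_eq_zero]
    simp
  have hkN : gr k x 0 ≤ N := by
    intro u hu
    rw [hNmem]
    intro a ha
    rw [← hkerT, LinearMap.mem_ker, TX_apply] at hu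
    rw [hu]; simp
  have hsN : s.toSubmodule ≤ N := by
    intro b hb
    rw [hNmem]
    intro a ha
    have h1 : killingForm k L x ⁅b, a⁆ = 0 := hx _ (Submodule.subset_span ⟨b, hb, a, ha, rfl⟩)
    rw [← lie_skew, map_neg, LinearMap.neg_apply, LieModule.traceForm_apply_lie_apply, h1,
      neg_zero]
  have e9 : finrank k (N.map (TX (k := k) x)) + finrank k (gr k x 0) = finrank k N := by
    have h1 := LinearMap.finrank_range_add_finrank_ker ((TX (k := k) x) ∘ₗ N.subtype)
    have h2 : LinearMap.range ((TX (k := k) x) ∘ₗ N.subtype) = N.map (TX (k := k) x) := by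
      rw [LinearMap.range_comp, Submodule.range_subtype]
    have h3 : finrank k (LinearMap.ker ((TX (k := k) x) ∘ₗ N.subtype)) =
        finrank k (gr k x 0) := by
      rw [LinearMap.ker_comp, hkerT]
      exact LinearEquiv.finrank_eq (Submodule.comapSubtypeEquivOfLe hkN)
    rw [h2, h3] at h1
    exact h1
  have e10 : s.toSubmodule.map (TX (k := k) x) = N.map (TX (k := k) x) := by
    refine Submodule.eq_of_le_of_finrank_le (Submodule.map_mono hsN) ?_
    rw [← hD]
    have h1 : finrank k s = finrank k s.toSubmodule := rfl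
    have h2 : finrank k sx = finrank k (LinearMap.ker Ts) := rfl
    omega
  intro u hu
  have h1 : TX (k := k) x u ∈ s.toSubmodule.map (TX (k := k) x) := by
    rw [e10]; exact ⟨u, (hNmem u).mpr hu, rfl⟩
  obtain ⟨ρ, hρ, hρ'⟩ := h1
  exact ⟨ρ, hρ, by simpa using hρ'⟩

end
end F80
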