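import Pool.Agent.H45.F80.A1
/-! Module A5: trace identities. -/
open Module
namespace F80

namespace A5

variable {K V : Type*} [Field K] [AddCommGroup V] [Module K V]

/-- the derivation of the coordinates in a basis -/
noncomputable def flat (δ : SDer K V) {n : ℕ} (e : Basis (Fin n) K V) : SDer K V where
  d := δ.d
  D :=
    { toFun := fun m => ∑ j, δ.d (e.coord j m) • e j
      map_zero' := by simp
      map_add' := fun a b => by
        simp only [map_add, add_smul, Finset.sum_add_distrib] }
  leib c m := by
    have h : ∑ j, e.coord j m • e j = m := by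
      simp
    simp only [AddMonoidHom.coe_mk, ZeroHom.coe_mk, map_smul, smul_eq_mul, Derivation.leibniz,
      add_smul, Finset.sum_add_distrib, Finset.smul_sum, mul_smul]
    rw [add_comm]
    congr 1
    conv_rhs => rw [← h]
    rw [Finset.smul_sum]
    refine Finset.sum_congr rfl fun j _ => ?_
    rw [smul_comm]

@[simp] theorem flat_d (δ : SDer K V) {n : ℕ} (e : Basis (Fin n) K V) : (flat δ e).d = δ.d := rfl

theorem flat_D (δ : SDer K V) {n : ℕ} (e : Basis (Fin n) K V) (m : V) :
    (flat δ e).D m = ∑ j, δ.d (e.coord j m) • e j := rfl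

theorem coord_flat (δ : SDer K V) {n : ℕ} (e : Basis (Fin n) K V) (m : V) (i : Fin n) :
    e.coord i ((flat δ e).D m) = δ.d (e.coord i m) := by
  rw [flat_D, map_sum]
  rw [Finset.sum_eq_single i]
  · simp
  · intro j _ hj
    simp [Finsupp.single_apply, hj]
  · simp

theorem flat_basis (δ : SDer K V) {n : ℕ} (e : Basis (Fin n) K V) (i : Fin n) :
    (flat δ e).D (e i) = 0 := by
  apply e.ext_elem
  intro j
  have := coord_flat δ e (e i) j
  rw [Basis.coord_apply] at this
  rw [this]
  by_cases h : i = j
  · subst h; simp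
  · simp [Finsupp.single_apply, h]

/-- the difference of two derivations is linear -/
def diff (δ δ' : SDer K V) (h : δ'.d = δ.d) : Module.End K V where
  toFun m := δ.D m - δ'.D m
  map_add' a b := by simp only [map_add]; abel
  map_smul' c m := by
    simp only [δ.leib, δ'.leib, h, RingHom.id_apply, smul_sub]; abel

theorem comm_eq (δ δ' : SDer K V) (h : δ'.d = δ.d) (X : Module.End K V) :
    δ.comm X = δ'.comm X + (diff δ δ' h * X - X * diff δ δ' h) := by
  ext m
  simp only [SDer.comm_apply, LinearMap.add_apply, LinearMap.sub_apply, Module.End.mul_apply, diff,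
    LinearMap.coe_mk, AddHom.coe_mk, map_sub]
  abel

theorem trace_eq_coord [FiniteDimensional K V] {n : ℕ} (e : Basis (Fin n) K V)
    (X : Module.End K V) : LinearMap.trace K V X = ∑ i, e.coord i (X (e i)) := by
  rw [LinearMap.trace_eq_matrix_trace K e, Matrix.trace]
  refine Finset.sum_congr rfl fun i _ => ?_
  rw [Matrix.diag_apply, LinearMap.toMatrix_apply, Basis.coord_apply]

theorem theta_eq_trace [FiniteDimensional K V] (δ : SDer K V) {n : ℕ} (e : Basis (Fin n) K V)
    (X : Module.End K V) :
    theta δ e X = LinearMap.trace K V (X * diff δ (flat δ e) rfl) := by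
  rw [trace_eq_coord e]
  unfold theta
  refine Finset.sum_congr rfl fun i _ => ?_
  rw [Module.End.mul_apply]
  have : diff δ (flat δ e) rfl (e i) = δ.D (e i) := by
    show δ.D (e i) - (flat δ e).D (e i) = δ.D (e i)
    rw [flat_basis, sub_zero]
  rw [this]

theorem trace_mul_comm_eq [FiniteDimensional K V] (δ δ' : SDer K V) (h : δ'.d = δ.d)
    (X Z : Module.End K V) :
    LinearMap.trace K V (Z * δ.comm X) =
      LinearMap.trace K V (Z * δ'.comm X) +
        LinearMap.trace K V ((X * Z - Z * X) * diff δ δ' h) := by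
  rw [comm_eq δ δ' h X, mul_add, map_add]
  congr 1
  rw [mul_sub, sub_mul, map_sub, map_sub]
  congr 1
  rw [← mul_assoc, LinearMap.trace_mul_comm K (Z * diff δ δ' h) X, mul_assoc]

/-- an endomorphism lowering a finite filtration is nilpotent -/
theorem nilp_of_flag (T : Module.End K V) (F : ℕ → Submodule K V) (hF0 : F 0 = ⊥) {N : ℕ}
    (hFN : F N = ⊤) (hT : ∀ i, ∀ m ∈ F (i + 1), T m ∈ F i) : IsNilpotent T := by
  have key : ∀ k, ∀ m ∈ F k, (T ^ k) m = 0 := by
    intro k
    induction k with
    | zero =>
      intro m hm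
      rw [hF0, Submodule.mem_bot] at hm
      rw [hm, map_zero]
    | succ k ih =>
      intro m hm
      rw [pow_succ, Module.End.mul_apply]
      exact ih _ (hT k m hm)
  refine ⟨N, ?_⟩
  ext m
  rw [key N m (by rw [hFN]; exact Submodule.mem_top)]
  rfl

theorem trace_zero_of_flag [FiniteDimensional K V] (δ' : SDer K V) (X Z : Module.End K V)
    (F : ℕ → Submodule K V)
    (hF0 : F 0 = ⊥) {N : ℕ} (hFN : F N = ⊤) (a : ℕ → K) (ha : ∀ i, δ'.d (a i) = 0)
    (hX : ∀ i, ∀ m ∈ F (i + 1), X m - a i • m ∈ F i)
    (hD : ∀ i, ∀ m ∈ F i, δ'.D m ∈ F i) (hZ : ∀ i, ∀ m ∈ F i, Z m ∈ F i) :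
    LinearMap.trace K V (Z * δ'.comm X) = 0 := by
  refine (LinearMap.isNilpotent_trace_of_isNilpotent
    (nilp_of_flag (Z * δ'.comm X) F hF0 hFN ?_)).eq_zero
  intro i m hm
  rw [Module.End.mul_apply]
  refine hZ i _ ?_
  rw [SDer.comm_apply]
  have h1 : X m = a i • m + (X m - a i • m) := by abel
  have h2 : X (δ'.D m) = a i • δ'.D m + (X (δ'.D m) - a i • δ'.D m) := by abel
  have h3 : δ'.D (X m) = a i • δ'.D m + δ'.D (X m - a i • m) := by
    conv_lhs => rw [h1]
    rw [map_add, δ'.leib, ha, zero_smul, zero_add]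
  have h4 : δ'.D (X m) - X (δ'.D m) =
      δ'.D (X m - a i • m) - (X (δ'.D m) - a i • δ'.D m) := by
    rw [h3]; abel
  rw [h4]
  exact sub_mem (hD i _ (hX i m hm)) (hX i _ (hD (i + 1) m hm))

/-- a basis adapted to a flag -/
theorem exists_adapted [FiniteDimensional K V] (F : ℕ → Submodule K V) (hmono : Monotone F)
    (hF0 : F 0 = ⊥) {N : ℕ} (hN : F N = ⊤) {n : ℕ} (hn : finrank K V = n) :
    ∃ e : Basis (Fin n) K V, (∀ i, ∀ m ∈ F i, ∀ j, e j ∉ F i → e.coord j m = 0) ∧
      (∀ i j, i ≤ j → ∀ k, e j ∈ F k → e i ∈ F k) := by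
  classical
  have step : ∀ i : ℕ, ∃ s : Set V, s ⊆ F i ∧ LinearIndepOn K id s ∧
      ∀ j ≤ i, (F j : Set V) ⊆ Submodule.span K (s ∩ F j) := by
    intro i
    induction i with
    | zero =>
      refine ⟨∅, Set.empty_subset _, linearIndepOn_empty K id, fun j hj => ?_⟩
      have : j = 0 := by omega
      subst this
      rw [hF0]
      simp
    | succ i ih =>
      obtain ⟨s, hs1, hs2, hs3⟩ := ih
      have hst : s ⊆ (F (i + 1) : Set V) := hs1.trans (hmono (Nat.le_succ i))
      obtain ⟨b, hb1, hb2, hb3, hb4⟩ := exists_linearIndepOn_id_extension hs2 hst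
      refine ⟨b, hb1, hb4, fun j hj => ?_⟩
      rcases Nat.lt_or_ge j (i + 1) with h | h
      · exact (hs3 j (by omega)).trans
          (Submodule.span_mono (Set.inter_subset_inter_left _ hb2))
      · have : j = i + 1 := by omega
        subst this
        rw [Set.inter_eq_left.2 hb1]
        exact hb3
  obtain ⟨s, _, hs2, hs3⟩ := step N
  have hsp : ⊤ ≤ Submodule.span K (Set.range ((↑) : s → V)) := by
    rw [Subtype.range_coe]
    have h := hs3 N le_rfl
    rw [hN] at h
    intro x hx
    exact Submodule.span_mono Set.inter_subset_left (h hx)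
  have hli : LinearIndependent K ((↑) : s → V) := hs2
  let b : Basis s K V := Basis.mk hli hsp
  have : Finite s := Module.Finite.finite_basis b
  have : Fintype s := Fintype.ofFinite s
  have hcard : Fintype.card s = n := by rw [← Module.finrank_eq_card_basis b, hn]
  let b' : Basis (Fin n) K V := b.reindex (Fintype.equivFinOfCardEq hcard)
  have hb' : ∀ j, b' j ∈ s := by
    intro j
    simp only [b', Basis.reindex_apply, b, Basis.mk_apply]
    exact Subtype.coe_prop _
  have hb'2 : ∀ x ∈ s, ∃ j, b' j = x := by
    intro x hx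
    refine ⟨Fintype.equivFinOfCardEq hcard ⟨x, hx⟩, ?_⟩
    simp only [b', Basis.reindex_apply, b, Basis.mk_apply, Equiv.symm_apply_apply]
  have hex : ∀ j, ∃ k, b' j ∈ F k := fun j => ⟨N, by rw [hN]; exact Submodule.mem_top⟩
  let lv : Fin n → ℕ := fun j => Nat.find (hex j)
  have hlv : ∀ j k, b' j ∈ F k ↔ lv j ≤ k := by
    intro j k
    constructor
    · intro h; exact Nat.find_min' (hex j) h
    · intro h; exact hmono h (Nat.find_spec (hex j))
  have hmonolv : Monotone (lv ∘ Tuple.sort lv) := Tuple.monotone_sort lv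
  let e : Basis (Fin n) K V := b'.reindex (Tuple.sort lv).symm
  have he : ∀ j, e j = b' (Tuple.sort lv j) := by
    intro j
    simp only [e, Basis.reindex_apply, Equiv.symm_symm]
  refine ⟨e, ?_, ?_⟩
  · intro i m hm j hj
    have hle : i ≤ N ∨ N ≤ i := le_total i N
    have hmem : m ∈ Submodule.span K (s ∩ (F i : Set V)) := by
      rcases hle with h | h
      · exact hs3 i h hm
      · exfalso
        apply hj
        exact hmono h (by rw [hN]; exact Submodule.mem_top)
    have hsub : Submodule.span K (s ∩ (F i : Set V)) ≤ LinearMap.ker (e.coord j) := by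
      rw [Submodule.span_le]
      rintro x ⟨hx1, hx2⟩
      obtain ⟨j', rfl⟩ := hb'2 x hx1
      rw [SetLike.mem_coe, LinearMap.mem_ker]
      have hx : b' j' = e ((Tuple.sort lv).symm j') := by
        rw [he, Equiv.apply_symm_apply]
      have hne : (Tuple.sort lv).symm j' ≠ j := by
        rintro rfl
        exact hj (by rw [← hx]; exact hx2)
      rw [hx]
      simp [Finsupp.single_apply, hne]
    exact LinearMap.mem_ker.1 (hsub hmem)
  · intro i j hij k hk
    rw [he, hlv] at hk ⊢
    exact (hmonolv hij).trans hk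

/-- the derivation of the coordinates in an adapted basis preserves the flag -/
theorem flat_mem (δ : SDer K V) {n : ℕ} (e : Basis (Fin n) K V) (W : Submodule K V)
    (h : ∀ m ∈ W, ∀ j, e j ∉ W → e.coord j m = 0) : ∀ m ∈ W, (flat δ e).D m ∈ W := by
  intro m hm
  rw [flat_D]
  refine Submodule.sum_mem _ fun j _ => ?_
  by_cases hj : e j ∈ W
  · exact W.smul_mem _ hj
  · rw [h m hm j hj, map_zero, zero_smul]
    exact W.zero_mem

/-- products `(X - a 0) (X - a 1) ...` -/
def qq (X : Module.End K V) (a : ℕ → K) : ℕ → Module.End K V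
  | 0 => 1
  | (i + 1) => (X - algebraMap K _ (a i)) * qq X a i

theorem qq_commute (X : Module.End K V) (a : ℕ → K) (Z : Module.End K V) (hZ : Commute Z X)
    (i : ℕ) : Commute Z (qq X a i) := by
  induction i with
  | zero => exact Commute.one_right Z
  | succ i ih =>
    exact (hZ.sub_right (Algebra.commutes (a i) Z).symm).mul_right ih

theorem qq_eq (X : Module.End K V) (a : ℕ → K) (i : ℕ) :
    qq X a i = Polynomial.aeval X
      (∏ j ∈ Finset.range i, (Polynomial.X - Polynomial.C (a j))) := by
  induction i with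
  | zero => simp [qq]
  | succ i ih =>
    rw [Finset.prod_range_succ, map_mul, ← ih]
    simp only [map_sub, Polynomial.aeval_X, Polynomial.aeval_C]
    have h : Commute (X - algebraMap K (Module.End K V) (a i)) (qq X a i) := by
      refine (qq_commute X a _ ?_ i)
      exact (Commute.refl X).sub_left (Algebra.commutes (a i) X)
    rw [← h.eq]
    rfl

theorem exists_seq (s : Multiset K) (P : K → Prop) (h0 : P 0) (h : ∀ a ∈ s, P a) :
    ∃ a : ℕ → K, (∀ j, P (a j)) ∧
      ∏ j ∈ Finset.range (Multiset.card s), (Polynomial.X - Polynomial.C (a j)) =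
        (s.map (fun a => Polynomial.X - Polynomial.C a)).prod := by
  induction s using Multiset.induction_on with
  | empty => exact ⟨fun _ => 0, fun _ => h0, by simp⟩
  | cons b s ih =>
    obtain ⟨a, ha, hp⟩ := ih (fun a has => h a (Multiset.mem_cons_of_mem has))
    refine ⟨fun j => if j = Multiset.card s then b else a j, ?_, ?_⟩
    · intro j
      show P (if j = Multiset.card s then b else a j)
      split_ifs
      · exact h b (Multiset.mem_cons_self b s)
      · exact ha j
    · rw [Multiset.card_cons, Finset.prod_range_succ, Multiset.map_cons, Multiset.prod_cons, ← hp,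
        mul_comm]
      congr 1
      · simp
      · refine Finset.prod_congr rfl fun j hj => ?_
        rw [Finset.mem_range] at hj
        simp [hj.ne]

theorem pow_H (X H : Module.End K V) (hH : H * X - X * H = (2 : K) • X) (i : ℕ) :
    H * X ^ i = X ^ i * H + (2 * (i : K)) • X ^ i := by
  have hH' : H * X = X * H + (2 : K) • X := by rw [← hH]; abel
  induction i with
  | zero => simp
  | succ i ih =>
    rw [pow_succ', ← mul_assoc, hH', add_mul, mul_assoc, ih]
    simp only [mul_add, smul_mul_assoc, mul_smul_comm, ← mul_assoc, Nat.cast_add, Nat.cast_one,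
      add_smul, mul_one]
    abel

end A5

open A5

variable {K V : Type*} [Field K] [CharZero K] [AddCommGroup V] [Module K V]
  [FiniteDimensional K V]

/-- The trace of a commutator. -/
theorem trace_comm (δ : SDer K V) (X : Module.End K V) :
    LinearMap.trace K V (δ.comm X) = δ.d (LinearMap.trace K V X) := by
  let e := Module.finBasis K V
  rw [comm_eq δ (flat δ e) rfl X, map_add, map_sub, LinearMap.trace_mul_comm, sub_self, add_zero,
    trace_eq_coord e, trace_eq_coord e, map_sum]
  refine Finset.sum_congr rfl fun i _ => ?_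
  rw [SDer.comm_apply, flat_basis, map_zero, sub_zero, coord_flat]

theorem comm_mul (δ : SDer K V) (X Y : Module.End K V) :
    δ.comm (X * Y) = δ.comm X * Y + X * δ.comm Y := by
  ext m
  simp only [SDer.comm_apply, Module.End.mul_apply, LinearMap.add_apply, map_sub]
  abel

/-- (T5') version with constant eigenvalues -/
theorem trace_mul_comm_of_splits (δ : SDer K V) (X Z : Module.End K V)
    (hX : X.charpoly.Splits) (hc : ∀ a ∈ X.charpoly.roots, δ.d a = 0) (hZ : Commute Z X) :
    LinearMap.trace K V (Z * δ.comm X) = 0 := by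
  obtain ⟨a, ha, hp⟩ := exists_seq X.charpoly.roots (fun a => δ.d a = 0) (map_zero _) hc
  rw [← hX.eq_prod_roots_of_monic X.charpoly_monic] at hp
  set N := Multiset.card X.charpoly.roots with hN
  let F : ℕ → Submodule K V := fun i => LinearMap.ker (qq X a i)
  have hF0 : F 0 = ⊥ := by
    show LinearMap.ker (1 : Module.End K V) = ⊥
    rw [Module.End.one_eq_id, LinearMap.ker_id]
  have hFN : F N = ⊤ := by
    show LinearMap.ker (qq X a N) = ⊤
    rw [qq_eq, hp, LinearMap.aeval_self_charpoly, LinearMap.ker_zero]
  have hstep : ∀ i, ∀ m ∈ F (i + 1), X m - a i • m ∈ F i := by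
    intro i m hm
    have h1 : ((X - algebraMap K _ (a i)) * qq X a i) m = 0 := hm
    have h2 : Commute (X - algebraMap K (Module.End K V) (a i)) (qq X a i) := by
      refine (qq_commute X a _ ?_ i)
      exact (Commute.refl X).sub_left (Algebra.commutes (a i) X)
    rw [h2.eq, Module.End.mul_apply] at h1
    show qq X a i (X m - a i • m) = 0
    simpa [Module.algebraMap_end_apply] using h1
  have hmono : Monotone F := by
    refine monotone_nat_of_le_succ fun i m hm => ?_
    have h1 : qq X a i m = 0 := hm
    show ((X - algebraMap K _ (a i)) * qq X a i) m = 0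
    rw [Module.End.mul_apply, h1, map_zero]
  obtain ⟨e, he, _⟩ := exists_adapted F hmono hF0 hFN rfl
  rw [trace_mul_comm_eq δ (flat δ e) rfl, hZ.eq, sub_self, zero_mul, map_zero, add_zero]
  refine trace_zero_of_flag (flat δ e) X Z F hF0 hFN a ha hstep
    (fun i => flat_mem δ e (F i) (he i)) ?_
  intro i m hm
  have h1 : qq X a i m = 0 := hm
  show qq X a i (Z m) = 0
  rw [← Module.End.mul_apply, ← (qq_commute X a Z hZ i).eq, Module.End.mul_apply, h1, map_zero]

/-- (T5) -/
theorem trace_mul_comm_of_isNilpotent (δ : SDer K V) (X Z : Module.End K V)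
    (hX : IsNilpotent X) (hZ : Commute Z X) :
    LinearMap.trace K V (Z * δ.comm X) = 0 := by
  have h : X.charpoly = Polynomial.X ^ (finrank K V) := by
    exact (LinearMap.charpoly_eq_X_pow_iff X).2 (fun m => by
      obtain ⟨k, hk⟩ := hX
      exact ⟨k, by rw [hk]; rfl⟩)
  refine trace_mul_comm_of_splits δ X Z ?_ ?_ hZ
  · rw [h]
    exact (Polynomial.Splits.X).pow _
  · intro a ha
    rw [h, Polynomial.roots_pow, Polynomial.roots_X] at ha
    have : a = 0 := by
      have := Multiset.mem_of_mem_nsmul ha
      simpa using this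
    rw [this, map_zero]

/-- (T5'') the theta form as a trace -/
theorem trace_mul_comm_of_sl2 (δ : SDer K V) {n : ℕ} (e : Basis (Fin n) K V)
    (X H : Module.End K V) (he : SUT e X) (hH : H * X - X * H = (2 : K) • X) :
    LinearMap.trace K V (H * δ.comm X) = -((2 : K) * theta δ e X) := by
  -- `X` is nilpotent
  have hnil : X ^ n = 0 := by
    have key : ∀ k : ℕ, ∀ i : Fin n, (i : ℕ) < k → (X ^ k) (e i) = 0 := by
      intro k
      induction k with
      | zero => intro i hi; omega
      | succ k ih =>
        intro i hi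
        rw [pow_succ, Module.End.mul_apply]
        have h1 : X (e i) = ∑ j, e.coord j (X (e i)) • e j := by
          simpa using (e.sum_repr (X (e i))).symm
        rw [h1, map_sum]
        refine Finset.sum_eq_zero fun j _ => ?_
        rw [map_smul]
        rcases le_or_gt i j with h | h
        · rw [he i j h, zero_smul]
        · rw [ih j (by have : (j : ℕ) < i := h; omega), smul_zero]
    refine e.ext fun i => ?_
    rw [key n i i.2]
    rfl
  let F : ℕ → Submodule K V := fun i => LinearMap.ker (X ^ i)
  have hF0 : F 0 = ⊥ := by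
    show LinearMap.ker (X ^ 0) = ⊥
    rw [pow_zero, Module.End.one_eq_id, LinearMap.ker_id]
  have hFN : F n = ⊤ := by
    show LinearMap.ker (X ^ n) = ⊤
    rw [hnil, LinearMap.ker_zero]
  have hstep : ∀ i, ∀ m ∈ F (i + 1), X m ∈ F i := by
    intro i m hm
    have h1 : (X ^ (i + 1)) m = 0 := hm
    show (X ^ i) (X m) = 0
    rw [← Module.End.mul_apply, ← pow_succ, h1]
  have hmono : Monotone F := by
    refine monotone_nat_of_le_succ fun i m hm => ?_
    have h1 : (X ^ i) m = 0 := hm
    show (X ^ (i + 1)) m = 0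
    rw [pow_succ', Module.End.mul_apply, h1, map_zero]
  have hn : finrank K V = n := by
    rw [Module.finrank_eq_card_basis e, Fintype.card_fin]
  obtain ⟨e', he1, he2⟩ := exists_adapted F hmono hF0 hFN hn
  have hS : SUT e' X := by
    intro i j hij
    have hex : ∃ k, e' i ∈ F k := ⟨n, by rw [hFN]; exact Submodule.mem_top⟩
    classical
    obtain ⟨k, hk⟩ : ∃ k, Nat.find hex = k := ⟨_, rfl⟩
    have hk1 : e' i ∈ F k := hk ▸ Nat.find_spec hex
    rcases k with _ | k
    · exfalso
      rw [hF0, Submodule.mem_bot] at hk1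
      exact e'.ne_zero i hk1
    · refine he1 k _ (hstep k _ hk1) j fun hj => ?_
      have h2 := he2 i j hij k hj
      have h3 := Nat.find_min' hex h2
      omega
  rw [trace_mul_comm_eq δ (flat δ e') rfl]
  have h0 : LinearMap.trace K V (H * (flat δ e').comm X) = 0 := by
    refine trace_zero_of_flag (flat δ e') X H F hF0 hFN (fun _ => 0) (fun _ => map_zero _) ?_
      (fun i => flat_mem δ e' (F i) (he1 i)) ?_
    · intro i m hm
      rw [zero_smul, sub_zero]
      exact hstep i m hm
    · intro i m hm
      have h1 : (X ^ i) m = 0 := hm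
      show (X ^ i) (H m) = 0
      have h2 := congrArg (fun T : Module.End K V => T m) (pow_H X H hH i)
      simp only [Module.End.mul_apply, LinearMap.add_apply, LinearMap.smul_apply, h1, map_zero,
        smul_zero, add_zero] at h2
      exact h2.symm
  rw [h0, zero_add]
  have h1 : X * H - H * X = -((2 : K) • X) := by rw [← hH]; abel
  rw [h1, neg_mul, smul_mul_assoc, map_neg, map_smul, ← theta_eq_trace,
    theta_eq_of_SUT e e' X he hS δ, smul_eq_mul]

end F80
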