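import Pool.Agent.H45.F80.Defs
/-! Module FD: extension of derivations of fields of characteristic zero. -/
open Module
namespace F80

/-- An additive map satisfying the Leibniz rule on the base of a formally smooth algebra extends to
a derivation. -/
theorem ext_of_smooth {A B : Type*} [CommRing A] [CommRing B] [Algebra A B]
    [Algebra.FormallySmooth A B] (d : A →+ B)
    (hd : ∀ a b, d (a * b) = algebraMap A B a * d b + algebraMap A B b * d a) :
    ∃ d' : Derivation ℤ B B, ∀ a, d' (algebraMap A B a) = d a := by
  have h1 : d 1 = 0 := by
    have := hd 1 1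
    simp only [mul_one, map_one, one_mul] at this
    simpa using this
  let φ : A →+* TrivSqZeroExt B B :=
    { toFun := fun a => TrivSqZeroExt.inl (algebraMap A B a) + TrivSqZeroExt.inr (d a)
      map_one' := by simp [h1]
      map_zero' := by simp
      map_add' := fun a b => by
        simp only [map_add, TrivSqZeroExt.inl_add, TrivSqZeroExt.inr_add]; abel
      map_mul' := fun a b => by
        ext
        · simp
        · simp [hd, mul_comm] }
  let _ : Algebra A (TrivSqZeroExt B B) := φ.toAlgebra
  have halg : ∀ a, algebraMap A (TrivSqZeroExt B B) a =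
    TrivSqZeroExt.inl (algebraMap A B a) + TrivSqZeroExt.inr (d a) := fun a => rfl
  let g : TrivSqZeroExt B B →ₐ[A] B :=
    { toRingHom := (TrivSqZeroExt.fstHom B B B).toRingHom
      commutes' := fun a => by
        change (TrivSqZeroExt.fstHom B B B) (algebraMap A (TrivSqZeroExt B B) a) = _
        rw [halg]; simp }
  have hg : Function.Surjective g := fun b => ⟨TrivSqZeroExt.inl b, by
    change (TrivSqZeroExt.fstHom B B B) (TrivSqZeroExt.inl b) = _
    simp⟩
  have hg' : IsNilpotent (RingHom.ker (g : TrivSqZeroExt B B →+* B)) := by
    refine ⟨2, ?_⟩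
    exact TrivSqZeroExt.kerIdeal_sq B B
  let ψ := Algebra.FormallySmooth.liftOfSurjective (AlgHom.id A B) g hg hg'
  have hψ : ∀ b, (ψ b).fst = b := fun b =>
    Algebra.FormallySmooth.liftOfSurjective_apply (AlgHom.id A B) g hg hg' b
  have hψ2 : ∀ a, (ψ (algebraMap A B a)).snd = d a := fun a => by
    rw [ψ.commutes, halg]; simp
  let D : B →+ B :=
    { toFun := fun b => (ψ b).snd
      map_zero' := by simp
      map_add' := fun a b => by simp }
  refine ⟨Derivation.mk' D.toIntLinearMap ?_, fun a => ?_⟩
  · intro a b
    change (ψ (a * b)).snd = a • (ψ b).snd + b • (ψ a).snd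
    rw [map_mul, TrivSqZeroExt.snd_mul, hψ, hψ]
    simp [mul_comm]
  · exact hψ2 a

open scoped IntermediateField.algebraAdjoinAdjoin in
/-- A derivation of a field `E` extends to an extension field `E'`, with prescribed values on
algebraically independent elements. -/
theorem exists_ext_derivation {E E' : Type*} [Field E] [Field E'] [Algebra E E'] [CharZero E]
    {I : Type*} (T : I → E') (hT : AlgebraicIndependent E T) (d : Derivation ℤ E E)
    (c : I → E') :
    ∃ d' : Derivation ℤ E' E', (∀ x : E, d' (algebraMap E E' x) = algebraMap E E' (d x)) ∧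
      ∀ i, d' (T i) = c i := by
  classical
  obtain ⟨t, hst, ht⟩ := exists_isTranscendenceBasis_superset (R := E) (s := Set.range T)
    hT.to_subtype_range
  have hinj : Function.Injective T := hT.injective
  let c' : t → E' := fun x => if h : ∃ i, T i = x then c h.choose else 0
  let y : I → t := fun i => ⟨T i, hst ⟨i, rfl⟩⟩
  have hc' : ∀ i, c' (y i) = c i := by
    intro i
    have hex : ∃ j, T j = (y i : E') := ⟨i, rfl⟩
    have : hex.choose = i := hinj hex.choose_spec
    simp only [c', dif_pos hex, this]
  -- the tower
  have hsm := Algebra.FormallySmooth.adjoin_of_algebraicIndependent ht.1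
  let K0 := IntermediateField.adjoin E (Set.range (Subtype.val : t → E'))
  let A := Algebra.adjoin E (Set.range (Subtype.val : t → E'))
  have : CharZero E' := charZero_of_injective_algebraMap (algebraMap E E').injective
  have halg : Algebra.IsAlgebraic K0 E' := by
    have h1 := ht.isAlgebraic
    exact IntermediateField.isAlgebraic_adjoin_iff_top.2 h1
  have : Algebra.FormallySmooth A K0 :=
    .of_isLocalization (nonZeroDivisors _)
  have : Algebra.FormallyEtale K0 E' :=
    Algebra.FormallyEtale.of_isSeparable _ E'
  have hAE : Algebra.FormallySmooth A E' := .comp _ K0 _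
  let v : t → E' := Subtype.val
  let ρ : E →+* TrivSqZeroExt E' E' :=
    { toFun := fun a => TrivSqZeroExt.inl (algebraMap E E' a) +
        TrivSqZeroExt.inr (algebraMap E E' (d a))
      map_one' := by simp
      map_zero' := by simp
      map_add' := fun a b => by
        simp only [map_add, TrivSqZeroExt.inl_add, TrivSqZeroExt.inr_add]; abel
      map_mul' := fun a b => by
        ext
        · simp
        · simp only [Derivation.leibniz, map_add, smul_eq_mul, map_mul, TrivSqZeroExt.snd_add,
            TrivSqZeroExt.snd_inl, TrivSqZeroExt.snd_inr, TrivSqZeroExt.snd_mul,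
            TrivSqZeroExt.fst_add, TrivSqZeroExt.fst_inl, TrivSqZeroExt.fst_inr, zero_add,
            add_zero, op_smul_eq_smul, smul_eq_mul] }
  let Φ : MvPolynomial t E →+* TrivSqZeroExt E' E' :=
    MvPolynomial.eval₂Hom ρ (fun i => TrivSqZeroExt.inl (v i) + TrivSqZeroExt.inr (c' i))
  have hΦ : ∀ p, (Φ p).fst = MvPolynomial.aeval v p := by
    intro p
    have : ((TrivSqZeroExt.fstHom E' E' E').toRingHom.comp Φ) =
        (MvPolynomial.aeval v : MvPolynomial t E →ₐ[E] E').toRingHom := by
      apply MvPolynomial.ringHom_ext
      · intro r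
        simp [Φ, ρ]
      · intro i
        simp [Φ]
    exact DFunLike.congr_fun this p
  let e := ht.1.aevalEquiv
  have he : ∀ a : A, MvPolynomial.aeval v (e.symm a) = (a : E') := by
    intro a
    rw [← ht.1.algebraMap_aevalEquiv]
    simp [e]
  let δ : A →+ E' :=
    { toFun := fun a => (Φ (e.symm a)).snd
      map_zero' := by simp
      map_add' := fun a b => by simp }
  obtain ⟨d', hd'⟩ := ext_of_smooth δ (fun a b => by
    change (Φ (e.symm (a * b))).snd = (a : E') * (Φ (e.symm b)).snd + (b : E') * (Φ (e.symm a)).snd
    rw [map_mul, map_mul, TrivSqZeroExt.snd_mul, hΦ, hΦ, he, he]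
    simp [mul_comm])
  refine ⟨d', fun x => ?_, fun i => ?_⟩
  · have h1 := hd' (algebraMap E A x)
    have h2 : algebraMap A E' (algebraMap E A x) = algebraMap E E' x := rfl
    rw [h2] at h1
    rw [h1]
    change (Φ (e.symm (algebraMap E A x))).snd = _
    rw [AlgEquiv.commutes, MvPolynomial.algebraMap_eq]
    simp only [Φ, MvPolynomial.coe_eval₂Hom, MvPolynomial.eval₂_C]
    change (TrivSqZeroExt.inl (algebraMap E E' x) + TrivSqZeroExt.inr (algebraMap E E' (d x)) :
      TrivSqZeroExt E' E').snd = _
    rw [TrivSqZeroExt.snd_add, TrivSqZeroExt.snd_inl, TrivSqZeroExt.snd_inr, zero_add]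
  · let a : A := ⟨T i, Algebra.subset_adjoin ⟨y i, rfl⟩⟩
    have h1 := hd' a
    have h2 : algebraMap A E' a = T i := rfl
    rw [h2] at h1
    rw [h1]
    change (Φ (e.symm a)).snd = _
    have h3 : e.symm a = MvPolynomial.X (y i) := by
      rw [AlgEquiv.symm_apply_eq]
      apply Subtype.ext
      have := ht.1.algebraMap_aevalEquiv (MvPolynomial.X (y i))
      rw [MvPolynomial.aeval_X] at this
      exact this.symm
    rw [h3]
    simp [Φ, hc']

/-- The transcendence degree is bounded by the rank of the derivations on the coordinates. -/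
theorem exists_independent_derivations {k E : Type*} [Field k] [Field E] [Algebra k E]
    [CharZero k] {ι : Type*} [Finite ι] (y : ι → E) {m : ℕ} (z : Fin m → E)
    (hz : AlgebraicIndependent k z)
    (hy : ∀ j, IsAlgebraic (IntermediateField.adjoin k (Set.range y)) (z j)) :
    ∃ D : Fin m → Derivation k E E, LinearIndependent E (fun j => fun i => D j (y i)) := by
  classical
  have hD : ∀ j : Fin m, ∃ D : Derivation k E E, ∀ l, D (z l) = if j = l then 1 else 0 := by
    intro j
    obtain ⟨d', h1, h2⟩ := exists_ext_derivation z hz (0 : Derivation ℤ k k)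
      (fun l => if j = l then 1 else 0)
    have h1' : ∀ x : k, d' (algebraMap k E x) = 0 := fun x => by rw [h1]; simp
    refine ⟨Derivation.mk' { toFun := d', map_add' := fun a b => by simp, map_smul' := ?_ } ?_, ?_⟩
    · intro r x
      rw [Algebra.smul_def, Derivation.leibniz, h1']
      simp [Algebra.smul_def]
    · intro a b
      simp
    · exact h2
  choose D hD using hD
  refine ⟨D, ?_⟩
  rw [Fintype.linearIndependent_iff]
  intro g hg
  let Δ : Derivation k E E := ∑ j, g j • D j
  have hΔ : ∀ x, Δ x = ∑ j, g j * D j x := by
    intro x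
    have : ∀ s : Finset (Fin m), (∑ j ∈ s, g j • D j) x = ∑ j ∈ s, g j * D j x := by
      intro s
      induction s using Finset.induction_on with
      | empty => simp
      | insert a s ha ih =>
        rw [Finset.sum_insert ha, Finset.sum_insert ha, Derivation.add_apply, ih]
        simp
    exact this Finset.univ
  have hy0 : ∀ i, Δ (y i) = 0 := by
    intro i
    rw [hΔ]
    have := congrFun hg i
    simpa using this
  let K := IntermediateField.adjoin k (Set.range y)
  have hK : ∀ x ∈ K, Δ x = 0 := by
    intro x hx
    induction hx using IntermediateField.adjoin_induction with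
    | mem x hx => obtain ⟨i, rfl⟩ := hx; exact hy0 i
    | algebraMap x => simp
    | add x y _ _ hx hy => simp [hx, hy]
    | inv x _ hx => rw [Derivation.leibniz_inv, hx]; simp
    | mul x y _ _ hx hy => rw [Derivation.leibniz, hx, hy]; simp
  let Δ' : Derivation K E E := Derivation.mk'
    { toFun := Δ
      map_add' := fun a b => by simp
      map_smul' := fun r x => by
        rw [Algebra.smul_def, Derivation.leibniz]
        have : Δ (algebraMap K E r) = 0 := hK _ r.2
        rw [this]
        simp [Algebra.smul_def] } (fun a b => by simp)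
  have hzero : ∀ l, Δ (z l) = 0 := by
    intro l
    have hint : IsIntegral K (z l) := (hy l).isIntegral
    have hsep : (minpoly K (z l)).Separable := by
      have : CharZero K := charZero_of_injective_algebraMap (algebraMap k K).injective
      exact (minpoly.irreducible hint).separable
    have h1 := Δ'.map_aeval (minpoly K (z l)) (z l)
    rw [minpoly.aeval, map_zero] at h1
    have h2 := hsep.aeval_derivative_ne_zero (minpoly.aeval K (z l))
    exact (smul_eq_zero.1 h1.symm).resolve_left h2
  intro i
  have := hzero i
  rw [hΔ] at this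
  simpa [hD] using this

end F80
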