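import Pool.Agent.H45.F80.Defs
/-! Module A1: change of triangular basis. -/
open Module
namespace F80

section aux

variable {K V : Type*} [Field K] [AddCommGroup V] [Module K V] {n : ℕ}

/-- the flag of a basis -/
def Low (e : Basis (Fin n) K V) (i : Fin n) (x : V) : Prop := ∀ k, i < k → e.coord k x = 0

lemma sum_coord (e : Basis (Fin n) K V) (x : V) : x = ∑ k, e.coord k x • e k := by
  simp only [Basis.coord_apply]
  exact (e.sum_repr x).symm

lemma coord_self (e : Basis (Fin n) K V) (i k : Fin n) :
    e.coord i (e k) = if k = i then 1 else 0 := by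
  rw [Basis.coord_apply, Basis.repr_self, Finsupp.single_apply]

lemma coord_map (e : Basis (Fin n) K V) (X : Module.End K V) (i : Fin n) (x : V) :
    e.coord i (X x) = ∑ k, e.coord k x * e.coord i (X (e k)) := by
  conv_lhs => rw [sum_coord e x]
  simp only [map_sum, map_smul, smul_eq_mul]

/-- An upper triangular map preserves the flag. -/
lemma Low.map {e : Basis (Fin n) K V} {X : Module.End K V} (hX : UT e X) {i : Fin n} {x : V}
    (hx : Low e i x) : Low e i (X x) := by
  intro k hk
  rw [coord_map]
  apply Finset.sum_eq_zero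
  intro l _
  rcases lt_or_ge i l with h | h
  · rw [hx l h, zero_mul]
  · rw [hX l k (lt_of_le_of_lt h hk), mul_zero]

lemma Low.coord_map {e : Basis (Fin n) K V} {X : Module.End K V} (hX : UT e X) {i : Fin n} {x : V}
    (hx : Low e i x) : e.coord i (X x) = e.coord i x * e.coord i (X (e i)) := by
  rw [F80.coord_map, Finset.sum_eq_single i]
  · intro l _ hl
    rcases lt_or_gt_of_ne hl with h | h
    · rw [hX l i h, mul_zero]
    · rw [hx l h, zero_mul]
  · intro h; exact absurd (Finset.mem_univ i) h

lemma low_self (e : Basis (Fin n) K V) (i : Fin n) : Low e i (e i) := by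
  intro k hk
  rw [coord_self, if_neg hk.ne]

section change

variable {e v : Basis (Fin n) K V} (hv : ∀ i, Low e i (v i)) (hc : ∀ i, e.coord i (v i) ≠ 0)

include hv hc

lemma coord_zero_of_low {i : Fin n} {x : V} (hx : Low e i x) : Low v i x := by
  classical
  by_contra hcon
  simp only [Low, not_forall] at hcon
  obtain ⟨k0, hk0, hk0'⟩ := hcon
  let s : Finset (Fin n) := Finset.univ.filter (fun k => v.coord k x ≠ 0)
  have hs : s.Nonempty := ⟨k0, by simp only [s, Finset.mem_filter, Finset.mem_univ, true_and]; exact hk0'⟩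
  set m := s.max' hs with hm
  have hms : m ∈ s := Finset.max'_mem s hs
  have hm1 : v.coord m x ≠ 0 := by
    simp only [s, Finset.mem_filter, Finset.mem_univ, true_and] at hms; exact hms
  have hm2 : ∀ k, m < k → v.coord k x = 0 := by
    intro k hk
    by_contra h
    have : k ∈ s := by simp only [s, Finset.mem_filter, Finset.mem_univ, true_and]; exact h
    exact absurd (Finset.le_max' s k this) (not_le.2 hk)
  have hkm : k0 ≤ m := Finset.le_max' s k0 (by
    simp only [s, Finset.mem_filter, Finset.mem_univ, true_and]; exact hk0')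
  have him : i < m := lt_of_lt_of_le hk0 hkm
  have h1 : e.coord m x = v.coord m x * e.coord m (v m) := by
    conv_lhs => rw [sum_coord v x]
    simp only [map_sum, map_smul, smul_eq_mul]
    rw [Finset.sum_eq_single m]
    · intro l _ hl
      rcases lt_or_gt_of_ne hl with h | h
      · rw [hv l m h, mul_zero]
      · rw [hm2 l h, zero_mul]
    · intro h; exact absurd (Finset.mem_univ m) h
  rw [hx m him] at h1
  exact (mul_ne_zero hm1 (hc m)) h1.symm

lemma coord_div_of_low {i : Fin n} {x : V} (hx : Low e i x) :
    v.coord i x = e.coord i x / e.coord i (v i) := by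
  rw [eq_div_iff (hc i)]
  conv_rhs => rw [sum_coord v x]
  simp only [map_sum, map_smul, smul_eq_mul]
  rw [Finset.sum_eq_single i]
  · intro l _ hl
    rcases lt_or_gt_of_ne hl with h | h
    · rw [hv l i h, mul_zero]
    · rw [coord_zero_of_low hv hc hx l h, zero_mul]
  · intro h; exact absurd (Finset.mem_univ i) h

lemma UT.change {X : Module.End K V} (hX : UT e X) : UT v X := by
  intro i j hij
  exact coord_zero_of_low hv hc ((hv i).map hX) j hij

lemma diag_change {X : Module.End K V} (hX : UT e X) (i : Fin n) :
    v.coord i (X (v i)) = e.coord i (X (e i)) := by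
  rw [coord_div_of_low hv hc ((hv i).map hX), (hv i).coord_map hX, mul_comm,
    mul_div_assoc, div_self (hc i), mul_one]

lemma theta_change_same {X : Module.End K V} (hX : UT e X) (δ : SDer K V) :
    theta δ v X = theta δ e X +
      ∑ i, e.coord i (X (e i)) * (δ.d (e.coord i (v i)) / e.coord i (v i)) := by
  -- the linear map `Γ`
  let Γ : Module.End K V := e.constr K (fun i => δ.D (e i))
  have hΓ : ∀ i, Γ (e i) = δ.D (e i) := fun i => e.constr_basis K _ i
  have htr : ∀ (b : Basis (Fin n) K V) (f : Module.End K V),
      LinearMap.trace K V f = ∑ i, b.coord i (f (b i)) := by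
    intro b f
    rw [LinearMap.trace_eq_matrix_trace K b, Matrix.trace]
    apply Finset.sum_congr rfl
    intro i _
    rw [Matrix.diag_apply, LinearMap.toMatrix_apply, Basis.coord_apply]
  have h1 : theta δ e X = ∑ i, v.coord i (X (Γ (v i))) := by
    have h2 := htr e (X * Γ)
    have h3 := htr v (X * Γ)
    rw [h3] at h2
    simp only [Module.End.mul_apply, hΓ] at h2
    rw [theta, ← h2]
  rw [h1, theta, ← Finset.sum_add_distrib]
  apply Finset.sum_congr rfl
  intro i _
  -- the correction term
  let y : V := ∑ k, δ.d (e.coord k (v i)) • e k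
  have hy : ∀ k, e.coord k y = δ.d (e.coord k (v i)) := by
    intro k
    simp only [y, map_sum, map_smul, smul_eq_mul, coord_self, mul_ite, mul_one, mul_zero,
      Finset.sum_ite_eq', Finset.mem_univ, if_true]
  have hyl : Low e i y := by
    intro k hk
    rw [hy, hv i k hk, map_zero]
  have hD : δ.D (v i) = y + Γ (v i) := by
    conv_lhs => rw [sum_coord e (v i)]
    conv_rhs => rw [sum_coord e (v i)]
    simp only [map_sum, map_smul, δ.leib, Finset.sum_add_distrib, hΓ]
    rfl
  rw [hD, map_add, map_add, add_comm]
  congr 1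
  rw [coord_div_of_low hv hc (hyl.map hX), hyl.coord_map hX, hy]
  ring

end change

lemma exists_basis_of_low (e : Basis (Fin n) K V) (v : Fin n → V) (hv : ∀ i, Low e i (v i))
    (hc : ∀ i, e.coord i (v i) ≠ 0) : ∃ b : Basis (Fin n) K V, ∀ i, b i = v i := by
  have hdet : IsUnit (e.det v) := by
    rw [Basis.det_apply]
    have : (e.toMatrix v).BlockTriangular id := by
      intro i j hij
      rw [Basis.toMatrix_apply]
      exact hv j i hij
    rw [Matrix.det_of_upperTriangular this, isUnit_iff_ne_zero]
    apply Finset.prod_ne_zero_iff.2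
    intro i _
    rw [Basis.toMatrix_apply]
    exact hc i
  obtain ⟨hli, hsp⟩ := (Module.Basis.is_basis_iff_det e).2 hdet
  exact ⟨Basis.mk hli hsp.ge, fun i => by rw [Basis.mk_apply]⟩

/-- Bruhat decomposition: two flags have a common adapted basis up to a permutation. -/
lemma exists_bruhat (e e' : Basis (Fin n) K V) :
    ∃ (v : Basis (Fin n) K V) (w : Equiv.Perm (Fin n)),
      (∀ i, Low e i (v i)) ∧ (∀ i, e.coord i (v i) ≠ 0) ∧
      (∀ i, Low e' (w i) (v i)) ∧ (∀ i, e'.coord (w i) (v i) ≠ 0) := by
  classical
  let P : Fin n → ℕ → Prop := fun i m => ∃ x : V, Low e i x ∧ e.coord i x ≠ 0 ∧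
    ∀ k : Fin n, m ≤ (k : ℕ) → e'.coord k x = 0
  have hP : ∀ i, ∃ m, P i m := fun i => ⟨n, e i, low_self e i, by rw [coord_self]; simp,
    fun k hk => absurd k.2 (not_lt.2 hk)⟩
  have hPn : ∀ i, P i n := fun i => ⟨e i, low_self e i, by rw [coord_self]; simp,
    fun k hk => absurd k.2 (not_lt.2 hk)⟩
  let m : Fin n → ℕ := fun i => Nat.find (hP i)
  have hmP : ∀ i, P i (m i) := fun i => Nat.find_spec (hP i)
  have hmin : ∀ i l, P i l → m i ≤ l := fun i l h => Nat.find_min' (hP i) h
  have hm0 : ∀ i, m i ≠ 0 := by
    intro i h0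
    obtain ⟨x, -, hx1, hx2⟩ := hmP i
    apply hx1
    have hx0 : x = 0 := by
      rw [sum_coord e' x]
      apply Finset.sum_eq_zero
      intro k _
      rw [hx2 k (by rw [h0]; exact Nat.zero_le _), zero_smul]
    rw [hx0, map_zero]
  have hmn : ∀ i, m i - 1 < n := fun i => by
    have := hmin i n (hPn i)
    have := hm0 i
    omega
  choose x hx1 hx2 hx3 using hmP
  let w0 : Fin n → Fin n := fun i => ⟨m i - 1, hmn i⟩
  have hlow' : ∀ i, Low e' (w0 i) (x i) := by
    intro i k hk
    apply hx3
    have : m i - 1 < (k : ℕ) := hk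
    omega
  have hlead' : ∀ i, e'.coord (w0 i) (x i) ≠ 0 := by
    intro i h0
    have : P i (m i - 1) := by
      refine ⟨x i, hx1 i, hx2 i, ?_⟩
      intro k hk
      rcases hk.eq_or_lt with h | h
      · have : k = w0 i := Fin.ext h.symm
        rw [this]; exact h0
      · exact hlow' i k h
    have := hmin i _ this
    have := hm0 i
    omega
  have hinj : Function.Injective w0 := by
    have key : ∀ i j, i < j → w0 i = w0 j → False := by
      intro i j hij hw
      -- subtract a multiple of `x i` from `x j`
      let c : K := e'.coord (w0 j) (x j) / e'.coord (w0 j) (x i)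
      have hne : e'.coord (w0 j) (x i) ≠ 0 := by rw [← hw]; exact hlead' i
      have : P j (m j - 1) := by
        refine ⟨x j - c • x i, ?_, ?_, ?_⟩
        · intro k hk
          rw [map_sub, map_smul, hx1 j k hk, hx1 i k (hij.trans hk), smul_zero, sub_zero]
        · rw [map_sub, map_smul, hx1 i j hij, smul_zero, sub_zero]
          exact hx2 j
        · intro k hk
          rcases hk.eq_or_lt with h | h
          · have hk' : k = w0 j := Fin.ext h.symm
            rw [hk', map_sub, map_smul, smul_eq_mul, div_mul_cancel₀ _ hne, sub_self]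
          · rw [map_sub, map_smul, hlow' j k h, hlow' i k (by rw [hw]; exact h), smul_zero,
              sub_zero]
      have := hmin j _ this
      have := hm0 j
      omega
    intro i j hw
    rcases lt_trichotomy i j with h | h | h
    · exact (key i j h hw).elim
    · exact h
    · exact (key j i h hw.symm).elim
  obtain ⟨v, hv⟩ := exists_basis_of_low e x hx1 hx2
  refine ⟨v, Equiv.ofBijective w0 (Finite.injective_iff_bijective.1 hinj), ?_, ?_, ?_, ?_⟩
  · intro i; rw [hv]; exact hx1 i
  · intro i; rw [hv]; exact hx2 i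
  · intro i; rw [hv]; exact hlow' i
  · intro i; rw [hv]; exact hlead' i

end aux

/-- (T1) If `X` is upper triangular in two bases, the two theta forms differ by a combination of
logarithmic derivatives of nonzero scalars independent of the derivation, with the diagonal
entries of `X` as coefficients. -/
theorem theta_change {K V : Type*} [Field K] [AddCommGroup V] [Module K V] {n : ℕ}
    (e e' : Basis (Fin n) K V) (X : Module.End K V) (he : UT e X) (he' : UT e' X) :
    ∃ c : Fin n → K, (∀ i, c i ≠ 0) ∧ ∀ δ : SDer K V,
      theta δ e' X = theta δ e X + ∑ i, e.coord i (X (e i)) * (δ.d (c i) / c i) := by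
  obtain ⟨v, w, h1, h2, h3, h4⟩ := exists_bruhat e e'
  let u : Basis (Fin n) K V := v.reindex w
  have hu : ∀ j, u j = v (w.symm j) := fun j => by rw [Basis.reindex_apply]
  have hul : ∀ j, Low e' j (u j) := fun j => by
    have := h3 (w.symm j)
    rwa [Equiv.apply_symm_apply, ← hu] at this
  have huc : ∀ j, e'.coord j (u j) ≠ 0 := fun j => by
    have := h4 (w.symm j)
    rwa [Equiv.apply_symm_apply, ← hu] at this
  have hucoord : ∀ j x, u.coord j x = v.coord (w.symm j) x := fun j x => by
    rw [Basis.coord_apply, Basis.coord_apply, Basis.repr_reindex_apply]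
  have hdiag : ∀ j, e'.coord j (X (e' j)) = e.coord (w.symm j) (X (e (w.symm j))) := by
    intro j
    rw [← diag_change hul huc he' j, ← diag_change h1 h2 he (w.symm j), hucoord, hu]
  refine ⟨fun i => e.coord i (v i) / e'.coord (w i) (v i), fun i => div_ne_zero (h2 i) (h4 i),
    fun δ => ?_⟩
  have hth : theta δ u X = theta δ v X := by
    rw [theta, theta, ← Equiv.sum_comp w]
    apply Finset.sum_congr rfl
    intro i _
    rw [hucoord, hu, Equiv.symm_apply_apply]
  have e1 := theta_change_same h1 h2 he δ
  have e2 := theta_change_same hul huc he' δ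
  rw [hth, e1] at e2
  have hsum : ∑ j, e'.coord j (X (e' j)) * (δ.d (e'.coord j (u j)) / e'.coord j (u j)) =
      ∑ i, e.coord i (X (e i)) * (δ.d (e'.coord (w i) (v i)) / e'.coord (w i) (v i)) := by
    rw [← Equiv.sum_comp w]
    apply Finset.sum_congr rfl
    intro i _
    rw [hdiag, hu, Equiv.symm_apply_apply]
  rw [hsum] at e2
  have hlog : ∀ i, δ.d (e.coord i (v i) / e'.coord (w i) (v i)) /
      (e.coord i (v i) / e'.coord (w i) (v i)) =
      δ.d (e.coord i (v i)) / e.coord i (v i) -
        δ.d (e'.coord (w i) (v i)) / e'.coord (w i) (v i) := by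
    intro i
    have ha := h2 i
    have hb := h4 i
    generalize e.coord i (v i) = a at ha ⊢
    generalize e'.coord (w i) (v i) = b at hb ⊢
    have hmul : δ.d a = (a / b) * δ.d b + b * δ.d (a / b) := by
      have := δ.d.leibniz (a / b) b
      rw [div_mul_cancel₀ a hb] at this
      simpa [smul_eq_mul] using this
    have : δ.d (a / b) = (δ.d a - (a / b) * δ.d b) / b := by
      rw [hmul]; field_simp; ring
    rw [this]
    field_simp
  simp only [hlog, mul_sub, Finset.sum_sub_distrib]
  linear_combination -e2

/-- For strictly upper triangular `X` the theta form does not depend on the basis. -/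
theorem theta_eq_of_SUT {K V : Type*} [Field K] [AddCommGroup V] [Module K V] {n : ℕ}
    (e e' : Basis (Fin n) K V) (X : Module.End K V) (he : SUT e X) (he' : SUT e' X)
    (δ : SDer K V) : theta δ e' X = theta δ e X := by
  obtain ⟨c, -, hc⟩ := theta_change e e' X (fun i j hij => he i j hij.le)
    (fun i j hij => he' i j hij.le)
  rw [hc δ, Finset.sum_eq_zero, add_zero]
  intro i _
  rw [he i i le_rfl, zero_mul]

end F80
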