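import Pool.Agent.H45.F80.Defs
/-! Module A3: triangular bases over principal ideal domains. -/
open Module
namespace F80

namespace A3

lemma coord_apply_sum {R M : Type*} [CommRing R] [AddCommGroup M] [Module R M] {n : ℕ}
    (e : Basis (Fin n) R M) (X Y : Module.End R M) (i l : Fin n) :
    e.coord l ((X * Y) (e i)) = ∑ j, e.coord j (Y (e i)) * e.coord l (X (e j)) := by
  calc e.coord l ((X * Y) (e i)) = e.coord l (X (∑ j, e.repr (Y (e i)) j • e j)) := by
        rw [e.sum_repr, Module.End.mul_apply]
    _ = ∑ j, e.coord j (Y (e i)) * e.coord l (X (e j)) := by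
        rw [map_sum, map_sum]
        exact Finset.sum_congr rfl fun j _ => by
          rw [map_smul, map_smul, smul_eq_mul, Basis.coord_apply e j]

end A3

/-- A strictly upper triangular endomorphism is nilpotent. -/
theorem SUT.isNilpotent {R M : Type*} [CommRing R] [AddCommGroup M] [Module R M] {n : ℕ}
    {e : Basis (Fin n) R M} {X : Module.End R M} (h : SUT e X) : IsNilpotent X := by
  have key : ∀ (k : ℕ) (i l : Fin n), (i : ℕ) < l + k → e.coord l ((X ^ k) (e i)) = 0 := by
    intro k
    induction k with
    | zero =>
      intro i l hil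
      have : i ≠ l := by
        rintro rfl; omega
      simp [this]
    | succ k ih =>
      intro i l hil
      rw [pow_succ, A3.coord_apply_sum]
      refine Finset.sum_eq_zero fun j _ => ?_
      by_cases hj : i ≤ j
      · rw [h i j hj, zero_mul]
      · rw [ih j l (by have : (j : ℕ) < i := not_le.mp hj
                       omega), mul_zero]
  refine ⟨n, ?_⟩
  refine e.ext fun i => ?_
  refine e.ext_elem fun l => ?_
  have := key n i l (by omega)
  simpa using this

/-- An upper triangular nilpotent endomorphism over a domain is strictly upper triangular. -/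
theorem UT.sut {R M : Type*} [CommRing R] [IsDomain R] [AddCommGroup M] [Module R M] {n : ℕ}
    {e : Basis (Fin n) R M} {X : Module.End R M} (h : UT e X) (hX : IsNilpotent X) : SUT e X := by
  have key : ∀ (k : ℕ) (i : Fin n), (∀ l, i < l → e.coord l ((X ^ k) (e i)) = 0) ∧
      e.coord i ((X ^ k) (e i)) = (e.coord i (X (e i))) ^ k := by
    intro k
    induction k with
    | zero =>
      intro i
      refine ⟨fun l hl => ?_, ?_⟩
      · simp [hl.ne]
      · simp
    | succ k ih =>
      intro i
      refine ⟨fun l hl => ?_, ?_⟩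
      · rw [pow_succ', A3.coord_apply_sum]
        refine Finset.sum_eq_zero fun j _ => ?_
        by_cases hj : i < j
        · rw [(ih i).1 j hj, zero_mul]
        · rw [h j l (lt_of_le_of_lt (not_lt.mp hj) hl), mul_zero]
      · rw [pow_succ', A3.coord_apply_sum, Finset.sum_eq_single i]
        · rw [(ih i).2, pow_succ]
        · intro j _ hj
          rcases lt_or_gt_of_ne hj with h1 | h1
          · rw [h j i h1, mul_zero]
          · rw [(ih i).1 j h1, zero_mul]
        · intro h1; exact absurd (Finset.mem_univ i) h1
  obtain ⟨k, hk⟩ := hX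
  intro i j hij
  rcases eq_or_lt_of_le hij with h1 | h1
  · subst h1
    have := (key k i).2
    rw [hk] at this
    simp only [LinearMap.zero_apply, map_zero] at this
    exact eq_zero_of_pow_eq_zero this.symm
  · exact h i j h1

namespace A3

lemma exists_UT_aux {R : Type*} [CommRing R] [IsDomain R] [IsPrincipalIdealRing R] (n : ℕ) :
    ∀ {M : Type*} [AddCommGroup M] [Module R M] [Module.Free R M] [Module.Finite R M]
    (X : Module.End R M) (_ : X.charpoly.Splits) (_ : finrank R M = n),
    ∃ e : Basis (Fin n) R M, UT e X := by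
  induction n using Nat.strong_induction_on with
  | _ n ih =>
  intro M _ _ _ _ X hX hn
  rcases Nat.eq_zero_or_pos n with h0 | hpos
  · subst h0
    exact ⟨Module.finBasisOfFinrankEq R M hn, fun i => i.elim0⟩
  have hdeg : X.charpoly.degree ≠ 0 := by
    rw [Polynomial.degree_eq_natDegree X.charpoly_monic.ne_zero, LinearMap.charpoly_natDegree, hn]
    exact_mod_cast hpos.ne'
  obtain ⟨a, ha⟩ := hX.exists_eval_eq_zero hdeg
  have hev : X.HasEigenvalue a := (Module.End.hasEigenvalue_iff_isRoot_charpoly X a).mpr ha
  set N : Submodule R M := X.eigenspace a with hN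
  have hN0 : N ≠ ⊥ := hev
  have hXN : N ≤ N.comap X := by
    intro v hv
    have hv' : X v = a • v := Module.End.mem_eigenspace_iff.mp hv
    show X v ∈ N
    rw [hv']
    exact N.smul_mem a hv
  have htf : IsTorsionFree R (M ⧸ N) := by
    refine ⟨fun c hc => ?_⟩
    have hc0 : c ≠ 0 := hc.ne_zero
    refine (injective_iff_map_eq_zero (DistribSMul.toAddMonoidHom (M ⧸ N) c)).mpr fun q hq => ?_
    obtain ⟨v, rfl⟩ := N.mkQ_surjective q
    have h1 : c • N.mkQ v = 0 := hq
    rw [← map_smul, Submodule.mkQ_apply, Submodule.Quotient.mk_eq_zero] at h1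
    rw [Submodule.mkQ_apply, Submodule.Quotient.mk_eq_zero]
    rw [hN, Module.End.mem_eigenspace_iff] at h1 ⊢
    rw [map_smul, smul_comm a c v] at h1
    exact smul_right_injective M hc0 h1
  have hsum : finrank R (M ⧸ N) + finrank R N = n := by
    rw [Submodule.finrank_quotient_add_finrank, hn]
  have hNpos : 0 < finrank R N := by
    rw [Nat.pos_iff_ne_zero]
    intro h0
    exact hN0 (Submodule.finrank_eq_zero.mp h0)
  set X' : Module.End R (M ⧸ N) := N.mapQ N X hXN with hX'
  have hcp : X'.charpoly ∣ X.charpoly := by
    let bN := Module.finBasis R N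
    let bQ := Module.finBasis R (M ⧸ N)
    let B := Module.Basis.sumQuot bN bQ
    have h1 : LinearMap.toMatrix B B X = Matrix.fromBlocks
        ((LinearMap.toMatrix B B X).toBlocks₁₁) ((LinearMap.toMatrix B B X).toBlocks₁₂) 0
        (LinearMap.toMatrix bQ bQ X') := by
      rw [← Matrix.fromBlocks_toBlocks (LinearMap.toMatrix B B X)]
      simp only [Matrix.toBlocks_fromBlocks₁₁, Matrix.toBlocks_fromBlocks₁₂]
      congr 1
      · ext i j
        simp only [Matrix.toBlocks₂₁, Matrix.of_apply, LinearMap.toMatrix_apply, Matrix.zero_apply]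
        refine Module.Basis.sumQuot_repr_inr_of_mem bN bQ _ ?_ i
        rw [Module.Basis.sumQuot_inl]
        exact hXN (bN j).2
      · ext i j
        simp only [Matrix.toBlocks₂₂, Matrix.of_apply, LinearMap.toMatrix_apply]
        rw [Module.Basis.sumQuot_repr_inr, ← Module.Basis.sumQuot_inr bN bQ j, hX']
        rfl
    rw [← LinearMap.charpoly_toMatrix X B, ← LinearMap.charpoly_toMatrix X' bQ, h1,
      Matrix.charpoly_fromBlocks_zero₂₁]
    exact dvd_mul_left _ _
  have hX's : X'.charpoly.Splits := hX.of_dvd X.charpoly_monic.ne_zero hcp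
  obtain ⟨eQ, heQ⟩ := ih (finrank R (M ⧸ N)) (by omega) X' hX's rfl
  let bN := Module.finBasis R N
  let B := Module.Basis.sumQuot bN eQ
  have hcard : finrank R N + finrank R (M ⧸ N) = n := by omega
  let e : Basis (Fin n) R M := B.reindex (finSumFinEquiv.trans (finCongr hcard))
  refine ⟨e, fun i j hij => ?_⟩
  have hmain : ∀ s t : Fin (finrank R N) ⊕ Fin (finrank R (M ⧸ N)),
      finSumFinEquiv s < finSumFinEquiv t → B.coord t (X (B s)) = 0 := by
    rintro (s | s) t hst
    · have h1 : X (B (Sum.inl s)) = a • B (Sum.inl s) := by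
        refine Module.End.mem_eigenspace_iff.mp ?_
        rw [Module.Basis.sumQuot_inl]
        exact (bN s).2
      rw [h1, map_smul, Basis.coord_apply, Basis.repr_self, Finsupp.single_apply, if_neg, smul_zero]
      rintro rfl
      exact lt_irrefl _ hst
    · rcases t with t | t
      · exfalso
        rw [finSumFinEquiv_apply_right, finSumFinEquiv_apply_left] at hst
        have := Fin.lt_def.mp hst
        simp at this
        omega
      · rw [finSumFinEquiv_apply_right, finSumFinEquiv_apply_right] at hst
        have hst' : s < t := by simpa using hst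
        rw [Basis.coord_apply, Module.Basis.sumQuot_repr_inr]
        have h2 : N.mkQ (X (B (Sum.inr s))) = X' (eQ s) := by
          rw [← Module.Basis.sumQuot_inr bN eQ s]
          rfl
        rw [h2]
        exact heQ s t hst'
  have := hmain ((finSumFinEquiv.trans (finCongr hcard)).symm i)
    ((finSumFinEquiv.trans (finCongr hcard)).symm j) (by
      simp only [Equiv.symm_trans_apply, Equiv.apply_symm_apply]
      exact hij)
  rw [Basis.coord_apply, Basis.repr_reindex_apply, Basis.reindex_apply]
  exact this

end A3

theorem exists_UT {R M : Type*} [CommRing R] [IsDomain R] [IsPrincipalIdealRing R]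
    [AddCommGroup M] [Module R M] [Module.Free R M] [Module.Finite R M]
    (X : Module.End R M) (hX : X.charpoly.Splits) :
    ∃ e : Basis (Fin (finrank R M)) R M, UT e X :=
  A3.exists_UT_aux _ X hX rfl

theorem exists_SUT {R M : Type*} [CommRing R] [IsDomain R] [IsPrincipalIdealRing R]
    [AddCommGroup M] [Module R M] [Module.Free R M] [Module.Finite R M]
    (X : Module.End R M) (hX : IsNilpotent X) :
    ∃ e : Basis (Fin (finrank R M)) R M, SUT e X := by
  obtain ⟨e, he⟩ := exists_UT X (by
    rw [hX.charpoly_eq_X_pow_finrank]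
    exact Polynomial.Splits.X_pow _)
  exact ⟨e, he.sut hX⟩
end F80
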