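import Pool.Agent.H45.F80.A1
import Pool.Agent.H45.F80.A3
open Module Polynomial Matrix
namespace F80

namespace A2

variable {E V : Type*} [Field E] [AddCommGroup V] [Module E V] {n : ℕ}

/-- coordinates matrix of `D` -/
noncomputable def gam (δ : SDer E V) (e : Basis (Fin n) E V) : Matrix (Fin n) (Fin n) E :=
  Matrix.of fun i j => e.repr (δ.D (e j)) i

/-- matrix form of theta -/
noncomputable def TH (δ : SDer E V) (e : Basis (Fin n) E V)
    (P P' X : Matrix (Fin n) (Fin n) E) : E :=
  Matrix.trace (P' * X * (P.map δ.d + gam δ e * P))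

noncomputable def bas (e : Basis (Fin n) E V) (P P' : Matrix (Fin n) (Fin n) E)
    (h1 : P * P' = 1) (h2 : P' * P = 1) : Basis (Fin n) E V :=
  e.map (Matrix.toLinOfInv e e h1 h2)

lemma bas_apply (e : Basis (Fin n) E V) (P P' : Matrix (Fin n) (Fin n) E)
    (h1 : P * P' = 1) (h2 : P' * P = 1) (j : Fin n) :
    bas e P P' h1 h2 j = ∑ i, P i j • e i := by
  simp [bas, Matrix.toLin_self]

lemma bas_repr (e : Basis (Fin n) E V) (P P' : Matrix (Fin n) (Fin n) E)
    (h1 : P * P' = 1) (h2 : P' * P = 1) (v : V) (j : Fin n) :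
    (bas e P P' h1 h2).repr v j = (P' *ᵥ (e.repr v)) j := by
  simp only [bas, Basis.map_repr, LinearEquiv.trans_apply]
  have : (Matrix.toLinOfInv e e h1 h2).symm v = Matrix.toLin e e P' v := rfl
  rw [this, Matrix.toLin_apply]
  simp [Finsupp.single_apply]

lemma repr_D (δ : SDer E V) (e : Basis (Fin n) E V) (P P' : Matrix (Fin n) (Fin n) E)
    (h1 : P * P' = 1) (h2 : P' * P = 1) (j i : Fin n) :
    e.repr (δ.D (bas e P P' h1 h2 j)) i = (P.map δ.d + gam δ e * P) i j := by
  rw [bas_apply, map_sum]
  simp only [δ.leib, map_sum, map_add, map_smul, Basis.repr_self, Finsupp.finsetSum_apply,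
    Finsupp.add_apply, Finsupp.smul_apply, Finset.sum_add_distrib, Matrix.add_apply,
    Matrix.map_apply, Matrix.mul_apply, gam, Matrix.of_apply, smul_eq_mul, Finsupp.single_apply]
  congr 1
  · simp
  · exact Finset.sum_congr rfl fun k _ => mul_comm _ _

lemma theta_bas (δ : SDer E V) (e : Basis (Fin n) E V) (P P' : Matrix (Fin n) (Fin n) E)
    (h1 : P * P' = 1) (h2 : P' * P = 1) (X : Module.End E V) :
    theta δ (bas e P P' h1 h2) X = TH δ e P P' (LinearMap.toMatrix e e X) := by
  unfold theta TH
  rw [Matrix.trace]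
  refine Finset.sum_congr rfl fun j _ => ?_
  rw [Basis.coord_apply, bas_repr, ← LinearMap.toMatrix_mulVec_repr e e X, Matrix.mulVec_mulVec,
    Matrix.diag_apply, Matrix.mul_apply]
  simp only [Matrix.mulVec, dotProduct]
  exact Finset.sum_congr rfl fun i _ => by rw [repr_D]

lemma coord_bas (e : Basis (Fin n) E V) (P P' : Matrix (Fin n) (Fin n) E)
    (h1 : P * P' = 1) (h2 : P' * P = 1) (X : Module.End E V) (i j : Fin n) :
    (bas e P P' h1 h2).coord j (X (bas e P P' h1 h2 i)) =
      (P' * LinearMap.toMatrix e e X * P) j i := by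
  rw [Basis.coord_apply, bas_repr, ← LinearMap.toMatrix_mulVec_repr e e X, Matrix.mulVec_mulVec,
    Matrix.mul_apply]
  simp only [Matrix.mulVec, dotProduct]
  refine Finset.sum_congr rfl fun k _ => ?_
  rw [bas_apply]
  simp [Finsupp.single_apply]

/-- matrix version of `exists_SUT` -/
lemma exists_mat {R : Type*} [CommRing R] [IsDomain R] [IsPrincipalIdealRing R]
    (X : Matrix (Fin n) (Fin n) R) (hX : IsNilpotent X) :
    ∃ P P' : Matrix (Fin n) (Fin n) R, P * P' = 1 ∧ P' * P = 1 ∧
      ∀ i j, i ≤ j → (P' * X * P) j i = 0 := by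
  obtain ⟨e, he⟩ := exists_SUT (Matrix.toLin' X) (by
    obtain ⟨k, hk⟩ := hX
    exact ⟨k, by rw [← Matrix.toLin'_pow, hk, LinearEquiv.map_zero]⟩)
  have hfr : finrank R (Fin n → R) = n := Module.finrank_fin_fun R
  let b : Basis (Fin n) R (Fin n → R) := e.reindex (finCongr hfr)
  let s : Basis (Fin n) R (Fin n → R) := Pi.basisFun R (Fin n)
  refine ⟨s.toMatrix b, b.toMatrix s, s.toMatrix_mul_toMatrix_flip b,
    b.toMatrix_mul_toMatrix_flip s, fun i j hij => ?_⟩
  have h := he ((finCongr hfr).symm i) ((finCongr hfr).symm j) hij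
  have h2 : b.toMatrix s * X * s.toMatrix b = LinearMap.toMatrix b b (Matrix.toLin' X) := by
    have h3 : X = LinearMap.toMatrix s s (Matrix.toLin' X) := by
      rw [LinearMap.toMatrix_eq_toMatrix', LinearMap.toMatrix'_toLin']
    conv_lhs => rw [h3]
    exact basis_toMatrix_mul_linearMap_toMatrix_mul_basis_toMatrix b s b s (Matrix.toLin' X)
  rw [h2, LinearMap.toMatrix_apply]
  simpa [b] using h

/-- coefficientwise derivation -/
noncomputable def pD (d : Derivation ℤ E E) (p : E[X]) : E[X] :=
  p.sum fun i a => monomial i (d a)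

lemma d_pow (d : Derivation ℤ E E) {c : E} (hc : d c = 0) (i : ℕ) : d (c ^ i) = 0 := by
  rw [Derivation.leibniz_pow, hc]; simp

lemma eval_pD (d : Derivation ℤ E E) {c : E} (hc : d c = 0) (p : E[X]) :
    (pD d p).eval c = d (p.eval c) := by
  rw [pD, Polynomial.sum_def, Polynomial.eval_finsetSum, Polynomial.eval_eq_sum,
    Polynomial.sum_def, map_sum]
  refine Finset.sum_congr rfl fun i _ => ?_
  rw [Derivation.leibniz, d_pow d hc]
  simp [mul_comm]

lemma const_infinite [Infinite E] (d : Derivation ℤ E E) : {c : E | d c = 0}.Infinite := by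
  obtain ⟨p, hp⟩ := CharP.exists E
  rcases Nat.eq_zero_or_pos p with h0 | hpos
  · subst h0
    have : CharZero E := CharP.charP_to_charZero E
    refine Set.infinite_of_injective_forall_mem (f := fun m : ℕ => (m : E))
      Nat.cast_injective fun m => ?_
    simp
  · have : Fact p.Prime := ⟨(CharP.char_is_prime_or_zero E p).resolve_right hpos.ne'⟩
    refine Set.infinite_of_injective_forall_mem (f := fun c : E => frobenius E p c)
      (frobenius_inj E p) fun c => ?_
    simp [frobenius_def, Derivation.leibniz_pow]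

lemma nil_pow [FiniteDimensional E V] (X : Module.End E V) (hX : IsNilpotent X) :
    X ^ finrank E V = 0 := by
  have h := LinearMap.aeval_self_charpoly X
  rw [IsNilpotent.charpoly_eq_X_pow_finrank hX] at h
  simpa using h

/-- the pencil over the polynomial ring -/
noncomputable def pen (e : Basis (Fin n) E V) (A B : Module.End E V) :
    Matrix (Fin n) (Fin n) E[X] :=
  (LinearMap.toMatrix e e A).map C + (X : E[X]) • (LinearMap.toMatrix e e B).map C

lemma map_pen (e : Basis (Fin n) E V) (A B : Module.End E V) (c : E) :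
    (evalRingHom c).mapMatrix (pen e A B) = LinearMap.toMatrix e e (A + c • B) := by
  ext i j
  simp only [pen, RingHom.mapMatrix_apply, Matrix.map_apply, Matrix.add_apply, Matrix.smul_apply,
    smul_eq_mul, map_add, map_smul, coe_evalRingHom, eval_mul, eval_X, eval_C]

lemma pen_nilpotent (e : Basis (Fin n) E V) (A B : Module.End E V)
    (hnil : {c : E | IsNilpotent (A + c • B)}.Infinite) : IsNilpotent (pen e A B) := by
  have : FiniteDimensional E V := Module.Finite.of_basis e
  refine ⟨finrank E V, ?_⟩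
  ext1 i j
  refine Polynomial.eq_of_infinite_eval_eq _ _ (hnil.mono fun c hc => ?_)
  have h1 := nil_pow (A + c • B) hc
  have h2 : (evalRingHom c).mapMatrix (pen e A B ^ finrank E V) = 0 := by
    rw [map_pow, map_pen, LinearMap.toMatrix_pow, h1, map_zero]
  have h3 := congrFun (congrFun h2 i) j
  simpa using h3

lemma line_nilpotent [FiniteDimensional E V] (A B : Module.End E V)
    (hnil : {c : E | IsNilpotent (A + c • B)}.Infinite) (c : E) : IsNilpotent (A + c • B) := by
  obtain ⟨k, hk⟩ := pen_nilpotent (finBasis E V) A B hnil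
  refine ⟨k, ?_⟩
  have h2 : (evalRingHom c).mapMatrix (pen (finBasis E V) A B ^ k) = 0 := by
    rw [hk, map_zero]
  rw [map_pow, map_pen, LinearMap.toMatrix_pow] at h2
  exact (LinearMap.toMatrix (finBasis E V) (finBasis E V)).map_eq_zero_iff.mp h2

lemma swap_infinite (A B : Module.End E V)
    (hnil : {c : E | IsNilpotent (A + c • B)}.Infinite) :
    {c : E | IsNilpotent (B + c • A)}.Infinite := by
  have h1 : ({c : E | IsNilpotent (A + c • B)} \ {0}).Infinite := hnil.sdiff (Set.finite_singleton 0)
  refine (h1.image (f := fun c => c⁻¹) (inv_injective.injOn)).mono ?_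
  rintro _ ⟨c, ⟨hc, hc0⟩, rfl⟩
  have hc0' : c ≠ 0 := hc0
  have h2 : B + c⁻¹ • A = c⁻¹ • (A + c • B) := by
    rw [smul_add, smul_smul, inv_mul_cancel₀ hc0', one_smul, add_comm]
  show IsNilpotent (B + c⁻¹ • A)
  rw [h2]
  exact IsNilpotent.smul hc c⁻¹

/-- theta is polynomial along the line -/
lemma exists_poly (δ : SDer E V) (e : Basis (Fin n) E V) (A B : Module.End E V)
    (hnil : {c : E | IsNilpotent (A + c • B)}.Infinite) :
    ∃ F : E[X], ∀ c : E, δ.d c = 0 → ∀ b : Basis (Fin n) E V, SUT b (A + c • B) →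
      theta δ b (A + c • B) = F.eval c := by
  obtain ⟨P, P', h1, h2, h3⟩ := exists_mat (pen e A B) (pen_nilpotent e A B hnil)
  refine ⟨Matrix.trace (P' * pen e A B * (P.map (pD δ.d) + (gam δ e).map C * P)),
    fun c hc b hb => ?_⟩
  set ev : E[X] →+* E := evalRingHom c with hev
  have k1 : ev.mapMatrix P * ev.mapMatrix P' = 1 := by rw [← map_mul, h1, map_one]
  have k2 : ev.mapMatrix P' * ev.mapMatrix P = 1 := by rw [← map_mul, h2, map_one]
  have k3 : SUT (bas e _ _ k1 k2) (A + c • B) := by
    intro i j hij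
    rw [coord_bas, ← map_pen, ← map_mul, ← map_mul]
    have := h3 i j hij
    rw [RingHom.mapMatrix_apply, Matrix.map_apply, this, map_zero]
  rw [theta_eq_of_SUT _ b _ k3 hb δ, theta_bas, TH]
  have k4 : Matrix.trace (ev.mapMatrix (P' * pen e A B * (P.map (pD δ.d) +
      (gam δ e).map C * P))) = ev (Matrix.trace (P' * pen e A B * (P.map (pD δ.d) +
      (gam δ e).map C * P))) := by
    rw [Matrix.trace, Matrix.trace, map_sum]
    rfl
  have k5 : ev.mapMatrix (P.map (pD δ.d) + (gam δ e).map C * P) =
      (ev.mapMatrix P).map δ.d + gam δ e * ev.mapMatrix P := by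
    rw [map_add, map_mul]
    congr 1
    · ext i j
      simp only [RingHom.mapMatrix_apply, Matrix.map_apply]
      exact eval_pD δ.d hc _
    · congr 1
      ext i j
      simp [hev]
  rw [map_mul, map_mul, map_pen, k5] at k4
  rw [k4]
  rfl

end A2

/-- (A2) If `A + c • B` is nilpotent for infinitely many scalars `c`, theta is additive on
`A`, `B`. -/
theorem theta_add {E V : Type*} [Field E] [AddCommGroup V] [Module E V] {n : ℕ}
    (δ : SDer E V) (A B : Module.End E V)
    (hnil : {c : E | IsNilpotent (A + c • B)}.Infinite)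
    (eA eB eY : Basis (Fin n) E V) (hA : SUT eA A) (hB : SUT eB B) (hY : SUT eY (A + B)) :
    theta δ eY (A + B) = theta δ eA A + theta δ eB B := by
  have : Infinite E := Set.infinite_univ_iff.mp (hnil.mono (Set.subset_univ _))
  have : FiniteDimensional E V := Module.Finite.of_basis eA
  obtain ⟨F, hF⟩ := A2.exists_poly δ eA A B hnil
  obtain ⟨G, hG⟩ := A2.exists_poly δ eA B A (A2.swap_infinite A B hnil)
  have hn : finrank E V = n := by simpa using Module.finrank_eq_card_basis eA
  have hrel : ∀ c : E, δ.d c = 0 → c ≠ 0 → F.eval c = c * G.eval c⁻¹ := by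
    intro c hc hc0
    obtain ⟨b, hb⟩ := exists_SUT (A + c • B) (A2.line_nilpotent A B hnil c)
    let b' : Basis (Fin n) E V := b.reindex (finCongr hn)
    have hb' : SUT b' (A + c • B) := by
      intro i j hij
      have := hb ((finCongr hn).symm i) ((finCongr hn).symm j) hij
      simpa [b'] using this
    have h2 : B + c⁻¹ • A = c⁻¹ • (A + c • B) := by
      rw [smul_add, smul_smul, inv_mul_cancel₀ hc0, one_smul, add_comm]
    have hci : δ.d c⁻¹ = 0 := by
      rw [Derivation.leibniz_inv, hc]; simp
    have hb2 : SUT b' (B + c⁻¹ • A) := by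
      intro i j hij
      rw [h2, LinearMap.smul_apply, map_smul, hb' i j hij, smul_zero]
    rw [← hF c hc b' hb', ← hG c⁻¹ hci b' hb2, h2]
    unfold theta
    rw [Finset.mul_sum]
    refine Finset.sum_congr rfl fun i _ => ?_
    rw [LinearMap.smul_apply, map_smul, smul_eq_mul, ← mul_assoc, mul_inv_cancel₀ hc0, one_mul]
  have hA0 : theta δ eA A = F.coeff 0 := by
    have := hF 0 (by simp) eA (by simpa using hA)
    rw [Polynomial.coeff_zero_eq_eval_zero, ← this]
    simp
  have hB0 : theta δ eB B = G.coeff 0 := by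
    have := hG 0 (by simp) eB (by simpa using hB)
    rw [Polynomial.coeff_zero_eq_eval_zero, ← this]
    simp
  have hY1 : theta δ eY (A + B) = F.eval 1 := by
    have := hF 1 (by simp) eY (by simpa using hY)
    rw [← this]
    simp
  set m := G.natDegree with hm
  have hpoly : (X : E[X]) ^ m * F = X * G.reverse := by
    refine Polynomial.eq_of_infinite_eval_eq _ _
      (((A2.const_infinite δ.d).sdiff (Set.finite_singleton 0)).mono ?_)
    rintro c ⟨hc, hc0⟩
    have hc0' : c ≠ 0 := hc0
    have h1 := hrel c hc hc0'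
    have h2 : G.reverse.eval c = c ^ m * G.eval c⁻¹ := by
      have := invertibleOfNonzero (inv_ne_zero hc0')
      have h3 := Polynomial.eval₂_reverse_mul_pow (RingHom.id E) c⁻¹ G
      simp only [invOf_eq_inv, inv_inv, Polynomial.eval₂_id] at h3
      rw [← h3, ← hm, inv_pow, mul_comm (eval c G.reverse), ← mul_assoc,
        mul_inv_cancel₀ (pow_ne_zero _ hc0'), one_mul]
    show ((X : E[X]) ^ m * F).eval c = (X * G.reverse).eval c
    rw [Polynomial.eval_mul, Polynomial.eval_mul, Polynomial.eval_pow, Polynomial.eval_X, h1, h2]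
    ring
  have hco : ∀ k, F.coeff (k + 1) = G.reverse.coeff (k + m) := by
    intro k
    have h1 : ((X : E[X]) ^ m * F).coeff (k + 1 + m) = (X * G.reverse).coeff (k + m + 1) := by
      rw [hpoly]; congr 1; ring
    rwa [Polynomial.coeff_X_pow_mul, Polynomial.coeff_X_mul] at h1
  have hF1 : F.coeff 1 = G.coeff 0 := by
    have := hco 0
    rw [zero_add, zero_add, Polynomial.coeff_reverse, ← hm, Polynomial.revAt_le le_rfl] at this
    simpa using this
  have hF2 : ∀ k, F.coeff (k + 2) = 0 := by
    intro k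
    have := hco (k + 1)
    rw [this]
    refine Polynomial.coeff_eq_zero_of_natDegree_lt ?_
    have := Polynomial.reverse_natDegree_le G
    omega
  have hFe : F = C (F.coeff 0) + C (F.coeff 1) * X := by
    ext k
    rcases k with _ | _ | k
    · simp
    · simp [Polynomial.coeff_C]
    · rw [hF2 k]
      simp
  rw [hY1, hA0, hB0, ← hF1]
  conv_lhs => rw [hFe]
  simp

/-- In the same situation `A + c • B` is nilpotent for every `c`, and `B` is nilpotent. -/
theorem isNilpotent_line {E V : Type*} [Field E] [AddCommGroup V] [Module E V]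
    [FiniteDimensional E V] (A B : Module.End E V)
    (hnil : {c : E | IsNilpotent (A + c • B)}.Infinite) :
    (∀ c : E, IsNilpotent (A + c • B)) ∧ IsNilpotent B := by
  refine ⟨A2.line_nilpotent A B hnil, ?_⟩
  have := A2.line_nilpotent B A (A2.swap_infinite A B hnil) 0
  simpa using this

end F80
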