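import Pool.Agent.H45.F80.BG
/-! Module B4: simple roots. `H = gr h 0` is a Cartan subalgebra (`IsCz H h`); every weight of `H`
has a rational degree (its value at `h`); the simple weights (`IsCz.Smp`) are those of positive
degree which are not sums of two weights of positive degree. -/
set_option linter.unusedSectionVars false
open Module LieModule LieAlgebra LieAlgebra.IsKilling
namespace F80

variable {E : Type*} [Field E] [IsAlgClosed E] [CharZero E] {g : Type*} [LieRing g]
  [LieAlgebra E g] [FiniteDimensional E g] [LieAlgebra.IsKilling E g]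

theorem mem_nilP {h f x : g} : x ∈ nilP E h f ↔ x ∈ nil E h ∧ killingForm E g x f = 0 := Iff.rfl

theorem mem_ker_flip {f x : g} :
    x ∈ LinearMap.ker ((killingForm E g).flip f) ↔ killingForm E g x f = 0 := Iff.rfl

section weights
variable {H : LieSubalgebra E g} [H.IsCartanSubalgebra]

theorem exists_smul_of_mem {α : Weight E H g} (hα : α.IsNonZero) {x y : g}
    (hx : x ∈ rootSpace H α) (hx0 : x ≠ 0) (hy : y ∈ rootSpace H α) : ∃ a : E, y = a • x := by
  obtain ⟨c, hc⟩ := (finrank_eq_one_iff_of_nonzero' ⟨x, hx⟩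
    (by simpa using hx0)).mp (finrank_rootSpace_eq_one α hα) ⟨y, hy⟩
  exact ⟨c, by simpa using hc.symm⟩

/-- Nonvanishing of brackets of root vectors when the sum is a root. -/
theorem lie_ne_zero_of_root {α β : Weight E H g} (hα : α.IsNonZero) (hβ : β.IsNonZero)
    (hαβ : rootSpace H (α + β : H → E) ≠ ⊥) {x y : g} (hx : x ∈ rootSpace H α) (hx0 : x ≠ 0)
    (hy : y ∈ rootSpace H β) (hy0 : y ≠ 0) : ⁅x, y⁆ ≠ 0 := by
  have hp : (1 : ℤ) ≤ chainTopCoeff α β := by
    refine ((rootSpace_zsmul_add_ne_bot_iff α β hα 1).1 ?_).1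
    simpa using hαβ
  obtain ⟨p, hp'⟩ : ∃ p : ℕ, chainTopCoeff α β = p + 1 :=
    ⟨chainTopCoeff α β - 1, by have : 1 ≤ chainTopCoeff α β := by exact_mod_cast hp
                               omega⟩
  obtain ⟨u, hu, hu0⟩ := (chainTop α β).exists_ne_zero
  obtain ⟨t, e, f, isSl2, he, hf⟩ := exists_isSl2Triple_of_weight_isNonZero hα
  obtain rfl := isSl2.h_eq_coroot hα he hf
  have prim : isSl2.HasPrimitiveVectorWith u (chainLength α β : E) :=
    have := lie_mem_genWeightSpace_of_mem_genWeightSpace he hu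
    ⟨hu0, (chainLength_smul _ _ hu).symm, by rwa [genWeightSpace_add_chainTop _ _ hα] at this⟩
  have hle : p + 1 ≤ chainLength α β := by
    rw [← hp']; exact chainTopCoeff_le_chainLength α β
  have h1 := prim.pow_toEnd_f_ne_zero_of_eq_nat rfl hle
  have h2 := toEnd_pow_apply_mem hf hu (p + 1)
  have h3 : ((p + 1) • (-α : H → E) + (chainTop α β : H → E)) = β := by
    rw [coe_chainTop', hp']
    simp
  rw [h3] at h2
  obtain ⟨d, rfl⟩ := exists_smul_of_mem hβ h2 h1 hy
  obtain ⟨c, rfl⟩ := exists_smul_of_mem hα he isSl2.e_ne_zero hx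
  have h4 := prim.lie_e_pow_succ_toEnd_f p
  have h5 := prim.pow_toEnd_f_ne_zero_of_eq_nat rfl (show p ≤ chainLength α β by omega)
  rw [smul_lie, lie_smul, h4]
  have hc : c ≠ 0 := by rintro rfl; simp at hx0
  have hd : d ≠ 0 := by rintro rfl; simp at hy0
  refine smul_ne_zero hc (smul_ne_zero hd (smul_ne_zero (mul_ne_zero ?_ ?_) h5))
  · exact_mod_cast Nat.succ_ne_zero p
  · rw [sub_ne_zero]
    exact_mod_cast (show chainLength α β ≠ p by omega)




variable {h : g}

/-- `H` is the centraliser of `h`. -/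
def IsCz (H : LieSubalgebra E g) (h : g) : Prop := ∀ x : g, x ∈ H ↔ ⁅h, x⁆ = 0

omit [IsAlgClosed E] [FiniteDimensional E g] [LieAlgebra.IsKilling E g]
  [H.IsCartanSubalgebra] in
theorem IsCz.self (hH : IsCz H h) : h ∈ H := (hH h).2 (lie_self h)

/-- Every weight takes a rational value at `h`. -/
theorem IsCz.exists_deg (hH : IsCz H h) (hh : RR E h) (α : Weight E H g) :
    ∃ q : ℚ, α ⟨h, hH.self⟩ = (q : E) := by
  obtain ⟨x, hx, hx0⟩ := α.exists_ne_zero
  have h1 : ⁅h, x⁆ = α ⟨h, hH.self⟩ • x := lie_eq_smul_of_mem_rootSpace hx ⟨h, hH.self⟩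
  by_contra hcon
  push Not at hcon
  refine hx0 ?_
  have hind := Module.End.eigenspaces_iSupIndep (LieAlgebra.ad E g h : Module.End E g)
  have h2 := hind (α ⟨h, hH.self⟩)
  refine (Submodule.disjoint_def.1 h2) x ?_ ?_
  · rw [Module.End.mem_eigenspace_iff, LieAlgebra.ad_apply, h1]
  · have h3 : x ∈ ⨆ q : ℚ, gr E h q := by rw [hh.top]; trivial
    refine (iSup_le fun q => ?_ : (⨆ q : ℚ, gr E h q) ≤ _) h3
    exact le_iSup₂_of_le (q : E) (fun hq => hcon q hq.symm) le_rfl

/-- The degree of a weight. -/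
noncomputable def IsCz.deg (hH : IsCz H h) (hh : RR E h) (α : Weight E H g) : ℚ :=
  (hH.exists_deg hh α).choose

theorem IsCz.deg_spec (hH : IsCz H h) (hh : RR E h) (α : Weight E H g) :
    α ⟨h, hH.self⟩ = (hH.deg hh α : E) := (hH.exists_deg hh α).choose_spec

theorem IsCz.mem_gr_deg (hH : IsCz H h) (hh : RR E h) {α : Weight E H g} {x : g}
    (hx : x ∈ rootSpace H α) : x ∈ gr E h (hH.deg hh α) := by
  rw [mem_gr, ← hH.deg_spec hh α]
  exact lie_eq_smul_of_mem_rootSpace hx ⟨h, hH.self⟩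

theorem IsCz.deg_ne_zero (hH : IsCz H h) (hh : RR E h) {α : Weight E H g} (hα : α.IsNonZero) :
    hH.deg hh α ≠ 0 := by
  intro h0
  obtain ⟨x, hx, hx0⟩ := α.exists_ne_zero
  have h1 := hH.mem_gr_deg hh hx
  rw [h0, mem_gr] at h1
  have h2 : x ∈ H := (hH x).2 (by simpa using h1)
  refine hα ?_
  have h3 : x ∈ rootSpace H (0 : H → E) := by
    rw [rootSpace_zero_eq]; exact h2
  by_contra hne
  have h4 := disjoint_genWeightSpace E H g (χ₁ := α) (χ₂ := (0 : H → E)) hne
  have h5 : x ∈ (genWeightSpace g (α : H → E) ⊓ genWeightSpace g (0 : H → E) :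
      LieSubmodule E H g) := ⟨hx, h3⟩
  rw [h4.eq_bot] at h5
  exact hx0 (by simpa using h5)

theorem IsCz.deg_eq (hH : IsCz H h) (hh : RR E h) {α : Weight E H g} {q : ℚ}
    (hq : α ⟨h, hH.self⟩ = (q : E)) : hH.deg hh α = q := by
  have := hH.deg_spec hh α
  rw [hq] at this
  exact_mod_cast this.symm

theorem IsCz.deg_add (hH : IsCz H h) (hh : RR E h) {α β γ : Weight E H g}
    (hγ : (γ : H → E) = α + β) : hH.deg hh γ = hH.deg hh α + hH.deg hh β := by
  refine hH.deg_eq hh ?_
  rw [hγ, Pi.add_apply, hH.deg_spec hh α, hH.deg_spec hh β]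
  push_cast
  rfl

theorem IsCz.deg_neg (hH : IsCz H h) (hh : RR E h) (α : Weight E H g) :
    hH.deg hh (-α) = -hH.deg hh α := by
  refine hH.deg_eq hh ?_
  rw [Weight.coe_neg, Pi.neg_apply, hH.deg_spec hh α]
  push_cast
  rfl

theorem IsCz.mem_gr_zero_of_isZero (hH : IsCz H h) {α : Weight E H g} (hα : α.IsZero) {x : g}
    (hx : x ∈ rootSpace H α) : x ∈ gr E h 0 := by
  have h2 : x ∈ rootSpace H (0 : H → E) := by rw [← hα.eq]; exact hx
  rw [rootSpace_zero_eq] at h2
  have h3 : ⁅h, x⁆ = 0 := (hH x).1 h2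
  rw [mem_gr, h3]; simp

/-- `gr h q` is the sum of the root spaces of degree `q`. -/
theorem IsCz.gr_le (hH : IsCz H h) (hh : RR E h) (q : ℚ) :
    gr E h q ≤ ⨆ (α : Weight E H g) (_ : hH.deg hh α = q), (rootSpace H α).toSubmodule := by
  intro x hx
  set T : Submodule E g :=
    ⨆ (α : Weight E H g) (_ : hH.deg hh α = q), (rootSpace H α).toSubmodule with hT
  have hTle : T ≤ gr E h q := iSup₂_le fun α hα y hy => hα ▸ hH.mem_gr_deg hh hy
  have htop : (⊤ : Submodule E g) ≤ T ⊔ ⨆ p ∈ {p : ℚ | p ≠ q}, gr E h p := by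
    have h1 : (⨆ α : Weight E H g, (rootSpace H α).toSubmodule) = ⊤ := by
      rw [← LieSubmodule.iSup_toSubmodule, iSup_genWeightSpace_eq_top' E H g]
      rfl
    rw [← h1]
    refine iSup_le fun α => ?_
    by_cases hα : hH.deg hh α = q
    · exact le_trans (le_iSup₂_of_le (f := fun (α : Weight E H g) (_ : hH.deg hh α = q) =>
        (rootSpace H α).toSubmodule) α hα le_rfl) le_sup_left
    · refine le_trans ?_ le_sup_right
      exact le_trans (fun y hy => hH.mem_gr_deg hh hy)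
        (le_iSup₂_of_le (f := fun (p : ℚ) (_ : p ∈ {p : ℚ | p ≠ q}) => gr E h p)
          (hH.deg hh α) hα le_rfl)
  obtain ⟨a, ha, b, hb, rfl⟩ := Submodule.mem_sup.1 (htop (trivial : x ∈ ⊤))
  have h2 : b ∈ gr E h q := by
    have := sub_mem hx (hTle ha)
    simpa using this
  have h3 := disjoint_biSup_gr (E := E) h (S := {q}) (T := {p | p ≠ q}) (by simp)
  have h4 : b = 0 := (Submodule.disjoint_def.1 h3) b (by simpa using h2) hb
  rw [h4, add_zero]
  exact ha


/-- A simple weight: of positive degree, and not a sum of two weights of positive degree. -/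
def IsCz.Smp (hH : IsCz H h) (hh : RR E h) (α : Weight E H g) : Prop :=
  0 < hH.deg hh α ∧ ∀ β γ : Weight E H g, 0 < hH.deg hh β → 0 < hH.deg hh γ →
    (α : H → E) ≠ β + γ

theorem IsCz.isNonZero (hH : IsCz H h) (hh : RR E h) {α : Weight E H g}
    (hα : hH.deg hh α ≠ 0) : α.IsNonZero := by
  intro h0
  refine hα (hH.deg_eq hh ?_)
  rw [h0.eq]
  simp

theorem killing_ne_of_triple {α : Weight E H g} {τ e f : g}
    (ht : IsSl2Triple τ e f) (he : e ∈ rootSpace H α) (hf : f ∈ rootSpace H (-α)) :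
    killingForm E g e f ≠ 0 := by
  intro h0
  have h1 := lie_eq_killingForm_smul_of_mem_rootSpace_of_mem_rootSpace_neg he hf
  rw [h0, zero_smul, ht.lie_e_f] at h1
  exact ht.h_ne_zero h1

/-- `nilP` is the sum of the root spaces of the other positive roots. -/
theorem IsCz.nilP_le (hH : IsCz H h) (hh : RR E h) {α : Weight E H g} (hα : α.IsNonZero)
    {τ e f : g} (ht : IsSl2Triple τ e f) (he : e ∈ rootSpace H α) (hf : f ∈ rootSpace H (-α)) :
    nilP E h f ≤ ⨆ (β : Weight E H g) (_ : 0 < hH.deg hh β ∧ β ≠ α),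
      (rootSpace H β).toSubmodule := by
  intro x hx
  set R : Submodule E g := ⨆ (β : Weight E H g) (_ : 0 < hH.deg hh β ∧ β ≠ α),
      (rootSpace H β).toSubmodule with hR
  have h1 : nil E h ≤ (rootSpace H α).toSubmodule ⊔ R := by
    refine iSup₂_le fun q hq => (hH.gr_le hh q).trans (iSup₂_le fun β hβ => ?_)
    by_cases hβα : β = α
    · subst hβα
      exact le_sup_left
    · exact le_trans (le_iSup₂_of_le (f := fun (β : Weight E H g)
        (_ : 0 < hH.deg hh β ∧ β ≠ α) => (rootSpace H β).toSubmodule) β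
          ⟨hβ ▸ hq, hβα⟩ le_rfl) le_sup_right
  have hRk : R ≤ LinearMap.ker ((killingForm E g).flip f) := by
    refine iSup₂_le fun β hβ y hy => ?_
    rw [mem_ker_flip]
    refine killingForm_apply_eq_zero_of_mem_rootSpace_of_add_ne_zero E g H hy hf ?_
    intro h0
    refine hβ.2 ?_
    rw [← Weight.ext_iff']
    rwa [add_neg_eq_zero] at h0
  obtain ⟨a, ha, b, hb, rfl⟩ := Submodule.mem_sup.1 (h1 hx.1)
  obtain ⟨c, rfl⟩ := exists_smul_of_mem hα he ht.e_ne_zero ha
  have h2 : killingForm E g (c • e + b) f = 0 := (mem_nilP.1 hx).2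
  have h3 : killingForm E g b f = 0 := mem_ker_flip.1 (hRk hb)
  rw [map_add, LinearMap.add_apply, h3, add_zero, map_smul, LinearMap.smul_apply, smul_eq_mul,
    mul_eq_zero] at h2
  rcases h2 with h2 | h2
  · rw [h2, zero_smul, zero_add]; exact hb
  · exact absurd h2 (killing_ne_of_triple ht he hf)

/-- A weight from a nonzero root vector space. -/
def wtOf (χ : H → E) (hχ : rootSpace H χ ≠ ⊥) : Weight E H g := ⟨χ, hχ⟩

theorem IsCz.simp_of_triple (hH : IsCz H h) (hh : RR E h) {α : Weight E H g}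
    (hα : hH.Smp hh α) {τ e f : g} (ht : IsSl2Triple τ e f) (he : e ∈ rootSpace H α)
    (hf : f ∈ rootSpace H (-α)) : Simp E h e τ f := by
  have hα0 : α.IsNonZero := hH.isNonZero hh hα.1.ne'
  have hgre := hH.mem_gr_deg hh he
  have hgrf : f ∈ gr E h (-hH.deg hh α) := by
    rw [← hH.deg_neg hh]
    exact hH.mem_gr_deg hh (α := -α) hf
  have hτ : τ ∈ gr E h 0 := by
    have := lie_gr hgre hgrf
    rwa [ht.lie_e_f, add_neg_cancel] at this
  have hτf : ⁅τ, f⁆ = -((2 : E) • f) := ht.lie_lie_smul_f E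
  have hk0 : ∀ x ∈ nil E h, killingForm E g x τ = 0 := fun x hx =>
    killing_nil_bor hx (gr_le_bor h le_rfl hτ)
  refine ⟨ht.e_ne_zero, ?_, ht.lie_e_f, ht.lie_h_e_smul E, hτf, ⟨hH.deg hh α, hα.1, mem_gr.1 hgre, ?_⟩, ?_,
    ?_, ?_⟩
  · rw [mem_gr.1 hτ]; simp
  · rw [mem_gr.1 hgrf]; push_cast; rw [neg_smul]
  · obtain ⟨α', hα'⟩ := LinearMap.exists_extend (p := H.toSubmodule) (α.toLinear E H g)
    have h1 : ∀ c : g, ∀ hc : c ∈ H, α' c = α ⟨c, hc⟩ := by
      intro c hc
      have := LinearMap.congr_fun hα' ⟨c, hc⟩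
      exact this
    refine ⟨α', fun c hc => ⟨?_, ?_⟩, fun x hx => ?_, fun x hx => ?_⟩
    · rw [h1 c ((hH c).2 hc)]
      exact lie_eq_smul_of_mem_rootSpace he ⟨c, (hH c).2 hc⟩
    · rw [h1 c ((hH c).2 hc), ← neg_smul]
      exact lie_eq_smul_of_mem_rootSpace hf ⟨c, (hH c).2 hc⟩
    · have hx' : x ∈ rootSpace H α := by
        refine weightSpace_le_genWeightSpace g (α : H → E) ?_
        rw [mem_weightSpace]
        intro c
        have := hx c ((hH c).1 c.2)
        rw [h1 c c.2] at this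
        exact this
      exact exists_smul_of_mem hα0 he ht.e_ne_zero hx'
    · have hx' : x ∈ rootSpace H (-α : H → E) := by
        refine weightSpace_le_genWeightSpace g (-α : H → E) ?_
        rw [mem_weightSpace]
        intro c
        have := hx c ((hH c).1 c.2)
        rw [h1 c c.2, ← neg_smul] at this
        exact this
      exact exists_smul_of_mem (α := -α) hα0.neg hf ht.f_ne_zero hx'
  · intro x hx
    refine mem_nilP.2 ⟨lie_mem_nil (gr_le_bor h hα.1.le hgre) hx.1, ?_⟩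
    rw [← lie_skew, map_neg,
      LinearMap.neg_apply, LieModule.traceForm_apply_lie_apply, ht.lie_e_f, hk0 x hx.1, neg_zero]
  · intro x hx
    refine mem_nilP.2 ⟨?_, ?_⟩
    · have h1 := hH.nilP_le hh hα0 ht he hf hx
      have h2 : (⨆ (β : Weight E H g) (_ : 0 < hH.deg hh β ∧ β ≠ α),
          (rootSpace H β).toSubmodule) ≤
          (nil E h).comap (LieAlgebra.ad E g f : g →ₗ[E] g) := by
        refine iSup₂_le fun β hβ y hy => ?_
        rw [Submodule.mem_comap]
        change ⁅f, y⁆ ∈ nil E h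
        have h3 : ⁅f, y⁆ ∈ rootSpace H (-α + β : H → E) :=
          lie_mem_genWeightSpace_of_mem_genWeightSpace hf hy
        by_cases hb : rootSpace H (-α + β : H → E) = ⊥
        · rw [hb] at h3
          have h4 : ⁅f, y⁆ = 0 := by simpa using h3
          rw [h4]; exact zero_mem _
        · set γ : Weight E H g := wtOf (-α + β : H → E) hb with hγdef
          have hγ : (γ : H → E) = -α + β := rfl
          have hγ0 : γ.IsNonZero := by
            intro h0
            refine hβ.2 ?_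
            rw [← Weight.ext_iff']
            have h5 : (-α + β : H → E) = 0 := by rw [← hγ]; exact h0
            rw [neg_add_eq_zero] at h5
            exact h5.symm
          have h6 := hH.deg_ne_zero hh hγ0
          rcases lt_or_gt_of_ne h6 with h7 | h7
          · exfalso
            refine hα.2 β (-γ) hβ.1 ?_ ?_
            · rw [hH.deg_neg hh]; linarith
            · rw [Weight.coe_neg, hγ]; abel
          · exact gr_le_nil h h7 (hH.mem_gr_deg hh (α := γ) h3)
      exact h2 h1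
    · rw [← lie_skew, map_neg, LinearMap.neg_apply, LieModule.traceForm_apply_lie_apply,
        lie_self, map_zero, neg_zero]


/-- The opposite element. -/
theorem gr_neg (h : g) (q : ℚ) : gr E (-h) q = gr E h (-q) := by
  ext x
  rw [mem_gr, mem_gr, neg_lie, neg_eq_iff_eq_neg]
  push_cast
  rw [neg_smul]

theorem RR.neg (hh : RR E h) : RR E (-h) where
  top := by
    rw [eq_top_iff, ← hh.top]
    refine iSup_le fun q => ?_
    rw [show gr E h q = gr E (-h) (-q) by rw [gr_neg, neg_neg]]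
    exact le_iSup (fun q : ℚ => gr E (-h) q) (-q)
  comm x y hx hy := by
    rw [neg_lie, neg_eq_zero] at hx hy
    exact hh.comm x y hx hy

theorem IsCz.neg (hH : IsCz H h) : IsCz H (-h) := fun x => by
  rw [hH x, neg_lie, neg_eq_zero]

theorem IsCz.deg_negh (hH : IsCz H h) (hh : RR E h) (α : Weight E H g) :
    hH.neg.deg hh.neg α = -hH.deg hh α := by
  refine hH.neg.deg_eq hh.neg ?_
  have h1 := hH.deg_spec hh α
  have h2 : (⟨-h, hH.neg.self⟩ : H) = -⟨h, hH.self⟩ := rfl
  rw [h2, ← Weight.toLinear_apply, map_neg, Weight.toLinear_apply, h1]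
  push_cast
  rfl

theorem IsCz.smp_neg (hH : IsCz H h) (hh : RR E h) {α : Weight E H g}
    (hα : hH.neg.Smp hh.neg α) : hH.Smp hh (-α) := by
  obtain ⟨h1, h2⟩ := hα
  refine ⟨?_, fun β γ hβ hγ hsum => ?_⟩
  · rw [hH.deg_neg hh]; rw [hH.deg_negh hh] at h1; exact h1
  · refine h2 (-β) (-γ) ?_ ?_ ?_
    · rw [hH.deg_negh hh, hH.deg_neg hh]; linarith
    · rw [hH.deg_negh hh, hH.deg_neg hh]; linarith
    · rw [Weight.coe_neg] at hsum
      rw [Weight.coe_neg, Weight.coe_neg, ← neg_add, ← hsum, neg_neg]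

/-- The span of the brackets of simple root vectors with vectors of smaller degree. -/
def IsCz.G (hH : IsCz H h) (hh : RR E h) (q : ℚ) : Submodule E g :=
  Submodule.span E {y | ∃ (α : Weight E H g) (e z : g) (p : ℚ), hH.Smp hh α ∧
    e ∈ rootSpace H α ∧ 0 ≤ p ∧ p < q ∧ hH.deg hh α = q - p ∧ z ∈ gr E h p ∧ y = ⁅e, z⁆}

theorem IsCz.lie_mem_G (hH : IsCz H h) (hh : RR E h) {q p : ℚ} {α : Weight E H g}
    {e z : g} (hα : hH.Smp hh α) (he : e ∈ rootSpace H α) (hp : 0 ≤ p)
    (hd : hH.deg hh α = q - p) (hz : z ∈ gr E h p) : ⁅e, z⁆ ∈ hH.G hh q :=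
  Submodule.subset_span ⟨α, e, z, p, hα, he, hp, by have := hα.1; linarith, hd, hz, rfl⟩

/-- Key step: brackets of vectors of positive degrees. -/
theorem IsCz.lie_mem_G_of_lt (hH : IsCz H h) (hh : RR E h) {q : ℚ}
    (ih : ∀ p : ℚ, 0 < p → p < q → gr E h p ≤ hH.G hh p) {p : ℚ} (hp : 0 < p) (hpq : p < q)
    {x y : g} (hx : x ∈ gr E h p) (hy : y ∈ gr E h (q - p)) : ⁅x, y⁆ ∈ hH.G hh q := by
  by_contra hcon
  have hfin : {p : ℚ | 0 < p ∧ p < q ∧ ∃ x ∈ gr E h p, ∃ y ∈ gr E h (q - p),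
      ⁅x, y⁆ ∉ hH.G hh q}.Finite := by
    refine (finite_gr_ne_bot (E := E) h).subset fun p hp => ?_
    obtain ⟨_, _, x, hx, y, hy, hxy⟩ := hp
    intro h0
    rw [h0, Submodule.mem_bot] at hx
    rw [hx, zero_lie] at hxy
    exact hxy (zero_mem _)
  obtain ⟨p, ⟨hp, hpq, x, hx, y, hy, hxy⟩, hmin⟩ := Set.exists_min_image _ id hfin
    ⟨p, hp, hpq, x, hx, y, hy, hcon⟩
  clear hcon
  -- all brackets with first degree smaller than `p` are fine
  have hsmall : ∀ p' : ℚ, 0 < p' → p' < p → ∀ x ∈ gr E h p', ∀ y ∈ gr E h (q - p'),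
      ⁅x, y⁆ ∈ hH.G hh q := by
    intro p' hp' hlt x hx y hy
    by_contra hc
    have := hmin p' ⟨hp', hlt.trans hpq, x, hx, y, hy, hc⟩
    simp only [id] at this
    linarith
  refine hxy ?_
  have hx' := ih p hp hpq hx
  have hle : hH.G hh p ≤ (hH.G hh q).comap
      ((LieAlgebra.ad E g : g →ₗ[E] Module.End E g).flip y) := by
    refine Submodule.span_le.2 ?_
    rintro w ⟨α, e, z, p', hα, he, hp', hp'lt, hd, hz, rfl⟩
    change ⁅⁅e, z⁆, y⁆ ∈ hH.G hh q
    rw [lie_lie]
    have hegr := hH.mem_gr_deg hh he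
    rw [hd] at hegr
    refine sub_mem ?_ ?_
    · refine hH.lie_mem_G hh hα he (p := p' + (q - p)) (by linarith) (by rw [hd]; ring)
        (lie_gr hz hy)
    · have hey : ⁅e, y⁆ ∈ gr E h (q - p') := by
        have := lie_gr hegr hy
        rwa [show p - p' + (q - p) = q - p' by ring] at this
      rcases hp'.eq_or_lt with h0 | h0
      · subst h0
        have hzH : z ∈ H := (hH z).2 (by rw [mem_gr.1 hz]; simp)
        have h1 : ⁅z, e⁆ = α ⟨z, hzH⟩ • e := lie_eq_smul_of_mem_rootSpace he ⟨z, hzH⟩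
        rw [leibniz_lie, h1, smul_lie]
        refine add_mem (Submodule.smul_mem _ _ ?_) ?_
        · exact hH.lie_mem_G hh hα he (p := q - p) (by linarith) (by rw [hd]; ring) hy
        · refine hH.lie_mem_G hh hα he (p := q - p) (by linarith) (by rw [hd]; ring) ?_
          have := lie_gr hz hy
          rwa [zero_add] at this
      · exact hsmall p' h0 hp'lt z hz _ hey
  exact hle hx'

/-- Generation by simple root vectors. -/
theorem IsCz.gr_le_G (hH : IsCz H h) (hh : RR E h) {q : ℚ} (hq : 0 < q) :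
    gr E h q ≤ hH.G hh q := by
  by_contra hcon
  have hfin : {q : ℚ | 0 < q ∧ ¬ gr E h q ≤ hH.G hh q}.Finite := by
    refine (finite_gr_ne_bot (E := E) h).subset fun p hp h0 => hp.2 ?_
    rw [h0]; exact bot_le
  obtain ⟨q, ⟨hq, hnot⟩, hmin⟩ := Set.exists_min_image _ id hfin ⟨q, hq, hcon⟩
  clear hcon
  have ih : ∀ p : ℚ, 0 < p → p < q → gr E h p ≤ hH.G hh p := by
    intro p hp hpq
    by_contra hc
    have := hmin p ⟨hp, hc⟩
    simp only [id] at this
    linarith
  refine hnot ((hH.gr_le hh q).trans (iSup₂_le fun β hβ x hx => ?_))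
  have hβ0 : β.IsNonZero := hH.isNonZero hh (by rw [hβ]; exact hq.ne')
  by_cases hs : hH.Smp hh β
  · have h1 : ⁅h, x⁆ = (q : E) • x := by
      have := hH.mem_gr_deg hh hx
      rw [hβ, mem_gr] at this
      exact this
    have h2 : x = ⁅x, (-(q : E)⁻¹) • h⁆ := by
      rw [lie_smul, ← lie_skew, h1, smul_neg, neg_smul, neg_neg, smul_smul,
        inv_mul_cancel₀ (by exact_mod_cast hq.ne'), one_smul]
    rw [h2]
    exact hH.lie_mem_G hh hs hx (p := 0) le_rfl (by rw [hβ]; ring)
      (Submodule.smul_mem _ _ (self_mem_gr_zero h))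
  · have hs' : ∃ γ δ : Weight E H g, 0 < hH.deg hh γ ∧ 0 < hH.deg hh δ ∧
        (β : H → E) = γ + δ := by
      by_contra hc
      push Not at hc
      exact hs ⟨by rw [hβ]; exact hq, fun γ δ h1 h2 => hc γ δ h1 h2⟩
    obtain ⟨γ, δ, hγ, hδ, hsum⟩ := hs'
    obtain ⟨u, hu, hu0⟩ := γ.exists_ne_zero
    obtain ⟨v, hv, hv0⟩ := δ.exists_ne_zero
    have hγ0 := hH.isNonZero hh hγ.ne'
    have hδ0 := hH.isNonZero hh hδ.ne'
    have hne : rootSpace H (γ + δ : H → E) ≠ ⊥ := by
      rw [← hsum]; exact β.genWeightSpace_ne_bot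
    have h1 := lie_ne_zero_of_root hγ0 hδ0 hne hu hu0 hv hv0
    have h2 : ⁅u, v⁆ ∈ rootSpace H (β : H → E) := by
      rw [hsum]; exact lie_mem_genWeightSpace_of_mem_genWeightSpace hu hv
    obtain ⟨c, rfl⟩ := exists_smul_of_mem hβ0 h2 h1 hx
    refine Submodule.smul_mem _ _ ?_
    have h3 := hH.deg_add hh hsum
    rw [hβ] at h3
    have hugr := hH.mem_gr_deg hh hu
    have hvgr := hH.mem_gr_deg hh hv
    rw [show hH.deg hh δ = q - hH.deg hh γ by linarith] at hvgr
    exact hH.lie_mem_G_of_lt hh ih hγ (by linarith) hugr hvgr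

/-! ## From simple root data to weights -/

theorem RR.exists_isCz (hh : RR E h) : ∃ H : LieSubalgebra E g, H.IsCartanSubalgebra ∧ IsCz H h := by
  obtain ⟨H, hH, hcar⟩ := hh.isCartan
  refine ⟨H, hcar, fun x => ?_⟩
  rw [← LieSubalgebra.mem_toSubmodule, hH, mem_gr]
  simp

theorem Simp.tau_ne {e τ f : g} (hs : Simp E h e τ f) : τ ≠ 0 := by
  have he := hs.ne
  rintro rfl
  have h1 := hs.τe
  rw [zero_lie] at h1
  have h2 : (2 : E) ≠ 0 := two_ne_zero
  rcases smul_eq_zero.1 h1.symm with h3 | h3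
  · exact h2 h3
  · exact he h3

theorem Simp.triple {e τ f : g} (hs : Simp E h e τ f) : IsSl2Triple τ e f where
  h_ne_zero := hs.tau_ne
  lie_e_f := hs.ef
  lie_h_e_nsmul := by rw [hs.τe, ← Nat.cast_smul_eq_nsmul E]; rfl
  lie_h_f_nsmul := by rw [hs.τf, ← Nat.cast_smul_eq_nsmul E]; rfl

theorem Simp.exists_weight (hH : IsCz H h) (hh : RR E h) {e τ f : g}
    (hs : Simp E h e τ f) : ∃ α : Weight E H g, e ∈ rootSpace H α ∧ f ∈ rootSpace H (-α) ∧
      hH.Smp hh α := by
  obtain ⟨α', h1, -, -⟩ := hs.wt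
  obtain ⟨q, hq, hqe, -⟩ := hs.root
  have ht := hs.triple
  have he := hs.ne
  let χ : H → E := fun c => α' c
  have heχ : e ∈ rootSpace H χ := by
    refine weightSpace_le_genWeightSpace g χ ?_
    rw [mem_weightSpace]
    exact fun c => (h1 c ((hH c).1 c.2)).1
  have hne : rootSpace H χ ≠ ⊥ := by
    intro h0
    rw [h0] at heχ
    exact he (by simpa using heχ)
  let α : Weight E H g := wtOf χ hne
  have hfα : f ∈ rootSpace H (-α : H → E) := by
    refine weightSpace_le_genWeightSpace g (-α : H → E) ?_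
    rw [mem_weightSpace]
    intro c
    have h2 := (h1 c ((hH c).1 c.2)).2
    rw [← neg_smul] at h2
    exact h2
  have hdeg : hH.deg hh α = q := by
    refine hH.deg_eq hh ?_
    have h2 := lie_eq_smul_of_mem_rootSpace (α := (α : H → E)) heχ ⟨h, hH.self⟩
    have h3 : ⁅h, e⁆ = α ⟨h, hH.self⟩ • e := h2
    rw [hqe] at h3
    exact (smul_left_injective E he h3).symm
  refine ⟨α, heχ, hfα, by rw [hdeg]; exact hq, fun β γ hβ hγ hsum => ?_⟩
  -- a decomposition contradicts the stability of `nilP` under `ad f`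
  obtain ⟨x, hx, hx0⟩ := β.exists_ne_zero
  have hβ0 := hH.isNonZero hh hβ.ne'
  have hγ0 := hH.isNonZero hh hγ.ne'
  have hα0 : α.IsNonZero := hH.isNonZero hh (by rw [hdeg]; exact hq.ne')
  have hxP : x ∈ nilP E h f := by
    refine mem_nilP.2 ⟨gr_le_nil h hβ (hH.mem_gr_deg hh hx), ?_⟩
    refine killingForm_apply_eq_zero_of_mem_rootSpace_of_add_ne_zero E g H hx hfα ?_
    rw [hsum]
    intro h0
    refine hγ0 ?_
    have h4 : (-(γ : H → E)) = 0 := by rw [← h0]; abel
    exact neg_eq_zero.1 h4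
  have h5 := (mem_nilP.1 (hs.stabF x hxP)).1
  have h6 : ⁅f, x⁆ ∈ rootSpace H (-α + β : H → E) :=
    lie_mem_genWeightSpace_of_mem_genWeightSpace hfα hx
  have h7 : (-α + β : H → E) = ((-γ : Weight E H g) : H → E) := by
    rw [Weight.coe_neg, hsum]; abel
  have h8 : ⁅f, x⁆ ≠ 0 := by
    refine lie_ne_zero_of_root (α := -α) hα0.neg hβ0 ?_ hfα ht.f_ne_zero hx hx0
    rw [Weight.coe_neg, h7]
    exact (-γ : Weight E H g).genWeightSpace_ne_bot
  rw [h7] at h6
  have h9 := hH.mem_gr_deg hh h6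
  have h10 : hH.deg hh (-γ) < 0 := by rw [hH.deg_neg hh]; linarith
  rw [nil_eq_biSup] at h5
  have h11 := disjoint_biSup_gr (E := E) h (S := {hH.deg hh (-γ)}) (T := {q | 0 < q})
    (by simp; linarith)
  exact h8 ((Submodule.disjoint_def.1 h11) _ (by simpa using h9) h5)

end weights

/-- `κ(e, f) ≠ 0`. -/
theorem Simp.killing_ne {h e τ f : g} (hh : RR E h) (hs : Simp E h e τ f) :
    killingForm E g e f ≠ 0 := by
  obtain ⟨H, hcar, hH⟩ := hh.exists_isCz
  obtain ⟨α, h1, h2, -⟩ := hs.exists_weight hH hh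
  exact killing_ne_of_triple hs.triple h1 h2

theorem Simp.e_mem_nil {h e τ f : g} (hs : Simp E h e τ f) : e ∈ nil E h := by
  obtain ⟨q, hq, hqe, -⟩ := hs.root
  exact gr_le_nil h hq (mem_gr.2 hqe)

theorem Simp.nil_eq {h e τ f : g} (hh : RR E h) (hs : Simp E h e τ f) :
    nil E h = Submodule.span E {e} ⊔ nilP E h f := by
  refine le_antisymm (fun x hx => ?_) (sup_le ?_ fun x hx => (mem_nilP.1 hx).1)
  · have hk := hs.killing_ne hh
    set c : E := killingForm E g x f / killingForm E g e f with hc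
    have h1 : x = c • e + (x - c • e) := by abel
    rw [h1]
    refine Submodule.add_mem_sup (Submodule.smul_mem _ _ (Submodule.mem_span_singleton_self e))
      (mem_nilP.2 ⟨sub_mem hx (Submodule.smul_mem _ _ hs.e_mem_nil), ?_⟩)
    rw [map_sub, LinearMap.sub_apply, map_smul, LinearMap.smul_apply, smul_eq_mul, hc,
      div_mul_cancel₀ _ hk, sub_self]
  · rw [Submodule.span_singleton_le_iff_mem]
    exact hs.e_mem_nil

/-- The part of positive degree is generated by simple root vectors. -/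
theorem pos_gen {h : g} (hh : RR E h) {q : ℚ} (hq : 0 < q) :
    gr E h q ≤ Submodule.span E {y | ∃ e τ f z : g, ∃ p : ℚ, Simp E h e τ f ∧ 0 ≤ p ∧ p < q ∧
      e ∈ gr E h (q - p) ∧ z ∈ gr E h p ∧ y = ⁅e, z⁆} := by
  obtain ⟨H, hcar, hH⟩ := hh.exists_isCz
  refine (hH.gr_le_G hh hq).trans (Submodule.span_le.2 ?_)
  rintro y ⟨α, e, z, p, hα, he, hp, hpq, hd, hz, rfl⟩
  have hα0 := hH.isNonZero hh hα.1.ne'
  obtain ⟨τ, e', f, ht, he', hf⟩ := exists_isSl2Triple_of_weight_isNonZero hα0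
  obtain ⟨c, rfl⟩ := exists_smul_of_mem hα0 he' ht.e_ne_zero he
  rw [smul_lie]
  refine Submodule.smul_mem _ _ (Submodule.subset_span ?_)
  refine ⟨e', τ, f, z, p, hH.simp_of_triple hh hα ht he' hf, hp, hpq, ?_, hz, rfl⟩
  rw [← hd]
  exact hH.mem_gr_deg hh he'

/-- The part of negative degree is generated by simple root vectors. -/
theorem neg_gen {h : g} (hh : RR E h) {q : ℚ} (hq : 0 < q) :
    gr E h (-q) ≤ Submodule.span E {y | ∃ e τ f z : g, ∃ p : ℚ, Simp E h e τ f ∧ 0 ≤ p ∧ p < q ∧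
      e ∈ gr E h (q - p) ∧ f ∈ gr E h (-(q - p)) ∧ z ∈ gr E h (-p) ∧ y = ⁅f, z⁆} := by
  obtain ⟨H, hcar, hH⟩ := hh.exists_isCz
  rw [← gr_neg]
  refine (hH.neg.gr_le_G hh.neg hq).trans (Submodule.span_le.2 ?_)
  rintro y ⟨α, f, z, p, hα, hf, hp, hpq, hd, hz, rfl⟩
  have hα0 := hH.neg.isNonZero hh.neg hα.1.ne'
  have hα' := hH.smp_neg hh hα
  obtain ⟨τ, f', e', ht, hf', he'⟩ := exists_isSl2Triple_of_weight_isNonZero hα0
  obtain ⟨c, rfl⟩ := exists_smul_of_mem hα0 hf' ht.e_ne_zero hf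
  rw [smul_lie]
  refine Submodule.smul_mem _ _ (Submodule.subset_span ?_)
  have hd' : hH.deg hh (-α) = q - p := by
    rw [hH.deg_neg hh, ← hd, hH.deg_negh hh]
  have hs := hH.simp_of_triple hh (α := -α) hα' ht.symm he' (by
    rw [Weight.coe_neg, neg_neg]; exact hf')
  refine ⟨e', -τ, f', z, p, hs, hp, hpq, ?_, ?_, ?_, rfl⟩
  · rw [← hd']
    exact hH.mem_gr_deg hh (α := -α) he'
  · have h1 := hH.mem_gr_deg hh hf'
    have h2 := hH.deg_neg hh α
    rwa [show hH.deg hh α = -(q - p) by linarith] at h1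
  · rwa [gr_neg] at hz

theorem Simp.e_mem {h e τ f : g} (hh : RR E h) (hs : Simp E h e τ f) (V : Submodule E g)
    (hV : ∀ c ∈ gr E h 0, ∀ v ∈ V, ⁅c, v⁆ ∈ V) {v : g} (hv : v ∈ V)
    (hk : killingForm E g v f ≠ 0) : e ∈ V := by
  have he := hs.ne
  obtain ⟨H, hcar, hH⟩ := hh.exists_isCz
  obtain ⟨α, he', hf', hα⟩ := hs.exists_weight hH hh
  have hα0 := hH.isNonZero hh hα.1.ne'
  let N : LieSubmodule E H g :=
    { V with
      lie_mem := fun {c m} hm => hV c (by rw [mem_gr, (hH c).1 c.2]; simp) m hm }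
  by_contra hcon
  refine hk ?_
  have h1 : v ∈ ⨆ χ : Weight E H g, N ⊓ genWeightSpace g χ := by
    rw [← eq_iSup_inf_genWeightSpace]; exact hv
  have h2 : (⨆ χ : Weight E H g, (N ⊓ genWeightSpace g χ).toSubmodule) ≤
      LinearMap.ker ((killingForm E g).flip f) := by
    refine iSup_le fun χ y hy => ?_
    rw [mem_ker_flip]
    have hy1 : y ∈ V := hy.1
    have hy2 : y ∈ rootSpace H (χ : H → E) := hy.2
    by_cases hχ : χ = α
    · subst hχ
      obtain ⟨c, rfl⟩ := exists_smul_of_mem hα0 he' he hy2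
      by_cases hc : c = 0
      · rw [hc]; simp
      · exfalso
        refine hcon ?_
        have h3 := V.smul_mem c⁻¹ hy1
        rwa [smul_smul, inv_mul_cancel₀ hc, one_smul] at h3
    · refine killingForm_apply_eq_zero_of_mem_rootSpace_of_add_ne_zero E g H hy2 hf' ?_
      intro h0
      refine hχ ?_
      rw [← Weight.ext_iff']
      rwa [add_neg_eq_zero] at h0
  rw [← LieSubmodule.mem_toSubmodule, LieSubmodule.iSup_toSubmodule] at h1
  exact mem_ker_flip.1 (h2 h1)

theorem Simp.f_mem {h e τ f : g} (hh : RR E h) (hs : Simp E h e τ f) (V : Submodule E g)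
    (hV : ∀ c ∈ gr E h 0, ∀ v ∈ V, ⁅c, v⁆ ∈ V) {v : g} (hv : v ∈ V)
    (hk : killingForm E g v e ≠ 0) : f ∈ V := by
  have he := hs.ne
  obtain ⟨H, hcar, hH⟩ := hh.exists_isCz
  obtain ⟨α, he', hf', hα⟩ := hs.exists_weight hH hh
  have hα0 := hH.isNonZero hh hα.1.ne'
  let N : LieSubmodule E H g :=
    { V with
      lie_mem := fun {c m} hm => hV c (by rw [mem_gr, (hH c).1 c.2]; simp) m hm }
  by_contra hcon
  refine hk ?_
  have h1 : v ∈ ⨆ χ : Weight E H g, N ⊓ genWeightSpace g χ := by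
    rw [← eq_iSup_inf_genWeightSpace]; exact hv
  have h2 : (⨆ χ : Weight E H g, (N ⊓ genWeightSpace g χ).toSubmodule) ≤
      LinearMap.ker ((killingForm E g).flip e) := by
    refine iSup_le fun χ y hy => ?_
    rw [mem_ker_flip]
    have hy1 : y ∈ V := hy.1
    have hy2 : y ∈ rootSpace H (χ : H → E) := hy.2
    by_cases hχ : χ = -α
    · subst hχ
      obtain ⟨c, rfl⟩ := exists_smul_of_mem hα0.neg hf' hs.triple.f_ne_zero hy2
      by_cases hc : c = 0
      · rw [hc]; simp
      · exfalso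
        refine hcon ?_
        have h3 := V.smul_mem c⁻¹ hy1
        rwa [smul_smul, inv_mul_cancel₀ hc, one_smul] at h3
    · refine killingForm_apply_eq_zero_of_mem_rootSpace_of_add_ne_zero E g H hy2 he' ?_
      intro h0
      refine hχ ?_
      rw [← Weight.ext_iff', Weight.coe_neg]
      exact eq_neg_of_add_eq_zero_left h0
  rw [← LieSubmodule.mem_toSubmodule, LieSubmodule.iSup_toSubmodule] at h1
  exact mem_ker_flip.1 (h2 h1)

/-! ## The simple reflection -/

section reflection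
variable {H : LieSubalgebra E g} [H.IsCartanSubalgebra] {h : g}

theorem reflectRoot_coe (α β : Weight E H g) :
    (reflectRoot α β : H → E) = β - β (coroot α) • (α : H → E) := rfl

theorem reflectRoot_reflectRoot {α : Weight E H g} (hα : α.IsNonZero) (β : Weight E H g) :
    reflectRoot α (reflectRoot α β) = β := by
  ext x
  rw [reflectRoot_coe, reflectRoot_coe]
  simp only [Pi.sub_apply, Pi.smul_apply, smul_eq_mul, root_apply_coroot hα]
  ring

theorem reflectRoot_self {α : Weight E H g} (hα : α.IsNonZero) : reflectRoot α α = -α := by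
  ext x
  rw [reflectRoot_coe]
  simp only [Pi.sub_apply, Pi.smul_apply, smul_eq_mul, root_apply_coroot hα, Weight.coe_neg,
    Pi.neg_apply]
  ring

/-- A simple reflection permutes the other positive roots. -/
theorem IsCz.deg_reflect_pos (hH : IsCz H h) (hh : RR E h) {α β : Weight E H g}
    (hα : hH.Smp hh α) (hβ : 0 < hH.deg hh β) (hβα : β ≠ α) :
    0 < hH.deg hh (reflectRoot α β) := by
  have hα0 := hH.isNonZero hh hα.1.ne'
  have hβ0 := hH.isNonZero hh hβ.ne'
  have hq := hα.1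
  have key : ∀ k : ℕ, k ≤ chainBotCoeff α β →
      ∃ γ : Weight E H g, (γ : H → E) = -(k : ℤ) • (α : H → E) + β ∧ 0 < hH.deg hh γ := by
    intro k
    induction k with
    | zero => intro _; exact ⟨β, by simp, hβ⟩
    | succ k ih =>
      intro hk
      obtain ⟨γ, hγ, hγpos⟩ := ih (by omega)
      have h1 : rootSpace H (-((k + 1 : ℕ) : ℤ) • (α : H → E) + β) ≠ ⊥ := by
        refine (rootSpace_zsmul_add_ne_bot_iff α β hα0 _).2 ⟨?_, ?_⟩
        · omega
        · rw [neg_neg]; exact_mod_cast hk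
      set γ' : Weight E H g := wtOf _ h1 with hγ'def
      have hγ' : (γ' : H → E) = -((k + 1 : ℕ) : ℤ) • (α : H → E) + β := rfl
      have hsum : (γ : H → E) = α + γ' := by
        rw [hγ, hγ']; push_cast; module
      have hγ'0 : γ'.IsNonZero := by
        intro h0
        have h2 : (β : H → E) = ((k + 1 : ℕ) : E) • (α : H → E) := by
          have h3 : (γ' : H → E) = 0 := h0
          rw [hγ', neg_smul, neg_add_eq_zero] at h3
          rw [← h3, ← Int.cast_smul_eq_zsmul E]
          push_cast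
          rfl
        rcases eq_neg_or_eq_of_eq_smul α β hβ0 _ h2 with h4 | h4
        · rw [h4, hH.deg_neg hh] at hβ
          linarith
        · exact hβα h4
      have hne := hH.deg_ne_zero hh hγ'0
      refine ⟨γ', hγ', ?_⟩
      rcases lt_or_gt_of_ne hne with h2 | h2
      · exfalso
        refine hα.2 γ (-γ') hγpos ?_ ?_
        · rw [hH.deg_neg hh]; linarith
        · rw [Weight.coe_neg, hsum]; abel
      · exact h2
  have hn := apply_coroot_eq_cast α β
  have hdeg : hH.deg hh (reflectRoot α β) =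
      hH.deg hh β - ((chainBotCoeff α β : ℤ) - (chainTopCoeff α β : ℤ) : ℤ) * hH.deg hh α := by
    refine hH.deg_eq hh ?_
    rw [reflectRoot_coe, Pi.sub_apply, Pi.smul_apply, smul_eq_mul, hn, hH.deg_spec hh α,
      hH.deg_spec hh β]
    push_cast
    ring
  by_cases hle : chainBotCoeff α β ≤ chainTopCoeff α β
  · rw [hdeg]
    have h1 : (((chainBotCoeff α β : ℤ) - (chainTopCoeff α β : ℤ) : ℤ) : ℚ) ≤ 0 := by
      have : ((chainBotCoeff α β : ℤ) - (chainTopCoeff α β : ℤ) : ℤ) ≤ 0 := by omega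
      exact_mod_cast this
    nlinarith
  · obtain ⟨γ, hγ, hγpos⟩ := key (chainBotCoeff α β - chainTopCoeff α β) (by omega)
    have h1 : reflectRoot α β = γ := by
      rw [← Weight.ext_iff', hγ, reflectRoot_coe, hn, Int.cast_smul_eq_zsmul, neg_smul,
        sub_eq_neg_add, Nat.cast_sub (by omega)]
    rw [h1]; exact hγpos

end reflection

/-- Simple reflection. -/
theorem Simp.reflect {h e τ f : g} (hh : RR E h) (hs : Simp E h e τ f) :
    ∃ h' : g, RR E h' ∧ gr E h' 0 = gr E h 0 ∧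
      nil E h' = Submodule.span E {f} ⊔ nilP E h f ∧
      bor E h' = gr E h 0 ⊔ (Submodule.span E {f} ⊔ nilP E h f) := by
  obtain ⟨H, hcar, hH⟩ := hh.exists_isCz
  obtain ⟨α, he, hf, hα⟩ := hs.exists_weight hH hh
  have hα0 := hH.isNonZero hh hα.1.ne'
  have ht := hs.triple
  have hτ : τ = coroot α := ht.h_eq_coroot hα0 he hf
  set q : ℚ := hH.deg hh α with hq
  set h' : g := h - (q : E) • τ with hh'
  have hτH : τ ∈ H := (hH τ).2 hs.hτ
  -- action on root spaces
  have hroot : ∀ β : Weight E H g, ∀ x ∈ rootSpace H β,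
      ⁅h', x⁆ = (hH.deg hh (reflectRoot α β) : E) • x := by
    intro β x hx
    have h1 : ⁅h, x⁆ = β ⟨h, hH.self⟩ • x := lie_eq_smul_of_mem_rootSpace hx ⟨h, hH.self⟩
    have h2 : ⁅τ, x⁆ = β (coroot α) • x := by
      rw [hτ]; exact lie_eq_smul_of_mem_rootSpace hx (coroot α)
    have h3 := hH.deg_spec hh (reflectRoot α β)
    rw [reflectRoot_coe, Pi.sub_apply, Pi.smul_apply, smul_eq_mul, hH.deg_spec hh α] at h3
    rw [hh', sub_lie, smul_lie, h1, h2, smul_smul, ← sub_smul, ← h3]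
    congr 1
    ring
  have hrootgr : ∀ β : Weight E H g, (rootSpace H β).toSubmodule ≤
      gr E h' (hH.deg hh (reflectRoot α β)) := fun β x hx => mem_gr.2 (hroot β x hx)
  have hHgr : gr E h 0 ≤ gr E h' 0 := by
    intro c hc
    have hc' : ⁅h, c⁆ = 0 := by rw [mem_gr.1 hc]; simp
    rw [mem_gr, hh', sub_lie, smul_lie, hc', hh.comm τ c hs.hτ hc']
    simp
  have htopw : (⨆ β : Weight E H g, (rootSpace H β).toSubmodule) = ⊤ := by
    rw [← LieSubmodule.iSup_toSubmodule, iSup_genWeightSpace_eq_top' E H g]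
    rfl
  have hgr0 : gr E h' 0 = gr E h 0 := by
    refine le_antisymm (fun x hx => ?_) hHgr
    have h1 : (⊤ : Submodule E g) ≤ gr E h 0 ⊔ ⨆ p ∈ {p : ℚ | p ≠ 0}, gr E h' p := by
      rw [← htopw]
      refine iSup_le fun β => ?_
      by_cases hβ : β.IsZero
      · exact le_trans (fun y hy => hH.mem_gr_zero_of_isZero hβ hy) le_sup_left
      · refine le_trans (hrootgr β) (le_trans ?_ le_sup_right)
        exact le_iSup₂_of_le (f := fun (p : ℚ) (_ : p ∈ {p : ℚ | p ≠ 0}) => gr E h' p)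
          (hH.deg hh (reflectRoot α β))
          (hH.deg_ne_zero hh (reflectRoot_isNonZero α β hβ)) le_rfl
    obtain ⟨a, ha, b, hb, rfl⟩ := Submodule.mem_sup.1 (h1 (trivial : x ∈ ⊤))
    have h2 : b ∈ gr E h' 0 := by
      have := sub_mem hx (hHgr ha)
      simpa using this
    have h3 := disjoint_biSup_gr (E := E) h' (S := {0}) (T := {p | p ≠ 0}) (by simp)
    have h4 : b = 0 := (Submodule.disjoint_def.1 h3) b (by simpa using h2) hb
    rw [h4, add_zero]
    exact ha
  have hcz : ∀ x : g, ⁅h', x⁆ = 0 ↔ ⁅h, x⁆ = 0 := by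
    intro x
    have h1 : x ∈ gr E h' 0 ↔ x ∈ gr E h 0 := by rw [hgr0]
    rw [mem_gr, mem_gr] at h1
    simpa using h1
  have hRR : RR E h' := by
    refine ⟨?_, fun x y hx hy => hh.comm x y ((hcz x).1 hx) ((hcz y).1 hy)⟩
    rw [eq_top_iff, ← htopw]
    exact iSup_le fun β => (hrootgr β).trans (le_iSup (fun p : ℚ => gr E h' p) _)
  have hH' : IsCz H h' := fun x => by rw [hH x, hcz x]
  have hdeg' : ∀ β : Weight E H g, hH'.deg hRR β = hH.deg hh (reflectRoot α β) := by
    intro β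
    obtain ⟨x, hx, hx0⟩ := β.exists_ne_zero
    refine hH'.deg_eq hRR ?_
    have h1 : ⁅h', x⁆ = β ⟨h', hH'.self⟩ • x := lie_eq_smul_of_mem_rootSpace hx ⟨h', hH'.self⟩
    rw [hroot β x hx] at h1
    exact (smul_left_injective E hx0 h1).symm
  have hnil : nil E h' = Submodule.span E {f} ⊔ nilP E h f := by
    refine le_antisymm ?_ (sup_le ?_ ?_)
    · refine iSup₂_le fun p hp => (hH'.gr_le hRR p).trans (iSup₂_le fun γ hγ y hy => ?_)
      rw [hdeg'] at hγ
      rw [← hγ] at hp
      by_cases hγα : γ = -α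
      · subst hγα
        obtain ⟨c, rfl⟩ := exists_smul_of_mem hα0.neg hf ht.f_ne_zero hy
        exact Submodule.mem_sup_left
          (Submodule.smul_mem _ _ (Submodule.mem_span_singleton_self f))
      · refine Submodule.mem_sup_right (mem_nilP.2 ⟨?_, ?_⟩)
        · have h1 : reflectRoot α γ ≠ α := by
            intro h2
            refine hγα ?_
            rw [← reflectRoot_self hα0, ← h2]
            conv_lhs => rw [← reflectRoot_reflectRoot hα0 γ]
            rw [h2]
          have h3 := hH.deg_reflect_pos hh hα hp h1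
          rw [reflectRoot_reflectRoot hα0] at h3
          exact gr_le_nil h h3 (hH.mem_gr_deg hh hy)
        · refine killingForm_apply_eq_zero_of_mem_rootSpace_of_add_ne_zero E g H hy hf ?_
          intro h0
          rw [add_neg_eq_zero, Weight.ext_iff'] at h0
          subst h0
          rw [reflectRoot_self hα0, hH.deg_neg hh] at hp
          linarith [hα.1]
    · rw [Submodule.span_singleton_le_iff_mem]
      have h1 : f ∈ gr E h' q := by
        have h2 := hroot (-α) f hf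
        rw [mem_gr, h2]
        congr 2
        have h3 : reflectRoot α (-α) = α := by
          rw [← reflectRoot_self hα0, reflectRoot_reflectRoot hα0]
        rw [h3]
      exact gr_le_nil h' hα.1 h1
    · refine (hH.nilP_le hh hα0 ht he hf).trans (iSup₂_le fun β hβ => ?_)
      refine (hrootgr β).trans (gr_le_nil h' ?_)
      exact hH.deg_reflect_pos hh hα hβ.1 hβ.2
  exact ⟨h', hRR, hgr0, hnil, by rw [bor_eq, hgr0, hnil]⟩

end F80
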