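import Pool.Agent.H45.F80.BC0
/-! Module BG: the rational grading of a Killing Lie algebra given by a rational regular element.
(The main part is in `BG0`; here the semisimplicity of the elements of the centraliser, which uses
the base change to the algebraic closure.) -/
open Module TensorProduct
namespace F80

/-- Semisimplicity descends along extensions of fields of characteristic `0`. -/
theorem isSemisimple_of_baseChange {E : Type*} [Field E] [CharZero E] {V : Type*}
    [AddCommGroup V] [Module E V] [FiniteDimensional E V] (E' : Type*) [Field E'] [CharZero E']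
    [Algebra E E'] (f : Module.End E V) (hf : Module.End.IsSemisimple (f.baseChange E')) :
    f.IsSemisimple := by
  obtain ⟨N, hN₁, S, hS₁, hN, hS, hNS⟩ := f.exists_isNilpotent_isSemisimple
  have hS' : Module.End.IsSemisimple (S.baseChange E') := by
    have h1 := hS.minpoly_squarefree
    have h2 : (minpoly E S).Separable := PerfectField.separable_iff_squarefree.2 h1
    have h3 : ((minpoly E S).map (algebraMap E E')).Separable := h2.map
    refine Module.End.isSemisimple_of_squarefree_aeval_eq_zero h3.squarefree ?_
    rw [Polynomial.aeval_map_algebraMap]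
    have h4 : Polynomial.aeval (Module.End.baseChangeHom E E' V S) (minpoly E S) =
        Module.End.baseChangeHom E E' V (Polynomial.aeval S (minpoly E S)) :=
      Polynomial.aeval_algHom_apply _ _ _
    rw [minpoly.aeval, map_zero] at h4
    exact h4
  have hN' : N.baseChange E' = f.baseChange E' - S.baseChange E' := by
    have h1 : N = f - S := by rw [hNS, add_sub_cancel_right]
    rw [h1]
    exact LinearMap.baseChange_sub f S
  have hcomm : Commute (f.baseChange E') (S.baseChange E') := by
    have h1 : Commute f S := Algebra.commute_of_mem_adjoin_self hS₁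
    have h2 := congrArg (LinearMap.baseChange E') h1.eq
    rw [LinearMap.baseChange_mul, LinearMap.baseChange_mul] at h2
    exact h2
  have h5 : Module.End.IsSemisimple (N.baseChange E') := by
    rw [hN']
    exact hf.sub_of_commute hcomm hS'
  have h6 : IsNilpotent (N.baseChange E') := by
    obtain ⟨n, hn⟩ := hN
    exact ⟨n, by rw [← LinearMap.baseChange_pow, hn, LinearMap.baseChange_zero]⟩
  have h7 : N.baseChange E' = 0 := Module.End.eq_zero_of_isNilpotent_isSemisimple h6 h5
  have h8 : N = 0 := by
    apply LinearMap.baseChangeHom_injective E V E'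
    simpa using h7
  rw [hNS, h8, zero_add]
  exact hS

section killing
variable {E : Type*} [Field E] [CharZero E] {g : Type*} [LieRing g] [LieAlgebra E g]
  [FiniteDimensional E g]
variable [LieAlgebra.IsKilling E g]

/-- Elements centralising `h` have semisimple adjoint endomorphism. -/
theorem RR.isSemisimple {h c : g} (hh : RR E h) (hc : ⁅h, c⁆ = 0) :
    (LieAlgebra.ad E g c : Module.End E g).IsSemisimple := by
  let A := AlgebraicClosure E
  refine isSemisimple_of_baseChange A _ ?_
  obtain ⟨H, hH, hcar⟩ := (hh.baseChange A).isCartan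
  have h1 : (1 ⊗ₜ[E] c : A ⊗[E] g) ∈ H := by
    have h2 : (1 ⊗ₜ[E] c : A ⊗[E] g) ∈ H.toSubmodule := by
      rw [hH, mem_gr, LieAlgebra.ExtendScalars.bracket_tmul, hc]
      simp
    exact h2
  have h3 := LieAlgebra.IsKilling.isSemisimple_ad_of_mem_isCartanSubalgebra (K := A) h1
  have h4 : (LieAlgebra.ad A (A ⊗[E] g) (1 ⊗ₜ[E] c) : Module.End A (A ⊗[E] g)) =
      (LieAlgebra.ad E g c : Module.End E g).baseChange A :=
    LinearMap.ext fun X => ad_tmul_apply A c X
  rw [← h4]
  exact h3

/-- Ad-nilpotent elements of `bor h` lie in `nil h`. -/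
theorem RR.mem_nil_of_nilpotent {h x : g} (hh : RR E h) (hx : x ∈ bor E h)
    (hn : IsNilpotent (LieAlgebra.ad E g x : Module.End E g)) : x ∈ nil E h := by
  rw [bor_eq, Submodule.mem_sup] at hx
  obtain ⟨c, hc, n, hnn, rfl⟩ := hx
  have hcz : ⁅h, c⁆ = 0 := by rw [mem_gr.1 hc]; simp
  suffices c = 0 by rw [this, zero_add]; exact hnn
  have hss := hh.isSemisimple hcz
  obtain ⟨m, hm⟩ := hn
  have key : ∀ (k : ℕ) (q : ℚ) (y : g), y ∈ gr E h q →
      ((LieAlgebra.ad E g c : Module.End E g) ^ k) y ∈ gr E h q ∧
      ((LieAlgebra.ad E g (c + n) : Module.End E g) ^ k) y -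
        ((LieAlgebra.ad E g c : Module.End E g) ^ k) y ∈ ⨆ p ∈ {p : ℚ | q < p}, gr E h p := by
    intro k q y hy
    induction k with
    | zero => simpa using hy
    | succ k ih =>
      obtain ⟨ih1, ih2⟩ := ih
      rw [pow_succ', pow_succ', Module.End.mul_apply, Module.End.mul_apply]
      refine ⟨?_, ?_⟩
      · have := lie_gr hc ih1
        simpa using this
      · set u := ((LieAlgebra.ad E g c : Module.End E g) ^ k) y
        set v := ((LieAlgebra.ad E g (c + n) : Module.End E g) ^ k) y
        have h1 : ⁅c + n, v⁆ - ⁅c, u⁆ = ⁅c + n, v - u⁆ + ⁅n, u⁆ := by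
          rw [lie_sub, add_lie c n u]; abel
        change ⁅c + n, v⁆ - ⁅c, u⁆ ∈ _
        rw [h1]
        have hb : c + n ∈ bor E h := by
          rw [bor_eq]; exact add_mem (Submodule.mem_sup_left hc) (Submodule.mem_sup_right hnn)
        refine add_mem ?_ ?_
        · rw [bor_eq_biSup] at hb
          exact lie_mem_biSup (fun s hs t ht => by
            simp only [Set.mem_ofPred_eq] at *; linarith) hb ih2
        · have h3 : u ∈ ⨆ p ∈ ({q} : Set ℚ), gr E h p := by simpa using ih1
          rw [nil_eq_biSup] at hnn
          exact lie_mem_biSup (fun s hs t ht => by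
            simp only [Set.mem_ofPred_eq, Set.mem_singleton_iff] at *; linarith) hnn h3
  have hcn : IsNilpotent (LieAlgebra.ad E g c : Module.End E g) := by
    refine ⟨m, LinearMap.ext fun y => ?_⟩
    obtain ⟨s, f, hf, rfl⟩ := hh.exists_sum y
    rw [map_sum]
    refine (Finset.sum_eq_zero fun q _ => ?_).trans (by simp)
    obtain ⟨h1, h2⟩ := key m q (f q) (hf q)
    rw [hm, LinearMap.zero_apply, zero_sub, neg_mem_iff] at h2
    have h3 : ((LieAlgebra.ad E g c : Module.End E g) ^ m) (f q) ∈
        ⨆ p ∈ ({q} : Set ℚ), gr E h p := by simpa using h1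
    have h4 := disjoint_biSup_gr (E := E) h (S := {q}) (T := {p | q < p}) (by simp)
    exact (Submodule.disjoint_def.1 h4) _ h3 h2
  have h0 := Module.End.eq_zero_of_isNilpotent_isSemisimple hcn hss
  refine eq_zero_of_killing (E := E) fun y => ?_
  rw [LieModule.traceForm_apply_apply]
  change LinearMap.trace E g ((LieAlgebra.ad E g c : Module.End E g) ∘ₗ _) = 0
  rw [h0]
  simp

end killing
end F80
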