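import Pool.Agent.H45.F80.Defs
/-! Module BG: the rational grading of a Killing Lie algebra given by a rational regular element. -/
open Module
namespace F80

section basic
variable {E : Type*} [Field E] [CharZero E] {g : Type*} [LieRing g] [LieAlgebra E g]

theorem mem_gr {h x : g} {q : ℚ} : x ∈ gr E h q ↔ ⁅h, x⁆ = (q : E) • x := by
  rw [gr, Module.End.mem_eigenspace_iff, LieAlgebra.ad_apply]

theorem lie_gr {h x y : g} {p q : ℚ} (hx : x ∈ gr E h p) (hy : y ∈ gr E h q) :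
    ⁅x, y⁆ ∈ gr E h (p + q) := by
  rw [mem_gr] at *
  rw [leibniz_lie, hx, hy]
  push_cast
  rw [smul_lie, lie_smul, add_smul]

theorem iSupIndep_gr (h : g) : iSupIndep (fun q : ℚ => gr E h q) :=
  (Module.End.eigenspaces_iSupIndep (LieAlgebra.ad E g h : Module.End E g)).comp
    (fun _ _ hpq => Rat.cast_injective hpq : Function.Injective (fun q : ℚ => (q : E)))

theorem gr_le_bor (h : g) {q : ℚ} (hq : 0 ≤ q) : gr E h q ≤ bor E h :=
  le_iSup₂_of_le q hq le_rfl

theorem gr_le_nil (h : g) {q : ℚ} (hq : 0 < q) : gr E h q ≤ nil E h :=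
  le_iSup₂_of_le q hq le_rfl

theorem nil_le_bor (h : g) : nil E h ≤ bor E h :=
  iSup₂_le fun _ hq => gr_le_bor h hq.le

theorem bor_eq (h : g) : bor E h = gr E h 0 ⊔ nil E h := by
  refine le_antisymm (iSup₂_le fun q hq => ?_) (sup_le (gr_le_bor h le_rfl) (nil_le_bor h))
  rcases hq.eq_or_lt with rfl | hq
  · exact le_sup_left
  · exact (gr_le_nil h hq).trans le_sup_right

/-- Two sums of graded pieces over disjoint sets of degrees are disjoint. -/
theorem disjoint_biSup_gr (h : g) {S T : Set ℚ} (hST : Disjoint S T) :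
    Disjoint (⨆ q ∈ S, gr E h q) (⨆ q ∈ T, gr E h q) :=
  (iSupIndep_gr h).disjoint_biSup_biSup hST

theorem disjoint_gr_zero_nil (h : g) : Disjoint (gr E h 0) (nil E h) := by
  have := disjoint_biSup_gr (E := E) h (S := {0}) (T := {q | 0 < q}) (by simp)
  simpa [nil] using this

theorem self_mem_gr_zero (h : g) : h ∈ gr E h 0 := by
  rw [mem_gr]; simp

/-- Brackets of sums of graded pieces. -/
theorem lie_mem_biSup {h : g} {S T U : Set ℚ} (hST : ∀ s ∈ S, ∀ t ∈ T, s + t ∈ U) {x y : g}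
    (hx : x ∈ ⨆ q ∈ S, gr E h q) (hy : y ∈ ⨆ q ∈ T, gr E h q) : ⁅x, y⁆ ∈ ⨆ q ∈ U, gr E h q := by
  have h1 : ∀ s ∈ S, ∀ x ∈ gr E h s, (⨆ q ∈ T, gr E h q) ≤
      (⨆ q ∈ U, gr E h q).comap (LieAlgebra.ad E g x : g →ₗ[E] g) := by
    intro s hs x hx
    refine iSup₂_le fun t ht y hy => ?_
    rw [Submodule.mem_comap]
    exact (le_iSup₂_of_le (s + t) (hST s hs t ht) le_rfl : gr E h (s + t) ≤ _) (lie_gr hx hy)
  have h2 : (⨆ q ∈ S, gr E h q) ≤
      (⨆ q ∈ U, gr E h q).comap ((LieAlgebra.ad E g : g →ₗ[E] Module.End E g).flip y) :=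
    iSup₂_le fun s hs x hx => h1 s hs x hx hy
  exact h2 hx

theorem bor_eq_biSup (h : g) : bor E h = ⨆ q ∈ {q : ℚ | 0 ≤ q}, gr E h q := rfl
theorem nil_eq_biSup (h : g) : nil E h = ⨆ q ∈ {q : ℚ | 0 < q}, gr E h q := rfl

theorem lie_mem_bor {h x y : g} (hx : x ∈ bor E h) (hy : y ∈ bor E h) : ⁅x, y⁆ ∈ bor E h := by
  rw [bor_eq_biSup] at *
  exact lie_mem_biSup (fun s hs t ht => add_nonneg hs ht) hx hy

theorem lie_mem_nil {h x y : g} (hx : x ∈ bor E h) (hy : y ∈ nil E h) : ⁅x, y⁆ ∈ nil E h := by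
  rw [bor_eq_biSup] at hx
  rw [nil_eq_biSup] at *
  exact lie_mem_biSup (fun s hs t ht => add_pos_of_nonneg_of_pos hs ht) hx hy

theorem RR.lie_bor_mem_nil {h x y : g} (hh : RR E h) (hx : x ∈ bor E h) (hy : y ∈ bor E h) :
    ⁅x, y⁆ ∈ nil E h := by
  rw [bor_eq, Submodule.mem_sup] at hy
  obtain ⟨b, hb, m, hm, rfl⟩ := hy
  rw [lie_add]
  refine add_mem ?_ (lie_mem_nil hx hm)
  rw [bor_eq, Submodule.mem_sup] at hx
  obtain ⟨a, ha, n, hn, rfl⟩ := hx
  rw [add_lie, hh.comm a b (by simpa [mem_gr] using ha) (by simpa [mem_gr] using hb), zero_add,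
    ← lie_skew]
  exact neg_mem (lie_mem_nil (gr_le_bor h le_rfl hb) hn)

theorem exists_sum_biSup {h x : g} {S : Set ℚ} (hx : x ∈ ⨆ q ∈ S, gr E h q) :
    ∃ (s : Finset ℚ) (f : ℚ → g), (∀ q ∈ s, q ∈ S) ∧ (∀ q, f q ∈ gr E h q) ∧
      x = ∑ q ∈ s, f q := by
  rw [Submodule.mem_iSup_iff_exists_finsupp] at hx
  obtain ⟨f, hf, rfl⟩ := hx
  refine ⟨f.support, f, fun q hq => ?_, fun q => ?_, rfl⟩
  · by_contra hqS
    have := hf q
    simp only [hqS, iSup_false, Submodule.mem_bot] at this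
    simp [this] at hq
  · have := hf q
    by_cases hqS : q ∈ S
    · simpa [hqS] using this
    · simp only [hqS, iSup_false, Submodule.mem_bot] at this
      rw [this]; exact zero_mem _

/-- Induction principle: an element of `⨆ gr` is a finite sum of homogeneous elements. -/
theorem RR.exists_sum {h : g} (hh : RR E h) (x : g) :
    ∃ (s : Finset ℚ) (f : ℚ → g), (∀ q, f q ∈ gr E h q) ∧ x = ∑ q ∈ s, f q := by
  have hx : x ∈ ⨆ q ∈ (Set.univ : Set ℚ), gr E h q := by
    simp [hh.top]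
  obtain ⟨s, f, -, hf, rfl⟩ := exists_sum_biSup hx
  exact ⟨s, f, hf, rfl⟩

theorem exists_sum_bor {h x : g} (hx : x ∈ bor E h) :
    ∃ (s : Finset ℚ) (f : ℚ → g), (∀ q ∈ s, 0 ≤ q) ∧ (∀ q, f q ∈ gr E h q) ∧
      x = ∑ q ∈ s, f q :=
  exists_sum_biSup hx

theorem exists_sum_nil {h x : g} (hx : x ∈ nil E h) :
    ∃ (s : Finset ℚ) (f : ℚ → g), (∀ q ∈ s, 0 < q) ∧ (∀ q, f q ∈ gr E h q) ∧
      x = ∑ q ∈ s, f q :=
  exists_sum_biSup hx

/-- decomposition of the whole space into complementary sets of degrees -/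
theorem RR.biSup_sup_biSup {h : g} (hh : RR E h) {S T : Set ℚ} (hST : ∀ q, q ∈ S ∨ q ∈ T) :
    (⨆ q ∈ S, gr E h q) ⊔ (⨆ q ∈ T, gr E h q) = ⊤ := by
  rw [eq_top_iff, ← hh.top]
  refine iSup_le fun q => ?_
  rcases hST q with hq | hq
  · have h1 : gr E h q ≤ ⨆ q ∈ S, gr E h q := le_iSup₂_of_le q hq le_rfl
    exact h1.trans le_sup_left
  · have h1 : gr E h q ≤ ⨆ q ∈ T, gr E h q := le_iSup₂_of_le q hq le_rfl
    exact h1.trans le_sup_right

theorem RR.exists_add {h : g} (hh : RR E h) {S T : Set ℚ} (hST : ∀ q, q ∈ S ∨ q ∈ T) (x : g) :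
    ∃ y ∈ ⨆ q ∈ S, gr E h q, ∃ z ∈ ⨆ q ∈ T, gr E h q, y + z = x := by
  have : x ∈ (⨆ q ∈ S, gr E h q) ⊔ (⨆ q ∈ T, gr E h q) := by
    rw [hh.biSup_sup_biSup hST]; trivial
  exact Submodule.mem_sup.1 this

theorem lie_self_mem_biSup {h x : g} {S : Set ℚ} (hx : x ∈ ⨆ q ∈ S, gr E h q) :
    ⁅h, x⁆ ∈ ⨆ q ∈ S, gr E h q := by
  have h0 : h ∈ ⨆ q ∈ ({0} : Set ℚ), gr E h q := by simpa using self_mem_gr_zero h
  exact lie_mem_biSup (S := {0}) (fun s hs t ht => by simp_all) h0 hx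

/-- If `[h, x]` lies in a sum of graded pieces of degrees in `S`, and `0 ∈ S`, so does `x`. -/
theorem RR.mem_biSup_of_lie {h : g} (hh : RR E h) {S : Set ℚ} (h0 : (0 : ℚ) ∈ S) {x : g}
    (hx : ⁅h, x⁆ ∈ ⨆ q ∈ S, gr E h q) : x ∈ ⨆ q ∈ S, gr E h q := by
  obtain ⟨y, hy, z, hz, rfl⟩ := hh.exists_add (S := S) (T := Sᶜ) (fun q => em (q ∈ S)) x
  have h1 : ⁅h, z⁆ ∈ ⨆ q ∈ S, gr E h q := by
    have := sub_mem hx (lie_self_mem_biSup hy)
    simpa [lie_add] using this
  have h2 : ⁅h, z⁆ = 0 := by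
    have := (disjoint_biSup_gr (E := E) h (S := S) (T := Sᶜ) disjoint_compl_right)
    exact (Submodule.disjoint_def.1 this) _ h1 (lie_self_mem_biSup hz)
  have h3 : z ∈ gr E h 0 := by simpa [mem_gr] using h2
  exact add_mem hy ((le_iSup₂_of_le 0 h0 le_rfl : gr E h 0 ≤ _) h3)

/-- Normaliser of `bor h`. -/
theorem RR.mem_bor_of_lie {h x : g} (hh : RR E h) (hx : ∀ y ∈ bor E h, ⁅x, y⁆ ∈ bor E h) :
    x ∈ bor E h := by
  have h1 := hx h (gr_le_bor h le_rfl (self_mem_gr_zero h))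
  rw [bor_eq_biSup] at *
  refine hh.mem_biSup_of_lie (by simp) ?_
  rw [← lie_skew]
  exact neg_mem h1

/-- Only finitely many graded pieces are nonzero. -/
theorem finite_gr_ne_bot [FiniteDimensional E g] (h : g) : {q : ℚ | gr E h q ≠ ⊥}.Finite :=
  WellFoundedGT.finite_ne_bot_of_iSupIndep (iSupIndep_gr h)

/-- `ad x` is nilpotent for `x` in `nil h`. -/
theorem RR.ad_nilpotent [FiniteDimensional E g] {h x : g} (hh : RR E h) (hx : x ∈ nil E h) :
    IsNilpotent (LieAlgebra.ad E g x : Module.End E g) := by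
  obtain ⟨s, f, hs, hf, rfl⟩ := exists_sum_nil hx
  -- a positive lower bound of the degrees
  obtain ⟨ε, hε, hεs⟩ : ∃ ε : ℚ, 0 < ε ∧ ∀ q ∈ s, ε ≤ q := by
    rcases s.eq_empty_or_nonempty with rfl | hne
    · exact ⟨1, one_pos, by simp⟩
    · exact ⟨s.min' hne, hs _ (s.min'_mem hne), fun q hq => s.min'_le q hq⟩
  obtain ⟨M, hM⟩ : ∃ M : ℚ, ∀ q, gr E h q ≠ ⊥ → |q| ≤ M := by
    have hfin := (finite_gr_ne_bot (E := E) h)
    obtain ⟨M, hM⟩ := (hfin.image (fun q => |q|)).bddAbove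
    exact ⟨M, fun q hq => hM ⟨q, hq, rfl⟩⟩
  have hx' : ∑ q ∈ s, f q ∈ ⨆ q ∈ {q : ℚ | ε ≤ q}, gr E h q :=
    sum_mem fun q hq => (le_iSup₂_of_le q (hεs q hq) le_rfl : gr E h q ≤ _) (hf q)
  set x := ∑ q ∈ s, f q with hxdef
  have key : ∀ (n : ℕ) (y : g),
      ((LieAlgebra.ad E g x : Module.End E g) ^ n) y ∈
        ⨆ q ∈ {q : ℚ | -M + n * ε ≤ q}, gr E h q := by
    intro n
    induction n with
    | zero =>
      intro y
      have : y ∈ ⨆ q : ℚ, gr E h q := by rw [hh.top]; trivial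
      have hle : (⨆ q : ℚ, gr E h q) ≤ ⨆ q ∈ {q : ℚ | -M + ((0 : ℕ) : ℚ) * ε ≤ q}, gr E h q := by
        refine iSup_le fun q => ?_
        by_cases hq : gr E h q = ⊥
        · rw [hq]; exact bot_le
        · refine le_iSup₂_of_le q ?_ le_rfl
          have := (abs_le.1 (hM q hq)).1
          simp only [Set.mem_ofPred_eq]
          simpa using this
      simpa using hle this
    | succ n ih =>
      intro y
      rw [pow_succ', Module.End.mul_apply]
      refine lie_mem_biSup (S := {q : ℚ | ε ≤ q}) (fun a ha b hb => ?_) hx' (ih y)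
      simp only [Set.mem_ofPred_eq] at *
      push_cast
      linarith
  obtain ⟨n, hn⟩ := exists_nat_gt ((2 * M) / ε)
  refine ⟨n, LinearMap.ext fun y => ?_⟩
  have h1 := key n y
  have h2 : (⨆ q ∈ {q : ℚ | -M + n * ε ≤ q}, gr E h q) = ⊥ := by
    refine le_bot_iff.1 (iSup₂_le fun q hq => ?_)
    by_contra hne
    have h3 : gr E h q ≠ ⊥ := fun h4 => hne (h4 ▸ le_rfl)
    have h4 := (abs_le.1 (hM q h3)).2
    have h5 : 2 * M < n * ε := by rwa [div_lt_iff₀ hε] at hn
    simp only [Set.mem_ofPred_eq] at hq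
    linarith
  rw [h2, Submodule.mem_bot] at h1
  simpa using h1

/-- transport by an isomorphism -/
theorem gr_map {g' : Type*} [LieRing g'] [LieAlgebra E g'] (ψ : g ≃ₗ⁅E⁆ g') (h : g) (q : ℚ) :
    gr E (ψ h) q = (gr E h q).map (ψ.toLinearEquiv : g →ₗ[E] g') := by
  ext x
  rw [Submodule.mem_map_equiv, mem_gr, mem_gr]
  have h1 : ψ.toLinearEquiv.symm x = ψ.symm x := rfl
  rw [h1]
  constructor
  · intro hx
    apply ψ.injective
    change ψ _ = ψ _
    rw [LieEquiv.map_lie, LieEquiv.apply_symm_apply, hx, map_smul, LieEquiv.apply_symm_apply]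
  · intro hx
    have := congrArg ψ hx
    rw [LieEquiv.map_lie, LieEquiv.apply_symm_apply, map_smul, LieEquiv.apply_symm_apply] at this
    rw [this]

theorem bor_map {g' : Type*} [LieRing g'] [LieAlgebra E g'] (ψ : g ≃ₗ⁅E⁆ g') (h : g) :
    bor E (ψ h) = (bor E h).map (ψ.toLinearEquiv : g →ₗ[E] g') := by
  simp only [bor, Submodule.map_iSup, gr_map]

theorem nil_map {g' : Type*} [LieRing g'] [LieAlgebra E g'] (ψ : g ≃ₗ⁅E⁆ g') (h : g) :
    nil E (ψ h) = (nil E h).map (ψ.toLinearEquiv : g →ₗ[E] g') := by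
  simp only [nil, Submodule.map_iSup, gr_map]

theorem RR.map {g' : Type*} [LieRing g'] [LieAlgebra E g'] {h : g} (hh : RR E h)
    (ψ : g ≃ₗ⁅E⁆ g') : RR E (ψ h) where
  top := by
    simp only [gr_map, ← Submodule.map_iSup, hh.top]
    rw [Submodule.map_top, LinearEquiv.range]
  comm x y hx hy := by
    have h1 : ∀ z : g', ⁅ψ h, z⁆ = 0 → ⁅h, ψ.symm z⁆ = 0 := by
      intro z hz
      apply ψ.injective
      change ψ _ = ψ _
      rw [LieEquiv.map_lie, LieEquiv.apply_symm_apply, hz, map_zero]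
    have h2 := congrArg ψ (hh.comm _ _ (h1 x hx) (h1 y hy))
    simpa [LieEquiv.map_lie] using h2

end basic

section killing
variable {E : Type*} [Field E] [CharZero E] {g : Type*} [LieRing g] [LieAlgebra E g]
  [FiniteDimensional E g]

theorem killing_gr {h x y : g} {p q : ℚ} (hx : x ∈ gr E h p) (hy : y ∈ gr E h q)
    (hpq : p + q ≠ 0) : killingForm E g x y = 0 := by
  rw [mem_gr] at hx hy
  have h1 := LieModule.traceForm_apply_lie_apply E g g x h y
  rw [← lie_skew, hx, hy] at h1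
  simp only [map_neg, map_smul, LinearMap.neg_apply, LinearMap.smul_apply, smul_eq_mul] at h1
  have h2 : ((p + q : ℚ) : E) * killingForm E g x y = 0 := by
    push_cast
    have h3 : -((p : E) * killingForm E g x y) = (q : E) * killingForm E g x y := h1
    linear_combination -h3
  rcases mul_eq_zero.1 h2 with h3 | h3
  · exact absurd (by exact_mod_cast h3) hpq
  · exact h3

theorem killing_biSup {h x y : g} {S T : Set ℚ} (hST : ∀ s ∈ S, ∀ t ∈ T, s + t ≠ 0)
    (hx : x ∈ ⨆ q ∈ S, gr E h q) (hy : y ∈ ⨆ q ∈ T, gr E h q) : killingForm E g x y = 0 := by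
  obtain ⟨s, f, hs, hf, rfl⟩ := exists_sum_biSup hx
  obtain ⟨t, f', ht, hf', rfl⟩ := exists_sum_biSup hy
  rw [map_sum (killingForm E g (∑ q ∈ s, f q))]
  refine Finset.sum_eq_zero fun q hq => ?_
  rw [map_sum, LinearMap.sum_apply]
  exact Finset.sum_eq_zero fun p hp => killing_gr (hf p) (hf' q) (hST p (hs p hp) q (ht q hq))

theorem killing_nil_bor {h x y : g} (hx : x ∈ nil E h) (hy : y ∈ bor E h) :
    killingForm E g x y = 0 := by
  rw [bor_eq_biSup] at hy
  rw [nil_eq_biSup] at hx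
  refine killing_biSup (fun s hs t ht => ?_) hx hy
  have : 0 < s + t := add_pos_of_pos_of_nonneg hs ht
  exact this.ne'

variable [LieAlgebra.IsKilling E g]

theorem eq_zero_of_killing {x : g} (hx : ∀ y, killingForm E g x y = 0) : x = 0 := by
  have h1 : x ∈ LinearMap.ker (killingForm E g) := by
    rw [LinearMap.mem_ker]; exact LinearMap.ext hx
  simpa [LieAlgebra.IsKilling.ker_killingForm_eq_bot] using h1

theorem RR.mem_biSup_iff {h : g} (hh : RR E h) {S T : Set ℚ}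
    (hST : ∀ q, q ∈ S ↔ -q ∉ T) (x : g) :
    x ∈ (⨆ q ∈ S, gr E h q) ↔ ∀ y ∈ ⨆ q ∈ T, gr E h q, killingForm E g x y = 0 := by
  have hS : ∀ q, -q ∈ T ∨ q ∈ S := fun q => by
    rw [hST]; tauto
  constructor
  · intro hx y hy
    refine killing_biSup (fun s hs t ht hst => ?_) hx hy
    have : -s = t := by linarith
    exact (hST s).1 hs (this ▸ ht)
  · intro hx
    obtain ⟨y, hy, z, hz, rfl⟩ := hh.exists_add (S := S) (T := Sᶜ) (fun q => em (q ∈ S)) x
    suffices z = 0 by rw [this, add_zero]; exact hy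
    refine eq_zero_of_killing (E := E) fun w => ?_
    obtain ⟨a, ha, b, hb, rfl⟩ := hh.exists_add (S := T) (T := Tᶜ) (fun q => em (q ∈ T)) w
    have h1 : killingForm E g y a = 0 := by
      refine killing_biSup (fun s hs t ht hst => ?_) hy ha
      have : -s = t := by linarith
      exact (hST s).1 hs (this ▸ ht)
    have h2 : killingForm E g z b = 0 := by
      refine killing_biSup (fun s hs t ht hst => ?_) hz hb
      have h3 : -s = t := by linarith
      have h4 : -s ∉ T := h3 ▸ ht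
      exact hs ((hST s).2 h4)
    have h3 := hx a ha
    rw [map_add, LinearMap.add_apply, h1, zero_add] at h3
    rw [map_add, h3, h2, add_zero]

theorem RR.mem_nil_iff {h : g} (hh : RR E h) (x : g) :
    x ∈ nil E h ↔ ∀ y ∈ bor E h, killingForm E g x y = 0 :=
  hh.mem_biSup_iff (S := {q | 0 < q}) (T := {q | 0 ≤ q}) (fun q => by simp) x

theorem RR.mem_bor_iff {h : g} (hh : RR E h) (x : g) :
    x ∈ bor E h ↔ ∀ y ∈ nil E h, killingForm E g x y = 0 :=
  hh.mem_biSup_iff (S := {q | 0 ≤ q}) (T := {q | 0 < q}) (fun q => by simp) x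

/-- The form pairs the two opposite graded pieces perfectly. -/
theorem RR.eq_zero_of_killing_gr {h x : g} (hh : RR E h) {q : ℚ} (hx : x ∈ gr E h q)
    (hk : ∀ y ∈ gr E h (-q), killingForm E g x y = 0) : x = 0 := by
  refine eq_zero_of_killing (E := E) fun w => ?_
  obtain ⟨s, f, hf, rfl⟩ := hh.exists_sum w
  rw [map_sum]
  refine Finset.sum_eq_zero fun p _ => ?_
  by_cases hp : q + p = 0
  · have : p = -q := by linarith
    subst this
    exact hk _ (hf _)
  · exact killing_gr hx (hf p) hp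

theorem RR.finrank_add {h : g} (hh : RR E h) :
    finrank E (bor E h) + finrank E (nil E h) = finrank E g := by
  have h1 : nil E h = (killingForm E g).orthogonal (bor E h) := by
    ext x
    rw [hh.mem_nil_iff, LinearMap.BilinForm.mem_orthogonal_iff]
    exact forall₂_congr fun y _ => by rw [LieModule.traceForm_comm]
  have h2 := LinearMap.BilinForm.finrank_orthogonal
    (LieAlgebra.IsKilling.killingForm_nondegenerate E g) (bor E h)
  rw [h1, h2]
  have := Submodule.finrank_le (bor E h)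
  omega

/-- Normaliser of `nil h`. -/
theorem RR.mem_bor_of_lie_nil {h x : g} (hh : RR E h) (hx : ∀ y ∈ nil E h, ⁅x, y⁆ ∈ nil E h) :
    x ∈ bor E h := by
  rw [hh.mem_bor_iff]
  have h0 : h ∈ bor E h := gr_le_bor h le_rfl (self_mem_gr_zero h)
  have key : ∀ q : ℚ, 0 < q → gr E h q ≤ LinearMap.ker (killingForm E g x) := by
    intro q hq y hy
    rw [LinearMap.mem_ker]
    have h1 := killing_nil_bor (hx y (gr_le_nil h hq hy)) h0
    rw [LieModule.traceForm_apply_lie_apply, ← lie_skew, mem_gr.1 hy] at h1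
    have h2 : (q : E) ≠ 0 := by exact_mod_cast hq.ne'
    simpa [h2] using h1
  intro y hy
  have h2 : nil E h ≤ LinearMap.ker (killingForm E g x) := iSup₂_le key
  exact h2 hy

/-- The centraliser of a rational regular element is a Cartan subalgebra. -/
theorem RR.isCartan {h : g} (hh : RR E h) :
    ∃ H : LieSubalgebra E g, H.toSubmodule = gr E h 0 ∧ H.IsCartanSubalgebra := by
  let H : LieSubalgebra E g :=
    { gr E h 0 with
      lie_mem' := fun {x y} hx hy => by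
        have := lie_gr (E := E) (h := h) hx hy
        simpa using this }
  have hH : ∀ x, x ∈ H ↔ x ∈ gr E h 0 := fun x => Iff.rfl
  have hab : IsLieAbelian H := by
    refine ⟨fun x y => ?_⟩
    have h1 : ⁅h, (x : g)⁆ = 0 := by rw [mem_gr.1 ((hH x).1 x.2)]; simp
    have h2 : ⁅h, (y : g)⁆ = 0 := by rw [mem_gr.1 ((hH y).1 y.2)]; simp
    exact Subtype.ext (hh.comm _ _ h1 h2)
  refine ⟨H, rfl, ⟨inferInstance, ?_⟩⟩
  refine le_antisymm ?_ (LieSubalgebra.le_normalizer H)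
  intro x hx
  rw [LieSubalgebra.mem_normalizer_iff] at hx
  have h1 := hx h ((hH h).2 (self_mem_gr_zero h))
  rw [hH] at *
  have h2 : ⁅h, x⁆ ∈ ⨆ q ∈ ({0} : Set ℚ), gr E h q := by
    rw [← lie_skew]
    simpa only [Set.mem_singleton_iff, iSup_iSup_eq_left, neg_mem_iff] using h1
  have := hh.mem_biSup_of_lie (by simp) h2
  simpa using this

end killing

end F80
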