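import Mathlib
/-! Module CA1: a finite morphism between polynomial rings of the same dimension is given by a
weakly regular sequence. -/
open Module
namespace F80

namespace CA1

universe u

open RingTheory.Sequence IsLocalRing CategoryTheory Abelian Pointwise

section loc

variable {R : Type u} [CommRing R] [IsLocalRing R] [IsNoetherianRing R]

/-- `J` contains a weakly regular sequence on `M` of length `n`. -/
def Dep (M : Type u) [AddCommGroup M] [Module R M] (J : Ideal R) (n : ℕ) : Prop :=
  ∃ rs : List R, rs.length = n ∧ (∀ r ∈ rs, r ∈ J) ∧ IsWeaklyRegular M rs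

variable {M : Type u} [AddCommGroup M] [Module R M]

omit [IsLocalRing R] [IsNoetherianRing R] in
lemma Dep.congr {M' : Type u} [AddCommGroup M'] [Module R M'] (e : M ≃ₗ[R] M') {J : Ideal R}
    {n : ℕ} (h : Dep M J n) : Dep M' J n := by
  obtain ⟨rs, h1, h2, h3⟩ := h
  exact ⟨rs, h1, h2, (e.isWeaklyRegular_congr rs).1 h3⟩

omit [IsLocalRing R] [IsNoetherianRing R] in
lemma Dep.mono {J J' : Ideal R} (hJ : J ≤ J') {n : ℕ} (h : Dep M J n) : Dep M J' n := by
  obtain ⟨rs, h1, h2, h3⟩ := h
  exact ⟨rs, h1, fun r hr => hJ (h2 r hr), h3⟩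

omit [IsLocalRing R] [IsNoetherianRing R] in
lemma Dep.of_le {J : Ideal R} {n m : ℕ} (hnm : n ≤ m) (h : Dep M J m) : Dep M J n := by
  obtain ⟨rs, h1, h2, h3⟩ := h
  refine ⟨rs.take n, by rw [List.length_take]; omega, fun r hr => h2 r (List.mem_of_mem_take hr), ?_⟩
  rw [← List.take_append_drop n rs] at h3
  exact ((isWeaklyRegular_append_iff M _ _).1 h3).1

/-- The exchange lemma (Rees). -/
lemma exch [Module.Finite R M] [Nontrivial M] {J : Ideal R} (hJ : J ≤ maximalIdeal R) {n : ℕ}
    (h : Dep M J (n + 1)) {a : R} (haJ : a ∈ J) (ha : IsSMulRegular M a) :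
    Dep (QuotSMulTop a M) J n := by
  obtain ⟨rs, h1, h2, h3⟩ := h
  have hreg : IsRegular M rs :=
    IsRegular.of_isWeaklyRegular_of_mem_maximalIdeal M (fun r hr => hJ (h2 r hr)) h3
  have hlt : J • (⊤ : Submodule R M) < ⊤ :=
    lt_top_iff_ne_top.2 (Submodule.top_ne_ideal_smul_of_le_jacobson_annihilator
      (hJ.trans (maximalIdeal_le_jacobson _))).symm
  have hfin : Module.Finite R (ModuleCat.of R M) := inferInstanceAs (Module.Finite R M)
  have T := (ModuleCat.exists_isRegular_tfae J (n + 1) (ModuleCat.of R M) hlt).out 3 1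
  have hext := T.1 ⟨rs, h1, h2, hreg⟩
  have hfin' : Module.Finite R (ModuleCat.of R (QuotSMulTop a M)) :=
    inferInstanceAs (Module.Finite R (QuotSMulTop a M))
  have hnt : Nontrivial (QuotSMulTop a M) :=
    nontrivial_quotSMulTop_of_mem_maximalIdeal M (hJ haJ)
  have hlt' : J • (⊤ : Submodule R (QuotSMulTop a M)) < ⊤ :=
    lt_top_iff_ne_top.2 (Submodule.top_ne_ideal_smul_of_le_jacobson_annihilator
      (hJ.trans (maximalIdeal_le_jacobson _))).symm
  have T' := (ModuleCat.exists_isRegular_tfae J n (ModuleCat.of R (QuotSMulTop a M)) hlt').out 1 3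
  have hext' : ∀ i < n, Subsingleton (Ext (ModuleCat.of R (Shrink.{u} (R ⧸ J)))
      (ModuleCat.of R (QuotSMulTop a M)) i) := by
    intro i hi
    have zero1 := AddCommGrpCat.isZero_of_iff_subsingleton.mpr (hext i (by omega))
    have zero2 := AddCommGrpCat.isZero_of_iff_subsingleton.mpr (hext (i + 1) (by omega))
    exact AddCommGrpCat.subsingleton_of_isZero <| ShortComplex.Exact.isZero_of_both_zeros
      ((Ext.covariant_sequence_exact₃' (ModuleCat.of R (Shrink.{u} (R ⧸ J)))
        (IsSMulRegular.smulShortComplex_shortExact (M := ModuleCat.of R M) ha)) i (i + 1) rfl)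
      (zero1.eq_zero_of_src _) (zero2.eq_zero_of_tgt _)
  obtain ⟨rs', g1, g2, g3⟩ := T'.1 hext'
  exact ⟨rs', g1, g2, g3.toIsWeaklyRegular⟩

lemma exch_list {J : Ideal R} (hJ : J ≤ maximalIdeal R) {n : ℕ} (as : List R) :
    ∀ (M : Type u) [AddCommGroup M] [Module R M] [Module.Finite R M] [Nontrivial M],
      IsWeaklyRegular M as → (∀ a ∈ as, a ∈ J) → Dep M J (as.length + n) →
      Dep (M ⧸ (Ideal.ofList as • ⊤ : Submodule R M)) J n := by
  induction as with
  | nil =>
    intro M _ _ _ _ _ _ h
    have h' : Dep M J n := by simpa using h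
    refine Dep.congr (Submodule.quotEquivOfEqBot _ ?_).symm h'
    rw [Ideal.ofList_nil, Submodule.bot_smul]
  | cons a as ih =>
    intro M _ _ _ _ hreg hmem h
    rw [isWeaklyRegular_cons_iff] at hreg
    have haJ : a ∈ J := hmem a List.mem_cons_self
    have hnt : Nontrivial (QuotSMulTop a M) :=
      nontrivial_quotSMulTop_of_mem_maximalIdeal M (hJ haJ)
    have h1 : Dep M J (as.length + n + 1) := by
      have : (a :: as).length + n = as.length + n + 1 := by simp; omega
      rwa [this] at h
    have h2 := ih (QuotSMulTop a M) hreg.2 (fun b hb => hmem b (List.mem_cons_of_mem _ hb))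
      (exch hJ h1 haJ hreg.1)
    exact Dep.congr (Submodule.quotOfListConsSMulTopEquivQuotSMulTopInner M a as).symm h2

/-- Adding one element to an ideal of zero divisors increases the depth by at most one. -/
lemma one [Module.Finite R M] {I : Ideal R} {x : R} (hx : x ∈ maximalIdeal R)
    (u : M) (hu : u ≠ 0) (hIu : ∀ c ∈ I, c • u = 0) : ¬ Dep M (I ⊔ Ideal.span {x}) 2 := by
  rintro ⟨rs, h1, h2, h3⟩
  match rs, h1 with
  | [a, b], _ =>
    rw [isWeaklyRegular_cons_iff, isWeaklyRegular_singleton_iff] at h3
    obtain ⟨ha, hb⟩ := h3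
    have haJ := h2 a (by simp)
    have hbJ := h2 b (by simp)
    obtain ⟨a', ha', ax, hax, rfl⟩ := Submodule.mem_sup.1 haJ
    obtain ⟨b', hb', bx, hbx, rfl⟩ := Submodule.mem_sup.1 hbJ
    obtain ⟨r, rfl⟩ := Ideal.mem_span_singleton'.1 hax
    obtain ⟨s, rfl⟩ := Ideal.mem_span_singleton'.1 hbx
    -- the submodule killed by `I`
    let N : Submodule R M :=
      { carrier := {m | ∀ c ∈ I, c • m = 0}
        zero_mem' := fun c _ => smul_zero c
        add_mem' := fun {m m'} hm hm' c hc => by
          rw [smul_add, hm c hc, hm' c hc, add_zero]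
        smul_mem' := fun t m hm c hc => by
          rw [smul_comm, hm c hc, smul_zero] }
    have hNa : ∀ n ∈ N, (a' + r * x) • n = (r * x) • n := by
      intro n hn
      rw [add_smul, hn a' ha', zero_add]
    have hNb : ∀ n ∈ N, (b' + s * x) • n = (s * x) • n := by
      intro n hn
      rw [add_smul, hn b' hb', zero_add]
    have key : ∀ n ∈ N, ∃ n' ∈ N, r • n = (r * x) • n' := by
      intro n hn
      -- `b (r n)` is in `a M`
      have e1 : (b' + s * x) • (r • n) = (a' + r * x) • (s • n) := by
        rw [hNb _ (N.smul_mem r hn), hNa _ (N.smul_mem s hn), smul_smul, smul_smul]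
        congr 1
        ring
      have e2 : (Submodule.Quotient.mk (r • n) : QuotSMulTop (a' + r * x) M) = 0 := by
        apply hb
        show (b' + s * x) • (Submodule.Quotient.mk (r • n) : QuotSMulTop (a' + r * x) M) =
          (b' + s * x) • 0
        rw [smul_zero, ← Submodule.Quotient.mk_smul, e1, Submodule.Quotient.mk_eq_zero]
        exact Submodule.smul_mem_pointwise_smul _ _ _ trivial
      rw [Submodule.Quotient.mk_eq_zero] at e2
      obtain ⟨m, -, hm⟩ := e2
      have hm' : (a' + r * x) • m = r • n := hm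
      have hmN : m ∈ N := by
        intro c hc
        apply ha
        show (a' + r * x) • (c • m) = (a' + r * x) • 0
        rw [smul_zero, smul_comm, hm', smul_comm, hn c hc, smul_zero]
      exact ⟨m, hmN, by rw [← hm', hNa m hmN]⟩
    -- Nakayama
    let P : Submodule R M := N.map (LinearMap.lsmul R M r)
    have hPfg : P.FG := IsNoetherian.noetherian P
    have hP : P ≤ maximalIdeal R • P := by
      rintro _ ⟨n, hn, rfl⟩
      obtain ⟨n', hn', e⟩ := key n hn
      have e' : (LinearMap.lsmul R M r) n = x • (LinearMap.lsmul R M r n') := by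
        show r • n = x • (r • n')
        rw [e, smul_smul, mul_comm]
      rw [e']
      exact Submodule.smul_mem_smul hx ⟨n', hn', rfl⟩
    have hPbot : P = ⊥ :=
      Submodule.eq_bot_of_le_smul_of_le_jacobson_bot _ P hPfg hP (maximalIdeal_le_jacobson _)
    have hru : r • u = 0 := by
      have : (LinearMap.lsmul R M r) u ∈ P := ⟨u, hIu, rfl⟩
      rw [hPbot] at this
      exact this
    apply hu
    apply ha
    show (a' + r * x) • u = (a' + r * x) • 0
    rw [smul_zero, hNa u hIu, mul_comm, mul_smul, hru, smul_zero]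

omit [IsLocalRing R] in
lemma exists_annihilated [Module.Finite R M] (J : Ideal R)
    (h : ∀ x ∈ J, ¬ IsSMulRegular M x) : ∃ u : M, u ≠ 0 ∧ ∀ c ∈ J, c • u = 0 := by
  have h1 : ¬ Subsingleton ((R ⧸ J) →ₗ[R] M) := by
    rw [IsSMulRegular.subsingleton_linearMap_iff]
    rintro ⟨r, hr, hreg⟩
    rw [Ideal.annihilator_quotient] at hr
    exact h r hr hreg
  rw [not_subsingleton_iff_nontrivial] at h1
  obtain ⟨f, hf⟩ := exists_ne (0 : (R ⧸ J) →ₗ[R] M)
  refine ⟨f (Submodule.Quotient.mk 1), ?_, ?_⟩
  · intro h0
    apply hf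
    ext
    simpa using h0
  · intro c hc
    rw [← map_smul, ← Submodule.Quotient.mk_smul, smul_eq_mul, mul_one]
    have : (Submodule.Quotient.mk c : R ⧸ J) = 0 := (Submodule.Quotient.mk_eq_zero _).2 hc
    rw [this, map_zero]

/-- Adding `t` elements to an ideal of zero divisors increases the depth by at most `t`. -/
lemma depth_le {I : Ideal R} (hI : I ≤ maximalIdeal R) (xs : List R)
    (hxs : ∀ x ∈ xs, x ∈ maximalIdeal R) :
    ∀ (M : Type u) [AddCommGroup M] [Module R M] [Module.Finite R M] (u : M), u ≠ 0 →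
      (∀ c ∈ I, c • u = 0) → ¬ Dep M (I ⊔ Ideal.ofList xs) (xs.length + 1) := by
  classical
  induction xs with
  | nil =>
    rintro M _ _ _ u hu hIu ⟨rs, h1, h2, h3⟩
    match rs, h1 with
    | [a], _ =>
      rw [isWeaklyRegular_singleton_iff] at h3
      have ha := h2 a (by simp)
      rw [Ideal.ofList_nil, sup_bot_eq] at ha
      apply hu
      apply h3
      show a • u = a • 0
      rw [hIu a ha, smul_zero]
  | cons x xs ih =>
    intro M _ _ _ u hu hIu hD
    have hnt : Nontrivial M := ⟨u, 0, hu⟩
    have hx : x ∈ maximalIdeal R := hxs x List.mem_cons_self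
    have hxs' : ∀ y ∈ xs, y ∈ maximalIdeal R := fun y hy => hxs y (List.mem_cons_of_mem _ hy)
    set I' := I ⊔ Ideal.ofList xs with hI'
    have hI'm : I' ≤ maximalIdeal R := sup_le hI (Ideal.span_le.2 hxs')
    have hJ : I ⊔ Ideal.ofList (x :: xs) = I' ⊔ Ideal.span {x} := by
      rw [Ideal.ofList_cons, hI', sup_comm (Ideal.span {x}), sup_assoc]
    have hJm : I' ⊔ Ideal.span {x} ≤ maximalIdeal R :=
      sup_le hI'm ((Ideal.span_singleton_le_iff_mem _).2 hx)
    rw [hJ, List.length_cons] at hD
    have hno : ¬ Dep M I' (xs.length + 1) := ih hxs' M u hu hIu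
    -- maximal regular sequence in `I'`
    obtain ⟨g, hg, hg'⟩ : ∃ g, Dep M I' g ∧ ¬ Dep M I' (g + 1) := by
      by_contra hcon
      push Not at hcon
      have : ∀ g, Dep M I' g := by
        intro g
        induction g with
        | zero => exact ⟨[], rfl, by simp, IsWeaklyRegular.nil R M⟩
        | succ g ihg => exact hcon g ihg
      exact hno (this _)
    have hgle : g ≤ xs.length := by
      by_contra hlt
      exact hno (Dep.of_le (by omega) hg)
    obtain ⟨rs, h1, h2, h3⟩ := hg
    -- the quotient
    have hann := exists_annihilated (M := M ⧸ (Ideal.ofList rs • ⊤ : Submodule R M)) I' (by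
      intro y hy hreg
      apply hg'
      refine ⟨rs ++ [y], by simp [h1], ?_, ?_⟩
      · intro r hr
        rcases List.mem_append.1 hr with h | h
        · exact h2 r h
        · rw [List.mem_singleton] at h; rw [h]; exact hy
      · rw [isWeaklyRegular_append_iff, isWeaklyRegular_singleton_iff]
        exact ⟨h3, hreg⟩)
    obtain ⟨u', hu', hIu'⟩ := hann
    have hD' : Dep (M ⧸ (Ideal.ofList rs • ⊤ : Submodule R M)) (I' ⊔ Ideal.span {x})
        (xs.length + 1 + 1 - g) := by
      apply exch_list hJm rs M h3 (fun r hr => (le_sup_left : I' ≤ _) (h2 r hr))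
      rw [h1]
      have : g + (xs.length + 1 + 1 - g) = xs.length + 1 + 1 := by omega
      rw [this]
      exact hD
    exact one hx u' hu' hIu' (Dep.of_le (by omega) hD')

end loc

section mono

variable {k : Type u} [Field k]

/-- Monic polynomials in the different variables form a weakly regular sequence. -/
lemma exists_monic_regular (N : ℕ) :
    ∀ q : Fin N → Polynomial k, (∀ j, (q j).Monic) →
      ∃ rs : List (MvPolynomial (Fin N) k), rs.length = N ∧
        (∀ r ∈ rs, ∃ j, r = Polynomial.aeval (MvPolynomial.X j) (q j)) ∧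
        IsWeaklyRegular (MvPolynomial (Fin N) k) rs := by
  induction N with
  | zero => exact fun q _ => ⟨[], rfl, by simp, IsWeaklyRegular.nil _ _⟩
  | succ N ih =>
    intro q hq
    obtain ⟨rs, h1, h2, h3⟩ := ih (fun j => q j.succ) (fun j => hq j.succ)
    let A := MvPolynomial (Fin N) k
    have h4 : IsWeaklyRegular (Polynomial A) (rs.map (algebraMap A (Polynomial A))) :=
      h3.of_flat
    let p0 : Polynomial A := (q 0).map (algebraMap k A)
    have hp0 : p0.Monic := (hq 0).map _
    have h5 : IsWeaklyRegular (Polynomial A) (rs.map (algebraMap A (Polynomial A)) ++ [p0]) := by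
      rw [isWeaklyRegular_append_iff, isWeaklyRegular_singleton_iff]
      refine ⟨h4, ?_⟩
      rw [isSMulRegular_quotient_iff_mem_of_smul_mem]
      intro g hg
      rw [← Ideal.map_ofList, smul_eq_mul, Ideal.mul_top] at hg ⊢
      have e1 : ∀ f : Polynomial A, f ∈ (Ideal.ofList rs).map (algebraMap A (Polynomial A)) ↔
          f.map (Ideal.Quotient.mk (Ideal.ofList rs)) = 0 := by
        intro f
        rw [Polynomial.ext_iff]
        have : (Ideal.ofList rs).map (algebraMap A (Polynomial A)) =
          (Ideal.ofList rs).map Polynomial.C := rfl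
        rw [this, Ideal.mem_map_C_iff]
        apply forall_congr'
        intro n
        rw [Polynomial.coeff_map, Polynomial.coeff_zero, Ideal.Quotient.eq_zero_iff_mem]
      rw [e1] at hg ⊢
      rw [smul_eq_mul, Polynomial.map_mul] at hg
      exact (hp0.map (Ideal.Quotient.mk (Ideal.ofList rs))).mul_right_eq_zero_iff.1 hg
    let e := (MvPolynomial.finSuccEquiv k N).symm.toRingEquiv
    have i1 : RingHomInvPair (e : Polynomial A →+* MvPolynomial (Fin (N + 1)) k)
      (e.symm : MvPolynomial (Fin (N + 1)) k →+* Polynomial A) := RingHomInvPair.of_ringEquiv e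
    have i2 : RingHomInvPair (e.symm : MvPolynomial (Fin (N + 1)) k →+* Polynomial A)
      (e : Polynomial A →+* MvPolynomial (Fin (N + 1)) k) := RingHomInvPair.of_ringEquiv e.symm
    have h6 := (LinearEquiv.isWeaklyRegular_congr' e.toSemilinearEquiv
      (rs.map (algebraMap A (Polynomial A)) ++ [p0])).1 h5
    refine ⟨_, ?_, ?_, h6⟩
    · simp [h1]
    · intro r hr
      rw [List.mem_map] at hr
      obtain ⟨f, hf, rfl⟩ := hr
      rcases List.mem_append.1 hf with hf | hf
      · rw [List.mem_map] at hf
        obtain ⟨g, hg, rfl⟩ := hf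
        obtain ⟨j, rfl⟩ := h2 g hg
        refine ⟨j.succ, ?_⟩
        show (MvPolynomial.finSuccEquiv k N).symm (Polynomial.C
          (Polynomial.aeval (MvPolynomial.X j) (q j.succ))) = _
        rw [AlgEquiv.symm_apply_eq]
        have eL : (Polynomial.C (Polynomial.aeval (MvPolynomial.X j) (q j.succ)) :
            Polynomial (MvPolynomial (Fin N) k)) =
            Polynomial.aeval (Polynomial.C (MvPolynomial.X j)) (q j.succ) :=
          (Polynomial.aeval_algHom_apply (IsScalarTower.toAlgHom k (MvPolynomial (Fin N) k)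
              (Polynomial (MvPolynomial (Fin N) k))) (MvPolynomial.X j) (q j.succ)).symm
        have eR : MvPolynomial.finSuccEquiv k N
            (Polynomial.aeval (MvPolynomial.X j.succ) (q j.succ)) =
            Polynomial.aeval (Polynomial.C (MvPolynomial.X j)) (q j.succ) := by
          rw [← MvPolynomial.finSuccEquiv_X_succ]
          exact (Polynomial.aeval_algHom_apply (MvPolynomial.finSuccEquiv k N)
            (MvPolynomial.X j.succ) (q j.succ)).symm
        rw [eL, eR]
      · rw [List.mem_singleton] at hf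
        subst hf
        refine ⟨0, ?_⟩
        show (MvPolynomial.finSuccEquiv k N).symm p0 = _
        rw [AlgEquiv.symm_apply_eq, ← Polynomial.aeval_algHom_apply,
          MvPolynomial.finSuccEquiv_X_zero]
        show (q 0).map (algebraMap k A) = _
        rw [Polynomial.aeval_X_left_eq_map]

end mono

section integral

variable {k : Type u} [Field k]

/-- A quotient of `S`, in which the `θ j` are integral over `k`, is integral over `k`, if `S` is
finite over `k[θ]`. -/
lemma integral_quot {σ : Type*} {S : Type*} [CommRing S] [Algebra k S]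
    (θ : σ → S) (hfin : ((MvPolynomial.aeval θ : MvPolynomial σ k →ₐ[k] S) :
      MvPolynomial σ k →+* S).Finite) {T : Type*} [CommRing T] [Algebra k T] (π : S →ₐ[k] T)
    (hθ : ∀ j, IsIntegral k (π (θ j))) (x : S) : IsIntegral k (π x) := by
  let ψ : MvPolynomial σ k →ₐ[k] T := π.comp (MvPolynomial.aeval θ)
  have hB : ∀ p, ψ p ∈ integralClosure k T := by
    intro p
    induction p using MvPolynomial.induction_on with
    | C a =>
      have : ψ (MvPolynomial.C a) = algebraMap k T a := ψ.commutes a
      rw [this]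
      exact Subalgebra.algebraMap_mem _ _
    | add p q hp hq => rw [map_add]; exact add_mem hp hq
    | mul_X p j hp =>
      rw [map_mul]
      refine mul_mem hp ?_
      show π (MvPolynomial.aeval θ (MvPolynomial.X j)) ∈ _
      rw [MvPolynomial.aeval_X]
      exact hθ j
  obtain ⟨p, hp, hpx⟩ := hfin.to_isIntegral x
  let ψB : MvPolynomial σ k →+* integralClosure k T := (ψ.codRestrict _ hB).toRingHom
  have h1 : IsIntegral (integralClosure k T) (π x) := by
    refine ⟨p.map ψB, hp.map _, ?_⟩
    rw [Polynomial.eval₂_map]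
    have e : (algebraMap (integralClosure k T) T).comp ψB =
        (π : S →+* T).comp (MvPolynomial.aeval θ : MvPolynomial σ k →ₐ[k] S) := by
      ext <;> rfl
    rw [e]
    have h2 := congrArg (π : S →+* T) hpx
    rw [Polynomial.hom_eval₂, map_zero] at h2
    exact h2
  exact isIntegral_trans (π x) h1

lemma exists_monic_mem {S : Type*} [CommRing S] [Algebra k S] (J : Ideal S) (x : S)
    (h : IsIntegral k (Ideal.Quotient.mkₐ k J x)) :
    ∃ q : Polynomial k, q.Monic ∧ Polynomial.aeval x q ∈ J := by
  obtain ⟨q, hq, hqx⟩ := h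
  refine ⟨q, hq, ?_⟩
  rw [← Ideal.Quotient.eq_zero_iff_mem]
  have : Ideal.Quotient.mk J (Polynomial.aeval x q) =
      Polynomial.aeval (Ideal.Quotient.mkₐ k J x) q := by
    rw [Polynomial.aeval_algHom_apply]
    rfl
  rw [this]
  exact hqx

end integral

section main

variable {k : Type u} [Field k] {N : ℕ}

/-- The key step: the next element is regular. -/
lemma step' {S : Type u} [CommRing S] [IsNoetherianRing S] [Algebra k S] [Algebra.FiniteType k S]
    (θ : Fin N → S)
    (hfin : ((MvPolynomial.aeval θ : MvPolynomial (Fin N) k →ₐ[k] S) :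
      MvPolynomial (Fin N) k →+* S).Finite)
    (hex : ∀ J : Ideal S, (∀ x, IsIntegral k (Ideal.Quotient.mkₐ k J x)) →
      ∃ rs : List S, rs.length = N ∧ (∀ r ∈ rs, r ∈ J) ∧ IsWeaklyRegular S rs) (i : Fin N)
    (as : List S) (has : as = (List.ofFn θ).take i)
    (hreg : IsWeaklyRegular S as) :
    IsSMulRegular (S ⧸ (Ideal.ofList as • ⊤ : Submodule S S)) (θ i) := by
  classical
  by_contra hcon
  -- an associated prime
  have h1 : θ i ∈ ⋃ p ∈ associatedPrimes S (S ⧸ (Ideal.ofList as • ⊤ : Submodule S S)), (p : Set S) := by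
    rw [biUnion_associatedPrimes_eq_compl_regular]
    exact hcon
  rw [Set.mem_iUnion₂] at h1
  obtain ⟨Q, hQ, hiQ⟩ := h1
  obtain ⟨hQp, u, hu⟩ := isAssociatedPrime_iff.1 hQ
  obtain ⟨u0, rfl⟩ := Submodule.Quotient.mk_surjective _ u
  have hQmem : ∀ c : S, c ∈ Q ↔ c * u0 ∈ Ideal.ofList as := by
    intro c
    rw [hu, Submodule.mem_colon_singleton, Submodule.mem_bot, ← Submodule.Quotient.mk_smul,
      Submodule.Quotient.mk_eq_zero, smul_eq_mul, Ideal.mul_top, smul_eq_mul]
  -- a maximal ideal
  obtain ⟨m, hm, hQm⟩ := Ideal.exists_le_maximal Q hQp.ne_top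
  have hmem_lt : ∀ j : Fin N, (j : ℕ) < i → θ j ∈ Q := by
    intro j hj
    rw [hQmem]
    apply Ideal.mul_mem_right
    apply Ideal.subset_span
    show θ j ∈ as
    rw [has, List.mem_take_iff_getElem]
    exact ⟨j, by simp; omega, by simp⟩
  -- polynomials killing the remaining elements
  have hg : ∀ j : Fin N, ∃ g : Polynomial k, g.Monic ∧ Polynomial.aeval (θ j) g ∈ m := by
    intro j
    let _ : Field (S ⧸ m) := Ideal.Quotient.field m
    have : Module.Finite k (S ⧸ m) := finite_of_finite_type_of_isJacobsonRing k (S ⧸ m)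
    exact exists_monic_mem m (θ j) (Algebra.IsIntegral.isIntegral _)
  choose g hgm hg using hg
  -- the ideal `J`
  let f : Fin (N - (i + 1)) → Fin N := fun j => ⟨i + 1 + j, by omega⟩
  let ws : List S := List.ofFn (fun j => Polynomial.aeval (θ (f j)) (g (f j)))
  have hwm : ∀ w ∈ ws, w ∈ m := by
    intro w hw
    rw [List.mem_ofFn] at hw
    obtain ⟨j, rfl⟩ := hw
    exact hg _
  let J0 : Ideal S := Q ⊔ Ideal.ofList ws
  have hJ0m : J0 ≤ m := sup_le hQm (Ideal.span_le.2 hwm)
  have hθint : ∀ j, IsIntegral k (Ideal.Quotient.mkₐ k J0 (θ j)) := by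
    intro j
    by_cases hj : (j : ℕ) ≤ i
    · have : θ j ∈ Q := by
        rcases Nat.lt_or_eq_of_le hj with h | h
        · exact hmem_lt j h
        · have : j = i := Fin.ext h
          rw [this]; exact hiQ
      have h0 : Ideal.Quotient.mkₐ k J0 (θ j) = 0 :=
        Ideal.Quotient.eq_zero_iff_mem.2 ((le_sup_left : Q ≤ J0) this)
      rw [h0]
      exact isIntegral_zero
    · push Not at hj
      refine ⟨g j, hgm j, ?_⟩
      have h0 : Polynomial.aeval (θ j) (g j) ∈ J0 := by
        apply (le_sup_right : Ideal.ofList ws ≤ J0)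
        apply Ideal.subset_span
        show _ ∈ ws
        rw [List.mem_ofFn]
        have hj2 := j.2
        refine ⟨⟨j - (i + 1), by omega⟩, ?_⟩
        have : f ⟨j - (i + 1), by omega⟩ = j := by
          apply Fin.ext
          show (i : ℕ) + 1 + (j - (i + 1)) = j
          omega
        rw [this]
      have h2 : Ideal.Quotient.mkₐ k J0 (Polynomial.aeval (θ j) (g j)) = 0 :=
        Ideal.Quotient.eq_zero_iff_mem.2 h0
      rw [← Polynomial.aeval_algHom_apply] at h2
      exact h2
  obtain ⟨rs, hr1, hrJ, hr3⟩ := hex J0 (integral_quot θ hfin (Ideal.Quotient.mkₐ k J0) hθint)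
  -- localise at `m`
  let R := Localization.AtPrime m
  have hIR : Q.map (algebraMap S R) ≤ maximalIdeal R := by
    rw [Ideal.map_le_iff_le_comap]
    intro c hc
    rw [Ideal.mem_comap]
    exact (IsLocalization.AtPrime.to_map_mem_maximal_iff R m c).2 (hQm hc)
  have hxs : ∀ x ∈ ws.map (algebraMap S R), x ∈ maximalIdeal R := by
    intro x hx
    rw [List.mem_map] at hx
    obtain ⟨w, hw, rfl⟩ := hx
    exact (IsLocalization.AtPrime.to_map_mem_maximal_iff R m w).2 (hwm w hw)
  have hJR : Q.map (algebraMap S R) ⊔ Ideal.ofList (ws.map (algebraMap S R)) =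
      J0.map (algebraMap S R) := by
    rw [Ideal.map_sup, Ideal.map_ofList]
  have hJRm : J0.map (algebraMap S R) ≤ maximalIdeal R := by
    rw [← hJR]
    exact sup_le hIR (Ideal.span_le.2 hxs)
  have hDep : Dep R (J0.map (algebraMap S R)) N := by
    refine ⟨rs.map (algebraMap S R), by rw [List.length_map, hr1], ?_,
      hr3.of_isLocalization R m.primeCompl⟩
    intro r hr
    rw [List.mem_map] at hr
    obtain ⟨r', hr', rfl⟩ := hr
    exact Ideal.mem_map_of_mem _ (hrJ r' hr')
  have hregR : IsWeaklyRegular R (as.map (algebraMap S R)) :=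
    hreg.of_isLocalization R m.primeCompl
  have haslen : as.length = i := by
    rw [has, List.length_take, List.length_ofFn]
    omega
  have hDep' := exch_list hJRm (n := N - (i + 1) + 1) (as.map (algebraMap S R)) R hregR (by
      intro a ha
      rw [List.mem_map] at ha
      obtain ⟨a', ha', rfl⟩ := ha
      apply Ideal.mem_map_of_mem
      apply (le_sup_left : Q ≤ J0)
      rw [has, List.mem_take_iff_getElem] at ha'
      obtain ⟨j, hj, rfl⟩ := ha'
      have hj' : j < i := by
        simp only [List.length_ofFn] at hj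
        omega
      have hjN : j < N := lt_trans hj' i.2
      have : (List.ofFn θ)[j]'(by simpa using hjN) = θ ⟨j, hjN⟩ := by simp
      rw [this]
      exact hmem_lt ⟨j, hjN⟩ hj')
    (by
      have : (as.map (algebraMap S R)).length + (N - (i + 1) + 1) = N := by
        rw [List.length_map, haslen]
        have := i.2
        omega
      rw [this]
      exact hDep)
  -- the element killed by `Q`
  let u1 : R ⧸ (Ideal.ofList (as.map (algebraMap S R)) • ⊤ : Submodule R R) :=
    Submodule.Quotient.mk (algebraMap S R u0)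
  have hu1 : u1 ≠ 0 := by
    intro h0
    have h0' : (Submodule.Quotient.mk (algebraMap S R u0) :
      R ⧸ (Ideal.ofList (as.map (algebraMap S R)) • ⊤ : Submodule R R)) = 0 := h0
    rw [Submodule.Quotient.mk_eq_zero, smul_eq_mul, Ideal.mul_top, ← Ideal.map_ofList,
      IsLocalization.algebraMap_mem_map_algebraMap_iff m.primeCompl] at h0'
    obtain ⟨c, hc, hcu⟩ := h0'
    exact hc (hQm ((hQmem c).2 hcu))
  have hku1 : ∀ c ∈ Q.map (algebraMap S R), c • u1 = 0 := by
    intro c hc
    have hle : Q.map (algebraMap S R) ≤ LinearMap.ker (LinearMap.toSpanSingleton R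
        (R ⧸ (Ideal.ofList (as.map (algebraMap S R)) • ⊤ : Submodule R R)) u1) := by
      rw [Ideal.map_le_iff_le_comap]
      intro c hc
      rw [Ideal.mem_comap, LinearMap.mem_ker, LinearMap.toSpanSingleton_apply]
      show (algebraMap S R c) • (Submodule.Quotient.mk (algebraMap S R u0) :
        R ⧸ (Ideal.ofList (as.map (algebraMap S R)) • ⊤ : Submodule R R)) = 0
      rw [← Submodule.Quotient.mk_smul, Submodule.Quotient.mk_eq_zero, smul_eq_mul, Ideal.mul_top,
        smul_eq_mul, ← map_mul, ← Ideal.map_ofList]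
      exact Ideal.mem_map_of_mem _ ((hQmem c).1 hc)
    have := hle hc
    rwa [LinearMap.mem_ker, LinearMap.toSpanSingleton_apply] at this
  have hfinal := depth_le hIR (ws.map (algebraMap S R)) hxs _ u1 hu1 hku1
  rw [hJR] at hfinal
  apply hfinal
  have : (ws.map (algebraMap S R)).length = N - (i + 1) := by
    rw [List.length_map, List.length_ofFn]
  rw [this]
  exact hDep'

lemma step (θ : Fin N → MvPolynomial (Fin N) k)
    (hfin : ((MvPolynomial.aeval θ : MvPolynomial (Fin N) k →ₐ[k] MvPolynomial (Fin N) k) :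
      MvPolynomial (Fin N) k →+* MvPolynomial (Fin N) k).Finite) (i : Fin N)
    (hreg : IsWeaklyRegular (MvPolynomial (Fin N) k) ((List.ofFn θ).take i)) :
    IsSMulRegular (MvPolynomial (Fin N) k ⧸ (Ideal.ofList ((List.ofFn θ).take i) • ⊤ :
      Submodule (MvPolynomial (Fin N) k) (MvPolynomial (Fin N) k))) (θ i) := by
  refine step' θ hfin ?_ i _ rfl hreg
  intro J hJ
  have hq : ∀ j : Fin N, ∃ q : Polynomial k, q.Monic ∧
      Polynomial.aeval (MvPolynomial.X j : MvPolynomial (Fin N) k) q ∈ J := fun j =>
    exists_monic_mem J (MvPolynomial.X j) (hJ _)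
  choose q hqm hqJ using hq
  obtain ⟨rs, hr1, hr2, hr3⟩ := exists_monic_regular N q hqm
  refine ⟨rs, hr1, ?_, hr3⟩
  intro r hr
  obtain ⟨j, rfl⟩ := hr2 r hr
  exact hqJ j

end main

end CA1

theorem isWeaklyRegular_of_finite {k : Type*} [Field k] {N : ℕ}
    (θ : Fin N → MvPolynomial (Fin N) k)
    (hfin : ((MvPolynomial.aeval θ : MvPolynomial (Fin N) k →ₐ[k] MvPolynomial (Fin N) k) :
      MvPolynomial (Fin N) k →+* MvPolynomial (Fin N) k).Finite) :
    RingTheory.Sequence.IsWeaklyRegular (MvPolynomial (Fin N) k) (List.ofFn θ) := by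
  have key : ∀ i : ℕ, i ≤ N → RingTheory.Sequence.IsWeaklyRegular (MvPolynomial (Fin N) k)
      ((List.ofFn θ).take i) := by
    intro i
    induction i with
    | zero => intro _; rw [List.take_zero]; exact RingTheory.Sequence.IsWeaklyRegular.nil _ _
    | succ i ih =>
      intro hi
      have h1 := ih (by omega)
      have h2 : (List.ofFn θ).take (i + 1) = (List.ofFn θ).take i ++ [θ ⟨i, by omega⟩] := by
        rw [List.take_succ_eq_append_getElem (by simpa using (by omega : i < N))]
        simp
      rw [h2, RingTheory.Sequence.isWeaklyRegular_append_iff,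
        RingTheory.Sequence.isWeaklyRegular_singleton_iff]
      exact ⟨h1, CA1.step θ hfin ⟨i, by omega⟩ h1⟩
  have := key N le_rfl
  rwa [List.take_of_length_le (by simp)] at this

end F80
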