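import Mathlib
/-! Module CA2: completing to a homogeneous system of parameters, and graded Nakayama. -/
open Module
namespace F80
section aux
open MvPolynomial
attribute [local instance] MvPolynomial.gradedAlgebra

theorem h55_hc_mul {k : Type*} [Field k] {N : ℕ} {a q : MvPolynomial (Fin N) k} {d : ℕ}
    (ha : a.IsHomogeneous d) (n : ℕ) :
    homogeneousComponent n (a * q) = if d ≤ n then a * homogeneousComponent (n - d) q else 0 := by
  have ha' : a ∈ homogeneousSubmodule (Fin N) k d := ha
  have h1 : ∀ (φ : MvPolynomial (Fin N) k) (i : ℕ),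
      ((DirectSum.decompose (homogeneousSubmodule (Fin N) k) φ) i : MvPolynomial (Fin N) k) =
        homogeneousComponent i φ := fun φ i => decomposition.decompose'_apply φ i
  rw [← h1 (a * q) n, ← h1 q (n - d)]
  exact DirectSum.coe_decompose_mul_of_left_mem (homogeneousSubmodule (Fin N) k) n ha'

theorem h55_X_mem {k : Type*} [Field k] {N M : ℕ}
    (θ : Fin M → MvPolynomial (Fin N) k) (d : Fin M → ℕ)
    (hθ : ∀ i, (θ i).IsHomogeneous (d i))
    (hP : ∀ P : Ideal (MvPolynomial (Fin N) k), P.IsPrime → (∀ i, θ i ∈ P) →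
      ∀ x : MvPolynomial (Fin N) k ⧸ P, IsAlgebraic k x) (j : Fin N) :
    (X j : MvPolynomial (Fin N) k) ∈ (Ideal.span (Set.range θ)).radical := by
  have hhom : (Ideal.span (Set.range θ)).IsHomogeneous (homogeneousSubmodule (Fin N) k) := by
    apply Ideal.homogeneous_span
    rintro _ ⟨i, rfl⟩
    exact ⟨d i, hθ i⟩
  rw [hhom.radical_eq]
  rw [Submodule.mem_sInf]
  rintro P ⟨hPh, hle, hPp⟩
  have halg := hP P hPp (fun i => hle (Ideal.subset_span ⟨i, rfl⟩)) (Ideal.Quotient.mk P (X j))
  obtain ⟨q, hq0, hq⟩ := halg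
  -- q(x_j) in P
  have hqP : Polynomial.aeval (X j : MvPolynomial (Fin N) k) q ∈ P := by
    rw [← Ideal.Quotient.eq_zero_iff_mem]
    rw [← hq]
    rw [show (Ideal.Quotient.mk P (X j : MvPolynomial (Fin N) k)) = Ideal.Quotient.mkₐ k P (X j) from rfl,
      Polynomial.aeval_algHom_apply]
    rfl
  obtain ⟨n, hn⟩ : ∃ n, q.coeff n ≠ 0 := by
    by_contra hcon
    push Not at hcon
    exact hq0 (Polynomial.ext (by simpa using hcon))
  have hcomp : homogeneousComponent n (Polynomial.aeval (X j : MvPolynomial (Fin N) k) q) =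
      C (q.coeff n) * (X j) ^ n := by
    rw [Polynomial.aeval_eq_sum_range, map_sum]
    have : ∀ i ∈ Finset.range (q.natDegree + 1),
        homogeneousComponent n (q.coeff i • (X j : MvPolynomial (Fin N) k) ^ i) =
        if i = n then C (q.coeff n) * (X j) ^ n else 0 := by
      intro i _
      rw [map_smul, homogeneousComponent_of_mem (isHomogeneous_X_pow j i)]
      by_cases hi : n = i
      · subst hi
        simp [MvPolynomial.smul_eq_C_mul]
      · rw [if_neg hi, if_neg (Ne.symm hi), smul_zero]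
    rw [Finset.sum_congr rfl this, Finset.sum_ite_eq', if_pos]
    rw [Finset.mem_range]
    exact Nat.lt_succ_of_le (Polynomial.le_natDegree_of_ne_zero hn)
  have h1 := homogeneousComponent_mem_of_mem hPh hqP n
  rw [hcomp] at h1
  rcases hPp.mem_or_mem h1 with h2 | h2
  · exfalso
    apply hPp.ne_top
    rw [Ideal.eq_top_iff_one]
    have := Ideal.mul_mem_left P (C (q.coeff n)⁻¹) h2
    rwa [← C_mul, inv_mul_cancel₀ hn, C_1] at this
  · exact hPp.mem_of_pow_mem n h2


theorem h55_finite {k : Type*} [Field k] {N M : ℕ}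
    (θ : Fin M → MvPolynomial (Fin N) k) (d : Fin M → ℕ) (hd : ∀ i, 0 < d i)
    (hθ : ∀ i, (θ i).IsHomogeneous (d i))
    (hP : ∀ P : Ideal (MvPolynomial (Fin N) k), P.IsPrime → (∀ i, θ i ∈ P) →
      ∀ x : MvPolynomial (Fin N) k ⧸ P, IsAlgebraic k x) :
    ((MvPolynomial.aeval θ : MvPolynomial (Fin M) k →ₐ[k] MvPolynomial (Fin N) k) :
      MvPolynomial (Fin M) k →+* MvPolynomial (Fin N) k).Finite := by
  classical
  have hX := h55_X_mem θ d hθ hP
  choose m hm using fun j => hX j
  set D := (Finset.univ.sup m) with hD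
  have hXD : ∀ j, (X j : MvPolynomial (Fin N) k) ^ D ∈ Ideal.span (Set.range θ) := fun j =>
    Ideal.pow_mem_of_pow_mem _ (hm j) (Finset.le_sup (Finset.mem_univ j))
  let _ : Algebra (MvPolynomial (Fin M) k) (MvPolynomial (Fin N) k) :=
    ((MvPolynomial.aeval θ : MvPolynomial (Fin M) k →ₐ[k] MvPolynomial (Fin N) k) :
      MvPolynomial (Fin M) k →+* MvPolynomial (Fin N) k).toAlgebra
  have hsmul : ∀ (a : MvPolynomial (Fin M) k) (b : MvPolynomial (Fin N) k),
      a • b = (MvPolynomial.aeval θ a) * b := fun a b => rfl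
  let G : Finset (MvPolynomial (Fin N) k) :=
    (Finset.Iic (Finsupp.equivFunOnFinite.symm (fun _ : Fin N => D))).image
      (fun s => monomial s (1 : k))
  let W : Submodule (MvPolynomial (Fin M) k) (MvPolynomial (Fin N) k) :=
    Submodule.span _ (G : Set (MvPolynomial (Fin N) k))
  have hWk : ∀ (c : k) (p : MvPolynomial (Fin N) k), p ∈ W → C c * p ∈ W := by
    intro c p hp
    have := W.smul_mem (C c) hp
    rwa [hsmul, aeval_C] at this
  have hWθ : ∀ (i : Fin M) (p : MvPolynomial (Fin N) k), p ∈ W → θ i * p ∈ W := by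
    intro i p hp
    have := W.smul_mem (X i) hp
    rwa [hsmul, aeval_X] at this
  have key : ∀ (n : ℕ) (s : Fin N →₀ ℕ), s.degree = n → monomial s (1 : k) ∈ W := by
    intro n
    induction n using Nat.strong_induction_on with
    | _ n ih =>
      have ihp : ∀ l < n, ∀ p : MvPolynomial (Fin N) k, p.IsHomogeneous l → p ∈ W := by
        intro l hl p hp
        rw [p.as_sum]
        refine Submodule.sum_mem _ fun t ht => ?_
        have h1 : monomial t (coeff t p) = C (coeff t p) * monomial t (1 : k) := by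
          rw [C_mul_monomial, mul_one]
        rw [h1]
        apply hWk
        apply ih l hl t
        rw [MvPolynomial.mem_support_iff] at ht
        by_contra hne
        exact ht (hp.coeff_eq_zero hne)
      intro s hs
      by_cases hcase : s ≤ Finsupp.equivFunOnFinite.symm (fun _ : Fin N => D)
      · apply Submodule.subset_span
        simp only [G, Finset.coe_image, Set.mem_image, Finset.mem_coe, Finset.mem_Iic]
        exact ⟨s, hcase, rfl⟩
      · obtain ⟨j, hj⟩ : ∃ j, D < s j := by
          by_contra hcon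
          push Not at hcon
          exact hcase (fun j => by simpa using hcon j)
        have hmem : monomial s (1 : k) ∈ Ideal.span (Set.range θ) := by
          have h1 : monomial s (1 : k) = monomial (s - Finsupp.single j D) (1 : k) * X j ^ D := by
            rw [X_pow_eq_monomial, monomial_mul, mul_one, tsub_add_cancel_of_le]
            rw [Finsupp.single_le_iff]
            exact hj.le
          rw [h1]
          exact Ideal.mul_mem_left _ _ (hXD j)
        obtain ⟨q, hq⟩ := (Ideal.mem_span_range_iff_exists_fun).1 hmem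
        have h2 : monomial s (1 : k) = ∑ i, homogeneousComponent n (q i * θ i) := by
          rw [← map_sum, hq, homogeneousComponent_of_mem
            (isHomogeneous_monomial (1 : k) hs), if_pos rfl]
        rw [h2]
        refine Submodule.sum_mem _ fun i _ => ?_
        rw [mul_comm, h55_hc_mul (hθ i)]
        split_ifs with h3
        · apply hWθ
          exact ihp (n - d i) (by have := hd i; omega) _ (homogeneousComponent_isHomogeneous _ _)
        · exact Submodule.zero_mem _
  have htop : W = ⊤ := by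
    rw [eq_top_iff]
    intro p _
    rw [p.as_sum]
    refine Submodule.sum_mem _ fun t ht => ?_
    have h1 : monomial t (coeff t p) = C (coeff t p) * monomial t (1 : k) := by
      rw [C_mul_monomial, mul_one]
    rw [h1]
    exact hWk _ _ (key _ t rfl)
  exact ⟨⟨G, htop⟩⟩


/-- Linear form with given coefficients. -/
noncomputable def h55_lin {k : Type*} [Field k] {N : ℕ} :
    (Fin N → k) →ₗ[k] MvPolynomial (Fin N) k :=
  Fintype.linearCombination k (fun j => (X j : MvPolynomial (Fin N) k))

theorem h55_lin_apply {k : Type*} [Field k] {N : ℕ} (c : Fin N → k) :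
    h55_lin c = ∑ j, c j • (X j : MvPolynomial (Fin N) k) := by
  rw [h55_lin, Fintype.linearCombination_apply]

theorem h55_lin_hom {k : Type*} [Field k] {N : ℕ} (c : Fin N → k) :
    (h55_lin c).IsHomogeneous 1 := by
  rw [h55_lin_apply]
  apply IsHomogeneous.sum
  intro j _
  rw [MvPolynomial.smul_eq_C_mul]
  have := (isHomogeneous_C (Fin N) (c j)).mul (isHomogeneous_X k j)
  simpa using this

theorem h55_const {k : Type*} [Field k] {N : ℕ} (Q : Ideal (MvPolynomial (Fin N) k))
    (hX : ∀ j, (X j : MvPolynomial (Fin N) k) ∈ Q) (p : MvPolynomial (Fin N) k) :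
    ∃ c : k, Ideal.Quotient.mk Q p = algebraMap k _ c := by
  induction p using MvPolynomial.induction_on with
  | C a => exact ⟨a, rfl⟩
  | add p q hp hq =>
    obtain ⟨a, ha⟩ := hp
    obtain ⟨b, hb⟩ := hq
    exact ⟨a + b, by rw [map_add, ha, hb, map_add]⟩
  | mul_X p j hp =>
    refine ⟨0, ?_⟩
    rw [map_zero, Ideal.Quotient.eq_zero_iff_mem]
    exact Q.mul_mem_left _ (hX j)

/-- One step of the construction. -/
theorem h55_step {k : Type*} [Field k] [Infinite k] {N b : ℕ}
    (f : Fin b → MvPolynomial (Fin N) k) (hbN : b < N)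
    (hP : ∀ P : Ideal (MvPolynomial (Fin N) k), P.IsPrime → (∀ i, f i ∈ P) →
      ∀ (m : ℕ) (T : Fin m → MvPolynomial (Fin N) k ⧸ P),
        AlgebraicIndependent k T → m + b ≤ N) :
    ∃ c : Fin N → k, ∀ P : Ideal (MvPolynomial (Fin N) k), P.IsPrime → (∀ i, f i ∈ P) →
      h55_lin c ∈ P → ∀ (m : ℕ) (T : Fin m → MvPolynomial (Fin N) k ⧸ P),
        AlgebraicIndependent k T → m + (b + 1) ≤ N := by
  classical
  set I : Ideal (MvPolynomial (Fin N) k) := Ideal.span (Set.range f) with hI
  have hfin : I.minimalPrimes.Finite := Ideal.finite_minimalPrimes_of_isNoetherianRing _ I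
  let sub : Ideal (MvPolynomial (Fin N) k) → Subspace k (Fin N → k) := fun Q =>
    (Q.restrictScalars k).comap h55_lin
  let bad : Finset (Ideal (MvPolynomial (Fin N) k)) :=
    hfin.toFinset.filter (fun Q => ∃ (m : ℕ) (T : Fin m → MvPolynomial (Fin N) k ⧸ Q),
      AlgebraicIndependent k T ∧ m + b = N)
  have htop : (⊤ : Subspace k (Fin N → k)) ∉ bad.image sub := by
    intro hmem
    rw [Finset.mem_image] at hmem
    obtain ⟨Q, hQ, hQt⟩ := hmem
    simp only [bad, Finset.mem_filter, Set.Finite.mem_toFinset] at hQ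
    obtain ⟨hQm, m, T, hT, hm⟩ := hQ
    have hXQ : ∀ j, (X j : MvPolynomial (Fin N) k) ∈ Q := by
      intro j
      have h1 : (Pi.single j (1 : k) : Fin N → k) ∈ sub Q := by rw [hQt]; exact Submodule.mem_top
      have h2 : h55_lin (Pi.single j (1 : k) : Fin N → k) ∈ Q := h1
      rwa [h55_lin, Fintype.linearCombination_apply_single, one_smul] at h2
    have hm0 : 0 < m := by omega
    have hTr : Transcendental k (T ⟨0, hm0⟩) := hT.transcendental _
    obtain ⟨p, hp⟩ := Ideal.Quotient.mk_surjective (T ⟨0, hm0⟩)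
    obtain ⟨c, hc⟩ := h55_const Q hXQ p
    rw [← hp, hc] at hTr
    exact hTr (isAlgebraic_algebraMap c)
  have hne := Subspace.biUnion_ne_univ_of_top_notMem htop
  obtain ⟨c, hc⟩ : ∃ c : Fin N → k, c ∉ ⋃ p ∈ bad.image sub, (p : Set (Fin N → k)) := by
    by_contra hcon
    push Not at hcon
    exact hne (Set.eq_univ_of_forall hcon)
  refine ⟨c, ?_⟩
  intro P hPp hfP hlP m T hT
  by_contra hcon
  have hIP : I ≤ P := by
    rw [hI, Ideal.span_le]
    rintro _ ⟨i, rfl⟩
    exact hfP i
  obtain ⟨Q, hQ, hQP⟩ := Ideal.exists_minimalPrimes_le hIP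
  have hQp : Q.IsPrime := hQ.1.1
  have hfQ : ∀ i, f i ∈ Q := fun i => hQ.1.2 (Ideal.subset_span ⟨i, rfl⟩)
  let φ : (MvPolynomial (Fin N) k ⧸ Q) →ₐ[k] (MvPolynomial (Fin N) k ⧸ P) :=
    Ideal.Quotient.factorₐ k hQP
  have hφ : ∀ p, φ (Ideal.Quotient.mk Q p) = Ideal.Quotient.mk P p := fun p => rfl
  have hφs : Function.Surjective φ := by
    intro y
    obtain ⟨p, rfl⟩ := Ideal.Quotient.mk_surjective y
    exact ⟨Ideal.Quotient.mk Q p, hφ p⟩
  choose T' hT' using fun i => hφs (T i)
  have hcomp : φ ∘ T' = T := funext hT'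
  have hTi : AlgebraicIndependent k T' := by
    apply AlgebraicIndependent.of_comp φ
    rw [hcomp]
    exact hT
  have hmb := hP Q hQp hfQ m T' hTi
  have hmN : m + b = N := by omega
  have hQbad : Q ∈ bad := by
    simp only [bad, Finset.mem_filter, Set.Finite.mem_toFinset]
    exact ⟨hQ, m, T', hTi, hmN⟩
  have hlQ : h55_lin c ∉ Q := by
    intro hmem
    apply hc
    simp only [Set.mem_iUnion]
    exact ⟨sub Q, Finset.mem_image_of_mem _ hQbad, hmem⟩
  set l : MvPolynomial (Fin N) k ⧸ Q := Ideal.Quotient.mk Q (h55_lin c) with hl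
  have hl0 : l ≠ 0 := by
    intro h0
    exact hlQ (Ideal.Quotient.eq_zero_iff_mem.1 h0)
  have hφl : φ l = 0 := by
    rw [hl, hφ, Ideal.Quotient.eq_zero_iff_mem]
    exact hlP
  have halg : IsAlgebraic (Algebra.adjoin k (Set.range T')) l := by
    by_contra htr
    have h1 := (hTi.option_iff_transcendental l).2 htr
    have h2 := h1.comp (finSuccEquiv m) (finSuccEquiv m).injective
    have := hP Q hQp hfQ (m + 1) _ h2
    omega
  obtain ⟨r, hr0, hr⟩ := halg.exists_nonzero_dvd (mem_nonZeroDivisors_of_ne_zero hl0)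
  have hφr : φ (r : MvPolynomial (Fin N) k ⧸ Q) = 0 := by
    obtain ⟨z, hz⟩ := hr
    have : (r : MvPolynomial (Fin N) k ⧸ Q) = l * z := hz
    rw [this, map_mul, hφl, zero_mul]
  have hrmem : (r : MvPolynomial (Fin N) k ⧸ Q) ∈ (aeval T' : MvPolynomial (Fin m) k →ₐ[k] _).range := by
    rw [← Algebra.adjoin_range_eq_range_aeval]
    exact r.2
  obtain ⟨g, hg⟩ := hrmem
  have hg' : aeval T' g = (r : MvPolynomial (Fin N) k ⧸ Q) := hg
  have h3 : aeval T g = 0 := by
    rw [← hcomp]
    have : aeval (φ ∘ T') g = φ (aeval T' g) := (MvPolynomial.comp_aeval_apply T' φ g).symm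
    rw [this, hg', hφr]
  have h4 : g = 0 := by
    apply (algebraicIndependent_iff_injective_aeval.1 hT)
    rw [h3, map_zero]
  apply hr0
  apply Subtype.ext
  rw [← hg', h4, map_zero]
  rfl

theorem h55_params {k : Type*} [Field k] [Infinite k] {N : ℕ} (n : ℕ) :
    ∀ {b : ℕ} (_ : N = b + n) (f : Fin b → MvPolynomial (Fin N) k) (d : Fin b → ℕ)
    (_ : ∀ i, 0 < d i) (_ : ∀ i, (f i).IsHomogeneous (d i))
    (_ : ∀ P : Ideal (MvPolynomial (Fin N) k), P.IsPrime → (∀ i, f i ∈ P) →
      ∀ (m : ℕ) (T : Fin m → MvPolynomial (Fin N) k ⧸ P),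
        AlgebraicIndependent k T → m + b ≤ N),
    ∃ (hb : b ≤ N) (θ : Fin N → MvPolynomial (Fin N) k) (d' : Fin N → ℕ), (∀ i, 0 < d' i) ∧
      (∀ i, (θ i).IsHomogeneous (d' i)) ∧ (∀ i : Fin b, θ (Fin.castLE hb i) = f i) ∧
      ∀ P : Ideal (MvPolynomial (Fin N) k), P.IsPrime → (∀ i, θ i ∈ P) →
      ∀ x : MvPolynomial (Fin N) k ⧸ P, IsAlgebraic k x := by
  induction n with
  | zero =>
    intro b hN f d hd hf hP
    obtain rfl : N = b := by omega
    refine ⟨le_rfl, f, d, hd, hf, fun i => rfl, ?_⟩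
    intro P hPp hfP x
    by_contra htr
    have h1 : AlgebraicIndependent k ![x] := algebraicIndependent_iff_transcendental.2 htr
    have := hP P hPp hfP 1 ![x] h1
    omega
  | succ n ih =>
    intro b hN f d hd hf hP
    obtain ⟨c, hc⟩ := h55_step f (by omega) hP
    obtain ⟨hb, θ, d', hd', hθ, hθf, hθP⟩ := ih (b := b + 1) (by omega)
      (Fin.snoc (α := fun _ => MvPolynomial (Fin N) k) f (h55_lin c))
      (Fin.snoc (α := fun _ => ℕ) d 1)
      (by
        intro i
        refine Fin.lastCases ?_ (fun j => ?_) i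
        · simp
        · simpa using hd j)
      (by
        intro i
        refine Fin.lastCases ?_ (fun j => ?_) i
        · simpa using h55_lin_hom c
        · simpa using hf j)
      (by
        intro P hPp hfP
        apply hc P hPp
        · intro i
          simpa using hfP i.castSucc
        · simpa using hfP (Fin.last b))
    refine ⟨by omega, θ, d', hd', hθ, ?_, hθP⟩
    intro i
    have := hθf i.castSucc
    simpa using this

end aux

/-- Homogeneous polynomials of positive degree such that every prime containing them has residue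
domain algebraic over `k`: then the polynomial ring is finite over the subring they generate. -/
theorem finite_of_trdeg_zero {k : Type*} [Field k] {N M : ℕ}
    (θ : Fin M → MvPolynomial (Fin N) k) (d : Fin M → ℕ) (hd : ∀ i, 0 < d i)
    (hθ : ∀ i, (θ i).IsHomogeneous (d i))
    (hP : ∀ P : Ideal (MvPolynomial (Fin N) k), P.IsPrime → (∀ i, θ i ∈ P) →
      ∀ x : MvPolynomial (Fin N) k ⧸ P, IsAlgebraic k x) :
    ((MvPolynomial.aeval θ : MvPolynomial (Fin M) k →ₐ[k] MvPolynomial (Fin N) k) :
      MvPolynomial (Fin M) k →+* MvPolynomial (Fin N) k).Finite :=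
  h55_finite θ d hd hθ hP

/-- Completing by linear forms. -/
theorem exists_parameters {k : Type*} [Field k] [Infinite k] {N b : ℕ}
    (f : Fin b → MvPolynomial (Fin N) k) (d : Fin b → ℕ) (hd : ∀ i, 0 < d i)
    (hf : ∀ i, (f i).IsHomogeneous (d i))
    (hP : ∀ P : Ideal (MvPolynomial (Fin N) k), P.IsPrime → (∀ i, f i ∈ P) →
      ∀ (m : ℕ) (T : Fin m → MvPolynomial (Fin N) k ⧸ P),
        AlgebraicIndependent k T → m + b ≤ N) :
    ∃ (hb : b ≤ N) (θ : Fin N → MvPolynomial (Fin N) k) (d' : Fin N → ℕ), (∀ i, 0 < d' i) ∧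
      (∀ i, (θ i).IsHomogeneous (d' i)) ∧ (∀ i : Fin b, θ (Fin.castLE hb i) = f i) ∧
      ∀ P : Ideal (MvPolynomial (Fin N) k), P.IsPrime → (∀ i, θ i ∈ P) →
      ∀ x : MvPolynomial (Fin N) k ⧸ P, IsAlgebraic k x := by
  have hb : b ≤ N := by
    let P : Ideal (MvPolynomial (Fin N) k) :=
      RingHom.ker (MvPolynomial.constantCoeff : MvPolynomial (Fin N) k →+* k)
    have hPp : P.IsPrime := RingHom.ker_isPrime _
    have hfP : ∀ i, f i ∈ P := by
      intro i
      rw [RingHom.mem_ker, MvPolynomial.constantCoeff_eq]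
      apply (hf i).coeff_eq_zero
      have := hd i
      simp
      omega
    have : Nontrivial (MvPolynomial (Fin N) k ⧸ P) := Ideal.Quotient.nontrivial_iff.2 hPp.ne_top
    have := hP P hPp hfP 0 (fun i => i.elim0) (algebraicIndependent_empty_type)
    omega
  exact h55_params (N - b) (by omega) f d hd hf hP

end F80
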