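import Mathlib
/-! Module CA3: freeness over the subring generated by a finite regular sequence. -/
open Module
namespace F80

namespace CA3

open RingTheory.Sequence
open scoped Pointwise

universe u v w

section indep

variable {k : Type u} {S : Type v} [Field k] [CommRing S] [Algebra k S] {J : Type*}

theorem aeval_finSucc {N : ℕ} (θ : Fin (N + 1) → S) (a : MvPolynomial (Fin (N + 1)) k) :
    MvPolynomial.aeval θ a = Polynomial.eval₂
      (MvPolynomial.aeval (fun i : Fin N => θ i.succ) : MvPolynomial (Fin N) k →ₐ[k] S).toRingHom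
      (θ 0) (MvPolynomial.finSuccEquiv k N a) := by
  induction a using MvPolynomial.induction_on with
  | C c =>
    rw [MvPolynomial.finSuccEquiv_apply]
    simp
  | add p q hp hq => rw [map_add, map_add, hp, hq, Polynomial.eval₂_add]
  | mul_X p i hp =>
    rw [map_mul, map_mul, hp, Polynomial.eval₂_mul, MvPolynomial.aeval_X]
    congr 1
    rw [MvPolynomial.finSuccEquiv_apply, MvPolynomial.eval₂Hom_X']
    refine Fin.cases ?_ (fun j => ?_) i
    · simp
    · simp

theorem mkQ_smul_zero {M : Type w} [AddCommGroup M] [Module S M] (r : S) (x : M) :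
    (Submodule.mkQ (r • (⊤ : Submodule S M)) (r • x)) = 0 := by
  rw [Submodule.mkQ_apply, Submodule.Quotient.mk_eq_zero]
  exact Submodule.smul_mem_pointwise_smul x r ⊤ trivial

theorem indep_aux (t : Finset J) (N : ℕ) :
    ∀ {M : Type w} [AddCommGroup M] [Module S M] (θ : Fin N → S) (s : J → M),
    IsWeaklyRegular M (List.ofFn θ) →
    (∀ c : J → k, ∑ j ∈ t, algebraMap k S (c j) • s j ∈
      (Ideal.span (Set.range θ)) • (⊤ : Submodule S M) → ∀ j ∈ t, c j = 0) →
    ∀ a : J → MvPolynomial (Fin N) k, ∑ j ∈ t, MvPolynomial.aeval θ (a j) • s j = 0 →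
      ∀ j ∈ t, a j = 0 := by
  induction N with
  | zero =>
    intro M _ _ θ s _ hc a ha j hj
    have h1 : ∀ j, a j = MvPolynomial.C (MvPolynomial.coeff 0 (a j)) := fun j =>
      MvPolynomial.eq_C_of_isEmpty (a j)
    have h2 := hc (fun j => MvPolynomial.coeff 0 (a j)) (by
      have : ∑ j ∈ t, algebraMap k S (MvPolynomial.coeff 0 (a j)) • s j = 0 := by
        rw [← ha]
        refine Finset.sum_congr rfl (fun j _ => ?_)
        conv_rhs => rw [h1 j]
        rw [MvPolynomial.aeval_C]
      rw [this]
      exact Submodule.zero_mem _) j hj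
    rw [h1 j, h2, map_zero]
  | succ N ih =>
    intro M _ _ θ s hreg hc
    rw [List.ofFn_succ, isWeaklyRegular_cons_iff] at hreg
    obtain ⟨hreg0, hreg'⟩ := hreg
    set θ' : Fin N → S := fun i => θ i.succ with hθ'
    let q : M →ₗ[S] QuotSMulTop (θ 0) M := Submodule.mkQ _
    have hq0 : ∀ x : M, q (θ 0 • x) = 0 := mkQ_smul_zero (θ 0)
    have hc' : ∀ c : J → k, ∑ j ∈ t, algebraMap k S (c j) • q (s j) ∈
        (Ideal.span (Set.range θ')) • (⊤ : Submodule S (QuotSMulTop (θ 0) M)) →
        ∀ j ∈ t, c j = 0 := by
      intro c hmem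
      apply hc c
      have e1 : ∑ j ∈ t, algebraMap k S (c j) • q (s j)
          = q (∑ j ∈ t, algebraMap k S (c j) • s j) := by
        rw [map_sum]; simp only [map_smul]
      have e2 : (⊤ : Submodule S (QuotSMulTop (θ 0) M)) = Submodule.map q ⊤ := by
        rw [Submodule.map_top]
        exact (Submodule.range_mkQ _).symm
      rw [e1, e2, ← Submodule.map_smul''] at hmem
      obtain ⟨y, hy, hyx⟩ := hmem
      have h3 : (∑ j ∈ t, algebraMap k S (c j) • s j) - y ∈ (θ 0 • (⊤ : Submodule S M)) := by
        have : q ((∑ j ∈ t, algebraMap k S (c j) • s j) - y) = 0 := by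
          rw [map_sub, hyx, sub_self]
        rwa [Submodule.mkQ_apply, Submodule.Quotient.mk_eq_zero] at this
      have h4 : (θ 0 • (⊤ : Submodule S M)) ≤ Ideal.span (Set.range θ) • (⊤ : Submodule S M) := by
        intro z hz
        obtain ⟨z', -, rfl⟩ := hz
        exact Submodule.smul_mem_smul (Ideal.subset_span ⟨0, rfl⟩) trivial
      have h5 : Ideal.span (Set.range θ') • (⊤ : Submodule S M)
          ≤ Ideal.span (Set.range θ) • (⊤ : Submodule S M) := by
        apply Submodule.smul_mono_left
        apply Ideal.span_mono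
        rintro _ ⟨i, rfl⟩
        exact ⟨i.succ, rfl⟩
      have := Submodule.add_mem _ (h4 h3) (h5 hy)
      simpa using this
    have ih' := ih θ' (fun j => q (s j)) hreg' hc'
    let ev : Polynomial (MvPolynomial (Fin N) k) → S := fun p => Polynomial.eval₂
      (MvPolynomial.aeval θ' : MvPolynomial (Fin N) k →ₐ[k] S).toRingHom (θ 0) p
    have hev : ∀ p, ev p = ev p.divX * θ 0 + MvPolynomial.aeval θ' (p.coeff 0) := by
      intro p
      conv_lhs => rw [← Polynomial.divX_mul_X_add p]
      simp only [ev]
      rw [Polynomial.eval₂_add, Polynomial.eval₂_mul_X, Polynomial.eval₂_C]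
      rfl
    have key : ∀ d : ℕ, ∀ p : J → Polynomial (MvPolynomial (Fin N) k),
        (∀ j ∈ t, ∀ n, d ≤ n → (p j).coeff n = 0) → ∑ j ∈ t, ev (p j) • s j = 0 →
        ∀ j ∈ t, p j = 0 := by
      intro d
      induction d with
      | zero =>
        intro p hp _ j hj
        ext1 n
        rw [hp j hj n (Nat.zero_le _)]
        simp
      | succ d ihd =>
        intro p hp hs
        have hsum : ∑ j ∈ t, ev (p j) • s j = θ 0 • ∑ j ∈ t, ev (p j).divX • s j
            + ∑ j ∈ t, MvPolynomial.aeval θ' ((p j).coeff 0) • s j := by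
          rw [Finset.smul_sum, ← Finset.sum_add_distrib]
          refine Finset.sum_congr rfl (fun j _ => ?_)
          rw [hev (p j), add_smul, mul_comm, mul_smul]
        have hb : ∀ j ∈ t, (p j).coeff 0 = 0 := by
          apply ih' (fun j => (p j).coeff 0)
          have h6 := congrArg q hsum
          rw [hs, map_add, hq0, map_zero, zero_add, map_sum] at h6
          simp only [map_smul] at h6
          exact h6.symm
        have h7 : ∑ j ∈ t, MvPolynomial.aeval θ' ((p j).coeff 0) • s j = 0 := by
          apply Finset.sum_eq_zero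
          intro j hj
          rw [hb j hj, map_zero, zero_smul]
        rw [h7, add_zero] at hsum
        rw [hsum] at hs
        have h8 : ∑ j ∈ t, ev (p j).divX • s j = 0 := by
          apply hreg0
          simpa using hs
        have h9 := ihd (fun j => (p j).divX) (fun j hj n hn => by
          rw [Polynomial.coeff_divX]
          exact hp j hj (n + 1) (by omega)) h8
        intro j hj
        rw [← Polynomial.divX_mul_X_add (p j), h9 j hj, hb j hj]
        simp
    intro a ha j hj
    have h10 : ∃ d, ∀ j ∈ t, ∀ n, d ≤ n →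
        (MvPolynomial.finSuccEquiv k N (a j)).coeff n = 0 := by
      refine ⟨t.sup (fun j => (MvPolynomial.finSuccEquiv k N (a j)).natDegree) + 1, ?_⟩
      intro j hj n hn
      apply Polynomial.coeff_eq_zero_of_natDegree_lt
      have := Finset.le_sup (f := fun j => (MvPolynomial.finSuccEquiv k N (a j)).natDegree) hj
      omega
    obtain ⟨d, hd⟩ := h10
    have h11 := key d (fun j => MvPolynomial.finSuccEquiv k N (a j)) hd (by
      rw [← ha]
      refine Finset.sum_congr rfl (fun j _ => ?_)
      rw [aeval_finSucc θ (a j)]) j hj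
    exact (MvPolynomial.finSuccEquiv k N).injective (by rw [h11, map_zero])

end indep

theorem flat_aux {k : Type u} {S : Type v} [Field k] [CommRing S] [Algebra k S] {J : Type w}
    {N : ℕ} (θ : Fin N → S) (s : J → S) (hreg : IsWeaklyRegular S (List.ofFn θ))
    (hind : ∀ (t : Finset J) (c : J → k), ∑ j ∈ t, algebraMap k S (c j) * s j ∈
      Ideal.span (Set.range θ) → ∀ j ∈ t, c j = 0)
    (hgen : ∀ x : S, x ∈ AddSubmonoid.closure
      {y : S | ∃ (a : MvPolynomial (Fin N) k) (j : J), y = MvPolynomial.aeval θ a * s j}) :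
    ((MvPolynomial.aeval θ : MvPolynomial (Fin N) k →ₐ[k] S) :
      MvPolynomial (Fin N) k →+* S).Flat := by
  classical
  let _ : Algebra (MvPolynomial (Fin N) k) S :=
    ((MvPolynomial.aeval θ : MvPolynomial (Fin N) k →ₐ[k] S) :
      MvPolynomial (Fin N) k →+* S).toAlgebra
  have hsm : ∀ (a : MvPolynomial (Fin N) k) (x : S), a • x = MvPolynomial.aeval θ a * x :=
    fun a x => rfl
  have hli : LinearIndependent (MvPolynomial (Fin N) k) s := by
    rw [linearIndependent_iff']
    intro t g hg
    apply indep_aux t N θ s hreg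
    · intro c hc
      apply hind t c
      simpa using hc
    · exact hg
  have hsp : ⊤ ≤ Submodule.span (MvPolynomial (Fin N) k) (Set.range s) := by
    intro x _
    have := hgen x
    induction this using AddSubmonoid.closure_induction with
    | mem x hx =>
      obtain ⟨a, j, rfl⟩ := hx
      rw [← hsm]
      exact Submodule.smul_mem _ _ (Submodule.subset_span ⟨j, rfl⟩)
    | zero => exact Submodule.zero_mem _
    | add x y _ _ hx hy => exact Submodule.add_mem _ (hx trivial) (hy trivial)
  have b : Module.Basis J (MvPolynomial (Fin N) k) S := Module.Basis.mk hli hsp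
  have : Module.Free (MvPolynomial (Fin N) k) S := Module.Free.of_basis b
  exact (inferInstance : Module.Flat (MvPolynomial (Fin N) k) S)

attribute [local instance] MvPolynomial.gradedAlgebra in
theorem hc_mul {k : Type u} [Field k] {N : ℕ} {a b : MvPolynomial (Fin N) k} {i : ℕ}
    (ha : a.IsHomogeneous i) (n : ℕ) :
    MvPolynomial.homogeneousComponent n (a * b)
      = if i ≤ n then a * MvPolynomial.homogeneousComponent (n - i) b else 0 := by
  have e : ∀ (x : MvPolynomial (Fin N) k) (n : ℕ),
      ((DirectSum.decompose (MvPolynomial.homogeneousSubmodule (Fin N) k) x n :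
        MvPolynomial.homogeneousSubmodule (Fin N) k n) : MvPolynomial (Fin N) k)
        = MvPolynomial.homogeneousComponent n x := fun x n =>
    MvPolynomial.decomposition.decompose'_apply x n
  rw [← e, ← e]
  exact DirectSum.coe_decompose_mul_of_left_mem (MvPolynomial.homogeneousSubmodule (Fin N) k)
    n ((MvPolynomial.mem_homogeneousSubmodule i a).2 ha)

theorem flat_top {k : Type u} [Field k] {N : ℕ}
    (θ : Fin N → MvPolynomial (Fin N) k) (d : Fin N → ℕ) (hd : ∀ i, 0 < d i)
    (hθ : ∀ i, (θ i).IsHomogeneous (d i))
    (hreg : RingTheory.Sequence.IsWeaklyRegular (MvPolynomial (Fin N) k) (List.ofFn θ)) :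
    ((MvPolynomial.aeval θ : MvPolynomial (Fin N) k →ₐ[k] MvPolynomial (Fin N) k) :
      MvPolynomial (Fin N) k →+* MvPolynomial (Fin N) k).Flat := by
  classical
  set I : Ideal (MvPolynomial (Fin N) k) := Ideal.span (Set.range θ) with hI
  let vv : (Fin N →₀ ℕ) → MvPolynomial (Fin N) k ⧸ I := fun m =>
    Ideal.Quotient.mk I (MvPolynomial.monomial m (1 : k))
  obtain ⟨κ, a, ha, hspan, hli⟩ := exists_linearIndependent' k vv
  have hC : ∀ (c : k) (x : MvPolynomial (Fin N) k),
      Ideal.Quotient.mk I (algebraMap k (MvPolynomial (Fin N) k) c * x)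
        = c • Ideal.Quotient.mk I x := by
    intro c x
    rw [← Algebra.smul_def]
    rfl
  have htop : Submodule.span k (Set.range vv) = ⊤ := by
    rw [eq_top_iff]
    intro y _
    obtain ⟨x, rfl⟩ := Ideal.Quotient.mk_surjective y
    induction x using MvPolynomial.induction_on' with
    | monomial m c =>
      have : MvPolynomial.monomial m c
          = algebraMap k (MvPolynomial (Fin N) k) c * MvPolynomial.monomial m 1 := by
        rw [MvPolynomial.algebraMap_eq, MvPolynomial.C_mul_monomial, mul_one]
      rw [this, hC]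
      exact Submodule.smul_mem _ _ (Submodule.subset_span ⟨m, rfl⟩)
    | add p q hp hq =>
      rw [map_add]
      exact Submodule.add_mem _ (hp trivial) (hq trivial)
  rw [htop] at hspan
  refine flat_aux θ (fun j : κ => MvPolynomial.monomial (a j) (1 : k)) hreg ?_ ?_
  · intro t c hc
    rw [linearIndependent_iff'] at hli
    apply hli t c
    have h1 := Ideal.Quotient.eq_zero_iff_mem.2 hc
    rw [map_sum] at h1
    rw [← h1]
    refine Finset.sum_congr rfl (fun j _ => ?_)
    exact (hC _ _).symm
  · set W := AddSubmonoid.closure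
      {y : MvPolynomial (Fin N) k | ∃ (b : MvPolynomial (Fin N) k) (j : κ),
        y = MvPolynomial.aeval θ b * MvPolynomial.monomial (a j) (1 : k)} with hW
    have hWmul : ∀ (b x : MvPolynomial (Fin N) k), x ∈ W → MvPolynomial.aeval θ b * x ∈ W := by
      intro b x hx
      rw [hW] at hx
      induction hx using AddSubmonoid.closure_induction with
      | mem x hx =>
        obtain ⟨b', j, rfl⟩ := hx
        apply AddSubmonoid.subset_closure
        exact ⟨b * b', j, by rw [map_mul, mul_assoc]⟩
      | zero => rw [mul_zero]; exact W.zero_mem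
      | add x y _ _ hx hy => rw [mul_add]; exact W.add_mem hx hy
    have hWmon : ∀ (c : k) (j : κ), MvPolynomial.C c * MvPolynomial.monomial (a j) (1 : k) ∈ W := by
      intro c j
      apply AddSubmonoid.subset_closure
      exact ⟨MvPolynomial.C c, j, by rw [MvPolynomial.aeval_C]; rfl⟩
    have hom : ∀ n : ℕ, ∀ p : MvPolynomial (Fin N) k, p.IsHomogeneous n → p ∈ W := by
      intro n
      induction n using Nat.strong_induction_on with
      | _ n ih =>
        intro p hp
        have h1 : Ideal.Quotient.mk I p ∈ Submodule.span k (Set.range (vv ∘ a)) := by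
          rw [hspan]; trivial
        rw [Finsupp.mem_span_range_iff_exists_finsupp] at h1
        obtain ⟨c, hc⟩ := h1
        have h2 : p - c.sum (fun j r => MvPolynomial.C r * MvPolynomial.monomial (a j) (1 : k))
            ∈ I := by
          rw [← Ideal.Quotient.eq_zero_iff_mem, map_sub, ← hc, Finsupp.sum, Finsupp.sum, map_sum,
            sub_eq_zero]
          refine Finset.sum_congr rfl (fun j _ => ?_)
          exact (hC _ _).symm
        rw [hI, Ideal.mem_span_range_iff_exists_fun] at h2
        obtain ⟨q, hq⟩ := h2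
        have h3 : p = (∑ j ∈ c.support, MvPolynomial.C (c j) * MvPolynomial.monomial (a j) (1 : k))
            + ∑ i, θ i * q i := by
          have : ∑ i, θ i * q i = ∑ i, q i * θ i := by simp only [mul_comm]
          rw [this, hq, Finsupp.sum]; ring
        have h4 : p = (∑ j ∈ c.support, MvPolynomial.homogeneousComponent n
              (MvPolynomial.C (c j) * MvPolynomial.monomial (a j) (1 : k)))
            + ∑ i, MvPolynomial.homogeneousComponent n (θ i * q i) := by
          rw [← map_sum, ← map_sum, ← map_add, ← h3, MvPolynomial.homogeneousComponent_of_mem hp,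
            if_pos rfl]
        rw [h4]
        apply W.add_mem
        · apply AddSubmonoid.sum_mem
          intro j _
          have h5 : (MvPolynomial.C (c j) * MvPolynomial.monomial (a j) (1 : k)).IsHomogeneous
              ((a j).degree) := by
            rw [MvPolynomial.C_mul_monomial]
            exact MvPolynomial.isHomogeneous_monomial _ rfl
          rw [MvPolynomial.homogeneousComponent_of_mem h5]
          split_ifs
          · exact hWmon _ _
          · exact W.zero_mem
        · apply AddSubmonoid.sum_mem
          intro i _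
          by_cases hdn : d i ≤ n
          · have h6 : MvPolynomial.homogeneousComponent n (θ i * q i)
                = θ i * MvPolynomial.homogeneousComponent (n - d i) (q i) := by
              rw [hc_mul (hθ i), if_pos hdn]
            rw [h6]
            have h7 := hWmul (MvPolynomial.X i) _ (ih (n - d i) (by have := hd i; omega) _
              (MvPolynomial.homogeneousComponent_isHomogeneous (n - d i) (q i)))
            rwa [MvPolynomial.aeval_X] at h7
          · have h6 : MvPolynomial.homogeneousComponent n (θ i * q i) = 0 := by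
              rw [hc_mul (hθ i), if_neg hdn]
            rw [h6]; exact W.zero_mem
    intro x
    rw [← MvPolynomial.sum_homogeneousComponent x]
    apply AddSubmonoid.sum_mem
    intro n _
    exact hom n _ (MvPolynomial.homogeneousComponent_isHomogeneous n x)

/-- the inclusion of polynomial rings in fewer variables is flat -/
theorem flat_rename {k : Type u} [Field k] {N b : ℕ} (hb : b ≤ N) :
    ((MvPolynomial.rename (Fin.castLE hb) :
      MvPolynomial (Fin b) k →ₐ[k] MvPolynomial (Fin N) k) :
      MvPolynomial (Fin b) k →+* MvPolynomial (Fin N) k).Flat := by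
  obtain ⟨c, rfl⟩ := Nat.exists_eq_add_of_le hb
  let e1 : MvPolynomial (Fin c) (MvPolynomial (Fin b) k) ≃ₐ[k] MvPolynomial (Fin c ⊕ Fin b) k :=
    (MvPolynomial.sumAlgEquiv k (Fin c) (Fin b)).symm
  let e2 : MvPolynomial (Fin c ⊕ Fin b) k ≃ₐ[k] MvPolynomial (Fin (b + c)) k :=
    MvPolynomial.renameEquiv k ((Equiv.sumComm _ _).trans finSumFinEquiv)
  have hcomp : ((MvPolynomial.rename (Fin.castLE hb) :
      MvPolynomial (Fin b) k →ₐ[k] MvPolynomial (Fin (b + c)) k) :
      MvPolynomial (Fin b) k →+* MvPolynomial (Fin (b + c)) k)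
      = (e2.toRingEquiv.toRingHom).comp ((e1.toRingEquiv.toRingHom).comp
        (algebraMap (MvPolynomial (Fin b) k) (MvPolynomial (Fin c) (MvPolynomial (Fin b) k)))) := by
    apply MvPolynomial.ringHom_ext
    · intro r
      simp [e1, e2]
    · intro i
      simp [e1, e2]
      rfl
  rw [hcomp]
  refine RingHom.Flat.comp (RingHom.Flat.comp ?_ ?_) ?_
  · have : Module.Flat (MvPolynomial (Fin b) k) (MvPolynomial (Fin c) (MvPolynomial (Fin b) k)) :=
      inferInstance
    exact RingHom.flat_algebraMap_iff.2 this
  · exact RingHom.Flat.of_bijective e1.bijective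
  · exact RingHom.Flat.of_bijective e2.bijective

end CA3

/-- If the polynomial ring `S` is finite over `k[θ]` and `θ` is weakly regular, homogeneous of
positive degree, then `S` is free over `k[θ]`, hence flat over `k[f]` for a sub-family `f`. -/
theorem flat_of_regular {k : Type*} [Field k] {N b : ℕ} (hb : b ≤ N)
    (θ : Fin N → MvPolynomial (Fin N) k) (d : Fin N → ℕ) (hd : ∀ i, 0 < d i)
    (hθ : ∀ i, (θ i).IsHomogeneous (d i))
    (hfin : ((MvPolynomial.aeval θ : MvPolynomial (Fin N) k →ₐ[k] MvPolynomial (Fin N) k) :
      MvPolynomial (Fin N) k →+* MvPolynomial (Fin N) k).Finite)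
    (hreg : RingTheory.Sequence.IsWeaklyRegular (MvPolynomial (Fin N) k) (List.ofFn θ)) :
    ((MvPolynomial.aeval (fun i : Fin b => θ (Fin.castLE hb i)) :
      MvPolynomial (Fin b) k →ₐ[k] MvPolynomial (Fin N) k) :
      MvPolynomial (Fin b) k →+* MvPolynomial (Fin N) k).Flat := by
  have h1 := CA3.flat_top θ d hd hθ hreg
  have h2 := CA3.flat_rename (k := k) hb
  have h3 := RingHom.Flat.comp h2 h1
  have h4 : ((MvPolynomial.aeval (fun i : Fin b => θ (Fin.castLE hb i)) :
      MvPolynomial (Fin b) k →ₐ[k] MvPolynomial (Fin N) k) :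
      MvPolynomial (Fin b) k →+* MvPolynomial (Fin N) k)
      = ((MvPolynomial.aeval θ : MvPolynomial (Fin N) k →ₐ[k] MvPolynomial (Fin N) k) :
      MvPolynomial (Fin N) k →+* MvPolynomial (Fin N) k).comp
        ((MvPolynomial.rename (Fin.castLE hb) :
      MvPolynomial (Fin b) k →ₐ[k] MvPolynomial (Fin N) k) :
      MvPolynomial (Fin b) k →+* MvPolynomial (Fin N) k) := by
    apply MvPolynomial.ringHom_ext
    · intro r; simp
    · intro i; simp
  rw [h4]
  exact h3

end F80
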