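import Pool.Agent.H45.F80.CA1
import Pool.Agent.H45.F80.CA2
import Pool.Agent.H45.F80.CA3
/-! Module CA4: the commutative algebra criterion. -/
open Module
namespace F80

namespace CA4

open RingTheory.Sequence

theorem weak_prefix {R : Type*} [CommRing R] {N b : ℕ} (hb : b ≤ N) (θ : Fin N → R)
    (h : IsWeaklyRegular R (List.ofFn θ)) :
    IsWeaklyRegular R (List.ofFn (fun i : Fin b => θ (Fin.castLE hb i))) := by
  obtain ⟨c, rfl⟩ := Nat.exists_eq_add_of_le hb
  rw [List.ofFn_add, isWeaklyRegular_append_iff] at h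
  exact h.1

theorem proper {k : Type*} [Field k] {ι : Type*} {b : ℕ}
    (f : Fin b → MvPolynomial ι k) (d : Fin b → ℕ) (hd : ∀ i, 0 < d i)
    (hf : ∀ i, (f i).IsHomogeneous (d i)) :
    (⊤ : Submodule (MvPolynomial ι k) (MvPolynomial ι k)) ≠
      Ideal.ofList (List.ofFn f) • (⊤ : Submodule (MvPolynomial ι k) (MvPolynomial ι k)) := by
  intro h
  have h1 : (1 : MvPolynomial ι k) ∈
      Ideal.ofList (List.ofFn f) • (⊤ : Submodule (MvPolynomial ι k) (MvPolynomial ι k)) := by
    rw [← h]; trivial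
  rw [Ideal.smul_eq_mul, Ideal.mul_top] at h1
  have h2 : Ideal.ofList (List.ofFn f) ≤
      RingHom.ker (MvPolynomial.constantCoeff : MvPolynomial ι k →+* k) := by
    rw [Ideal.ofList, Ideal.span_le]
    intro x hx
    simp only [Set.mem_ofPred_eq, List.mem_ofFn] at hx
    obtain ⟨i, rfl⟩ := hx
    rw [SetLike.mem_coe, RingHom.mem_ker, MvPolynomial.constantCoeff_eq]
    by_contra hne
    have := hf i hne
    simp at this
    have := hd i
    omega
  have h3 := h2 h1
  rw [RingHom.mem_ker, map_one] at h3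
  exact one_ne_zero h3

theorem exists_indep {k : Type*} [Field k] {A B : Type*} [CommRing A] [CommRing B] [Algebra k A]
    [Algebra k B] (φ : A ≃ₐ[k] B) (P : Ideal B) (m : ℕ) (T : Fin m → B ⧸ P)
    (hT : AlgebraicIndependent k T) :
    ∃ T' : Fin m → A ⧸ (P.comap (φ : A →+* B)), AlgebraicIndependent k T' := by
  have hmap : P = (P.comap (φ : A →+* B)).map (φ : A →+* B) :=
    (Ideal.map_comap_of_surjective _ φ.surjective P).symm
  obtain ⟨ψ⟩ : Nonempty ((B ⧸ P) ≃ₐ[k] A ⧸ (P.comap (φ : A →+* B))) :=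
    ⟨(Ideal.quotientEquivAlg (P.comap (φ : A →+* B)) P φ hmap).symm⟩
  exact ⟨_, hT.map' (f := ψ.toAlgHom) ψ.injective⟩

end CA4

theorem regular_and_flat {k : Type*} [Field k] [Infinite k] {ι : Type*} [Fintype ι] {b : ℕ}
    (f : Fin b → MvPolynomial ι k) (d : Fin b → ℕ) (hd : ∀ i, 0 < d i)
    (hf : ∀ i, (f i).IsHomogeneous (d i))
    (hP : ∀ P : Ideal (MvPolynomial ι k), P.IsPrime → (∀ i, f i ∈ P) →
      ∀ (m : ℕ) (T : Fin m → MvPolynomial ι k ⧸ P),
        AlgebraicIndependent k T → m + b ≤ Fintype.card ι) :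
    RingTheory.Sequence.IsRegular (MvPolynomial ι k) (List.ofFn f) ∧
      ((MvPolynomial.aeval f : MvPolynomial (Fin b) k →ₐ[k] MvPolynomial ι k) :
        MvPolynomial (Fin b) k →+* MvPolynomial ι k).Flat := by
  classical
  set N := Fintype.card ι with hN
  let e : ι ≃ Fin N := Fintype.equivFin ι
  let φ : MvPolynomial ι k ≃ₐ[k] MvPolynomial (Fin N) k := MvPolynomial.renameEquiv k e
  let f' : Fin b → MvPolynomial (Fin N) k := fun i => φ (f i)
  have hf' : ∀ i, (f' i).IsHomogeneous (d i) := by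
    intro i
    exact (hf i).rename_isHomogeneous
  have hP' : ∀ P : Ideal (MvPolynomial (Fin N) k), P.IsPrime → (∀ i, f' i ∈ P) →
      ∀ (m : ℕ) (T : Fin m → MvPolynomial (Fin N) k ⧸ P),
        AlgebraicIndependent k T → m + b ≤ N := by
    intro P hPp hfP m T hT
    let Q : Ideal (MvPolynomial ι k) := P.comap (φ : MvPolynomial ι k →+* MvPolynomial (Fin N) k)
    have hQ : Q.IsPrime := Ideal.comap_isPrime _ _
    obtain ⟨T', hT'⟩ := CA4.exists_indep φ P m T hT
    exact hP Q hQ (fun i => hfP i) m T' hT'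
  obtain ⟨hb, θ, d', hd', hθ, hθf, hPθ⟩ := exists_parameters f' d hd hf' hP'
  have hfin := finite_of_trdeg_zero θ d' hd' hθ hPθ
  have hreg := isWeaklyRegular_of_finite θ hfin
  have hflat := flat_of_regular hb θ d' hd' hθ hfin hreg
  have hreg' := CA4.weak_prefix hb θ hreg
  have hff : (fun i : Fin b => θ (Fin.castLE hb i)) = f' := funext hθf
  rw [hff] at hflat hreg'
  refine ⟨⟨?_, CA4.proper f d hd hf⟩, ?_⟩
  · refine ((φ : MvPolynomial ι k ≃+ MvPolynomial (Fin N) k).isWeaklyRegular_congr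
      (as := List.ofFn f) (bs := List.ofFn f') ?_).2 hreg'
    have : List.ofFn f' = (List.ofFn f).map φ := by
      rw [List.map_ofFn]; rfl
    rw [this, List.forall₂_map_right_iff, List.forall₂_same]
    intro r _ x
    exact map_mul φ r x
  · have h4 : ((MvPolynomial.aeval f : MvPolynomial (Fin b) k →ₐ[k] MvPolynomial ι k) :
        MvPolynomial (Fin b) k →+* MvPolynomial ι k)
        = (φ.symm : MvPolynomial (Fin N) k →+* MvPolynomial ι k).comp
          ((MvPolynomial.aeval f' : MvPolynomial (Fin b) k →ₐ[k] MvPolynomial (Fin N) k) :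
            MvPolynomial (Fin b) k →+* MvPolynomial (Fin N) k) := by
      apply MvPolynomial.ringHom_ext
      · intro r
        have := φ.symm.commutes r
        simp only [MvPolynomial.algebraMap_eq] at this
        simp [this]
      · intro i; simp [f']
    rw [h4]
    exact RingHom.Flat.comp hflat (RingHom.Flat.of_bijective φ.symm.bijective)

end F80
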