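import Mathlib
/-! Auxiliary linear algebra for module DB: ranks, minors, pencils. -/
open Module Matrix
namespace F80
namespace DBA

variable {K : Type*} [Field K]

/-- A nonzero minor of size the rank. -/
lemma exists_minor {m n : Type*} [Fintype m] [Fintype n] [DecidableEq m] [DecidableEq n]
    (M : Matrix m n K) :
    ∃ (f : Fin M.rank → m) (g : Fin M.rank → n), (M.submatrix f g).det ≠ 0 := by
  classical
  obtain ⟨κ, a, ha, hsp, hli⟩ := exists_linearIndependent' K (M.col)
  have : Finite κ := Finite.of_injective a ha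
  have := Fintype.ofFinite κ
  have hcard : Fintype.card κ = M.rank := by
    rw [M.rank_eq_finrank_span_cols, ← hsp]
    exact (finrank_span_eq_card hli).symm
  let e : Fin M.rank ≃ κ := (Fintype.equivFinOfCardEq hcard).symm
  let g : Fin M.rank → n := a ∘ e
  have hg : LinearIndependent K (M.submatrix id g).col := by
    have := hli.comp e e.injective
    exact this
  have hr : (M.submatrix id g)ᵀ.rank = M.rank := by
    rw [LinearIndependent.rank_matrix (M := (M.submatrix id g)ᵀ) hg, Fintype.card_fin]
  obtain ⟨κ', a', ha', hsp', hli'⟩ := exists_linearIndependent' K ((M.submatrix id g).row)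
  have : Finite κ' := Finite.of_injective a' ha'
  have := Fintype.ofFinite κ'
  have hcard' : Fintype.card κ' = M.rank := by
    rw [← hr, rank_transpose, rank_eq_finrank_span_row, ← hsp']
    exact (finrank_span_eq_card hli').symm
  let e' : Fin M.rank ≃ κ' := (Fintype.equivFinOfCardEq hcard').symm
  let f : Fin M.rank → m := a' ∘ e'
  refine ⟨f, g, ?_⟩
  have hf : LinearIndependent K (M.submatrix f g).row := by
    have := hli'.comp e' e'.injective
    exact this
  have := (Matrix.linearIndependent_rows_iff_isUnit).1 hf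
  exact ((Matrix.isUnit_iff_isUnit_det _).1 this).ne_zero

/-- A product `X * A * Y` of size bigger than the rank of `A` has determinant zero. -/
lemma det_eq_zero_of_rank_lt {m n p : Type*} [Fintype m] [Fintype n] [Fintype p] [DecidableEq p]
    (X : Matrix p m K) (A : Matrix m n K) (Y : Matrix n p K) (h : A.rank < Fintype.card p) :
    (X * A * Y).det = 0 := by
  by_contra hd
  have h1 := rank_of_det_ne_zero hd
  have h2 : (X * A * Y).rank ≤ (X * A).rank := rank_mul_le_left _ _
  have h3 : (X * A).rank ≤ A.rank := rank_mul_le_right _ _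
  omega

/-- The isotropy of the kernel at a point of maximal rank of a pencil. -/
lemma isotropy {m n : Type*} [Fintype m] [Fintype n] (A B : Matrix m n K) (v : m → K) (w : n → K)
    (hv : v ᵥ* A = 0) (hw : A *ᵥ w = 0) (C : Set K) (hC : C.Infinite)
    (h : ∀ c ∈ C, (A + c • B).rank ≤ A.rank) : v ⬝ᵥ (B *ᵥ w) = 0 := by
  classical
  obtain ⟨f, g, hfg⟩ := exists_minor A
  -- the polynomial matrix
  let N : Matrix (Fin A.rank ⊕ Unit) (Fin A.rank ⊕ Unit) (Polynomial K) :=
    fromBlocks
      (of fun i j => Polynomial.C (A (f i) (g j)) + Polynomial.X * Polynomial.C (B (f i) (g j)))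
      (of fun i _ => Polynomial.X * Polynomial.C ((B *ᵥ w) (f i)))
      (of fun _ j => Polynomial.C ((v ᵥ* B) (g j)))
      (of fun _ _ => Polynomial.C (v ⬝ᵥ (B *ᵥ w)))
  have hev : ∀ c : K, N.det.eval c = (fromBlocks (A.submatrix f g + c • B.submatrix f g)
      (of fun i (_ : Unit) => c * (B *ᵥ w) (f i)) (of fun (_ : Unit) j => (v ᵥ* B) (g j))
      (of fun (_ : Unit) (_ : Unit) => v ⬝ᵥ (B *ᵥ w))).det := by
    intro c
    have h1 := RingHom.map_det (Polynomial.evalRingHom c) N
    simp only [Polynomial.coe_evalRingHom] at h1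
    rw [h1]
    congr 1
    ext i j
    rcases i with i | i <;> rcases j with j | j <;>
      simp [N, fromBlocks, RingHom.mapMatrix_apply, mul_comm c]
  have hz : ∀ c ∈ C \ {0}, N.det.eval c = 0 := by
    rintro c ⟨hc, hc0⟩
    have hc0 : c ≠ 0 := hc0
    rw [hev]
    let xr : Fin A.rank ⊕ Unit → m → K :=
      Sum.elim (fun i => Pi.single (f i) 1) (fun _ => c⁻¹ • v)
    let yr : Fin A.rank ⊕ Unit → n → K :=
      Sum.elim (fun i => Pi.single (g i) 1) (fun _ => w)
    have hXY := det_eq_zero_of_rank_lt (of xr) (A + c • B) (of (fun a b => yr b a)) (by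
      have := h c hc
      simp only [Fintype.card_sum, Fintype.card_fin, Fintype.card_unit]
      omega)
    rw [← hXY]
    congr 1
    have hent : ∀ i j, (of xr * (A + c • B) * of (fun a b => yr b a)) i j =
        xr i ⬝ᵥ (A *ᵥ (yr j)) + c * (xr i ⬝ᵥ (B *ᵥ (yr j))) := by
      intro i j
      rw [Matrix.mul_assoc, ← smul_eq_mul c, ← dotProduct_smul, ← dotProduct_add,
        ← smul_mulVec, ← add_mulVec]
      rfl
    have hvA : ∀ x : n → K, v ⬝ᵥ (A *ᵥ x) = 0 := by
      intro x
      rw [dotProduct_mulVec, hv, zero_dotProduct]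
    ext i j
    rw [hent]
    rcases i with i | i <;> rcases j with j | j
    · simp only [fromBlocks_apply₁₁, xr, yr, Sum.elim_inl]
      simp
    · simp only [fromBlocks_apply₁₂, xr, yr, Sum.elim_inl, Sum.elim_inr, hw]
      simp
    · simp only [fromBlocks_apply₂₁, of_apply, xr, yr, Sum.elim_inr, Sum.elim_inl,
        smul_dotProduct, hvA, mul_zero, zero_add, smul_eq_mul]
      rw [← mul_assoc, mul_inv_cancel₀ hc0, one_mul, dotProduct_mulVec]
      simp
    · simp only [fromBlocks_apply₂₂, of_apply, xr, yr, Sum.elim_inr,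
        smul_dotProduct, hvA, mul_zero, zero_add, smul_eq_mul]
      rw [← mul_assoc, mul_inv_cancel₀ hc0, one_mul]
  have hN : N.det = 0 :=
    Polynomial.eq_zero_of_infinite_isRoot _
      ((hC.sdiff (Set.finite_singleton 0)).mono (fun c hc => hz c hc))
  have h0 := hev 0
  rw [hN, Polynomial.eval_zero] at h0
  have h1 : (fromBlocks (A.submatrix f g + (0 : K) • B.submatrix f g)
      (of fun i (_ : Unit) => 0 * (B *ᵥ w) (f i)) (of fun (_ : Unit) j => (v ᵥ* B) (g j))
      (of fun (_ : Unit) (_ : Unit) => v ⬝ᵥ (B *ᵥ w))).det =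
      (A.submatrix f g).det * (v ⬝ᵥ (B *ᵥ w)) := by
    have : (of fun i (_ : Unit) => 0 * (B *ᵥ w) (f i) : Matrix (Fin A.rank) Unit K) = 0 := by
      ext; simp
    rw [this, zero_smul, add_zero, det_fromBlocks_zero₁₂]
    simp
  rw [h1] at h0
  rcases mul_eq_zero.1 h0.symm with h2 | h2
  · exact absurd h2 hfg
  · exact h2

/-- Sylvester's rank inequality. -/
lemma rank_le_rank_mul {l m n : Type*} [Fintype l] [Fintype m] [Fintype n] [DecidableEq m]
    (A : Matrix l m K) (B : Matrix m n K) :
    A.rank + B.rank ≤ (A * B).rank + Fintype.card m := by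
  have h1 : (A * B).rank = finrank K (Submodule.map A.mulVecLin (LinearMap.range B.mulVecLin)) := by
    rw [Matrix.rank, mulVecLin_mul, LinearMap.range_comp]
  have h2 := LinearMap.finrank_range_add_finrank_ker
    (A.mulVecLin.domRestrict (LinearMap.range B.mulVecLin))
  have h3 : finrank K (LinearMap.range (A.mulVecLin.domRestrict (LinearMap.range B.mulVecLin))) =
      (A * B).rank := by
    rw [h1, LinearMap.range_domRestrict]
  have h4 : finrank K (LinearMap.ker (A.mulVecLin.domRestrict (LinearMap.range B.mulVecLin))) ≤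
      finrank K (LinearMap.ker A.mulVecLin) := by
    let φ : LinearMap.ker (A.mulVecLin.domRestrict (LinearMap.range B.mulVecLin)) →ₗ[K]
        LinearMap.ker A.mulVecLin :=
      { toFun := fun x => ⟨x.1.1, x.2⟩
        map_add' := fun _ _ => rfl
        map_smul' := fun _ _ => rfl }
    have hφ : Function.Injective φ := by
      intro x y hxy
      apply Subtype.ext
      apply Subtype.ext
      exact congrArg (fun z : LinearMap.ker A.mulVecLin => z.1) hxy
    exact LinearMap.finrank_le_finrank_of_injective hφ
  have h5 := LinearMap.finrank_range_add_finrank_ker A.mulVecLin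
  have h6 : finrank K (m → K) = Fintype.card m := Module.finrank_fintype_fun_eq_card K
  have h7 : finrank K (LinearMap.range B.mulVecLin) = B.rank := rfl
  have h8 : finrank K (LinearMap.range A.mulVecLin) = A.rank := rfl
  omega

/-- An isotropic family of linearly independent vectors. -/
lemma two_mul_le_of_isotropic {n : Type*} [Fintype n] {r : ℕ} (Q : Matrix n n K)
    (G : Matrix (Fin r) n K) (hG : LinearIndependent K G.row)
    (hiso : ∀ i j, G i ⬝ᵥ (Q *ᵥ (G j)) = 0) :
    2 * r + Q.rank ≤ 2 * Fintype.card n := by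
  classical
  have h0 : G * (Q * Gᵀ) = 0 := by
    ext i j
    exact hiso i j
  have h1 := rank_add_rank_le_card_of_mul_eq_zero h0
  have h2 := rank_le_rank_mul Q Gᵀ
  have h3 : G.rank = r := by rw [hG.rank_matrix, Fintype.card_fin]
  have h4 : Gᵀ.rank = r := by rw [rank_transpose, h3]
  omega

end DBA
end F80
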