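import Pool.Agent.H45.F80.PDefs
import Pool.Agent.H45.F80.FD
import Pool.Agent.H45.F80.DBaux
/-! Module DB: the transcendence degree of the algebra generated by the Poisson centres. -/
set_option linter.unusedSectionVars false
open Module Matrix
universe u
namespace F80

namespace DBA

section spec

variable {k : Type*} [Field k] {ι n : Type*} [Fintype n] [DecidableEq n]
  (K : Type*) [Field K] [Algebra (MvPolynomial ι k) K] [IsFractionRing (MvPolynomial ι k) K]

lemma rank_spec_le (M : Matrix n n (MvPolynomial ι k)) (ξ : ι → k) :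
    (M.map (MvPolynomial.eval ξ)).rank ≤ (M.map (algebraMap (MvPolynomial ι k) K)).rank := by
  obtain ⟨f, g, hfg⟩ := exists_minor (M.map (MvPolynomial.eval ξ))
  have h1 : ((M.map (MvPolynomial.eval ξ)).submatrix f g).det =
      MvPolynomial.eval ξ (M.submatrix f g).det := by
    rw [RingHom.map_det]
    rfl
  rw [h1] at hfg
  have h2 : (M.submatrix f g).det ≠ 0 := by
    intro h
    rw [h, map_zero] at hfg
    exact hfg rfl
  have h3 : ((M.map (algebraMap (MvPolynomial ι k) K)).submatrix f g).det ≠ 0 := by
    have : ((M.map (algebraMap (MvPolynomial ι k) K)).submatrix f g).det =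
        algebraMap (MvPolynomial ι k) K (M.submatrix f g).det := by
      rw [RingHom.map_det]
      rfl
    rw [this]
    exact fun h => h2 ((map_eq_zero_iff _ (IsFractionRing.injective (MvPolynomial ι k) K)).1 h)
  have h4 := rank_of_det_ne_zero h3
  have h5 := rank_submatrix_le (M.map (algebraMap (MvPolynomial ι k) K)) f g
  rw [h4, Fintype.card_fin] at h5
  exact h5

lemma exists_spec_ge [Infinite k] (M : Matrix n n (MvPolynomial ι k)) :
    ∃ ξ : ι → k, (M.map (algebraMap (MvPolynomial ι k) K)).rank ≤
      (M.map (MvPolynomial.eval ξ)).rank := by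
  obtain ⟨f, g, hfg⟩ := exists_minor (M.map (algebraMap (MvPolynomial ι k) K))
  have h1 : ((M.map (algebraMap (MvPolynomial ι k) K)).submatrix f g).det =
      algebraMap (MvPolynomial ι k) K (M.submatrix f g).det := by
    rw [RingHom.map_det]
    rfl
  rw [h1] at hfg
  have h2 : (M.submatrix f g).det ≠ 0 := by
    intro h
    rw [h, map_zero] at hfg
    exact hfg rfl
  have h3 : ∃ ξ : ι → k, MvPolynomial.eval ξ (M.submatrix f g).det ≠ 0 := by
    by_contra hcon
    push Not at hcon
    exact h2 (MvPolynomial.funext (fun x => by rw [hcon x, map_zero]))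
  obtain ⟨ξ, hξ⟩ := h3
  refine ⟨ξ, ?_⟩
  have h4 : ((M.map (MvPolynomial.eval ξ)).submatrix f g).det ≠ 0 := by
    have : ((M.map (MvPolynomial.eval ξ)).submatrix f g).det =
        MvPolynomial.eval ξ (M.submatrix f g).det := by
      rw [RingHom.map_det]
      rfl
    rw [this]
    exact hξ
  have h5 := rank_of_det_ne_zero h4
  have h6 := rank_submatrix_le (M.map (MvPolynomial.eval ξ)) f g
  rw [h5, Fintype.card_fin] at h6
  exact h6

end spec

section pencil

variable {k : Type u} [Field k] {g : Type u} [LieRing g] [LieAlgebra k g]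
  {ι : Type*} [Fintype ι] [DecidableEq ι] (bs : Basis ι k g)

/-- The Poisson matrix. -/
noncomputable def Mat (B : g →ₗ[k] g →ₗ[k] g) : Matrix ι ι (MvPolynomial ι k) :=
  of fun i j => lin bs (B (bs i) (bs j))

lemma lin_add (x y : g) : lin bs (x + y) = lin bs x + lin bs y := by
  simp [lin, add_mul, Finset.sum_add_distrib]

lemma lin_smul (c : k) (x : g) : lin bs (c • x) = MvPolynomial.C c * lin bs x := by
  simp [lin, Finset.mul_sum, mul_assoc]

lemma eval_lin (ξ : ι → k) (x : g) :
    MvPolynomial.eval ξ (lin bs x) = bs.constr k ξ x := by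
  simp [lin, Basis.constr_apply_fintype, Basis.equivFun_apply]

lemma Mat_add (B B' : g →ₗ[k] g →ₗ[k] g) : Mat bs (B + B') = Mat bs B + Mat bs B' := by
  ext1 i j
  simp [Mat, lin_add]

lemma Mat_smul (c : k) (B : g →ₗ[k] g →ₗ[k] g) :
    Mat bs (c • B) = (MvPolynomial.C c : MvPolynomial ι k) • Mat bs B := by
  ext1 i j
  simp [Mat, lin_smul]

lemma rank_add_finrank_ker (B : g →ₗ[k] g →ₗ[k] g) (ξ : ι → k) :
    ((Mat bs B).map (MvPolynomial.eval ξ)).rank +
      finrank k (LinearMap.ker (B.compr₂ (bs.constr k ξ))) = Fintype.card ι := by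
  have hT : (Mat bs B).map (MvPolynomial.eval ξ) =
      (LinearMap.toMatrix bs bs.dualBasis (B.compr₂ (bs.constr k ξ)))ᵀ := by
    ext i j
    simp [Mat, LinearMap.toMatrix_apply, eval_lin]
  have : FiniteDimensional k g := bs.finiteDimensional_of_finite
  rw [hT, rank_transpose, rank_eq_finrank_range_toLin _ bs.dualBasis bs, toLin_toMatrix,
    LinearMap.finrank_range_add_finrank_ker, finrank_eq_card_basis bs]

variable (K : Type*) [Field K] [Algebra (MvPolynomial ι k) K] [IsFractionRing (MvPolynomial ι k) K]

/-- The Poisson matrix over the field of fractions. -/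
noncomputable def MatK (B : g →ₗ[k] g →ₗ[k] g) : Matrix ι ι K :=
  (Mat bs B).map (algebraMap (MvPolynomial ι k) K)

lemma rank_MatK [Infinite k] (B : g →ₗ[k] g →ₗ[k] g) :
    (MatK bs K B).rank + idx B = Fintype.card ι := by
  apply le_antisymm
  · obtain ⟨ξ, hξ⟩ := exists_spec_ge K (Mat bs B)
    have h1 := rank_add_finrank_ker bs B ξ
    have h2 : idx B ≤ finrank k (LinearMap.ker (B.compr₂ (bs.constr k ξ))) :=
      ciInf_le (OrderBot.bddBelow _) (bs.constr k ξ : Module.Dual k g)
    have h3 : (MatK bs K B).rank ≤ _ := hξ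
    omega
  · obtain ⟨η, hη⟩ : ∃ η : Module.Dual k g,
        finrank k (LinearMap.ker (B.compr₂ η)) = idx B := by
      have := ciInf_mem (fun η : Module.Dual k g => finrank k (LinearMap.ker (B.compr₂ η)))
      obtain ⟨η, hη⟩ := this
      exact ⟨η, hη⟩
    have h0 : (bs.constr k (fun i => η (bs i)) : g →ₗ[k] k) = η := by
      apply bs.ext
      intro i
      simp
    have h1 := rank_add_finrank_ker bs B (fun i => η (bs i))
    rw [h0, hη] at h1
    have h2 := rank_spec_le K (Mat bs B) (fun i => η (bs i))
    have h3 : ((Mat bs B).map (algebraMap (MvPolynomial ι k) K)).rank = (MatK bs K B).rank := rfl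
    omega

/-- scalars of `k` in `K` -/
noncomputable def sc (c : k) : K := algebraMap (MvPolynomial ι k) K (MvPolynomial.C c)

lemma MatK_add (B B' : g →ₗ[k] g →ₗ[k] g) : MatK bs K (B + B') = MatK bs K B + MatK bs K B' := by
  ext1 i j
  simp [MatK, Mat_add]

lemma MatK_smul (c : k) (B : g →ₗ[k] g →ₗ[k] g) :
    MatK bs K (c • B) = sc (ι := ι) K c • MatK bs K B := by
  ext1 i j
  simp [MatK, Mat_smul, sc]


/-- The gradient of a polynomial. -/
noncomputable def grad (F : MvPolynomial ι k) : ι → K :=
  fun i => algebraMap (MvPolynomial ι k) K (MvPolynomial.pderiv i F)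

lemma grad_vecMul (B : g →ₗ[k] g →ₗ[k] g) (F : MvPolynomial ι k) (hF : F ∈ pcenter bs B) :
    grad K F ᵥ* MatK bs K B = 0 := by
  ext j
  have h := hF (MvPolynomial.X j)
  have h1 : ∑ i, lin bs (B (bs i) (bs j)) * MvPolynomial.pderiv i F = 0 := by
    rw [← h, pb]
    refine Finset.sum_congr rfl (fun i _ => ?_)
    rw [Finset.sum_eq_single j]
    · rw [MvPolynomial.pderiv_X_self, mul_one]
    · intro j' _ hj'
      rw [MvPolynomial.pderiv_X_of_ne (Ne.symm hj'), mul_zero]
    · intro hj
      exact absurd (Finset.mem_univ j) hj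
  have h2 := congrArg (algebraMap (MvPolynomial ι k) K) h1
  rw [map_sum, map_zero] at h2
  simp only [Matrix.vecMul, dotProduct, Pi.zero_apply]
  rw [← h2]
  refine Finset.sum_congr rfl (fun i _ => ?_)
  rw [map_mul, mul_comm]
  rfl

lemma MatK_transpose (B : g →ₗ[k] g →ₗ[k] g) (hB : ∀ x y, B x y = - B y x) :
    (MatK bs K B)ᵀ = - MatK bs K B := by
  ext1 i j
  have h0 : lin bs (B (bs j) (bs i)) = - lin bs (B (bs i) (bs j)) := by
    rw [hB]
    have : -(B (bs i) (bs j)) = (-1 : k) • B (bs i) (bs j) := by simp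
    rw [this, lin_smul]
    simp
  simp [MatK, Mat, h0]

lemma contr_neg (h r : Submodule k g) (hc : IsCompl h r) (x y : g) :
    contr h r hc x y = - contr h r hc y x := by
  simp only [contr, LinearMap.mk₂_apply]
  rw [← lie_skew (h.projection r hc x) (h.projection r hc y)]
  simp only [map_sub]
  abel

lemma brk_eq (h r : Submodule k g) (hc : IsCompl h r) :
    brk k g = contr h r hc + contr r h hc.symm := by
  ext x y
  have hx : h.projection r hc x + r.projection h hc.symm x = x :=
    Submodule.projection_add_projection_eq_self hc x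
  have hy : h.projection r hc y + r.projection h hc.symm y = y :=
    Submodule.projection_add_projection_eq_self hc y
  have hz : ∀ z, h.projection r hc z + r.projection h hc.symm z = z :=
    Submodule.projection_add_projection_eq_self hc
  simp only [brk_apply, contr, LinearMap.add_apply, LinearMap.mk₂_apply]
  have e1 : ⁅x, y⁆ = ⁅h.projection r hc x, h.projection r hc y⁆ +
      ⁅r.projection h hc.symm x, r.projection h hc.symm y⁆ +
      (⁅h.projection r hc x, r.projection h hc.symm y⁆ -
        ⁅h.projection r hc y, r.projection h hc.symm x⁆) := by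
    calc ⁅x, y⁆ = ⁅h.projection r hc x + r.projection h hc.symm x,
          h.projection r hc y + r.projection h hc.symm y⁆ := by rw [hx, hy]
      _ = _ := by
        rw [add_lie, lie_add, lie_add, ← lie_skew (r.projection h hc.symm x) (h.projection r hc y)]
        abel
  have e2 : ⁅r.projection h hc.symm x, h.projection r hc y⁆ -
      ⁅r.projection h hc.symm y, h.projection r hc x⁆ =
      ⁅h.projection r hc x, r.projection h hc.symm y⁆ -
        ⁅h.projection r hc y, r.projection h hc.symm x⁆ := by
    rw [← lie_skew (r.projection h hc.symm x) (h.projection r hc y),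
      ← lie_skew (r.projection h hc.symm y) (h.projection r hc x)]
    abel
  rw [e2]
  generalize ⁅h.projection r hc x, r.projection h hc.symm y⁆ -
        ⁅h.projection r hc y, r.projection h hc.symm x⁆ = z at e1 ⊢
  have hz' := hz z
  rw [e1]
  calc _ = ⁅h.projection r hc x, h.projection r hc y⁆ +
      ⁅r.projection h hc.symm x, r.projection h hc.symm y⁆ +
      (h.projection r hc z + r.projection h hc.symm z) := by rw [hz']
    _ = _ := by abel

lemma sc_injective : Function.Injective (sc (ι := ι) (k := k) K) := by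
  intro a b hab
  exact MvPolynomial.C_injective ι k (IsFractionRing.injective (MvPolynomial ι k) K hab)

lemma rank_pen_le [Infinite k] {h r : Submodule k g} (hc : IsCompl h r) {t : Option k}
    (ht : t ∈ Preg hc) (s : Option k) :
    (MatK bs K (pen hc s)).rank ≤ (MatK bs K (pen hc t)).rank := by
  have h1 := rank_MatK bs K (pen hc s)
  have h2 := rank_MatK bs K (pen hc t)
  have h3 := ht s
  omega

lemma MatK_mulVec_eq_zero (B : g →ₗ[k] g →ₗ[k] g) (hB : ∀ x y, B x y = - B y x)
    (v : ι → K) (hv : v ᵥ* MatK bs K B = 0) : MatK bs K B *ᵥ v = 0 := by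
  have h1 := MatK_transpose bs K B hB
  have h2 : (MatK bs K B)ᵀ *ᵥ v = 0 := by rw [mulVec_transpose, hv]
  rw [h1, neg_mulVec, neg_eq_zero] at h2
  exact h2

lemma iso_gen [Infinite k] {h r : Submodule k g} (hc : IsCompl h r) {s t : Option k}
    (hs : s ∈ Preg hc) (ht : t ∈ Preg hc) (v w : ι → K)
    (hv : v ᵥ* MatK bs K (pen hc s) = 0) (hw : w ᵥ* MatK bs K (pen hc t) = 0) :
    v ⬝ᵥ (MatK bs K (brk k g) *ᵥ w) = 0 := by
  set A0 := MatK bs K (contr h r hc) with hA0
  set A1 := MatK bs K (contr r h hc.symm) with hA1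
  have hnone : MatK bs K (pen hc none) = A1 := rfl
  have hsome : ∀ c : k, MatK bs K (pen hc (some c)) = A0 + sc (ι := ι) K c • A1 := by
    intro c
    have : pen hc (some c) = contr h r hc + c • contr r h hc.symm := rfl
    rw [this, MatK_add, MatK_smul]
  have hneg : ∀ t : Option k, ∀ x y, pen hc t x y = - pen hc t y x := by
    intro t x y
    rcases t with _ | c
    · exact contr_neg _ _ _ x y
    · simp only [pen, LinearMap.add_apply, LinearMap.smul_apply]
      rw [contr_neg h r hc x y, contr_neg r h hc.symm x y]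
      simp only [smul_neg]
      abel
  have hw' := MatK_mulVec_eq_zero bs K (pen hc t) (hneg t) w hw
  rw [brk_eq h r hc, MatK_add, add_mulVec, dotProduct_add]
  suffices hh : v ⬝ᵥ (A0 *ᵥ w) = 0 ∧ v ⬝ᵥ (A1 *ᵥ w) = 0 by
    rw [← hA0, ← hA1, hh.1, hh.2, add_zero]
  have hinf : (Set.range (sc (ι := ι) (k := k) K)).Infinite :=
    Set.infinite_range_of_injective (sc_injective K)
  -- expansions
  have ex1 : ∀ c : k, v ᵥ* MatK bs K (pen hc (some c)) = 0 →
      v ⬝ᵥ (A0 *ᵥ w) + sc (ι := ι) K c * (v ⬝ᵥ (A1 *ᵥ w)) = 0 := by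
    intro c hcc
    have : v ⬝ᵥ (MatK bs K (pen hc (some c)) *ᵥ w) = 0 := by
      rw [dotProduct_mulVec, hcc, zero_dotProduct]
    rwa [hsome, add_mulVec, smul_mulVec, dotProduct_add, dotProduct_smul, smul_eq_mul] at this
  have ex2 : ∀ c : k, MatK bs K (pen hc (some c)) *ᵥ w = 0 →
      v ⬝ᵥ (A0 *ᵥ w) + sc (ι := ι) K c * (v ⬝ᵥ (A1 *ᵥ w)) = 0 := by
    intro c hcc
    have : v ⬝ᵥ (MatK bs K (pen hc (some c)) *ᵥ w) = 0 := by
      rw [hcc, dotProduct_zero]
    rwa [hsome, add_mulVec, smul_mulVec, dotProduct_add, dotProduct_smul, smul_eq_mul] at this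
  rcases s with _ | c <;> rcases t with _ | d
  · -- both infinite
    have h1 : v ⬝ᵥ (A0 *ᵥ w) = 0 := by
      refine isotropy A1 A0 v w hv hw' _ hinf ?_
      rintro _ ⟨c, rfl⟩
      by_cases hc0 : c = 0
      · subst hc0
        have : sc (ι := ι) (k := k) K 0 = 0 := by simp [sc]
        rw [this, zero_smul, add_zero]
      · have e1 : A1 + sc (ι := ι) K c • A0 =
            sc (ι := ι) K c • MatK bs K (pen hc (some c⁻¹)) := by
          rw [hsome, smul_add, smul_smul]
          have : sc (ι := ι) K c * sc (ι := ι) K c⁻¹ = 1 := by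
            simp only [sc, ← map_mul]
            rw [mul_inv_cancel₀ hc0, map_one, map_one]
          rw [this, one_smul, add_comm]
        rw [e1]
        refine le_trans ?_ (rank_pen_le bs K hc ht (some c⁻¹))
        have : sc (ι := ι) K c • MatK bs K (pen hc (some c⁻¹)) =
            (sc (ι := ι) K c • (1 : Matrix ι ι K)) * MatK bs K (pen hc (some c⁻¹)) := by
          rw [smul_mul, Matrix.one_mul]
        rw [this]
        exact rank_mul_le_right _ _
    have h2 : v ⬝ᵥ (A1 *ᵥ w) = 0 := by
      rw [dotProduct_mulVec]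
      have : v ᵥ* A1 = 0 := hv
      rw [this, zero_dotProduct]
    exact ⟨h1, h2⟩
  · have h2 : v ⬝ᵥ (A1 *ᵥ w) = 0 := by
      rw [dotProduct_mulVec]
      have : v ᵥ* A1 = 0 := hv
      rw [this, zero_dotProduct]
    have h1 := ex2 d hw'
    rw [h2, mul_zero, add_zero] at h1
    exact ⟨h1, h2⟩
  · have h2 : v ⬝ᵥ (A1 *ᵥ w) = 0 := by
      have : A1 *ᵥ w = 0 := hw'
      rw [this, dotProduct_zero]
    have h1 := ex1 c hv
    rw [h2, mul_zero, add_zero] at h1
    exact ⟨h1, h2⟩
  · by_cases hcd : c = d
    · subst hcd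
      have h2 : v ⬝ᵥ (A1 *ᵥ w) = 0 := by
        refine isotropy (MatK bs K (pen hc (some c))) A1 v w hv hw' _ hinf ?_
        rintro _ ⟨e, rfl⟩
        have e1 : MatK bs K (pen hc (some c)) + sc (ι := ι) K e • A1 =
            MatK bs K (pen hc (some (c + e))) := by
          rw [hsome, hsome, add_assoc, ← add_smul]
          congr 2
          simp [sc]
        rw [e1]
        exact rank_pen_le bs K hc hs (some (c + e))
      have h1 := ex1 c hv
      rw [h2, mul_zero, add_zero] at h1
      exact ⟨h1, h2⟩
    · have h1 := ex1 c hv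
      have h2 := ex2 d hw'
      have h3 : (sc (ι := ι) K c - sc (ι := ι) K d) * (v ⬝ᵥ (A1 *ᵥ w)) = 0 := by
        linear_combination h1 - h2
      have h4 : sc (ι := ι) K c - sc (ι := ι) K d ≠ 0 := by
        rw [sub_ne_zero]
        exact fun h => hcd (sc_injective K h)
      have h5 : v ⬝ᵥ (A1 *ᵥ w) = 0 := (mul_eq_zero.1 h3).resolve_left h4
      rw [h5, mul_zero, add_zero] at h1
      exact ⟨h1, h5⟩

lemma iso_span [Infinite k] {h r : Submodule k g} (hc : IsCompl h r) (v w : ι → K)
    (hv : v ∈ Submodule.span K {v : ι → K | ∃ t ∈ Preg hc, v ᵥ* MatK bs K (pen hc t) = 0})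
    (hw : w ∈ Submodule.span K {v : ι → K | ∃ t ∈ Preg hc, v ᵥ* MatK bs K (pen hc t) = 0}) :
    v ⬝ᵥ (MatK bs K (brk k g) *ᵥ w) = 0 := by
  induction hv using Submodule.span_induction with
  | zero => rw [zero_dotProduct]
  | add x y _ _ hx hy => rw [add_dotProduct, hx, hy, add_zero]
  | smul a x _ hx => rw [smul_dotProduct, hx, smul_zero]
  | mem x hx =>
    induction hw using Submodule.span_induction with
    | zero => rw [mulVec_zero, dotProduct_zero]
    | add x y _ _ hx hy => rw [mulVec_add, dotProduct_add, hx, hy, add_zero]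
    | smul a x _ hx => rw [mulVec_smul, dotProduct_smul, hx, smul_zero]
    | mem y hy =>
      obtain ⟨s, hs, hs'⟩ := hx
      obtain ⟨t, ht, ht'⟩ := hy
      exact iso_gen bs K hc hs ht x y hs' ht'

lemma grad_mem_span {h r : LieSubalgebra k g} (hc : IsCompl h.toSubmodule r.toSubmodule)
    (F : MvPolynomial ι k) (hF : F ∈ Zalg bs hc) :
    grad K F ∈
      Submodule.span K {v : ι → K | ∃ t ∈ Preg hc, v ᵥ* MatK bs K (pen hc t) = 0} := by
  unfold Zalg at hF
  induction hF using Algebra.adjoin_induction with
  | mem x hx =>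
    obtain ⟨t, ht, hx⟩ := hx
    exact Submodule.subset_span ⟨t, ht, grad_vecMul bs K _ x hx⟩
  | algebraMap a =>
    have : grad (ι := ι) K (algebraMap k (MvPolynomial ι k) a) = 0 := by
      ext i
      simp [grad, MvPolynomial.algebraMap_eq]
    rw [this]
    exact Submodule.zero_mem _
  | add x y _ _ hx hy =>
    have : grad K (x + y) = grad K x + grad K y := by
      ext i
      simp [grad]
    rw [this]
    exact Submodule.add_mem _ hx hy
  | mul x y _ _ hx hy =>
    have : grad K (x * y) = algebraMap (MvPolynomial ι k) K x • grad K y +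
        algebraMap (MvPolynomial ι k) K y • grad K x := by
      ext i
      simp [grad, Algebra.smul_def]
    rw [this]
    exact Submodule.add_mem _ (Submodule.smul_mem _ _ hy) (Submodule.smul_mem _ _ hx)

end pencil

section indep

variable {k : Type*} [Field k] {ι : Type*} [Fintype ι] [DecidableEq ι]
  (K : Type*) [Field K] [Algebra (MvPolynomial ι k) K]

lemma derivation_eq_sum (D : Derivation ℤ K K)
    (hD : ∀ a : k, D (algebraMap (MvPolynomial ι k) K
      (MvPolynomial.C a)) = 0) (F : MvPolynomial ι k) :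
    D (algebraMap (MvPolynomial ι k) K F) =
      ∑ i, grad K F i *
        D (algebraMap (MvPolynomial ι k) K (MvPolynomial.X i)) := by
  induction F using MvPolynomial.induction_on with
  | C a => simp [hD, grad]
  | add p q hp hq =>
    rw [map_add, map_add, hp, hq, ← Finset.sum_add_distrib]
    refine Finset.sum_congr rfl (fun i _ => ?_)
    simp only [grad, map_add]
    ring
  | mul_X p n hp =>
    rw [map_mul, Derivation.leibniz, hp, smul_eq_mul, smul_eq_mul, Finset.mul_sum]
    have : ∀ i, grad K (p * MvPolynomial.X n) i *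
        D (algebraMap (MvPolynomial ι k) K (MvPolynomial.X i)) =
        algebraMap (MvPolynomial ι k) K (MvPolynomial.X n) *
        (grad K p i *
        D (algebraMap (MvPolynomial ι k) K
          (MvPolynomial.X i))) +
        (if n = i then algebraMap (MvPolynomial ι k) K p *
          D (algebraMap (MvPolynomial ι k) K
          (MvPolynomial.X i)) else 0) := by
      intro i
      by_cases hin : n = i
      · subst hin
        simp only [grad, Derivation.leibniz, MvPolynomial.pderiv_X_self, smul_eq_mul, mul_one,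
          map_add, map_mul, if_true]
        ring
      · simp only [grad, Derivation.leibniz, MvPolynomial.pderiv_X_of_ne hin, smul_eq_mul,
          mul_zero, zero_add, map_mul, if_neg hin, add_zero]
        ring
    rw [Finset.sum_congr rfl (fun i _ => this i), Finset.sum_add_distrib,
      Finset.sum_ite_eq Finset.univ n]
    simp only [Finset.mem_univ, if_true]
    ring

lemma grad_linearIndependent [CharZero k] [IsFractionRing (MvPolynomial ι k) K]
    [Algebra k K] [IsScalarTower k (MvPolynomial ι k) K] {m : ℕ} (f : Fin m → MvPolynomial ι k)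
    (hf : AlgebraicIndependent k f) :
    LinearIndependent K
      (fun j => grad K (f j)) := by
  have hf' : AlgebraicIndependent k
      (fun j => algebraMap (MvPolynomial ι k) K (f j)) :=
    hf.map' (f := IsScalarTower.toAlgHom k (MvPolynomial ι k) K)
      (IsFractionRing.injective (MvPolynomial ι k) K)
  have hD : ∀ l : Fin m, ∃ D : Derivation ℤ K
      K,
      (∀ a : k, D (algebraMap (MvPolynomial ι k) K
        (MvPolynomial.C a)) = 0) ∧
      ∀ j, D (algebraMap (MvPolynomial ι k) K (f j)) =
        if j = l then 1 else 0 := by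
    intro l
    obtain ⟨D, h1, h2⟩ := exists_ext_derivation _ hf' (0 : Derivation ℤ k k)
      (fun j => if j = l then 1 else 0)
    refine ⟨D, fun a => ?_, h2⟩
    have := h1 a
    rw [Derivation.zero_apply, map_zero,
      IsScalarTower.algebraMap_apply k (MvPolynomial ι k) K] at this
    exact this
  rw [Fintype.linearIndependent_iff]
  intro c hc l
  obtain ⟨D, hD1, hD2⟩ := hD l
  have h1 : ∑ j, c j * D (algebraMap (MvPolynomial ι k) K (f j)) =
      0 := by
    have h0 : ∀ j, c j * D (algebraMap (MvPolynomial ι k) K (f j)) =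
        ∑ i, c j * (grad K (f j) i * D (algebraMap (MvPolynomial ι k) K (MvPolynomial.X i))) := by
      intro j
      rw [derivation_eq_sum K D hD1 (f j), Finset.mul_sum]
    rw [Finset.sum_congr rfl (fun j _ => h0 j)]
    rw [Finset.sum_comm]
    refine Finset.sum_eq_zero (fun i _ => ?_)
    have h2 := congrFun hc i
    simp only [Finset.sum_apply, Pi.smul_apply, smul_eq_mul, Pi.zero_apply] at h2
    have h3 : ∀ x, c x * (grad K (f x) i * D (algebraMap (MvPolynomial ι k) K
        (MvPolynomial.X i))) = (c x * grad K (f x) i) *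
        D (algebraMap (MvPolynomial ι k) K (MvPolynomial.X i)) := fun x => by ring
    rw [Finset.sum_congr rfl (fun x _ => h3 x), ← Finset.sum_mul, h2, zero_mul]
  simp_rw [hD2] at h1
  simpa using h1

end indep


end DBA

/-- Algebraically independent elements of `Zalg` are at most `(dim g + ind g) / 2` in number. -/
theorem two_mul_le {k : Type u} [Field k] [CharZero k] [IsAlgClosed k] {g : Type u}
    [LieRing g] [LieAlgebra k g] [FiniteDimensional k g]
    {h r : LieSubalgebra k g} (hc : IsCompl h.toSubmodule r.toSubmodule)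
    {ι : Type*} [Fintype ι] (bs : Basis ι k g) {m : ℕ} (f : Fin m → MvPolynomial ι k)
    (hf : AlgebraicIndependent k f) (hZ : ∀ i, f i ∈ Zalg bs hc)
    (hidx : idx (brk k g) ≤ LieAlgebra.rank k g) :
    2 * m ≤ finrank k g + LieAlgebra.rank k g := by
  classical
  have h1 := DBA.grad_linearIndependent (FractionRing (MvPolynomial ι k)) f hf
  have h2 := DBA.two_mul_le_of_isotropic
    (DBA.MatK bs (FractionRing (MvPolynomial ι k)) (brk k g))
    (of fun j => DBA.grad (FractionRing (MvPolynomial ι k)) (f j)) h1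
    (fun i j => DBA.iso_span bs _ hc _ _ (DBA.grad_mem_span bs _ hc _ (hZ i))
      (DBA.grad_mem_span bs _ hc _ (hZ j)))
  have h3 := DBA.rank_MatK bs (FractionRing (MvPolynomial ι k)) (brk k g)
  have h4 := finrank_eq_card_basis bs
  omega

end F80
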