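import Pool.Agent.H45.F80.PDefs
/-! Module DP: the pencil and its rescaling isomorphisms. -/
open Module
universe u
namespace F80

section h49

open MvPolynomial

variable {k : Type u} [Field k] {g : Type u} [LieRing g] [LieAlgebra k g]

/-- identity on `h`, multiplication by `t` on `r` -/
noncomputable def h49_phi {h r : Submodule k g} (hc : IsCompl h r) (t : k) : g →ₗ[k] g :=
  h.projection r hc + t • r.projection h hc.symm

theorem h49_phi_apply {h r : Submodule k g} (hc : IsCompl h r) (t : k) (x : g) :
    h49_phi hc t x = h.projection r hc x + t • r.projection h hc.symm x := rfl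

theorem h49_phi_left {h r : Submodule k g} (hc : IsCompl h r) (t : k) {x : g} (hx : x ∈ h) :
    h49_phi hc t x = x := by
  rw [h49_phi_apply, Submodule.projection_apply_of_mem_left hc hx,
    Submodule.projection_apply_of_mem_right hc.symm hx, smul_zero, add_zero]

theorem h49_phi_right {h r : Submodule k g} (hc : IsCompl h r) (t : k) {x : g} (hx : x ∈ r) :
    h49_phi hc t x = t • x := by
  rw [h49_phi_apply, Submodule.projection_apply_of_mem_left hc.symm hx,
    Submodule.projection_apply_of_mem_right hc hx, zero_add]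

theorem h49_phi_phi {h r : Submodule k g} (hc : IsCompl h r) (s t : k) (x : g) :
    h49_phi hc s (h49_phi hc t x) = h49_phi hc (s * t) x := by
  rw [h49_phi_apply hc t, map_add, map_smul,
    h49_phi_left hc s (Submodule.projection_apply_mem hc x),
    h49_phi_right hc s (Submodule.projection_apply_mem hc.symm x), h49_phi_apply, smul_smul,
    mul_comm t s]

theorem h49_phi_one {h r : Submodule k g} (hc : IsCompl h r) (x : g) :
    h49_phi hc 1 x = x := by
  rw [h49_phi_apply, one_smul, Submodule.projection_add_projection_eq_self]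

/-- the rescaling as a linear equivalence -/
noncomputable def h49_phiE {h r : Submodule k g} (hc : IsCompl h r) (t : k) (ht : t ≠ 0) :
    g ≃ₗ[k] g :=
  LinearEquiv.ofLinearMap (h49_phi hc t) (h49_phi hc t⁻¹)
    (by
      ext x
      simp only [LinearMap.comp_apply, LinearMap.id_apply]
      rw [h49_phi_phi, mul_inv_cancel₀ ht, h49_phi_one])
    (by
      ext x
      simp only [LinearMap.comp_apply, LinearMap.id_apply]
      rw [h49_phi_phi, inv_mul_cancel₀ ht, h49_phi_one])

theorem h49_phiE_apply {h r : Submodule k g} (hc : IsCompl h r) (t : k) (ht : t ≠ 0) (x : g) :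
    h49_phiE hc t ht x = h49_phi hc t x := rfl

theorem h49_contr_apply (h r : Submodule k g) (hc : IsCompl h r) (x y : g) :
    contr h r hc x y = ⁅h.projection r hc x, h.projection r hc y⁆ +
      r.projection h hc.symm (⁅h.projection r hc x, r.projection h hc.symm y⁆ -
        ⁅h.projection r hc y, r.projection h hc.symm x⁆) := rfl

theorem h49_phi_bracket {h r : LieSubalgebra k g} (hc : IsCompl h.toSubmodule r.toSubmodule)
    (t : k) (x y : g) :
    h49_phi hc t (pen hc (some t) x y) = ⁅h49_phi hc t x, h49_phi hc t y⁆ := by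
  have e1 : pen hc (some t) x y = contr h.toSubmodule r.toSubmodule hc x y +
      t • contr r.toSubmodule h.toSubmodule hc.symm x y := rfl
  rw [e1, h49_contr_apply, h49_contr_apply, h49_phi_apply hc t x, h49_phi_apply hc t y]
  set a := h.toSubmodule.projection r.toSubmodule hc x with ha
  set b := h.toSubmodule.projection r.toSubmodule hc y with hb
  set c := r.toSubmodule.projection h.toSubmodule hc.symm x with hcc
  set d := r.toSubmodule.projection h.toSubmodule hc.symm y with hd
  have ma : a ∈ h := Submodule.projection_apply_mem hc x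
  have mb : b ∈ h := Submodule.projection_apply_mem hc y
  have mc : c ∈ r := Submodule.projection_apply_mem hc.symm x
  have md : d ∈ r := Submodule.projection_apply_mem hc.symm y
  have hz : ⁅c, b⁆ - ⁅d, a⁆ = ⁅a, d⁆ - ⁅b, c⁆ := by
    rw [← lie_skew c b, ← lie_skew d a]
    abel
  rw [hz]
  set z := ⁅a, d⁆ - ⁅b, c⁆ with hzd
  have m1 : ⁅a, b⁆ ∈ h.toSubmodule := h.lie_mem ma mb
  have m2 : ⁅c, d⁆ ∈ r.toSubmodule := r.lie_mem mc md
  rw [map_add, map_add, map_smul, map_add, h49_phi_left hc t m1,
    h49_phi_right hc t (Submodule.projection_apply_mem hc.symm z), h49_phi_right hc t m2,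
    h49_phi_left hc t (Submodule.projection_apply_mem hc z)]
  have e2 : t • r.toSubmodule.projection h.toSubmodule hc.symm z +
      t • h.toSubmodule.projection r.toSubmodule hc z = t • z := by
    rw [← smul_add, add_comm, Submodule.projection_add_projection_eq_self]
  have e3 : ⁅a + t • c, b + t • d⁆ = ⁅a, b⁆ + t • (⁅a, d⁆ - ⁅b, c⁆) + t • t • ⁅c, d⁆ := by
    rw [add_lie, lie_add, lie_add, smul_lie, smul_lie, lie_smul, lie_smul, smul_sub,
      ← lie_skew c b, smul_neg]
    abel
  rw [e3, ← hzd, ← e2, smul_add]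
  abel

/-- change of bracket by a linear equivalence -/
theorem h49_idx_congr {B B' : g →ₗ[k] g →ₗ[k] g} (φ : g ≃ₗ[k] g)
    (hφ : ∀ x y, φ (B x y) = B' (φ x) (φ y)) : idx B = idx B' := by
  unfold idx
  symm
  apply (Equiv.iInf_congr (φ.dualMap.toEquiv))
  intro ξ
  -- kernel of B with ξ ∘ φ is the preimage of the kernel of B' with ξ
  have h1 : LinearMap.ker (B.compr₂ (φ.dualMap ξ)) =
      (LinearMap.ker (B'.compr₂ ξ)).comap (φ : g →ₗ[k] g) := by
    ext x
    rw [LinearMap.mem_ker, Submodule.mem_comap, LinearMap.mem_ker]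
    constructor
    · intro h
      apply LinearMap.ext
      intro y
      have h2 := LinearMap.congr_fun h (φ.symm y)
      rw [LinearMap.compr₂_apply, LinearEquiv.dualMap_apply, hφ, LinearEquiv.apply_symm_apply]
        at h2
      rw [LinearMap.compr₂_apply]
      exact h2
    · intro h
      apply LinearMap.ext
      intro y
      have h2 := LinearMap.congr_fun h (φ y)
      rw [LinearMap.compr₂_apply] at h2
      rw [LinearMap.compr₂_apply, LinearEquiv.dualMap_apply, hφ]
      exact h2
  change finrank k (LinearMap.ker (B.compr₂ (φ.dualMap ξ))) = _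
  rw [h1]
  exact LinearEquiv.finrank_eq (φ.ofSubmodule' _)

variable {ι : Type*} [Fintype ι] (bs : Basis ι k g)

theorem h49_lin_add (x y : g) : lin bs (x + y) = lin bs x + lin bs y := by
  unfold lin
  rw [← Finset.sum_add_distrib]
  apply Finset.sum_congr rfl
  intro i _
  rw [map_add, Finsupp.add_apply, C_add, add_mul]

theorem h49_lin_smul (c : k) (x : g) : lin bs (c • x) = C c * lin bs x := by
  unfold lin
  rw [Finset.mul_sum]
  apply Finset.sum_congr rfl
  intro i _
  rw [map_smul, Finsupp.smul_apply, smul_eq_mul, C_mul, mul_assoc]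

/-- `lin` as a linear map -/
noncomputable def h49_linL : g →ₗ[k] MvPolynomial ι k where
  toFun := lin bs
  map_add' := h49_lin_add bs
  map_smul' := by
    intro c x
    rw [h49_lin_smul, RingHom.id_apply, MvPolynomial.smul_eq_C_mul]

theorem h49_lin_basis (i : ι) : lin bs (bs i) = X i := by
  classical
  unfold lin
  rw [Finset.sum_eq_single i]
  · simp
  · intro j _ hj
    rw [Basis.repr_self, Finsupp.single_eq_of_ne hj, C_0, zero_mul]
  · intro h
    exact absurd (Finset.mem_univ i) h

theorem h49_pderiv_lin (x : g) (i : ι) : pderiv i (lin bs x) = C (bs.repr x i) := by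
  classical
  unfold lin
  rw [map_sum, Finset.sum_eq_single i]
  · rw [pderiv_C_mul, pderiv_X_self, mul_one]
  · intro j _ hj
    rw [pderiv_C_mul, pderiv_X_of_ne hj, mul_zero]
  · intro h
    exact absurd (Finset.mem_univ i) h

/-- chain rule -/
theorem h49_chain (ψ : g →ₗ[k] g) (F : MvPolynomial ι k) (i : ι) :
    pderiv i (aeval (fun j => lin bs (ψ (bs j))) F) =
      ∑ j, aeval (fun j => lin bs (ψ (bs j))) (pderiv j F) * C (bs.repr (ψ (bs j)) i) := by
  classical
  induction F using MvPolynomial.induction_on with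
  | C a => simp
  | add p q hp hq =>
    rw [map_add, map_add, hp, hq, ← Finset.sum_add_distrib]
    apply Finset.sum_congr rfl
    intro j _
    rw [map_add, map_add, add_mul]
  | mul_X p m hp =>
    rw [map_mul, Derivation.leibniz, hp, aeval_X, h49_pderiv_lin]
    simp only [smul_eq_mul]
    have e : ∀ j : ι, aeval (fun j => lin bs (ψ (bs j))) (pderiv j (p * X m)) *
        (C (bs.repr (ψ (bs j)) i) : MvPolynomial ι k) =
        aeval (fun j => lin bs (ψ (bs j))) p * aeval (fun j => lin bs (ψ (bs j))) (pderiv j (X m : MvPolynomial ι k))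
          * C (bs.repr (ψ (bs j)) i) +
        lin bs (ψ (bs m)) * (aeval (fun j => lin bs (ψ (bs j))) (pderiv j p) *
          (C (bs.repr (ψ (bs j)) i) : MvPolynomial ι k)) := by
      intro j
      rw [Derivation.leibniz, map_add]
      simp only [smul_eq_mul, map_mul, aeval_X]
      ring
    rw [Finset.sum_congr rfl (fun j _ => e j), Finset.sum_add_distrib, ← Finset.mul_sum]
    congr 1
    rw [Finset.sum_eq_single m]
    · rw [pderiv_X_self, map_one, mul_one]
    · intro j _ hj
      rw [pderiv_X_of_ne (Ne.symm hj), map_zero, mul_zero, zero_mul]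
    · intro h
      exact absurd (Finset.mem_univ m) h

theorem h49_aeval_lin (ψ : g →ₗ[k] g) (x : g) :
    aeval (fun j => lin bs (ψ (bs j))) (lin bs x) = lin bs (ψ x) := by
  have h1 : ∀ y, lin bs y = h49_linL bs y := fun y => rfl
  have h2 : ψ x = ∑ i, bs.repr x i • ψ (bs i) := by
    conv_lhs => rw [← bs.sum_repr x]
    rw [map_sum]
    apply Finset.sum_congr rfl
    intro i _
    rw [map_smul]
  rw [h2, h1 (∑ i, bs.repr x i • ψ (bs i)), map_sum]
  unfold lin
  rw [map_sum]
  apply Finset.sum_congr rfl
  intro i _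
  rw [map_mul, aeval_X, aeval_C, map_smul, ← h1, MvPolynomial.smul_eq_C_mul,
    MvPolynomial.algebraMap_eq]
  rfl

theorem h49_bilin_lin (B : g →ₗ[k] g →ₗ[k] g) (x y : g) :
    lin bs (B x y) = ∑ i, ∑ j, lin bs (B (bs i) (bs j)) * C (bs.repr x i) * C (bs.repr y j) := by
  have h1 : ∀ y, lin bs y = h49_linL bs y := fun y => rfl
  have h2 : B x y = ∑ i, ∑ j, (bs.repr x i * bs.repr y j) • B (bs i) (bs j) := by
    conv_lhs => rw [← bs.sum_repr x]
    rw [map_sum, LinearMap.sum_apply]
    apply Finset.sum_congr rfl
    intro i _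
    conv_lhs => rw [← bs.sum_repr y]
    rw [map_smul, LinearMap.smul_apply, map_sum, Finset.smul_sum]
    apply Finset.sum_congr rfl
    intro j _
    rw [map_smul, smul_smul]
  rw [h2, h1, map_sum]
  apply Finset.sum_congr rfl
  intro i _
  rw [map_sum]
  apply Finset.sum_congr rfl
  intro j _
  rw [map_smul, ← h1, MvPolynomial.smul_eq_C_mul, C_mul]
  ring

theorem h49_pb_aeval {B B' : g →ₗ[k] g →ₗ[k] g} (ψ : g →ₗ[k] g)
    (hψ : ∀ x y, ψ (B x y) = B' (ψ x) (ψ y)) (F G : MvPolynomial ι k) :
    pb bs B' (aeval (fun j => lin bs (ψ (bs j))) F) (aeval (fun j => lin bs (ψ (bs j))) G) =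
      aeval (fun j => lin bs (ψ (bs j))) (pb bs B F G) := by
  unfold pb
  rw [map_sum]
  simp only [map_sum, map_mul]
  have e1 : ∀ i j, lin bs (B' (bs i) (bs j)) *
      pderiv i (aeval (fun j => lin bs (ψ (bs j))) F) *
      pderiv j (aeval (fun j => lin bs (ψ (bs j))) G) =
      ∑ m, ∑ l, (aeval (fun j => lin bs (ψ (bs j))) (pderiv m F) *
        aeval (fun j => lin bs (ψ (bs j))) (pderiv l G)) *
        (lin bs (B' (bs i) (bs j)) * C (bs.repr (ψ (bs m)) i) * C (bs.repr (ψ (bs l)) j)) := by
    intro i j
    rw [h49_chain, h49_chain, mul_assoc, Finset.sum_mul_sum, Finset.mul_sum]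
    apply Finset.sum_congr rfl
    intro m _
    rw [Finset.mul_sum]
    apply Finset.sum_congr rfl
    intro l _
    ring
  rw [Finset.sum_congr rfl (fun i _ => Finset.sum_congr rfl (fun j _ => e1 i j))]
  -- exchange sums
  have e2 : ∑ i, ∑ j, ∑ m, ∑ l, (aeval (fun j => lin bs (ψ (bs j))) (pderiv m F) *
        aeval (fun j => lin bs (ψ (bs j))) (pderiv l G)) *
        (lin bs (B' (bs i) (bs j)) * C (bs.repr (ψ (bs m)) i) * C (bs.repr (ψ (bs l)) j)) =
      ∑ m, ∑ l, (aeval (fun j => lin bs (ψ (bs j))) (pderiv m F) *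
        aeval (fun j => lin bs (ψ (bs j))) (pderiv l G)) *
        ∑ i, ∑ j, (lin bs (B' (bs i) (bs j)) * C (bs.repr (ψ (bs m)) i) *
          C (bs.repr (ψ (bs l)) j)) := by
    calc _ = ∑ i, ∑ m, ∑ j, ∑ l, (aeval (fun j => lin bs (ψ (bs j))) (pderiv m F) *
        aeval (fun j => lin bs (ψ (bs j))) (pderiv l G)) *
        (lin bs (B' (bs i) (bs j)) * C (bs.repr (ψ (bs m)) i) *
          C (bs.repr (ψ (bs l)) j)) := by
            apply Finset.sum_congr rfl
            intro i _
            exact Finset.sum_comm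
      _ = ∑ m, ∑ i, ∑ j, ∑ l, (aeval (fun j => lin bs (ψ (bs j))) (pderiv m F) *
        aeval (fun j => lin bs (ψ (bs j))) (pderiv l G)) *
        (lin bs (B' (bs i) (bs j)) * C (bs.repr (ψ (bs m)) i) *
          C (bs.repr (ψ (bs l)) j)) := Finset.sum_comm
      _ = ∑ m, ∑ i, ∑ l, ∑ j, (aeval (fun j => lin bs (ψ (bs j))) (pderiv m F) *
        aeval (fun j => lin bs (ψ (bs j))) (pderiv l G)) *
        (lin bs (B' (bs i) (bs j)) * C (bs.repr (ψ (bs m)) i) *
          C (bs.repr (ψ (bs l)) j)) := by
            apply Finset.sum_congr rfl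
            intro m _
            apply Finset.sum_congr rfl
            intro i _
            exact Finset.sum_comm
      _ = ∑ m, ∑ l, ∑ i, ∑ j, (aeval (fun j => lin bs (ψ (bs j))) (pderiv m F) *
        aeval (fun j => lin bs (ψ (bs j))) (pderiv l G)) *
        (lin bs (B' (bs i) (bs j)) * C (bs.repr (ψ (bs m)) i) *
          C (bs.repr (ψ (bs l)) j)) := by
            apply Finset.sum_congr rfl
            intro m _
            exact Finset.sum_comm
      _ = _ := by
            apply Finset.sum_congr rfl
            intro m _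
            apply Finset.sum_congr rfl
            intro l _
            rw [Finset.mul_sum]
            apply Finset.sum_congr rfl
            intro i _
            rw [Finset.mul_sum]
  rw [e2]
  apply Finset.sum_congr rfl
  intro m _
  apply Finset.sum_congr rfl
  intro l _
  rw [← h49_bilin_lin, ← hψ, ← h49_aeval_lin]
  ring

end h49

variable {k : Type u} [Field k] {g : Type u} [LieRing g] [LieAlgebra k g]
  [FiniteDimensional k g] {h r : LieSubalgebra k g} (hc : IsCompl h.toSubmodule r.toSubmodule)

/-- For `t ≠ 0` the bracket `{,}_t` is isomorphic to the original one. -/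
theorem idx_pen_some {t : k} (ht : t ≠ 0) : idx (pen hc (some t)) = idx (brk k g) := by
  apply h49_idx_congr (h49_phiE hc t ht)
  intro x y
  rw [h49_phiE_apply, h49_phiE_apply, h49_phiE_apply, brk_apply]
  exact h49_phi_bracket hc t x y

/-- The rescaled element: identity on `h`, multiplication by `t⁻¹` on `r`. -/
noncomputable def resc (t : k) (x : g) : g :=
  h.toSubmodule.projection r.toSubmodule hc x +
    t⁻¹ • r.toSubmodule.projection h.toSubmodule hc.symm x

/-- Rescaling a central element gives a central element of the pencil. -/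
theorem aeval_resc_mem_pcenter {ι : Type*} [Fintype ι] (bs : Basis ι k g) {t : k} (ht : t ≠ 0)
    {F : MvPolynomial ι k} (hF : F ∈ pcenter bs (brk k g)) :
    MvPolynomial.aeval (fun i => lin bs (resc hc t (bs i))) F ∈
      pcenter bs (pen hc (some t)) := by
  have hres : ∀ x, resc hc t x = h49_phi hc t⁻¹ x := fun x => rfl
  simp only [hres]
  intro G
  -- G is in the image
  have hG : MvPolynomial.aeval (fun i => lin bs (h49_phi hc t⁻¹ (bs i)))
      (MvPolynomial.aeval (fun i => lin bs (h49_phi hc t (bs i))) G) = G := by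
    have : ((MvPolynomial.aeval (fun i => lin bs (h49_phi hc t⁻¹ (bs i)))).comp
      (MvPolynomial.aeval (fun i => lin bs (h49_phi hc t (bs i)))) :
        MvPolynomial ι k →ₐ[k] MvPolynomial ι k) = AlgHom.id k _ := by
      apply MvPolynomial.algHom_ext
      intro i
      rw [AlgHom.comp_apply, MvPolynomial.aeval_X, h49_aeval_lin, h49_phi_phi,
        inv_mul_cancel₀ ht, h49_phi_one, h49_lin_basis, AlgHom.id_apply]
    exact DFunLike.congr_fun this G
  rw [← hG]
  rw [h49_pb_aeval bs (B := brk k g) (B' := pen hc (some t)) (h49_phi hc t⁻¹)]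
  · rw [hF, map_zero]
  · intro x y
    have h1 := h49_phi_bracket hc t (h49_phi hc t⁻¹ x) (h49_phi hc t⁻¹ y)
    rw [h49_phi_phi, h49_phi_phi, mul_inv_cancel₀ ht, h49_phi_one, h49_phi_one] at h1
    rw [brk_apply, ← h1, h49_phi_phi, inv_mul_cancel₀ ht, h49_phi_one]

theorem mem_Preg [CharZero k] [IsAlgClosed k] (hg : IsRed k g)
    (hidx : idx (brk k g) ≤ LieAlgebra.rank k g)
    (hnd : Nondeg k g h.toSubmodule r.toSubmodule hc) {t : k} (ht : t ≠ 0) :
    some t ∈ Preg hc := by
  intro s
  rw [idx_pen_some hc ht]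
  match s with
  | none =>
    have : pen hc none = contr r.toSubmodule h.toSubmodule hc.symm := rfl
    rw [this, hnd.2]
    exact hidx
  | some s =>
    by_cases hs : s = 0
    · have : pen hc (some s) = contr h.toSubmodule r.toSubmodule hc := by
        rw [hs]
        change contr h.toSubmodule r.toSubmodule hc +
          (0 : k) • contr r.toSubmodule h.toSubmodule hc.symm = _
        rw [zero_smul, add_zero]
      rw [this, hnd.1]
      exact hidx
    · rw [idx_pen_some hc hs]

end F80
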