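import Mathlib

/-!
# MP_80e906_al, shared definitions (semilinear derivations, theta form, rational gradings)
-/

open Module TensorProduct

namespace F80

/-! ## Semilinear derivations -/

/-- A derivation `d` of the ring `R` together with a compatible additive map `D` of the module. -/
structure SDer (R : Type*) (M : Type*) [CommRing R] [AddCommGroup M] [Module R M] where
  d : Derivation ℤ R R
  D : M →+ M
  leib : ∀ (c : R) (m : M), D (c • m) = d c • m + c • D m

namespace SDer

variable {R M : Type*} [CommRing R] [AddCommGroup M] [Module R M]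

/-- The commutator of a semilinear derivation with a linear endomorphism; it is linear. -/
def comm (δ : SDer R M) (X : Module.End R M) : Module.End R M where
  toFun m := δ.D (X m) - X (δ.D m)
  map_add' a b := by
    simp only [map_add]; abel
  map_smul' c m := by
    simp only [map_smul, δ.leib, map_add, RingHom.id_apply, smul_sub]; abel

@[simp] lemma comm_apply (δ : SDer R M) (X : Module.End R M) (m : M) :
    δ.comm X m = δ.D (X m) - X (δ.D m) := rfl

/-- Adding a linear endomorphism to a semilinear derivation. -/
def addEnd (δ : SDer R M) (X : Module.End R M) : SDer R M where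
  d := δ.d
  D := δ.D + X.toAddMonoidHom
  leib c m := by
    simp only [AddMonoidHom.add_apply, δ.leib, LinearMap.toAddMonoidHom_coe, map_smul, smul_add]
    abel

@[simp] lemma addEnd_d (δ : SDer R M) (X : Module.End R M) : (δ.addEnd X).d = δ.d := rfl

@[simp] lemma addEnd_D (δ : SDer R M) (X : Module.End R M) (m : M) :
    (δ.addEnd X).D m = δ.D m + X m := rfl

/-- The base change of a semilinear derivation along an algebra with a compatible derivation. -/
noncomputable def baseChange {A : Type*} [CommRing A] [Algebra R A] (δ : SDer R M)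
    (d' : Derivation ℤ A A)
    (h : ∀ r : R, d' (algebraMap R A r) = algebraMap R A (δ.d r)) :
    SDer A (A ⊗[R] M) where
  d := d'
  D := TensorProduct.liftAddHom
    { toFun := fun a =>
        { toFun := fun m => d' a ⊗ₜ[R] m + a ⊗ₜ[R] δ.D m
          map_zero' := by simp
          map_add' := fun m m' => by
            simp only [map_add, TensorProduct.tmul_add]; abel }
      map_zero' := by ext; simp
      map_add' := fun a b => by
        ext m
        simp only [map_add, TensorProduct.add_tmul, AddMonoidHom.coe_mk, ZeroHom.coe_mk,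
          AddMonoidHom.add_apply]
        abel }
    (fun r a m => by
      have e1 : d' (r • a) = r • d' a + δ.d r • a := by
        rw [Algebra.smul_def r a, Derivation.leibniz, h, Algebra.smul_def r (d' a),
          Algebra.smul_def (δ.d r) a]
        simp only [smul_eq_mul, mul_comm]
      simp only [AddMonoidHom.coe_mk, ZeroHom.coe_mk, e1, δ.leib, TensorProduct.tmul_add,
        TensorProduct.add_tmul, TensorProduct.smul_tmul]
      abel)
  leib c x := by
    induction x using TensorProduct.induction_on with
    | zero => simp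
    | tmul a m =>
      simp only [TensorProduct.smul_tmul', TensorProduct.liftAddHom_tmul, AddMonoidHom.coe_mk,
        ZeroHom.coe_mk, smul_eq_mul, Derivation.leibniz, smul_add, TensorProduct.add_tmul]
      rw [mul_comm a (d' c)]
      abel
    | add x y hx hy => simp only [smul_add, map_add, hx, hy]; abel

@[simp] lemma baseChange_d {A : Type*} [CommRing A] [Algebra R A] (δ : SDer R M)
    (d' : Derivation ℤ A A) (h : ∀ r : R, d' (algebraMap R A r) = algebraMap R A (δ.d r)) :
    (δ.baseChange d' h).d = d' := rfl

@[simp] lemma baseChange_D {A : Type*} [CommRing A] [Algebra R A] (δ : SDer R M)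
    (d' : Derivation ℤ A A) (h : ∀ r : R, d' (algebraMap R A r) = algebraMap R A (δ.d r))
    (a : A) (m : M) :
    (δ.baseChange d' h).D (a ⊗ₜ[R] m) = d' a ⊗ₜ[R] m + a ⊗ₜ[R] δ.D m := rfl

/-- The zero semilinear derivation. -/
def zero : SDer R M where
  d := 0
  D := 0
  leib c m := by simp

@[simp] lemma zero_d : (zero : SDer R M).d = 0 := rfl
@[simp] lemma zero_D (m : M) : (zero : SDer R M).D m = 0 := rfl

/-- Derivation of a Lie algebra, semilinear. -/
def IsLie {L : Type*} [LieRing L] [LieAlgebra R L] (δ : SDer R L) : Prop :=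
  ∀ x y : L, δ.D ⁅x, y⁆ = ⁅δ.D x, y⁆ + ⁅x, δ.D y⁆

/-- The semilinear derivation `D ⊗ id` of `E ⊗ L` given by a derivation `D` of `E` over `k`. -/
noncomputable def const {k E L : Type*} [CommRing k] [CommRing E] [Algebra k E] [AddCommGroup L]
    [Module k L] (D : Derivation k E E) : SDer E (E ⊗[k] L) :=
  (zero : SDer k L).baseChange (D.restrictScalars ℤ) (fun r => by simp)

@[simp] lemma const_tmul {k E L : Type*} [CommRing k] [CommRing E] [Algebra k E]
    [AddCommGroup L] [Module k L] (D : Derivation k E E) (a : E) (m : L) :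
    (const D : SDer E (E ⊗[k] L)).D (a ⊗ₜ[k] m) = D a ⊗ₜ[k] m := by
  simp [const]

@[simp] lemma const_d {k E L : Type*} [CommRing k] [CommRing E] [Algebra k E]
    [AddCommGroup L] [Module k L] (D : Derivation k E E) (a : E) :
    (const D : SDer E (E ⊗[k] L)).d a = D a := rfl

end SDer

/-! ## Theta form -/

/-- The theta form of `δ` and `X` in the basis `e`. -/
noncomputable def theta {R M : Type*} [CommRing R] [AddCommGroup M] [Module R M] {n : ℕ}
    (δ : SDer R M) (e : Basis (Fin n) R M) (X : Module.End R M) : R :=
  ∑ i, e.coord i (X (δ.D (e i)))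

/-- `X` is upper triangular in the basis `e`: `X (e i)` lies in the span of the `e j`, `j ≤ i`. -/
def UT {R M : Type*} [CommRing R] [AddCommGroup M] [Module R M] {n : ℕ}
    (e : Basis (Fin n) R M) (X : Module.End R M) : Prop :=
  ∀ i j, i < j → e.coord j (X (e i)) = 0

/-- `X` is strictly upper triangular in the basis `e`. -/
def SUT {R M : Type*} [CommRing R] [AddCommGroup M] [Module R M] {n : ℕ}
    (e : Basis (Fin n) R M) (X : Module.End R M) : Prop :=
  ∀ i j, i ≤ j → e.coord j (X (e i)) = 0

/-! ## Rational gradings of a Lie algebra -/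

section grading

variable (E : Type*) [Field E] [CharZero E] {g : Type*} [LieRing g] [LieAlgebra E g]

/-- The eigenspace of `ad h` for the rational number `q`. -/
def gr (h : g) (q : ℚ) : Submodule E g :=
  Module.End.eigenspace (LieAlgebra.ad E g h : Module.End E g) (q : E)

/-- The sum of the eigenspaces of `ad h` with rational eigenvalue at least `0`. -/
def bor (h : g) : Submodule E g := ⨆ (q : ℚ) (_ : 0 ≤ q), gr E h q

/-- The sum of the eigenspaces of `ad h` with positive rational eigenvalue. -/
def nil (h : g) : Submodule E g := ⨆ (q : ℚ) (_ : 0 < q), gr E h q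

/-- Rational regular elements: `ad h` is diagonalisable with rational eigenvalues and the
centraliser of `h` is abelian. -/
structure RR (h : g) : Prop where
  top : (⨆ q : ℚ, gr E h q) = ⊤
  comm : ∀ x y : g, ⁅h, x⁆ = 0 → ⁅h, y⁆ = 0 → ⁅x, y⁆ = 0

/-- The derivation `δ` moves `bor h` inside the subspace `r`. -/
def Tame {E : Type*} [Field E] [CharZero E] {g : Type*} [LieRing g] [LieAlgebra E g]
    (δ : SDer E g) (r : Submodule E g) (h : g) : Prop :=
  ∃ u ∈ r, ∀ x ∈ bor E h, δ.D x - ⁅u, x⁆ ∈ bor E h

/-- The hyperplane `{x ∈ nil h | κ(x, f) = 0}` of `nil h`. -/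
noncomputable def nilP (h f : g) : Submodule E g :=
  nil E h ⊓ LinearMap.ker ((killingForm E g).flip f)

/-- Simple root data for the rational regular element `h`: `(τ, e, f)` is an `sl2` triple, `e`
spans a root space of positive degree, `f` the opposite one, and the root is simple in the sense
that `nilP` is stable under `ad e` and `ad f`. -/
structure Simp (h e τ f : g) : Prop where
  ne : e ≠ 0
  /-- `τ` commutes with `h` -/
  hτ : ⁅h, τ⁆ = 0
  ef : ⁅e, f⁆ = τ
  τe : ⁅τ, e⁆ = (2 : E) • e
  τf : ⁅τ, f⁆ = -((2 : E) • f)
  /-- `e` and `f` are root vectors for opposite roots of positive, negative degree. -/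
  root : ∃ q : ℚ, 0 < q ∧ ⁅h, e⁆ = (q : E) • e ∧ ⁅h, f⁆ = -((q : E) • f)
  /-- there is a linear functional `α` such that the centraliser of `h` acts on `e` by `α`, on `f`
  by `-α`, and the two weight spaces are lines -/
  wt : ∃ α : Module.Dual E g,
    (∀ c : g, ⁅h, c⁆ = 0 → ⁅c, e⁆ = α c • e ∧ ⁅c, f⁆ = -(α c • f)) ∧
    (∀ x : g, (∀ c : g, ⁅h, c⁆ = 0 → ⁅c, x⁆ = α c • x) → ∃ a : E, x = a • e) ∧
    (∀ x : g, (∀ c : g, ⁅h, c⁆ = 0 → ⁅c, x⁆ = -(α c • x)) → ∃ a : E, x = a • f)
  /-- stability of `nilP` under `ad e` and `ad f` -/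
  stabE : ∀ x ∈ nilP E h f, ⁅e, x⁆ ∈ nilP E h f
  stabF : ∀ x ∈ nilP E h f, ⁅f, x⁆ ∈ nilP E h f

end grading

end F80
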