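import Pool.Agent.H45.F80.DZ
import Pool.Agent.H45.F80.DB
import Pool.Agent.H45.F80.DR
import Pool.Agent.H45.F80.CA4
import Pool.Agent.H88.F80.Cnt
import Pool.Agent.H42.C80.FIN
/-! Assembly. -/
open Module TensorProduct
universe u
namespace F80

/-- The subalgebra `s` of the Killing algebra `L` has a Borel complement sum. -/
def Good (k : Type u) [Field k] [CharZero k] (L : Type u) [LieRing L] [LieAlgebra k L]
    (s : LieSubalgebra k L) : Prop :=
  ∃ w : L, RR k w ∧ s.toSubmodule ⊔ bor k w = ⊤

/-- Output of part B'. -/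
theorem bound_of_good {k : Type u} [Field k] [CharZero k] [IsAlgClosed k] {L : Type u}
    [LieRing L] [LieAlgebra k L] [FiniteDimensional k L] [LieAlgebra.IsKilling k L]
    (h r : LieSubalgebra k L) (hhr : h.toSubmodule ⊔ r.toSubmodule = ⊤)
    (hh : Good k L h) (hr : Good k L r)
    {E : Type u} [Field E] [Algebra k E] (a b : E ⊗[k] L)
    (ha : ∀ x ∈ r, killingForm E (E ⊗[k] L) a (1 ⊗ₜ[k] x) = 0)
    (hb : ∀ x ∈ h, killingForm E (E ⊗[k] L) b (1 ⊗ₜ[k] x) = 0)
    (hnil : ∀ c : k, c ≠ 0 → IsNilpotent (LieAlgebra.ad E (E ⊗[k] L)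
      (a + algebraMap k E c • b) : Module.End E (E ⊗[k] L)))
    {κ : Type*} [Fintype κ] (l : Basis κ k L) {m : ℕ} (z : Fin m → E)
    (hz : AlgebraicIndependent k z)
    (hy : ∀ j, IsAlgebraic (IntermediateField.adjoin k
      (Set.range fun i => killingForm E (E ⊗[k] L) (a + b) (1 ⊗ₜ[k] l i))) (z j)) :
    2 * m + finrank E (LinearMap.ker
      (LieAlgebra.ad E (E ⊗[k] L) (a + b) : Module.End E (E ⊗[k] L))) ≤ finrank k L := by
  obtain ⟨wh, hwh, hwh'⟩ := hh
  obtain ⟨wr, hwr, hwr'⟩ := hr
  have : CharZero E := charZero_of_injective_algebraMap (algebraMap k E).injective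
  refine zero_bound h r hhr hwh hwr hwh' hwr' a b ha hb ?_ l z hz ?_
  · have h1 : (Set.range fun c : ℕ => algebraMap k E ((c : k) + 1)).Infinite := by
      apply Set.infinite_range_of_injective
      intro x y hxy
      have h2 := (algebraMap k E).injective hxy
      have h3 : x + 1 = y + 1 := by exact_mod_cast h2
      omega
    refine h1.mono ?_
    rintro _ ⟨c, rfl⟩
    exact hnil _ (by exact_mod_cast Nat.succ_ne_zero c)
  · intro j
    set F1 := IntermediateField.adjoin k
      (Set.range fun i => (l.baseChange E).repr (a + b) i) with hF1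
    have hle : IntermediateField.adjoin k
        (Set.range fun i => killingForm E (E ⊗[k] L) (a + b) (1 ⊗ₜ[k] l i)) ≤ F1 := by
      rw [IntermediateField.adjoin_le_iff]
      rintro _ ⟨i, rfl⟩
      have h2 : a + b = ∑ j, (l.baseChange E).repr (a + b) j • ((1 : E) ⊗ₜ[k] l j) := by
        conv_lhs => rw [← (l.baseChange E).sum_repr (a + b)]
        simp only [Basis.baseChange_apply]
      change killingForm E (E ⊗[k] L) (a + b) (1 ⊗ₜ[k] l i) ∈ F1
      rw [h2, map_sum, LinearMap.sum_apply]
      refine F1.sum_mem fun j _ => ?_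
      rw [map_smul, LinearMap.smul_apply, killingForm_baseChange, one_mul, one_mul]
      exact F1.mul_mem (IntermediateField.subset_adjoin k _ ⟨j, rfl⟩) (F1.algebraMap_mem _)
    obtain ⟨p, hp, hpz⟩ := hy j
    refine ⟨p.map (IntermediateField.inclusion hle : _ →+* F1), ?_, ?_⟩
    · exact (Polynomial.map_ne_zero_iff (IntermediateField.inclusion hle).injective).mpr hp
    · rw [← hpz, Polynomial.aeval_def, Polynomial.aeval_def, Polynomial.eval₂_map]
      rfl

/-- Output of part C. -/
theorem good_of_idx {k : Type u} [Field k] [CharZero k] [IsAlgClosed k] {g : Type u}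
    [LieRing g] [LieAlgebra k g] [FiniteDimensional k g] (I : LieIdeal k g)
    (hI : IsCompl (LieAlgebra.center k g) I) [LieAlgebra.IsKilling k I]
    {h r : LieSubalgebra k g} (hc : IsCompl h.toSubmodule r.toSubmodule)
    (hidx : idx (contr h.toSubmodule r.toSubmodule hc) = LieAlgebra.rank k g) :
    Good k I (h.map (prI I hI)) :=
  good_of_idx' I hI hc hidx

/-- Homogeneous elements of positive degree of the algebra generated by homogeneous `f` of
positive degree lie in any ideal containing the `f i`. -/
theorem mem_of_mem_adjoin {k : Type u} [Field k] {ι : Type*} {m : ℕ}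
    (f : Fin m → MvPolynomial ι k) (hf : ∀ i, MvPolynomial.constantCoeff (f i) = 0)
    (P : Ideal (MvPolynomial ι k)) (hP : ∀ i, f i ∈ P) {F : MvPolynomial ι k}
    (hF : F ∈ Algebra.adjoin k (Set.range f)) (h0 : MvPolynomial.constantCoeff F = 0) :
    F ∈ P := by
  have key : ∀ F ∈ Algebra.adjoin k (Set.range f),
      F - MvPolynomial.C (MvPolynomial.constantCoeff F) ∈ P := by
    intro F hF
    induction hF using Algebra.adjoin_induction with
    | mem x hx =>
      obtain ⟨i, rfl⟩ := hx
      rw [hf i]; simpa using hP i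
    | algebraMap c => simp [MvPolynomial.algebraMap_eq]
    | add x y _ _ hx hy =>
      have : x + y - MvPolynomial.C (MvPolynomial.constantCoeff (x + y)) =
        (x - MvPolynomial.C (MvPolynomial.constantCoeff x)) +
        (y - MvPolynomial.C (MvPolynomial.constantCoeff y)) := by
        simp only [map_add]; ring
      rw [this]; exact P.add_mem hx hy
    | mul x y _ _ hx hy =>
      have : x * y - MvPolynomial.C (MvPolynomial.constantCoeff (x * y)) =
        (x - MvPolynomial.C (MvPolynomial.constantCoeff x)) * y +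
        MvPolynomial.C (MvPolynomial.constantCoeff x) *
          (y - MvPolynomial.C (MvPolynomial.constantCoeff y)) := by
        simp only [map_mul]; ring
      rw [this]; exact P.add_mem (P.mul_mem_right _ hx) (P.mul_mem_left _ hy)
  have := key F hF
  rw [h0] at this
  simpa using this

theorem main {k : Type u} [Field k] [CharZero k] [IsAlgClosed k] {g : Type u}
    [LieRing g] [LieAlgebra k g] [FiniteDimensional k g] (hg : IsRed k g)
    (h r : LieSubalgebra k g) (hc : IsCompl h.toSubmodule r.toSubmodule)
    (hnd : Nondeg k g h.toSubmodule r.toSubmodule hc)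
    {N : ℕ} (bs : Basis (Fin N) k g) {m : ℕ} (f : Fin m → MvPolynomial (Fin N) k)
    (d : Fin m → ℕ) (hhom : ∀ i, (f i).IsHomogeneous (d i)) (hind : AlgebraicIndependent k f)
    (hgen : Algebra.adjoin k (Set.range f) = Zalg bs hc) :
    RingTheory.Sequence.IsRegular (MvPolynomial (Fin N) k) (List.ofFn f) ∧
      ((MvPolynomial.aeval f : MvPolynomial (Fin m) k →ₐ[k] MvPolynomial (Fin N) k) :
        MvPolynomial (Fin m) k →+* MvPolynomial (Fin N) k).Flat := by
  obtain ⟨I, hI, hK⟩ := id hg
  have hidx := idx_le_rank hg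
  -- positive degrees
  have hd : ∀ i, 0 < d i := by
    intro i
    rcases Nat.eq_zero_or_pos (d i) with h0 | h0
    · exfalso
      have h1 := hhom i
      rw [h0] at h1
      have h2 : f i = MvPolynomial.C (MvPolynomial.coeff 0 (f i)) :=
        MvPolynomial.totalDegree_eq_zero_iff_eq_C.mp
          (Nat.le_zero.mp h1.totalDegree_le)
      have h3 := hind.transcendental i
      rw [h2] at h3
      exact h3 (by
        have := isAlgebraic_algebraMap (R := k) (A := MvPolynomial (Fin N) k)
          (MvPolynomial.coeff 0 (f i))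
        rwa [MvPolynomial.algebraMap_eq] at this)
    · exact h0
  have hf0 : ∀ i, MvPolynomial.constantCoeff (f i) = 0 := by
    intro i
    rw [MvPolynomial.constantCoeff_eq]
    exact (hhom i).coeff_eq_zero (by simpa using (hd i).ne)
  have hfZ : ∀ i, f i ∈ Zalg bs hc := fun i => hgen ▸ Algebra.subset_adjoin ⟨i, rfl⟩
  have hm := two_mul_le hc bs f hind hfZ hidx
  have hrk := rank_reductive I hI
  have hdim : finrank k (LieAlgebra.center k g) + finrank k I = finrank k g := by
    have h1 : IsCompl ((LieAlgebra.center k g : LieIdeal k g) : Submodule k g)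
        ((I : LieIdeal k g) : Submodule k g) := by
      rw [isCompl_iff, disjoint_iff, codisjoint_iff] at hI ⊢
      constructor
      · have := congrArg LieSubmodule.toSubmodule hI.1
        simpa using this
      · have := congrArg LieSubmodule.toSubmodule hI.2
        simpa using this
    exact Submodule.finrank_add_eq_of_isCompl h1
  have hcard : Fintype.card (Fin N) = finrank k g := (finrank_eq_card_basis bs).symm
  have hgh : Good k I (h.map (prI I hI)) := good_of_idx I hI hc hnd.1
  have hgr : Good k I (r.map (prI I hI)) := good_of_idx I hI hc.symm hnd.2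
  refine regular_and_flat f d hd hhom ?_
  intro P hP hfP m' T hT
  have := hP
  set E := FractionRing (MvPolynomial (Fin N) k ⧸ P) with hE
  let ρ : MvPolynomial (Fin N) k →ₐ[k] E :=
    (IsScalarTower.toAlgHom k (MvPolynomial (Fin N) k ⧸ P) E).comp (Ideal.Quotient.mkₐ k P)
  obtain ⟨a, b, ha, hb, hab, hn⟩ := zero_fibre I hI hc bs ρ (by
    intro Q e t he ht hQ hQt
    have h1 : Q ∈ Zalg bs hc :=
      Algebra.subset_adjoin ⟨some t, mem_Preg hc hg hidx hnd ht, hQt⟩
    rw [← hgen] at h1
    have h2 : Q ∈ P := mem_of_mem_adjoin f hf0 P hfP h1 (by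
      rw [MvPolynomial.constantCoeff_eq]
      exact hQ.coeff_eq_zero (by simpa using he.ne))
    have h3 : (Ideal.Quotient.mkₐ k P) Q = 0 := Ideal.Quotient.eq_zero_iff_mem.mpr h2
    simp only [ρ, AlgHom.comp_apply, h3, map_zero])
  let l := Module.finBasis k I
  have hsup : (h.map (prI I hI)).toSubmodule ⊔ (r.map (prI I hI)).toSubmodule = ⊤ := by
    rw [eq_top_iff]
    intro x _
    have hx : (x : g) ∈ h.toSubmodule ⊔ r.toSubmodule := by rw [hc.sup_eq_top]; trivial
    obtain ⟨u, hu, v, hv, huv⟩ := Submodule.mem_sup.mp hx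
    refine Submodule.mem_sup.mpr ⟨prI I hI u, ⟨u, hu, rfl⟩, prI I hI v, ⟨v, hv, rfl⟩, ?_⟩
    rw [← map_add, huv, prI_coe]
  have hbound := bound_of_good (h.map (prI I hI)) (r.map (prI I hI)) hsup hgh hgr a b
    (by rintro _ ⟨x, hx, rfl⟩; exact ha x hx) (by rintro _ ⟨x, hx, rfl⟩; exact hb x hx) hn
    l (fun j => algebraMap _ E (T j))
    (by
      exact hT.map' (f := IsScalarTower.toAlgHom k (MvPolynomial (Fin N) k ⧸ P) E)
        (IsFractionRing.injective (MvPolynomial (Fin N) k ⧸ P) E))
    (by
      intro j
      -- every element of `E` lies in the field generated by the coordinates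
      set F0 := IntermediateField.adjoin k
        (Set.range fun i => killingForm E (E ⊗[k] I) (a + b) (1 ⊗ₜ[k] l i)) with hF0
      have hlin : ∀ x : g, ρ (lin bs x) ∈ F0 := by
        intro x
        rw [hab x]
        have : (1 : E) ⊗ₜ[k] prI I hI x = ∑ i, l.repr (prI I hI x) i • ((1 : E) ⊗ₜ[k] l i) := by
          conv_lhs => rw [← l.sum_repr (prI I hI x)]
          rw [TensorProduct.tmul_sum]
          simp only [TensorProduct.tmul_smul]
        rw [this, map_sum]
        refine Subalgebra.sum_mem F0.toSubalgebra fun i _ => ?_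
        rw [LinearMap.map_smul_of_tower]
        exact Subalgebra.smul_mem F0.toSubalgebra
          (IntermediateField.subset_adjoin k _ ⟨i, rfl⟩) _
      have hX : ∀ i, ρ (MvPolynomial.X i) ∈ F0 := by
        intro i
        have : lin bs (bs i) = MvPolynomial.X i := by
          classical
          rw [lin, Finset.sum_eq_single i]
          · simp
          · intro j _ hj
            simp [hj.symm]
          · intro h; exact absurd (Finset.mem_univ i) h
        rw [← this]; exact hlin _
      have hall : ∀ Q, ρ Q ∈ F0 := by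
        intro Q
        induction Q using MvPolynomial.induction_on with
        | C c => rw [← MvPolynomial.algebraMap_eq, AlgHom.commutes]; exact F0.algebraMap_mem c
        | add p q hp hq => rw [map_add]; exact F0.add_mem hp hq
        | mul_X p i hp => rw [map_mul]; exact F0.mul_mem hp (hX i)
      obtain ⟨Q, hQ⟩ := Ideal.Quotient.mk_surjective (T j)
      have : algebraMap (MvPolynomial (Fin N) k ⧸ P) E (T j) = ρ Q := by rw [← hQ]; rfl
      rw [this]
      exact isAlgebraic_algebraMap (⟨ρ Q, hall Q⟩ : F0))
  have hker := rank_le_finrank_ker_ad (a + b)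
  omega

/-- Flatness of the polynomial ring over the subalgebra generated by the `f i`. -/
theorem flat_of_aeval {k : Type u} [Field k] {N m : ℕ} (f : Fin m → MvPolynomial (Fin N) k)
    (hind : AlgebraicIndependent k f)
    (hfl : ((MvPolynomial.aeval f : MvPolynomial (Fin m) k →ₐ[k] MvPolynomial (Fin N) k) :
        MvPolynomial (Fin m) k →+* MvPolynomial (Fin N) k).Flat)
    (Z : Subalgebra k (MvPolynomial (Fin N) k)) (hZ : Algebra.adjoin k (Set.range f) = Z) :
    Module.Flat Z (MvPolynomial (Fin N) k) := by
  subst hZ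
  have h1 : (hind.aevalEquiv.symm : Algebra.adjoin k (Set.range f) →+* MvPolynomial (Fin m) k).Flat :=
    RingHom.Flat.of_bijective hind.aevalEquiv.symm.bijective
  have h2 := RingHom.Flat.comp h1 hfl
  have h3 : (((MvPolynomial.aeval f : MvPolynomial (Fin m) k →ₐ[k] MvPolynomial (Fin N) k) :
        MvPolynomial (Fin m) k →+* MvPolynomial (Fin N) k).comp
        (hind.aevalEquiv.symm : Algebra.adjoin k (Set.range f) →+* MvPolynomial (Fin m) k)) =
      algebraMap (Algebra.adjoin k (Set.range f)) (MvPolynomial (Fin N) k) := by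
    ext1 x
    have := hind.algebraMap_aevalEquiv (hind.aevalEquiv.symm x)
    rw [AlgEquiv.apply_symm_apply] at this
    rw [this]; rfl
  rw [h3] at h2
  exact RingHom.flat_algebraMap_iff.mp h2

end F80
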