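import Pool.Agent.H45.F80.Defs
/-!
# MP_80e906_al, the objects of the problem: contractions, pencil, Poisson centres
-/
open Module
universe u
namespace F80

section defs
variable {k : Type u} [Field k] {g : Type u} [LieRing g] [LieAlgebra k g]

/-- The Lie bracket as a bilinear map. -/
noncomputable def brk (k : Type u) [Field k] (g : Type u) [LieRing g] [LieAlgebra k g] :
    g →ₗ[k] g →ₗ[k] g :=
  LinearMap.mk₂ k (fun x y => ⁅x, y⁆) (by simp) (by simp) (by simp) (by simp)

@[simp] theorem brk_apply (x y : g) : brk k g x y = ⁅x, y⁆ := rfl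

/-- The index of a bilinear bracket `B`: the least dimension of the kernel of the form
`(x, y) ↦ ξ (B x y)` over all linear forms `ξ`. -/
noncomputable def idx (B : g →ₗ[k] g →ₗ[k] g) : ℕ :=
  ⨅ ξ : Module.Dual k g, finrank k (LinearMap.ker (B.compr₂ ξ))

/-- The bracket of the contraction `h ⋉ r^ab` of `g = h ⊕ r`: it is the bracket of `g` on `h`, the
action of `h` on `g / h ≃ r` on pairs in `h × r`, and zero on `r`. -/
noncomputable def contr (h r : Submodule k g) (hc : IsCompl h r) : g →ₗ[k] g →ₗ[k] g :=
  LinearMap.mk₂ k
    (fun x y => ⁅h.projection r hc x, h.projection r hc y⁆ +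
      r.projection h hc.symm (⁅h.projection r hc x, r.projection h hc.symm y⁆ -
        ⁅h.projection r hc y, r.projection h hc.symm x⁆))
    (fun x x' y => by simp only [map_add, add_lie, lie_add, map_sub]; abel)
    (fun c x y => by simp only [map_smul, smul_lie, lie_smul, map_sub, smul_add, smul_sub])
    (fun x y y' => by simp only [map_add, add_lie, lie_add, map_sub]; abel)
    (fun c x y => by simp only [map_smul, smul_lie, lie_smul, map_sub, smul_add, smul_sub])

/-- The pencil of brackets: `{,}_t = {,}_0 + t {,}_∞`, and `none` stands for `∞`. -/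
noncomputable def pen {h r : Submodule k g} (hc : IsCompl h r) : Option k → (g →ₗ[k] g →ₗ[k] g)
  | none => contr r h hc.symm
  | some t => contr h r hc + t • contr r h hc.symm

/-- The parameters of minimal index. -/
def Preg {h r : Submodule k g} (hc : IsCompl h r) : Set (Option k) :=
  {t | ∀ s, idx (pen hc t) ≤ idx (pen hc s)}

variable {ι : Type*} [Fintype ι]

/-- The linear polynomial attached to an element of `g`. -/
noncomputable def lin (bs : Basis ι k g) (x : g) : MvPolynomial ι k :=
  ∑ i, MvPolynomial.C (bs.repr x i) * MvPolynomial.X i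

/-- The bracket on the symmetric algebra of `g`, identified with the polynomial ring on a basis,
which extends the bilinear bracket `B` of `g` as a biderivation. -/
noncomputable def pb (bs : Basis ι k g) (B : g →ₗ[k] g →ₗ[k] g) (F G : MvPolynomial ι k) :
    MvPolynomial ι k :=
  ∑ i, ∑ j, lin bs (B (bs i) (bs j)) * MvPolynomial.pderiv i F * MvPolynomial.pderiv j G

/-- The Poisson centre. -/
def pcenter (bs : Basis ι k g) (B : g →ₗ[k] g →ₗ[k] g) : Set (MvPolynomial ι k) :=
  {F | ∀ G, pb bs B F G = 0}

/-- The subalgebra generated by the Poisson centres of the brackets of minimal index. -/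
noncomputable def Zalg (bs : Basis ι k g) {h r : Submodule k g} (hc : IsCompl h r) :
    Subalgebra k (MvPolynomial ι k) :=
  Algebra.adjoin k {F | ∃ t ∈ Preg hc, F ∈ pcenter bs (pen hc t)}

end defs

/-- A reductive Lie algebra: the direct sum of its centre and of an ideal with nondegenerate
Killing form. -/
def IsRed (k : Type u) [Field k] (g : Type u) [LieRing g] [LieAlgebra k g] : Prop :=
  ∃ I : LieIdeal k g, IsCompl (LieAlgebra.center k g) I ∧ LieAlgebra.IsKilling k I

/-- The splitting `g = h ⊕ r` is nondegenerate. -/
def Nondeg (k : Type u) [Field k] (g : Type u) [LieRing g] [LieAlgebra k g]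
    [Module.Finite k g] (h r : Submodule k g) (hc : IsCompl h r) : Prop :=
  idx (contr h r hc) = LieAlgebra.rank k g ∧ idx (contr r h hc.symm) = LieAlgebra.rank k g

end F80
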